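import Mathlib

/-! Tools for infinite product measures. -/

set_option autoImplicit false

open MeasureTheory ProbabilityTheory Measure
open scoped ENNReal NNReal

namespace Pool.Agent.Lib.MP_0cd4b8_pr

section general
variable {ι : Type*} {X : ι → Type*} [∀ i, MeasurableSpace (X i)]
  (m : ∀ i, Measure (X i)) [∀ i, IsProbabilityMeasure (m i)]

lemma measurable_piecewise2 (p : Set ι) [DecidablePred (· ∈ p)] :
    Measurable (fun z : (∀ i, X i) × (∀ i, X i) => p.piecewise z.1 z.2) := by
  refine measurable_pi_iff.2 fun i => ?_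
  by_cases h : i ∈ p
  · simp only [Set.piecewise, h, if_true]; fun_prop
  · simp only [Set.piecewise, h, if_false]; fun_prop

lemma map_piecewise (p : Set ι) [DecidablePred (· ∈ p)] :
    ((infinitePi m).prod (infinitePi m)).map (fun z => p.piecewise z.1 z.2) = infinitePi m := by
  classical
  refine eq_infinitePi _ fun s t ht => ?_
  rw [map_apply (measurable_piecewise2 p) (.pi s.countable_toSet fun _ _ => ht _)]
  have : (fun z : (∀ i, X i) × (∀ i, X i) => p.piecewise z.1 z.2) ⁻¹' ((s : Set ι).pi t) =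
      (((s.filter (· ∈ p) : Finset ι) : Set ι).pi t) ×ˢ
        (((s.filter (· ∉ p) : Finset ι) : Set ι).pi t) := by
    ext z
    simp only [Set.mem_preimage, Set.mem_pi, Finset.mem_coe, Set.mem_prod, Finset.mem_filter]
    constructor
    · intro h
      refine ⟨fun i hi => ?_, fun i hi => ?_⟩
      · have := h i hi.1
        rwa [Set.piecewise_eq_of_mem _ _ _ hi.2] at this
      · have := h i hi.1
        rwa [Set.piecewise_eq_of_notMem _ _ _ hi.2] at this
    · rintro ⟨h1, h2⟩ i hi
      by_cases hp : i ∈ p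
      · rw [Set.piecewise_eq_of_mem _ _ _ hp]; exact h1 i ⟨hi, hp⟩
      · rw [Set.piecewise_eq_of_notMem _ _ _ hp]; exact h2 i ⟨hi, hp⟩
  rw [this, prod_prod, infinitePi_pi _ (fun i _ => ht i), infinitePi_pi _ (fun i _ => ht i),
    Finset.prod_filter_mul_prod_filter_not]

lemma lintegral_piecewise (p : Set ι) [DecidablePred (· ∈ p)] {F : (∀ i, X i) → ℝ≥0∞}
    (hF : Measurable F) :
    ∫⁻ x, F x ∂(infinitePi m) =
      ∫⁻ x, ∫⁻ y, F (p.piecewise x y) ∂(infinitePi m) ∂(infinitePi m) := by
  conv_lhs => rw [← map_piecewise m p]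
  rw [lintegral_map hF (measurable_piecewise2 p), lintegral_prod]
  exact (hF.comp (measurable_piecewise2 p)).aemeasurable

/-- Independence of functions of complementary sets of coordinates. -/
lemma lintegral_split (p : Set ι) {α β : Type*} [MeasurableSpace α] [MeasurableSpace β]
    {a : (∀ i, X i) → α} {b : (∀ i, X i) → β} (ha : Measurable a) (hb : Measurable b)
    (hap : ∀ x y, (∀ i ∈ p, x i = y i) → a x = a y)
    (hbp : ∀ x y, (∀ i ∉ p, x i = y i) → b x = b y)
    {G : α → β → ℝ≥0∞} (hG : Measurable (Function.uncurry G)) :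
    ∫⁻ x, G (a x) (b x) ∂(infinitePi m) =
      ∫⁻ x, ∫⁻ y, G (a x) (b y) ∂(infinitePi m) ∂(infinitePi m) := by
  classical
  have hm : Measurable fun x => G (a x) (b x) := hG.comp (ha.prodMk hb)
  rw [lintegral_piecewise m p hm]
  refine lintegral_congr fun x => lintegral_congr fun y => ?_
  rw [hap (p.piecewise x y) x fun i hi => Set.piecewise_eq_of_mem _ _ _ hi,
    hbp (p.piecewise x y) y fun i hi => Set.piecewise_eq_of_notMem _ _ _ hi]

lemma lintegral_mul_split (p : Set ι) {f g : (∀ i, X i) → ℝ≥0∞} (hf : Measurable f)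
    (hg : Measurable g) (hfp : ∀ x y, (∀ i ∈ p, x i = y i) → f x = f y)
    (hgp : ∀ x y, (∀ i ∉ p, x i = y i) → g x = g y) :
    ∫⁻ x, f x * g x ∂(infinitePi m) =
      (∫⁻ x, f x ∂(infinitePi m)) * ∫⁻ x, g x ∂(infinitePi m) := by
  rw [lintegral_split m p hf hg hfp hgp (G := fun a b => a * b) (by
    change Measurable fun z : ℝ≥0∞ × ℝ≥0∞ => z.1 * z.2
    fun_prop)]
  simp_rw [lintegral_const_mul _ hg]
  rw [lintegral_mul_const _ hf]

lemma lintegral_eval (i : ι) {f : X i → ℝ≥0∞} (hf : Measurable f) :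
    ∫⁻ x, f (x i) ∂(infinitePi m) = ∫⁻ t, f t ∂(m i) := by
  rw [← infinitePi_map_eval m i, lintegral_map hf (measurable_pi_apply i)]

/-- A function of the coordinate `i` times a function not depending on it. -/
lemma lintegral_eval_mul (i : ι) {f : X i → ℝ≥0∞} {g : (∀ i, X i) → ℝ≥0∞} (hf : Measurable f)
    (hg : Measurable g) (hgp : ∀ x y, (∀ j, j ≠ i → x j = y j) → g x = g y) :
    ∫⁻ x, f (x i) * g x ∂(infinitePi m) =
      (∫⁻ t, f t ∂(m i)) * ∫⁻ x, g x ∂(infinitePi m) := by
  rw [lintegral_mul_split m {i} (f := fun x => f (x i)) (hf.comp (measurable_pi_apply i)) hg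
    (fun x y h => by rw [h i rfl]) (fun x y h => hgp x y fun j hj => h j hj), lintegral_eval m i hf]

lemma lintegral_finset_prod_eval (J : Finset ι) {f : ∀ i, X i → ℝ≥0∞}
    (hf : ∀ i, Measurable (f i)) :
    ∫⁻ x, ∏ j ∈ J, f j (x j) ∂(infinitePi m) = ∏ j ∈ J, ∫⁻ t, f j t ∂(m j) := by
  classical
  induction J using Finset.induction_on with
  | empty => simp
  | insert a s ha ih =>
    simp_rw [Finset.prod_insert ha]
    rw [lintegral_eval_mul m a (hf a), ih]
    · exact Finset.measurable_prod _ fun j _ => (hf j).comp (measurable_pi_apply j)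
    · intro x y h
      refine Finset.prod_congr rfl fun j hj => ?_
      rw [h j (fun e => ha (e ▸ hj))]

lemma lintegral_update [DecidableEq ι] (i : ι) {F : (∀ i, X i) → ℝ≥0∞} (hF : Measurable F) :
    ∫⁻ x, F x ∂(infinitePi m) =
      ∫⁻ x, ∫⁻ t, F (Function.update x i t) ∂(m i) ∂(infinitePi m) := by
  classical
  rw [lintegral_piecewise m {i}ᶜ hF]
  refine lintegral_congr fun x => ?_
  rw [← lintegral_eval m i (f := fun t => F (Function.update x i t))
    (hF.comp (measurable_update x))]
  refine lintegral_congr fun y => ?_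
  congr 1
  funext j
  by_cases h : j = i
  · subst h; simp
  · simp [h]

/-- Exchanging a coordinate with an independent copy. -/
lemma lintegral_swap [DecidableEq ι] (i : ι) {F : X i → (∀ i, X i) → ℝ≥0∞}
    (hF : Measurable (Function.uncurry F)) :
    ∫⁻ x, ∫⁻ t, F (x i) (Function.update x i t) ∂(m i) ∂(infinitePi m) =
      ∫⁻ t, ∫⁻ x, F t x ∂(infinitePi m) ∂(m i) := by
  classical
  have hu : Measurable fun z : (∀ i, X i) × X i => Function.update z.1 i z.2 :=
    measurable_update'
  have h1 : Measurable (Function.uncurry fun (s : X i) (x : ∀ i, X i) =>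
      ∫⁻ t, F s (Function.update x i t) ∂(m i)) := by
    change Measurable fun z : X i × (∀ i, X i) => ∫⁻ t, F z.1 (Function.update z.2 i t) ∂(m i)
    refine Measurable.lintegral_prod_right (f := fun (z : X i × (∀ i, X i)) (t : X i) =>
      F z.1 (Function.update z.2 i t)) ?_
    exact hF.comp ((measurable_fst.comp measurable_fst).prodMk
      (hu.comp ((measurable_snd.comp measurable_fst).prodMk measurable_snd)))
  have h3 : ∫⁻ x, ∫⁻ t, F (x i) (Function.update x i t) ∂(m i) ∂(infinitePi m) =
      ∫⁻ x, ∫⁻ y, ∫⁻ t, F (x i) (Function.update y i t) ∂(m i) ∂(infinitePi m)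
        ∂(infinitePi m) := by
    rw [lintegral_piecewise m {i} (F := fun x => ∫⁻ t, F (x i) (Function.update x i t) ∂(m i))
      (h1.comp ((measurable_pi_apply i).prodMk measurable_id))]
    refine lintegral_congr fun x => lintegral_congr fun y => lintegral_congr fun t => ?_
    congr 1
    · simp
    · funext j
      by_cases h : j = i
      · subst h; simp
      · simp [h]
  rw [h3]
  have h4 : ∀ s : X i, ∫⁻ y, ∫⁻ t, F s (Function.update y i t) ∂(m i) ∂(infinitePi m) =
      ∫⁻ y, F s y ∂(infinitePi m) := fun s =>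
    (lintegral_update m i (F := F s) (hF.comp (measurable_const.prodMk measurable_id))).symm
  simp_rw [h4]
  exact lintegral_eval m i (f := fun s => ∫⁻ y, F s y ∂(infinitePi m))
    (Measurable.lintegral_prod_right hF)

end general

section homogeneous
variable {ι κ E : Type*} [MeasurableSpace E] (m : Measure E) [IsProbabilityMeasure m]

lemma map_reindex {f : κ → ι} (hf : Function.Injective f) :
    (infinitePi fun _ : ι => m).map (fun x k => x (f k)) = infinitePi fun _ : κ => m :=
  map_infinitePi_infinitePi_of_inj (P := fun _ : ι => m) hf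

lemma lintegral_reindex {f : κ → ι} (hf : Function.Injective f) {F : (κ → E) → ℝ≥0∞}
    (hF : Measurable F) :
    ∫⁻ x, F (fun k => x (f k)) ∂(infinitePi fun _ : ι => m) =
      ∫⁻ x, F x ∂(infinitePi fun _ : κ => m) := by
  rw [← map_reindex m hf, lintegral_map hF (by fun_prop)]

end homogeneous

/-- The configuration seen from the vertex `v`. -/
def sh {E : Type*} (v : List ℕ) (ξ : List ℕ → E) : List ℕ → E := fun w => ξ (w ++ v)

@[simp] lemma sh_nil {E : Type*} (ξ : List ℕ → E) : sh [] ξ = ξ := by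
  funext w; simp [sh]

lemma sh_sh {E : Type*} (v w : List ℕ) (ξ : List ℕ → E) : sh w (sh v ξ) = sh (w ++ v) ξ := by
  funext z; simp [sh]

@[simp] lemma sh_apply_nil {E : Type*} (v : List ℕ) (ξ : List ℕ → E) : sh v ξ [] = ξ v := rfl

@[fun_prop]
lemma measurable_sh {E : Type*} [MeasurableSpace E] (v : List ℕ) :
    Measurable (sh (E := E) v) := by
  unfold sh; fun_prop

section tree
variable {E : Type*} [MeasurableSpace E] (m : Measure E) [IsProbabilityMeasure m]

lemma lintegral_sh (v : List ℕ) {F : (List ℕ → E) → ℝ≥0∞} (hF : Measurable F) :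
    ∫⁻ x, F (sh v x) ∂(infinitePi fun _ : List ℕ => m) =
      ∫⁻ x, F x ∂(infinitePi fun _ : List ℕ => m) :=
  lintegral_reindex m (f := fun w => w ++ v) (List.append_left_injective v) hF

lemma map_children :
    (infinitePi fun _ : List ℕ => m).map (fun x (i : ℕ) => sh [i] x) =
      infinitePi fun _ : ℕ => infinitePi fun _ : List ℕ => m := by
  have hinj : Function.Injective fun z : ℕ × List ℕ => z.2 ++ [z.1] := by
    rintro ⟨a, b⟩ ⟨c, d⟩ h
    simp only [List.append_singleton_inj] at h
    rw [h.1, h.2]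
  rw [← infinitePi_map_curry (fun (_ : ℕ) (_ : List ℕ) => m), ← map_reindex m hinj,
    map_map (by fun_prop) (by fun_prop)]
  rfl

/-- The branching property. -/
lemma lintegral_branch {F : E → (ℕ → List ℕ → E) → ℝ≥0∞}
    (hF : Measurable (Function.uncurry F)) :
    ∫⁻ x, F (x []) (fun i => sh [i] x) ∂(infinitePi fun _ : List ℕ => m) =
      ∫⁻ d, ∫⁻ ω, F d ω ∂(infinitePi fun _ : ℕ => infinitePi fun _ : List ℕ => m) ∂m := by
  have hb : Measurable fun (x : List ℕ → E) (i : ℕ) => sh [i] x := by fun_prop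
  rw [lintegral_split (fun _ : List ℕ => m) {[]} (a := fun x => x [])
    (b := fun x (i : ℕ) => sh [i] x) (measurable_pi_apply _) hb (fun x y h => h _ rfl)
    (fun x y h => by
      funext i w
      exact h _ (by simp)) hF]
  have : ∀ d : E, ∫⁻ y, F d (fun i => sh [i] y) ∂(infinitePi fun _ : List ℕ => m) =
      ∫⁻ ω, F d ω ∂(infinitePi fun _ : ℕ => infinitePi fun _ : List ℕ => m) := by
    intro d
    have hd : Measurable (F d) := hF.comp (measurable_const.prodMk measurable_id)
    rw [← map_children m, lintegral_map hd hb]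
  simp_rw [this]
  exact lintegral_eval (fun _ : List ℕ => m) [] (f := fun d => ∫⁻ ω, F d ω
    ∂(infinitePi fun _ : ℕ => infinitePi fun _ : List ℕ => m)) (Measurable.lintegral_prod_right hF)

end tree

end Pool.Agent.Lib.MP_0cd4b8_pr
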