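import Pool.Agent.Lib.MP_0cd4b8_pr.Defs
import Pool.Agent.Lib.MP_0cd4b8_pr.Prod

/-! Markov chains driven by i.i.d. uniform sequences. -/

set_option autoImplicit false

open MeasureTheory ProbabilityTheory Measure
open scoped ENNReal NNReal

namespace Pool.Agent.Lib.MP_0cd4b8_pr

open Classical in
/-- Indicator of a proposition. -/
noncomputable def ind (P : Prop) : ℝ≥0∞ := if P then 1 else 0

lemma ind_pos {P : Prop} (h : P) : ind P = 1 := by simp [ind, h]
lemma ind_neg {P : Prop} (h : ¬P) : ind P = 0 := by simp [ind, h]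
@[simp] lemma ind_true : ind True = 1 := ind_pos trivial
@[simp] lemma ind_false : ind False = 0 := ind_neg id
lemma ind_le_one (P : Prop) : ind P ≤ 1 := by
  by_cases h : P <;> simp [ind, h]
lemma ind_ne_top (P : Prop) : ind P ≠ ⊤ := ne_top_of_le_ne_top ENNReal.one_ne_top (ind_le_one P)
lemma ind_mono {P Q : Prop} (h : P → Q) : ind P ≤ ind Q := by
  by_cases hp : P
  · rw [ind_pos hp, ind_pos (h hp)]
  · rw [ind_neg hp]; exact zero_le
lemma ind_and (P Q : Prop) : ind (P ∧ Q) = ind P * ind Q := by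
  by_cases hp : P <;> by_cases hq : Q <;> simp [ind, hp, hq]
lemma ind_or_le (P Q : Prop) : ind (P ∨ Q) ≤ ind P + ind Q := by
  by_cases hp : P <;> by_cases hq : Q <;> simp [ind, hp, hq]
lemma ind_add_ind_not (P : Prop) : ind P + ind (¬P) = 1 := by
  by_cases hp : P <;> simp [ind, hp]
lemma ind_mul_le (P : Prop) (a : ℝ≥0∞) : ind P * a ≤ a := by
  by_cases hp : P <;> simp [ind, hp]
lemma ind_mul_le_of {P : Prop} {a b : ℝ≥0∞} (h : P → a ≤ b) : ind P * a ≤ b := by
  by_cases hp : P
  · rw [ind_pos hp, one_mul]; exact h hp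
  · rw [ind_neg hp, zero_mul]; exact zero_le
lemma ind_le_of {P : Prop} {b : ℝ≥0∞} (h : P → 1 ≤ b) : ind P ≤ b := by
  simpa using ind_mul_le_of (a := 1) h
lemma ind_mul_mono {P Q : Prop} {a b : ℝ≥0∞} (h : P → Q ∧ a ≤ b) : ind P * a ≤ ind Q * b :=
  ind_mul_le_of fun hp => by rw [ind_pos (h hp).1, one_mul]; exact (h hp).2
lemma ind_exists_le {ι : Type*} (P : ι → Prop) : ind (∃ i, P i) ≤ ∑' i, ind (P i) :=
  ind_le_of fun ⟨i, hi⟩ => by
    rw [← ind_pos hi]; exact ENNReal.le_tsum (f := fun i => ind (P i)) i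
lemma ind_exists_eq {ι : Type*} {P : ι → Prop} (h : ∀ i j, P i → P j → i = j) :
    ind (∃ i, P i) = ∑' i, ind (P i) := by
  by_cases he : ∃ i, P i
  · obtain ⟨i, hi⟩ := he
    rw [ind_pos ⟨i, hi⟩, tsum_eq_single i, ind_pos hi]
    intro j hj
    exact ind_neg fun hj' => hj (h j i hj' hi)
  · rw [ind_neg he]
    simp [ind_neg (not_exists.1 he _)]
lemma ind_forall_finset {ι : Type*} (J : Finset ι) (P : ι → Prop) :
    ind (∀ j ∈ J, P j) = ∏ j ∈ J, ind (P j) := by
  by_cases h : ∀ j ∈ J, P j
  · rw [ind_pos h, Finset.prod_eq_one fun j hj => ind_pos (h j hj)]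
  · rw [ind_neg h]
    push Not at h
    obtain ⟨j, hj, hp⟩ := h
    exact (Finset.prod_eq_zero hj (ind_neg hp)).symm
lemma ind_eq_zero {P : Prop} : ind P = 0 ↔ ¬P := by
  by_cases hp : P <;> simp [ind, hp]

@[fun_prop]
lemma measurable_ind : Measurable ind := Measurable.of_discrete

lemma mind {α : Type*} [MeasurableSpace α] {P : α → Prop} (hP : Measurable P) :
    Measurable fun x => ind (P x) := measurable_ind.comp hP

lemma lmono {α : Type*} [MeasurableSpace α] {m : Measure α} {f g : α → ℝ≥0∞}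
    (h : ∀ a, f a ≤ g a) : ∫⁻ a, f a ∂m ≤ ∫⁻ a, g a ∂m := lintegral_mono h

lemma lintegral_ind {α : Type*} [MeasurableSpace α] (m : Measure α) {P : α → Prop}
    (hP : Measurable P) : ∫⁻ x, ind (P x) ∂m = m {x | P x} := by
  rw [← lintegral_indicator_one hP.setOf]
  refine lintegral_congr fun x => ?_
  by_cases h : P x <;> simp [ind, h]

lemma lintegral_ind_le_one {α : Type*} [MeasurableSpace α] (m : Measure α)
    [IsProbabilityMeasure m] (P : α → Prop) : ∫⁻ x, ind (P x) ∂m ≤ 1 := by
  calc ∫⁻ x, ind (P x) ∂m ≤ ∫⁻ _, 1 ∂m := lintegral_mono fun x => ind_le_one _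
    _ = 1 := by simp

lemma lintegral_ind_add_not {α : Type*} [MeasurableSpace α] (m : Measure α)
    [IsProbabilityMeasure m] {P : α → Prop} (hP : Measurable P) :
    ∫⁻ x, ind (P x) ∂m + ∫⁻ x, ind (¬P x) ∂m = 1 := by
  rw [← lintegral_add_left (by fun_prop)]
  simp [ind_add_ind_not]

instance : IsProbabilityMeasure unif := ⟨by simp [unif]⟩

/-- Law of a driving sequence. -/
noncomputable def nu : Measure (ℕ → ℝ) := infinitePi fun _ => unif

instance : IsProbabilityMeasure nu := by unfold nu; infer_instance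

/-- Shift of a driving sequence. -/
def shift (k : ℕ) (u : ℕ → ℝ) : ℕ → ℝ := fun j => u (k + j)

@[fun_prop]
lemma measurable_shift (k : ℕ) : Measurable (shift k) := by unfold shift; fun_prop

@[simp] lemma shift_zero (u : ℕ → ℝ) : shift 0 u = u := by funext j; simp [shift]

lemma shift_shift (k l : ℕ) (u : ℕ → ℝ) : shift l (shift k u) = shift (k + l) u := by
  funext j; simp [shift, add_assoc]

lemma lintegral_shift (k : ℕ) {F : (ℕ → ℝ) → ℝ≥0∞} (hF : Measurable F) :
    ∫⁻ u, F (shift k u) ∂nu = ∫⁻ u, F u ∂nu :=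
  lintegral_reindex unif (f := fun j => k + j) (add_right_injective k) hF

lemma lintegral_mul_shift (k : ℕ) {f g : (ℕ → ℝ) → ℝ≥0∞} (hf : Measurable f) (hg : Measurable g)
    (hfp : ∀ x y, (∀ i < k, x i = y i) → f x = f y) :
    ∫⁻ u, f u * g (shift k u) ∂nu = (∫⁻ u, f u ∂nu) * ∫⁻ u, g u ∂nu := by
  rw [← lintegral_shift k hg]
  refine lintegral_mul_split (fun _ => unif) {i | i < k} hf (by fun_prop) hfp fun x y h => ?_
  congr 1
  funext j
  exact h _ (by simp)

lemma lintegral_head_tail {G : ℝ → (ℕ → ℝ) → ℝ≥0∞} (hG : Measurable (Function.uncurry G)) :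
    ∫⁻ u, G (u 0) (shift 1 u) ∂nu = ∫⁻ x, ∫⁻ u, G x u ∂nu ∂unif := by
  have h := lintegral_split (fun _ : ℕ => unif) {0} (a := fun u => u 0) (b := shift 1)
    (measurable_pi_apply 0) (measurable_shift 1) (fun x y h => h 0 rfl)
    (fun x y h => by funext j; exact h _ (by simp [add_comm])) hG
  refine h.trans ?_
  have : ∀ x : ℝ, ∫⁻ y, G x (shift 1 y) ∂nu = ∫⁻ y, G x y ∂nu := fun x =>
    lintegral_shift 1 (hG.comp (measurable_const.prodMk measurable_id))
  change ∫⁻ x, ∫⁻ y, G (x 0) (shift 1 y) ∂nu ∂nu = _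
  simp_rw [this]
  exact lintegral_eval (fun _ : ℕ => unif) 0 (f := fun x => ∫⁻ u, G x u ∂nu)
    (Measurable.lintegral_prod_right hG)

section chain
variable {S : Type*}

/-- The path of the chain with random mapping `s`. -/
def path (s : S → ℝ → S) (x : S) (u : ℕ → ℝ) : ℕ → S
  | 0 => x
  | k + 1 => s (path s x u k) (u k)

@[simp] lemma path_zero (s : S → ℝ → S) (x : S) (u : ℕ → ℝ) : path s x u 0 = x := rfl
lemma path_succ (s : S → ℝ → S) (x : S) (u : ℕ → ℝ) (k : ℕ) :
    path s x u (k + 1) = s (path s x u k) (u k) := rfl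

lemma path_add (s : S → ℝ → S) (x : S) (u : ℕ → ℝ) (k j : ℕ) :
    path s x u (k + j) = path s (path s x u k) (shift k u) j := by
  induction j with
  | zero => rfl
  | succ j ih => rw [← add_assoc, path_succ, ih]; rfl

lemma path_succ' (s : S → ℝ → S) (x : S) (u : ℕ → ℝ) (j : ℕ) :
    path s x u (j + 1) = path s (s x (u 0)) (shift 1 u) j := by
  rw [add_comm, path_add]; rfl

lemma path_congr (s : S → ℝ → S) (x : S) {u v : ℕ → ℝ} {k : ℕ} (h : ∀ i < k, u i = v i) :
    path s x u k = path s x v k := by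
  induction k with
  | zero => rfl
  | succ k ih =>
    rw [path_succ, path_succ, ih fun i hi => h i (by omega), h k (by omega)]

lemma walk_eq_path (ξ : List ℕ → ℕ) (v : List ℕ) (u : ℕ → ℝ) (k : ℕ) :
    walk ξ v u k = path (step ξ) v u k := by
  induction k with
  | zero => rfl
  | succ k ih => rw [path_succ, ← ih]; rfl

variable [MeasurableSpace S] [Countable S] [MeasurableSingletonClass S]

lemma measurable_path_param {Ξ : Type*} [MeasurableSpace Ξ] {s : Ξ → S → ℝ → S}
    (hs : ∀ y, Measurable fun z : Ξ × ℝ => s z.1 y z.2) (x : S) (k : ℕ) :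
    Measurable fun z : Ξ × (ℕ → ℝ) => path (s z.1) x z.2 k := by
  induction k with
  | zero => exact measurable_const
  | succ k ih =>
    have h1 : Measurable fun w : S × (Ξ × ℝ) => s w.2.1 w.1 w.2.2 :=
      measurable_from_prod_countable_right fun y => hs y
    exact h1.comp (ih.prodMk (measurable_fst.prodMk ((measurable_pi_apply k).comp measurable_snd)))

lemma measurable_path {s : S → ℝ → S} (hs : ∀ y, Measurable (s y)) (x : S) (k : ℕ) :
    Measurable fun u : ℕ → ℝ => path s x u k :=
  (measurable_path_param (Ξ := Unit) (s := fun _ => s) (fun y => (hs y).comp measurable_snd)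
    x k).comp (measurable_const.prodMk measurable_id : Measurable fun u : ℕ → ℝ => (((), u)))

/-- First-step decomposition. -/
lemma lintegral_first_step {s : S → ℝ → S} (hs : ∀ y, Measurable (s y)) (x : S)
    {G : S → (ℕ → ℝ) → ℝ≥0∞} (hG : ∀ y, Measurable (G y)) :
    ∫⁻ u, G (s x (u 0)) (shift 1 u) ∂nu = ∫⁻ t, ∫⁻ u, G (s x t) u ∂nu ∂unif := by
  refine lintegral_head_tail (G := fun t u => G (s x t) u) ?_
  have h1 : Measurable fun w : S × (ℕ → ℝ) => G w.1 w.2 :=
    measurable_from_prod_countable_right hG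
  exact h1.comp (((hs x).comp measurable_fst).prodMk measurable_snd)

lemma measurable_of_two {α : Type*} [MeasurableSpace α] (c : S → S → ℝ≥0∞) {f g : α → S}
    (hf : Measurable f) (hg : Measurable g) : Measurable fun a => c (f a) (g a) :=
  (measurable_of_countable (fun w : S × S => c w.1 w.2)).comp (hf.prodMk hg)

/-- A supersolution bounds the expected total cost. -/
lemma lintegral_cost_le {s : S → ℝ → S} (hs : ∀ y, Measurable (s y)) (c : S → S → ℝ≥0∞)
    (F : S → ℝ≥0∞) (hF : ∀ y, ∫⁻ t, (c y (s y t) + F (s y t)) ∂unif ≤ F y) (x : S) :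
    ∫⁻ u, ∑' k, c (path s x u k) (path s x u (k + 1)) ∂nu ≤ F x := by
  have hm : ∀ x k, Measurable fun u => c (path s x u k) (path s x u (k + 1)) := fun x k =>
    measurable_of_two c (measurable_path hs x k) (measurable_path hs x (k + 1))
  rw [lintegral_tsum fun k => (hm x k).aemeasurable]
  refine ENNReal.tsum_le_of_sum_range_le fun n => ?_
  rw [← lintegral_finsetSum _ fun k _ => hm x k]
  induction n generalizing x with
  | zero => simp
  | succ n ih =>
    have h1 : ∀ u, ∑ k ∈ Finset.range (n + 1), c (path s x u k) (path s x u (k + 1)) =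
        c x (s x (u 0)) + ∑ k ∈ Finset.range n, c (path s (s x (u 0)) (shift 1 u) k)
          (path s (s x (u 0)) (shift 1 u) (k + 1)) := by
      intro u
      rw [Finset.sum_range_succ', add_comm]
      congr 1
      refine Finset.sum_congr rfl fun k _ => ?_
      rw [path_succ' s x u k, path_succ' s x u (k + 1)]
    simp_rw [h1]
    rw [lintegral_first_step hs x (G := fun y u => c x y + ∑ k ∈ Finset.range n,
      c (path s y u k) (path s y u (k + 1)))
      (fun y => measurable_const.add (Finset.measurable_sum _ fun k _ => hm y k))]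
    refine le_trans (lintegral_mono fun t => ?_) (hF x)
    rw [lintegral_add_left measurable_const]
    simp only [lintegral_const, measure_univ, mul_one]
    exact add_le_add le_rfl (ih _)

/-- First entrance decomposition. -/
lemma lintegral_first_hit {s : S → ℝ → S} (hs : ∀ y, Measurable (s y)) (x y : S)
    {φ : (ℕ → ℝ) → ℝ≥0∞} (hφ : Measurable φ) :
    ∫⁻ u, ∑' k, ind (path s x u k = y ∧ ∀ j < k, path s x u j ≠ y) * φ (shift k u) ∂nu =
      (∫⁻ u, ind (∃ k, path s x u k = y) ∂nu) * ∫⁻ u, φ u ∂nu := by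
  have hm : ∀ k, Measurable fun u => ind (path s x u k = y ∧ ∀ j < k, path s x u j ≠ y) := by
    intro k
    refine measurable_ind.comp (((measurable_path hs x k).eq_const y).and
      (Measurable.forall fun j => measurable_const.imp ((measurable_path hs x j).eq_const y).not))
  have hm2 : ∀ k, Measurable fun u =>
      ind (path s x u k = y ∧ ∀ j < k, path s x u j ≠ y) * φ (shift k u) := fun k =>
    (hm k).fun_mul (hφ.comp (measurable_shift k))
  rw [lintegral_tsum fun k => (hm2 k).aemeasurable]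
  have h1 : ∀ k, ∫⁻ u, ind (path s x u k = y ∧ ∀ j < k, path s x u j ≠ y) * φ (shift k u) ∂nu =
      (∫⁻ u, ind (path s x u k = y ∧ ∀ j < k, path s x u j ≠ y) ∂nu) * ∫⁻ u, φ u ∂nu := by
    intro k
    refine lintegral_mul_shift k (hm k) hφ fun a b h => ?_
    congr 1
    rw [path_congr s x h]
    refine propext (and_congr_right fun _ => forall_congr' fun j => forall_congr' fun hj => ?_)
    rw [path_congr s x (k := j) fun i hi => h i (by omega)]
  simp_rw [h1]
  rw [ENNReal.tsum_mul_right, ← lintegral_tsum fun k => (hm k).aemeasurable]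
  congr 1
  refine lintegral_congr fun u => ?_
  rw [← ind_exists_eq]
  · congr 1
    refine propext ⟨fun ⟨k, hk, _⟩ => ⟨k, hk⟩, fun h => ?_⟩
    classical
    exact ⟨Nat.find h, Nat.find_spec h, fun j hj => Nat.find_min h hj⟩
  · rintro i j ⟨hi, hi'⟩ ⟨hj, hj'⟩
    by_contra hne
    rcases lt_or_gt_of_ne hne with h | h
    · exact hj' i h hi
    · exact hi' j h hj

end chain

end Pool.Agent.Lib.MP_0cd4b8_pr
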