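import Pool.Agent.Lib.MP_0cd4b8_pr.Chain

/-! Poisson clouds of frogs. -/

set_option autoImplicit false

open MeasureTheory ProbabilityTheory Measure
open scoped ENNReal NNReal

namespace Pool.Agent.Lib.MP_0cd4b8_pr

/-- `exp (-y)` on extended nonnegative reals. -/
noncomputable def ex (y : ℝ≥0∞) : ℝ≥0∞ := EReal.exp (-(y : EReal))

lemma ex_add (x y : ℝ≥0∞) : ex (x + y) = ex x * ex y := by
  unfold ex
  rw [EReal.coe_ennreal_add, EReal.neg_add (by simp) (by simp), sub_eq_add_neg, EReal.exp_add]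

@[simp] lemma ex_zero : ex 0 = 1 := by simp [ex]
@[simp] lemma ex_top : ex ⊤ = 0 := by simp [ex]

lemma ex_coe (x : ℝ≥0) : ex x = ENNReal.ofReal (Real.exp (-x)) := by
  unfold ex
  rw [EReal.coe_nnreal_eq_coe_real, ← EReal.coe_neg, EReal.exp_coe]

lemma ex_anti {x y : ℝ≥0∞} (h : x ≤ y) : ex y ≤ ex x := by
  unfold ex
  exact EReal.exp_monotone (EReal.neg_le_neg_iff.2 (EReal.coe_ennreal_le_coe_ennreal_iff.2 h))

lemma ex_le_one (x : ℝ≥0∞) : ex x ≤ 1 := by simpa using ex_anti (zero_le (a := x))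

lemma continuous_ex : Continuous ex :=
  ENNReal.continuous_exp.comp (continuous_neg.comp continuous_coe_ennreal_ereal)

@[fun_prop]
lemma measurable_ex : Measurable ex := continuous_ex.measurable

lemma ex_sum {ι : Type*} (J : Finset ι) (f : ι → ℝ≥0∞) :
    ex (∑ j ∈ J, f j) = ∏ j ∈ J, ex (f j) := by
  classical
  induction J using Finset.induction_on with
  | empty => simp
  | insert a s ha ih => rw [Finset.sum_insert ha, Finset.prod_insert ha, ex_add, ih]

lemma one_le_add_ex (y : ℝ≥0∞) : 1 ≤ y + ex y := by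
  induction y with
  | top => simp
  | coe x =>
    rw [ex_coe, ← ENNReal.ofReal_coe_nnreal, ← ENNReal.ofReal_add (by positivity) (by positivity),
      ← ENNReal.ofReal_one]
    refine ENNReal.ofReal_le_ofReal ?_
    have := Real.add_one_le_exp (-(x : ℝ))
    linarith

/-- `y ^ n * exp (-y) ≤ n!`. -/
lemma pow_mul_ex_le (y : ℝ≥0∞) (n : ℕ) : y ^ n * ex y ≤ n.factorial := by
  induction y with
  | top => simp
  | coe x =>
    rw [ex_coe, ← ENNReal.ofReal_coe_nnreal, ← ENNReal.ofReal_pow (by positivity),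
      ← ENNReal.ofReal_mul (by positivity), ← ENNReal.ofReal_natCast]
    refine ENNReal.ofReal_le_ofReal ?_
    have h := Real.pow_div_factorial_le_exp (x : ℝ) x.2 n
    have hf : (0 : ℝ) < n.factorial := by positivity
    rw [div_le_iff₀ hf] at h
    rw [Real.exp_neg, ← div_eq_mul_inv, div_le_iff₀ (Real.exp_pos _)]
    linarith

lemma ex_le_inv_pow (y : ℝ≥0∞) (n : ℕ) : ex y ≤ n.factorial * y⁻¹ ^ n := by
  rcases eq_or_ne y ⊤ with rfl | hy
  · simp
  rcases eq_or_ne y 0 with rfl | hy0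
  · rcases n with _ | n
    · simp
    · rw [ENNReal.inv_zero, ENNReal.top_pow (by omega), ENNReal.mul_top (by
        simpa using Nat.factorial_ne_zero _)]
      exact le_top
  calc ex y = (y ^ n * ex y) * y⁻¹ ^ n := by
        rw [mul_comm (y ^ n), mul_assoc, ← mul_pow, ENNReal.mul_inv_cancel hy0 hy]; simp
    _ ≤ _ := by gcongr; exact pow_mul_ex_le y n

lemma le_ex_tsum {ι : Type*} {a : ℝ≥0∞} {f : ι → ℝ≥0∞}
    (h : ∀ J : Finset ι, a ≤ ex (∑ j ∈ J, f j)) : a ≤ ex (∑' j, f j) :=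
  ge_of_tendsto' ((continuous_ex.tendsto _).comp ENNReal.summable.hasSum) h

/-- The data at one site. -/
abbrev Site := ℕ × (ℕ → ℕ → ℝ)

/-- Law of the data at one site. -/
noncomputable def site (μ : ℝ≥0) : Measure Site :=
  (poissonMeasure μ).prod (infinitePi fun _ => nu)

instance (μ : ℝ≥0) : IsProbabilityMeasure (site μ) := by unfold site; infer_instance

lemma frogs_eq (μ : ℝ≥0) : frogs μ = infinitePi fun _ => site μ := rfl

instance (μ : ℝ≥0) : IsProbabilityMeasure (frogs μ) := by rw [frogs_eq]; infer_instance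

/-- Some frog of the site has a driving sequence with property `B`. -/
def hits (B : (ℕ → ℝ) → Prop) (x : Site) : Prop := ∃ i < x.1, B (x.2 i)

lemma measurable_hits_param {Ξ : Type*} [MeasurableSpace Ξ] {B : Ξ → (ℕ → ℝ) → Prop}
    (hB : Measurable fun z : Ξ × (ℕ → ℝ) => B z.1 z.2) :
    Measurable fun z : Ξ × Site => hits (B z.1) z.2 := by
  unfold hits
  refine Measurable.exists fun i => Measurable.and ?_ ?_
  · exact (measurable_of_countable fun n : ℕ => i < n).comp (measurable_fst.comp measurable_snd)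
  · exact hB.comp (measurable_fst.prodMk
      ((measurable_pi_apply i).comp (measurable_snd.comp measurable_snd)))

lemma measurable_hits {B : (ℕ → ℝ) → Prop} (hB : Measurable B) : Measurable (hits B) :=
  (measurable_hits_param (Ξ := Unit) (B := fun _ => B) (hB.comp measurable_snd)).comp
    (measurable_const.prodMk measurable_id : Measurable fun u : Site => (((), u)))

lemma lintegral_poisson_pow (μ q : ℝ≥0) (hq : q ≤ 1) :
    ∫⁻ n, ((1 - q : ℝ≥0) : ℝ≥0∞) ^ n ∂(poissonMeasure μ) = ex (μ * q : ℝ≥0) := by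
  rw [lintegral_countable']
  simp_rw [poissonMeasure_singleton]
  have h := (hasSum_one_poissonMeasure (μ * (1 - q))).mul_left (Real.exp (-(μ * q : ℝ≥0)))
  rw [mul_one] at h
  rw [ex_coe, ← h.tsum_eq, ENNReal.ofReal_tsum_of_nonneg (fun n => by positivity) h.summable]
  refine tsum_congr fun n => ?_
  rw [← ENNReal.ofReal_coe_nnreal, ← ENNReal.ofReal_pow (by positivity),
    ← ENNReal.ofReal_mul (by positivity)]
  congr 1
  have e : Real.exp (-(μ : ℝ)) = Real.exp (-((μ * q : ℝ≥0) : ℝ)) *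
      Real.exp (-((μ * (1 - q) : ℝ≥0) : ℝ)) := by
    rw [← Real.exp_add]
    congr 1
    push_cast [NNReal.coe_sub hq]
    ring
  rw [e]
  push_cast
  ring

/-- Void probability. -/
lemma lintegral_not_hits (μ : ℝ≥0) {B : (ℕ → ℝ) → Prop} (hB : Measurable B) :
    ∫⁻ x, ind (¬hits B x) ∂(site μ) = ex (μ * ∫⁻ u, ind (B u) ∂nu) := by
  have hle := lintegral_ind_le_one nu B
  have hadd := lintegral_ind_add_not nu hB
  lift ∫⁻ u, ind (B u) ∂nu to ℝ≥0 using ne_top_of_le_ne_top ENNReal.one_ne_top hle with q hq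
  have hq1 : q ≤ 1 := by exact_mod_cast hle
  have h2 : ∫⁻ u, ind (¬B u) ∂nu = ((1 - q : ℝ≥0) : ℝ≥0∞) := by
    rw [ENNReal.coe_sub]
    exact (ENNReal.sub_eq_of_eq_add_rev ENNReal.coe_ne_top hadd.symm).symm
  have hmm : Measurable fun x => ind (¬hits B x) := measurable_ind.comp (measurable_hits hB).not
  rw [← ENNReal.coe_mul, ← lintegral_poisson_pow μ q hq1, site, lintegral_prod _ hmm.aemeasurable]
  refine lintegral_congr fun n => ?_
  have h3 : ∀ U : ℕ → ℕ → ℝ, ind (¬hits B (n, U)) = ∏ i ∈ Finset.range n, ind (¬B (U i)) := by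
    intro U
    rw [← ind_forall_finset]
    congr 1
    simp [hits]
  simp_rw [h3]
  rw [lintegral_finset_prod_eval (fun _ : ℕ => nu) (Finset.range n)
    (f := fun _ u => ind (¬B u)) (fun _ => measurable_ind.comp hB.not)]
  simp [h2]

lemma lintegral_hits_le (μ : ℝ≥0) {B : (ℕ → ℝ) → Prop} (hB : Measurable B) :
    ∫⁻ x, ind (hits B x) ∂(site μ) ≤ μ * ∫⁻ u, ind (B u) ∂nu := by
  have h := lintegral_ind_add_not (site μ) (measurable_hits hB)
  rw [lintegral_not_hits μ hB] at h
  have h2 := one_le_add_ex (μ * ∫⁻ u, ind (B u) ∂nu)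
  rw [← h] at h2
  exact ENNReal.le_of_add_le_add_right
    (ne_top_of_le_ne_top ENNReal.one_ne_top (ex_le_one _)) h2

/-- First success lemma. -/
lemma first_success {ι E : Type*} [Countable ι] [MeasurableSpace E] (m : Measure E)
    [IsProbabilityMeasure m] (A : Set ι) {P : ι → E → Prop} (hP : ∀ j, Measurable (P j))
    {φ : ι → E → ℝ≥0∞} (hφ : ∀ j, Measurable (φ j)) {g : ℝ≥0∞}
    (hg : ∀ j ∈ A, ∫⁻ t, ind (P j t) * φ j t ∂m ≤ g * ∫⁻ t, ind (P j t) ∂m)
    {F : (ι → E) → ℝ≥0∞} (hF : ∀ x, ∀ j ∈ A, P j (x j) → F x ≤ φ j (x j)) :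
    ∫⁻ x, ind (∃ j ∈ A, P j (x j)) * F x ∂(infinitePi fun _ : ι => m) ≤
      g * ∫⁻ x, ind (∃ j ∈ A, P j (x j)) ∂(infinitePi fun _ : ι => m) := by
  classical
  obtain ⟨r, hr⟩ := exists_injective_nat ι
  set N : ι → (ι → E) → Prop := fun j x => ∀ j' ∈ A, r j' < r j → ¬P j' (x j') with hN
  have hNm : ∀ j, Measurable fun x => ind (N j x) := fun j =>
    measurable_ind.comp (Measurable.forall fun j' => measurable_const.imp
      (measurable_const.imp ((hP j').comp (measurable_pi_apply j')).not))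
  have hNd : ∀ j, ∀ x y : ι → E, (∀ i, i ≠ j → x i = y i) → ind (N j x) = ind (N j y) := by
    intro j x y h
    congr 1
    refine propext (forall_congr' fun j' => forall_congr' fun _ => forall_congr' fun hj => ?_)
    rw [h j' (fun e => by rw [e] at hj; exact lt_irrefl _ hj)]
  have hfirst : ∀ x : ι → E, (∃ j ∈ A, P j (x j)) → ∃ j, (j ∈ A ∧ P j (x j)) ∧ N j x := by
    intro x hx
    have h1 : ∃ n, ∃ j ∈ A, P j (x j) ∧ r j = n := by
      obtain ⟨j, hj, hp⟩ := hx
      exact ⟨_, j, hj, hp, rfl⟩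
    obtain ⟨j, hj, hp, hrj⟩ := Nat.find_spec h1
    refine ⟨j, ⟨hj, hp⟩, fun j' hj' hlt hp' => ?_⟩
    exact Nat.find_min h1 (hrj ▸ hlt) ⟨j', hj', hp', rfl⟩
  have hm1 : ∀ j, Measurable fun t => ind (j ∈ A ∧ P j t) := fun j =>
    measurable_ind.comp (measurable_const.and (hP j))
  have hm2 : ∀ j, Measurable fun t => ind (j ∈ A ∧ P j t) * φ j t := fun j =>
    (hm1 j).fun_mul (hφ j)
  calc ∫⁻ x, ind (∃ j ∈ A, P j (x j)) * F x ∂(infinitePi fun _ : ι => m)
      ≤ ∫⁻ x, ∑' j, (ind (j ∈ A ∧ P j (x j)) * φ j (x j)) * ind (N j x)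
          ∂(infinitePi fun _ : ι => m) := by
        refine lintegral_mono fun x => ind_mul_le_of fun hx => ?_
        obtain ⟨j, hj, hn⟩ := hfirst x hx
        refine le_trans ?_ (ENNReal.le_tsum j)
        rw [ind_pos hj, ind_pos hn, one_mul, mul_one]
        exact hF x j hj.1 hj.2
    _ = ∑' j, (∫⁻ t, ind (j ∈ A ∧ P j t) * φ j t ∂m) *
          ∫⁻ x, ind (N j x) ∂(infinitePi fun _ : ι => m) := by
        rw [lintegral_tsum]
        · exact tsum_congr fun j => lintegral_eval_mul (fun _ : ι => m) j (hm2 j) (hNm j) (hNd j)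
        · exact fun j => Measurable.aemeasurable
            (((hm2 j).comp (measurable_pi_apply j)).fun_mul (hNm j))
    _ ≤ ∑' j, g * ((∫⁻ t, ind (j ∈ A ∧ P j t) ∂m) *
          ∫⁻ x, ind (N j x) ∂(infinitePi fun _ : ι => m)) := by
        refine ENNReal.tsum_le_tsum fun j => ?_
        rw [← mul_assoc]
        gcongr
        by_cases hj : j ∈ A
        · simpa [hj] using hg j hj
        · simp [hj]
    _ = g * ∫⁻ x, ∑' j, ind (j ∈ A ∧ P j (x j)) * ind (N j x) ∂(infinitePi fun _ : ι => m) := by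
        rw [ENNReal.tsum_mul_left, lintegral_tsum]
        · congr 1
          exact tsum_congr fun j =>
            (lintegral_eval_mul (fun _ : ι => m) j (hm1 j) (hNm j) (hNd j)).symm
        · exact fun j => Measurable.aemeasurable
            (((hm1 j).comp (measurable_pi_apply j)).fun_mul (hNm j))
    _ ≤ _ := by
        gcongr with x
        simp_rw [← ind_and]
        rw [← ind_exists_eq]
        · exact ind_mono fun ⟨j, hj, _⟩ => ⟨j, hj⟩
        · rintro i j ⟨hi, hi'⟩ ⟨hj, hj'⟩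
          by_contra hne
          rcases lt_or_gt_of_ne (fun e => hne (hr e)) with h | h
          · exact hj' i hi.1 h hi.2
          · exact hi' j hj.1 h hj.2

/-- First success inside one cloud. -/
lemma hits_first_success (μ : ℝ≥0) {B : (ℕ → ℝ) → Prop} (hB : Measurable B)
    {φ : (ℕ → ℝ) → ℝ≥0∞} (hφ : Measurable φ) {g : ℝ≥0∞}
    (hg : ∫⁻ t, ind (B t) * φ t ∂nu ≤ g * ∫⁻ t, ind (B t) ∂nu)
    {F : Site → ℝ≥0∞} (hF : ∀ x : Site, ∀ i < x.1, B (x.2 i) → F x ≤ φ (x.2 i)) :
    ∫⁻ x, ind (hits B x) * F x ∂(site μ) ≤ g * ∫⁻ x, ind (hits B x) ∂(site μ) := by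
  have hm : Measurable fun x => ind (hits B x) := measurable_ind.comp (measurable_hits hB)
  unfold site
  refine (lintegral_prod_le _).trans ?_
  rw [lintegral_prod _ hm.aemeasurable, ← lintegral_const_mul _
    (Measurable.lintegral_prod_right' hm)]
  refine lintegral_mono fun n => ?_
  exact first_success nu {i | i < n} (P := fun _ => B) (fun _ => hB) (φ := fun _ => φ)
    (fun _ => hφ) (fun _ _ => hg) (F := fun U => F (n, U)) fun U i hi hb => hF (n, U) i hi hb

section manysites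
variable {V : Type*}

lemma void_finset (μ : ℝ≥0) {B : V → (ℕ → ℝ) → Prop} (hB : ∀ u, Measurable (B u))
    (J : Finset V) :
    ∫⁻ η, ind (∀ u ∈ J, ¬hits (B u) (η u)) ∂(infinitePi fun _ : V => site μ) =
      ∏ u ∈ J, ex (μ * ∫⁻ t, ind (B u t) ∂nu) := by
  simp_rw [ind_forall_finset]
  rw [lintegral_finset_prod_eval (fun _ : V => site μ) J (f := fun u x => ind (¬hits (B u) x))
    fun u => measurable_ind.comp (measurable_hits (hB u)).not]
  exact Finset.prod_congr rfl fun u _ => lintegral_not_hits μ (hB u)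

lemma void_le (μ : ℝ≥0) {B : V → (ℕ → ℝ) → Prop} (hB : ∀ u, Measurable (B u)) (A : Set V) :
    ∫⁻ η, ind (∀ u ∈ A, ¬hits (B u) (η u)) ∂(infinitePi fun _ : V => site μ) ≤
      ex (μ * ∑' u, ind (u ∈ A) * ∫⁻ t, ind (B u t) ∂nu) := by
  classical
  rw [← ENNReal.tsum_mul_left]
  refine le_ex_tsum fun J => ?_
  calc _ ≤ ∫⁻ η, ind (∀ u ∈ J.filter (· ∈ A), ¬hits (B u) (η u))
        ∂(infinitePi fun _ : V => site μ) :=
        lintegral_mono fun η => ind_mono fun h u hu => h u (Finset.mem_filter.1 hu).2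
    _ = _ := by
        rw [void_finset μ hB, ex_sum, Finset.prod_filter]
        refine Finset.prod_congr rfl fun u _ => ?_
        by_cases hu : u ∈ A <;> simp [hu]

lemma exists_hits_le [Countable V] (μ : ℝ≥0) {B : V → (ℕ → ℝ) → Prop}
    (hB : ∀ u, Measurable (B u)) (A : Set V) :
    ∫⁻ η, ind (∃ u ∈ A, hits (B u) (η u)) ∂(infinitePi fun _ : V => site μ) ≤
      μ * ∑' u, ind (u ∈ A) * ∫⁻ t, ind (B u t) ∂nu := by
  have hm : ∀ u, Measurable fun x => ind (hits (B u) x) := fun u =>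
    measurable_ind.comp (measurable_hits (hB u))
  calc _ ≤ ∫⁻ η, ∑' u, ind (u ∈ A) * ind (hits (B u) (η u)) ∂(infinitePi fun _ : V => site μ) := by
        refine lintegral_mono fun η => (ind_exists_le _).trans (le_of_eq ?_)
        simp_rw [ind_and]
    _ = ∑' u, ind (u ∈ A) * ∫⁻ x, ind (hits (B u) x) ∂(site μ) := by
        rw [lintegral_tsum]
        · refine tsum_congr fun u => ?_
          rw [← lintegral_eval (fun _ : V => site μ) u (hm u)]
          exact lintegral_const_mul _ ((hm u).comp (measurable_pi_apply u))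
        · exact fun u => Measurable.aemeasurable
            (((hm u).comp (measurable_pi_apply u)).const_mul _)
    _ ≤ _ := by
        rw [← ENNReal.tsum_mul_left]
        refine ENNReal.tsum_le_tsum fun u => ?_
        rw [mul_left_comm]
        gcongr
        exact lintegral_hits_le μ (hB u)

end manysites

end Pool.Agent.Lib.MP_0cd4b8_pr
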