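import Pool.Agent.Lib.MP_0cd4b8_pr.Cloud

/-! Poisson thinning: disjoint classes of frogs are independent. -/

set_option autoImplicit false

open MeasureTheory ProbabilityTheory Measure
open scoped ENNReal NNReal

namespace Pool.Agent.Lib.MP_0cd4b8_pr

section columns
variable {V C L : Type*} (loc : C → L → V) (D : C → L → (ℕ → ℝ) → Prop)

/-- The random set of labels of class `c` realised by some frog. -/
def col (η : V → Site) (c : C) : Set L := {l | hits (D c l) (η (loc c l))}

variable {D}

lemma measurable_col_apply (hD : ∀ c l, Measurable (D c l)) (c : C) :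
    Measurable fun η => col loc D η c :=
  measurable_set_iff.2 fun l => (measurable_hits (hD c l)).comp (measurable_pi_apply _)

lemma measurable_col (hD : ∀ c l, Measurable (D c l)) : Measurable (col loc D) :=
  measurable_pi_iff.2 (measurable_col_apply loc hD)

lemma lintegral_ind_exists_finset {α : Type*} [MeasurableSpace α] (m : Measure α) (s : Finset C)
    {B : C → α → Prop} (hB : ∀ c, Measurable (B c))
    (hd : ∀ c c' x, B c x → B c' x → c = c') :
    ∫⁻ x, ind (∃ c ∈ s, B c x) ∂m = ∑ c ∈ s, ∫⁻ x, ind (B c x) ∂m := by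
  rw [← lintegral_finsetSum s (f := fun c x => ind (B c x))
    fun c _ => measurable_ind.comp (hB c)]
  refine lintegral_congr fun x => ?_
  by_cases h : ∃ c ∈ s, B c x
  · obtain ⟨c, hc, hb⟩ := h
    rw [ind_pos ⟨c, hc, hb⟩, Finset.sum_eq_single c, ind_pos hb]
    · exact fun c' _ hne => ind_neg fun hb' => hne (hd _ _ _ hb' hb)
    · exact fun h => absurd hc h
  · rw [ind_neg h, Finset.sum_eq_zero]
    exact fun c hc => ind_neg fun hb => h ⟨c, hc, hb⟩

lemma iIndepFun_col (μ : ℝ≥0) (hD : ∀ c l, Measurable (D c l))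
    (hdisj : ∀ c c' l l' t, loc c l = loc c' l' → D c l t → D c' l' t → c = c') :
    iIndepFun (fun c η => col loc D η c) (infinitePi fun _ : V => site μ) := by
  classical
  rw [iIndepFun_iff_iIndep]
  set π : C → Set (Set (V → Site)) := fun c =>
    {S | ∃ Z : Finset L, S = {η | ∀ l ∈ Z, l ∉ col loc D η c}} with hπ
  refine iIndepSets.iIndep (fun c => (measurable_col_apply loc hD c).comap_le) π ?_ ?_ ?_
  · rintro c _ ⟨Z, rfl⟩ _ ⟨Z', rfl⟩ _
    refine ⟨Z ∪ Z', ?_⟩
    ext η
    simp only [Set.mem_inter_iff, Set.mem_ofPred_eq, Finset.mem_union, or_imp, forall_and]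
  · intro c
    refine le_antisymm ?_ (MeasurableSpace.generateFrom_le ?_)
    · refine Measurable.comap_le (m₁ := MeasurableSpace.generateFrom (π c)) ?_
      refine (@measurable_set_iff _ _ (MeasurableSpace.generateFrom (π c)) _).2 fun l => ?_
      refine (@measurableSet_setOfPred _ (MeasurableSpace.generateFrom (π c)) _).1 ?_
      have : {η | l ∈ col loc D η c} = {η | ∀ l' ∈ ({l} : Finset L), l' ∉ col loc D η c}ᶜ := by
        ext η; simp
      rw [this]
      exact (MeasurableSpace.measurableSet_generateFrom (s := π c) ⟨{l}, rfl⟩).compl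
    · rintro _ ⟨Z, rfl⟩
      refine ⟨{R | ∀ l ∈ Z, l ∉ R}, ?_, rfl⟩
      have : {R : Set L | ∀ l ∈ Z, l ∉ R} = ⋂ l ∈ Z, {R | l ∉ R} := by ext; simp
      rw [this]
      exact Finset.measurableSet_biInter _ fun l _ => measurableSet_notMem l
  · rw [iIndepSets_iff]
    intro s f hf
    choose! Z hZ using hf
    set U : Finset V := s.biUnion fun c => (Z c).image (loc c) with hU
    set B : C → V → (ℕ → ℝ) → Prop := fun c u t => ∃ l ∈ Z c, loc c l = u ∧ D c l t with hB
    have hBm : ∀ c u, Measurable (B c u) := by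
      intro c u
      have : B c u = fun t => ∃ l : Z c, loc c l = u ∧ D c l t := by
        funext t
        exact propext ⟨fun ⟨l, hl, h⟩ => ⟨⟨l, hl⟩, h⟩, fun ⟨l, h⟩ => ⟨l.1, l.2, h⟩⟩
      rw [this]
      exact Measurable.exists fun l => measurable_const.and (hD c l)
    have hBm2 : ∀ u, Measurable fun t => ∃ c ∈ s, B c u t := by
      intro u
      have : (fun t => ∃ c ∈ s, B c u t) = fun t => ∃ c : s, B c u t := by
        funext t; simp
      rw [this]
      exact Measurable.exists fun c => hBm c u
    have hmeas : ∀ {B' : V → (ℕ → ℝ) → Prop}, (∀ u, Measurable (B' u)) →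
        Measurable fun η : V → Site => ∀ u ∈ U, ¬hits (B' u) (η u) := by
      intro B' h
      have : (fun η : V → Site => ∀ u ∈ U, ¬hits (B' u) (η u)) =
          fun η => ∀ u : U, ¬hits (B' u) (η u) := by
        funext t; simp
      rw [this]
      exact Measurable.forall fun u => ((measurable_hits (h u)).comp (measurable_pi_apply _)).not
    have h1 : ∀ c ∈ s, f c = {η | ∀ u ∈ U, ¬hits (B c u) (η u)} := by
      intro c hc
      rw [hZ c hc]
      ext η
      simp only [Set.mem_ofPred_eq, col, hits, hB]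
      constructor
      · rintro h u _ ⟨i, hi, l, hl, rfl, hd⟩
        exact h l hl ⟨i, hi, hd⟩
      · rintro h l hl ⟨i, hi, hd⟩
        exact h (loc c l) (Finset.mem_biUnion.2 ⟨c, hc, Finset.mem_image_of_mem _ hl⟩)
          ⟨i, hi, l, hl, rfl, hd⟩
    have h2 : ⋂ c ∈ s, f c = {η | ∀ u ∈ U, ¬hits (fun t => ∃ c ∈ s, B c u t) (η u)} := by
      ext η
      simp only [Set.mem_iInter, Set.mem_ofPred_eq]
      constructor
      · rintro h u hu ⟨i, hi, c, hc, hb⟩
        have := h c hc
        rw [h1 c hc] at this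
        exact this u hu ⟨i, hi, hb⟩
      · intro h c hc
        rw [h1 c hc]
        rintro u hu ⟨i, hi, hb⟩
        exact h u hu ⟨i, hi, c, hc, hb⟩
    have h3 : ∀ c ∈ s, (infinitePi fun _ : V => site μ) (f c) =
        ∏ u ∈ U, ex (μ * ∫⁻ t, ind (B c u t) ∂nu) := fun c hc => by
      rw [h1 c hc, ← lintegral_ind _ (hmeas (hBm c)), void_finset μ (hBm c)]
    rw [h2, ← lintegral_ind _ (hmeas hBm2), void_finset μ hBm2, Finset.prod_congr rfl h3,
      Finset.prod_comm]
    refine Finset.prod_congr rfl fun u _ => ?_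
    rw [lintegral_ind_exists_finset nu s (B := fun c t => B c u t) (fun c => hBm c u),
      Finset.mul_sum, ex_sum]
    rintro c c' t ⟨l, _, hl, hd⟩ ⟨l', _, hl', hd'⟩
    exact hdisj c c' l l' t (hl.trans hl'.symm) hd hd'

lemma map_col (μ : ℝ≥0) (hD : ∀ c l, Measurable (D c l))
    (hdisj : ∀ c c' l l' t, loc c l = loc c' l' → D c l t → D c' l' t → c = c') :
    (infinitePi fun _ : V => site μ).map (col loc D) =
      infinitePi fun c => (infinitePi fun _ : V => site μ).map fun η => col loc D η c :=
  (iIndepFun_col loc μ hD hdisj).map_fun_eq_infinitePi_map (measurable_col_apply loc hD)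

lemma col_split (μ : ℝ≥0) (hD : ∀ c l, Measurable (D c l))
    (hdisj : ∀ c c' l l' t, loc c l = loc c' l' → D c l t → D c' l' t → c = c')
    (p : Set C) {α β : Type*} [MeasurableSpace α] [MeasurableSpace β]
    {a : (C → Set L) → α} {b : (C → Set L) → β} (ha : Measurable a) (hb : Measurable b)
    (hap : ∀ x y, (∀ i ∈ p, x i = y i) → a x = a y)
    (hbp : ∀ x y, (∀ i ∉ p, x i = y i) → b x = b y)
    {G : α → β → ℝ≥0∞} (hG : Measurable (Function.uncurry G)) :
    ∫⁻ η, G (a (col loc D η)) (b (col loc D η)) ∂(infinitePi fun _ : V => site μ) =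
      ∫⁻ η, ∫⁻ η', G (a (col loc D η)) (b (col loc D η')) ∂(infinitePi fun _ : V => site μ)
        ∂(infinitePi fun _ : V => site μ) := by
  have : ∀ c, IsProbabilityMeasure
      ((infinitePi fun _ : V => site μ).map fun η => col loc D η c) := fun c =>
    isProbabilityMeasure_map (measurable_col_apply loc hD c).aemeasurable
  have h := lintegral_split (fun c => (infinitePi fun _ : V => site μ).map fun η => col loc D η c)
    p ha hb hap hbp hG
  rw [← map_col loc μ hD hdisj] at h
  have hm : Measurable fun x => G (a x) (b x) := hG.comp (ha.prodMk hb)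
  have hm2 : ∀ z, Measurable fun x => G z (b x) := fun z => hG.comp (measurable_const.prodMk hb)
  rw [lintegral_map hm (measurable_col loc hD)] at h
  simp_rw [lintegral_map (hm2 _) (measurable_col loc hD)] at h
  rw [h, lintegral_map _ (measurable_col loc hD)]
  exact Measurable.lintegral_prod_right (f := fun x η => G (a x) (b (col loc D η)))
    (hG.comp ((ha.comp measurable_fst).prodMk
      ((hb.comp (measurable_col loc hD)).comp measurable_snd)))

lemma col_prod (μ : ℝ≥0) (hD : ∀ c l, Measurable (D c l))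
    (hdisj : ∀ c c' l l' t, loc c l = loc c' l' → D c l t → D c' l' t → c = c')
    (J : Finset C) {f : C → Set L → ℝ≥0∞} (hf : ∀ c, Measurable (f c)) :
    ∫⁻ η, ∏ c ∈ J, f c (col loc D η c) ∂(infinitePi fun _ : V => site μ) =
      ∏ c ∈ J, ∫⁻ η, f c (col loc D η c) ∂(infinitePi fun _ : V => site μ) := by
  have : ∀ c, IsProbabilityMeasure
      ((infinitePi fun _ : V => site μ).map fun η => col loc D η c) := fun c =>
    isProbabilityMeasure_map (measurable_col_apply loc hD c).aemeasurable
  have h := lintegral_finset_prod_eval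
    (fun c => (infinitePi fun _ : V => site μ).map fun η => col loc D η c) J hf
  have hm : Measurable fun x : C → Set L => ∏ j ∈ J, f j (x j) :=
    Finset.measurable_prod _ fun j _ => (hf j).comp (measurable_pi_apply j)
  rw [← map_col loc μ hD hdisj, lintegral_map hm (measurable_col loc hD)] at h
  refine h.trans (Finset.prod_congr rfl fun c _ => ?_)
  rw [lintegral_map (hf c) (measurable_col_apply loc hD c)]

end columns

section closure
variable {V : Type*}

/-- Points reachable from `Z` in at most `n` steps. -/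
def cln (E : Set (V × V)) (Z : Set V) : ℕ → Set V
  | 0 => Z
  | n + 1 => cln E Z n ∪ {z | ∃ u ∈ cln E Z n, (u, z) ∈ E}

/-- Points reachable from `Z`. -/
def cl (E : Set (V × V)) (Z : Set V) : Set V := {z | ∃ n, z ∈ cln E Z n}

lemma subset_cl (E : Set (V × V)) (Z : Set V) : Z ⊆ cl E Z := fun _ hz => ⟨0, hz⟩

lemma cl_step {E : Set (V × V)} {Z : Set V} {u z : V} (hu : u ∈ cl E Z) (h : (u, z) ∈ E) :
    z ∈ cl E Z := by
  obtain ⟨n, hn⟩ := hu
  exact ⟨n + 1, Or.inr ⟨u, hn, h⟩⟩

lemma cl_subset {E : Set (V × V)} {Z A : Set V} (hZ : Z ⊆ A)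
    (hA : ∀ u ∈ A, ∀ z, (u, z) ∈ E → z ∈ A) : cl E Z ⊆ A := by
  rintro z ⟨n, hn⟩
  induction n generalizing z with
  | zero => exact hZ hn
  | succ n ih =>
    rcases hn with hn | ⟨u, hu, h⟩
    · exact ih hn
    · exact hA u (ih hu) z h

lemma cl_mono {E E' : Set (V × V)} {Z Z' : Set V} (hE : E ⊆ E') (hZ : Z ⊆ Z') :
    cl E Z ⊆ cl E' Z' :=
  cl_subset (hZ.trans (subset_cl _ _)) fun _ hu _ h => cl_step hu (hE h)

lemma cln_mono_succ (E : Set (V × V)) (Z : Set V) (n : ℕ) : cln E Z n ⊆ cln E Z (n + 1) :=
  fun _ h => Or.inl h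

variable [Countable V] {Ω : Type*} [MeasurableSpace Ω]

lemma measurable_cln {E : Ω → Set (V × V)} {Z : Ω → Set V} (hE : Measurable E)
    (hZ : Measurable Z) (n : ℕ) : Measurable fun ω => cln (E ω) (Z ω) n := by
  induction n with
  | zero => exact hZ
  | succ n ih =>
    refine measurable_set_iff.2 fun z => ?_
    exact (measurable_set_iff.1 ih z).or (Measurable.exists fun u =>
      (measurable_set_iff.1 ih u).and (measurable_set_iff.1 hE (u, z)))

lemma measurable_cl {E : Ω → Set (V × V)} {Z : Ω → Set V} (hE : Measurable E)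
    (hZ : Measurable Z) : Measurable fun ω => cl (E ω) (Z ω) :=
  measurable_set_iff.2 fun z => Measurable.exists fun n =>
    measurable_set_iff.1 (measurable_cln hE hZ n) z

end closure

section perc
variable {V E : Type*} [Countable V] [MeasurableSpace E] (m : Measure E) [IsProbabilityMeasure m]

omit [Countable V] [MeasurableSpace E] in
lemma cln_avoid (e : V → V → E → Prop) (o a : V) (η : V → E) (n : ℕ) {z : V}
    (hz : z ∈ cln {w | e w.1 w.2 (η w.1)} {o} n) :
    z ∈ cln {w | w.1 ≠ a ∧ e w.1 w.2 (η w.1)} {o} n ∨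
      a ∈ cln {w | w.1 ≠ a ∧ e w.1 w.2 (η w.1)} {o} n := by
  induction n generalizing z with
  | zero => exact Or.inl hz
  | succ n ih =>
    rcases hz with hz | ⟨u, hu, h⟩
    · exact (ih hz).imp (cln_mono_succ _ _ _ ·) (cln_mono_succ _ _ _ ·)
    · rcases ih hu with h1 | h1
      · by_cases hua : u = a
        · exact Or.inr (cln_mono_succ _ _ _ (hua ▸ h1))
        · exact Or.inl (Or.inr ⟨u, h1, hua, h⟩)
      · exact Or.inr (cln_mono_succ _ _ _ h1)

omit [Countable V] [MeasurableSpace E] in
lemma cln_mono_rel {R R' : Set (V × V)} (h : R ⊆ R') (Z : Set V) (n : ℕ) :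
    cln R Z n ⊆ cln R' Z n := by
  induction n with
  | zero => exact subset_rfl
  | succ n ih =>
    rintro z (hz | ⟨u, hu, h'⟩)
    · exact Or.inl (ih hz)
    · exact Or.inr ⟨u, ih hu, h h'⟩

/-- First moment bound for a cascade in which the edges out of `u` depend on the data at `u`. -/
lemma perc_bound {e : V → V → E → Prop} (he : ∀ u z, Measurable (e u z)) (o : V)
    {vis : V → E → ℝ≥0∞} (hvis : ∀ u, Measurable (vis u)) {Φ : V → ℝ≥0∞}
    (hΦ : ∀ u, ∫⁻ x, vis u x ∂m + ∑' z, (∫⁻ x, ind (e u z x) ∂m) * Φ z ≤ Φ u) :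
    ∫⁻ η, ∑' u, ind (u ∈ cl {w | e w.1 w.2 (η w.1)} {o}) * vis u (η u)
      ∂(infinitePi fun _ : V => m) ≤ Φ o := by
  classical
  set P := infinitePi fun _ : V => m with hP
  set q : V → V → ℝ≥0∞ := fun u z => ∫⁻ x, ind (e u z x) ∂m with hq
  have hEm : Measurable fun η : V → E => ({w | e w.1 w.2 (η w.1)} : Set (V × V)) :=
    measurable_set_iff.2 fun w => (he w.1 w.2).comp (measurable_pi_apply _)
  have hAm : ∀ n u, Measurable fun η : V → E => ind (u ∈ cln {w | e w.1 w.2 (η w.1)} {o} n) :=
    fun n u => measurable_ind.comp (measurable_set_iff.1 (measurable_cln hEm measurable_const n) u)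
  have hdep : ∀ n u, ∀ x y : V → E, (∀ j, j ≠ u → x j = y j) →
      ind (u ∈ cln {w | e w.1 w.2 (x w.1)} {o} n) = ind (u ∈ cln {w | e w.1 w.2 (y w.1)} {o} n) := by
    have key : ∀ n u, ∀ x y : V → E, (∀ j, j ≠ u → x j = y j) →
        u ∈ cln {w | e w.1 w.2 (x w.1)} {o} n → u ∈ cln {w | e w.1 w.2 (y w.1)} {o} n := by
      intro n u x y h hu
      have h1 := (cln_avoid e o u x n hu).elim id id
      refine cln_mono_rel ?_ _ _ h1
      rintro w ⟨hw, hw'⟩
      have := h w.1 hw
      simp only [Set.mem_ofPred_eq]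
      rwa [← this]
    intro n u x y h
    congr 1
    exact propext ⟨key n u x y h, key n u y x fun j hj => (h j hj).symm⟩
  set a : ℕ → V → ℝ≥0∞ := fun n u =>
    ∫⁻ η, ind (u ∈ cln {w | e w.1 w.2 (η w.1)} {o} n) ∂P with ha
  have hrec : ∀ n z, a (n + 1) z ≤ ind (z = o) + ∑' u, a n u * q u z := by
    intro n z
    have hsub : ∀ (η : V → E) n z, z ∈ cln {w | e w.1 w.2 (η w.1)} {o} (n + 1) →
        z = o ∨ ∃ u, u ∈ cln {w | e w.1 w.2 (η w.1)} {o} n ∧ e u z (η u) := by
      intro η n
      induction n with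
      | zero =>
        rintro z (hz | ⟨u, hu, h⟩)
        · exact Or.inl hz
        · exact Or.inr ⟨u, hu, h⟩
      | succ n ih =>
        rintro z (hz | ⟨u, hu, h⟩)
        · rcases ih z hz with h | ⟨u, hu, h⟩
          · exact Or.inl h
          · exact Or.inr ⟨u, cln_mono_succ _ _ _ hu, h⟩
        · exact Or.inr ⟨u, hu, h⟩
    calc a (n + 1) z ≤ ∫⁻ η, ind (z = o) + ∑' u, ind (e u z (η u)) *
          ind (u ∈ cln {w | e w.1 w.2 (η w.1)} {o} n) ∂P := by
          refine lintegral_mono fun η => (ind_mono (hsub η n z)).trans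
            ((ind_or_le _ _).trans (add_le_add le_rfl ((ind_exists_le _).trans (le_of_eq ?_))))
          simp_rw [ind_and, mul_comm]
      _ = _ := by
          rw [lintegral_add_left measurable_const, lintegral_tsum]
          · simp only [lintegral_const, measure_univ, mul_one]
            congr 1
            refine tsum_congr fun u => ?_
            rw [mul_comm]
            exact lintegral_eval_mul (fun _ : V => m) u (f := fun x => ind (e u z x))
              (measurable_ind.comp (he u z)) (hAm n u) (hdep n u)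
          · exact fun u => Measurable.aemeasurable
              (((measurable_ind.comp (he u z)).comp (measurable_pi_apply u)).fun_mul (hAm n u))
  have hmain : ∀ n, ∀ v Ψ : V → ℝ≥0∞, (∀ u, v u + ∑' z, q u z * Ψ z ≤ Ψ u) →
      ∑' u, a n u * v u ≤ Ψ o := by
    intro n
    induction n with
    | zero =>
      intro v Ψ h
      have : ∀ u, a 0 u = ind (u = o) := fun u => by simp [ha, cln]
      simp_rw [this]
      rw [tsum_eq_single o fun b hb => by rw [ind_neg hb, zero_mul], ind_pos rfl, one_mul]
      exact le_trans le_self_add (h o)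
    | succ n ih =>
      intro v Ψ h
      calc ∑' z, a (n + 1) z * v z ≤ ∑' z, (ind (z = o) + ∑' u, a n u * q u z) * v z :=
            ENNReal.tsum_le_tsum fun z => by gcongr; exact hrec n z
        _ = v o + ∑' u, a n u * ∑' z, q u z * v z := by
            simp_rw [add_mul]
            rw [ENNReal.tsum_add, tsum_eq_single o fun b hb => by rw [ind_neg hb, zero_mul],
              ind_pos rfl, one_mul]
            congr 1
            simp_rw [← ENNReal.tsum_mul_right, ← ENNReal.tsum_mul_left, mul_assoc]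
            exact ENNReal.tsum_comm
        _ ≤ v o + ∑' z, q o z * Ψ z := by
            refine add_le_add le_rfl ?_
            refine ih (fun u => ∑' z, q u z * v z) (fun u => ∑' z, q u z * Ψ z) fun u => ?_
            rw [← ENNReal.tsum_add]
            refine ENNReal.tsum_le_tsum fun z => ?_
            rw [← mul_add]
            gcongr
            exact h z
        _ ≤ Ψ o := h o
  have hmono : ∀ (η : V → E) (u : V), Monotone fun n =>
      ind (u ∈ cln {w | e w.1 w.2 (η w.1)} {o} n) * vis u (η u) := fun η u =>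
    monotone_nat_of_le_succ fun n => by
      gcongr
      exact ind_mono (cln_mono_succ _ _ _ ·)
  have hm3 : ∀ n u, Measurable fun η : V → E =>
      ind (u ∈ cln {w | e w.1 w.2 (η w.1)} {o} n) * vis u (η u) := fun n u =>
    (hAm n u).fun_mul ((hvis u).comp (measurable_pi_apply u))
  calc _ ≤ ∫⁻ η, ∑' u, ⨆ n, ind (u ∈ cln {w | e w.1 w.2 (η w.1)} {o} n) * vis u (η u) ∂P := by
        refine lintegral_mono fun η => ENNReal.tsum_le_tsum fun u => ind_mul_le_of ?_
        rintro ⟨n, hn⟩
        refine le_iSup_of_le n ?_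
        rw [ind_pos hn, one_mul]
    _ = ∑' u, ⨆ n, a n u * ∫⁻ x, vis u x ∂m := by
        rw [lintegral_tsum]
        · refine tsum_congr fun u => ?_
          rw [lintegral_iSup (fun n => hm3 n u) fun i j hij η => hmono η u hij]
          refine iSup_congr fun n => ?_
          simp_rw [mul_comm (ind _)]
          rw [lintegral_eval_mul (fun _ : V => m) u (hvis u) (hAm n u) (hdep n u), mul_comm]
        · exact fun u => (Measurable.iSup fun n => hm3 n u).aemeasurable
    _ ≤ Φ o := by
        rw [ENNReal.tsum_eq_iSup_sum]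
        refine iSup_le fun J => ?_
        rw [ENNReal.finsetSum_iSup_of_monotone]
        · refine iSup_le fun n => (ENNReal.sum_le_tsum J).trans ?_
          exact hmain n _ Φ hΦ
        · intro u
          refine monotone_nat_of_le_succ fun n => ?_
          gcongr
          exact lintegral_mono fun η => ind_mono (cln_mono_succ _ _ _ ·)

end perc

end Pool.Agent.Lib.MP_0cd4b8_pr
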