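import Mathlib

/-!
The Poisson frog model on a Galton-Watson tree.

Vertices are Ulam-Harris words: the root is `[]`, and the `i`-th child of `v` is `i :: v`.
-/

set_option autoImplicit false

open MeasureTheory ProbabilityTheory
open scoped ENNReal NNReal

namespace Pool.Agent.Lib.MP_0cd4b8_pr

/-- `v` is a vertex of the tree in which each vertex `w` has `ξ w` children. -/
def InTree (ξ : List ℕ → ℕ) : List ℕ → Prop
  | [] => True
  | i :: v => i < ξ v ∧ InTree ξ v

/-- The number of neighbours of `v`: its children, and its parent unless `v` is the root. -/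
def deg (ξ : List ℕ → ℕ) (v : List ℕ) : ℕ := if v = [] then ξ v else ξ v + 1

/-- One step of simple random walk from `v`, driven by `x ∈ [0,1)`: with `j = ⌊x * deg⌋`, move to
the child `j` if `j` is less than the number of children, and to the parent otherwise. -/
noncomputable def step (ξ : List ℕ → ℕ) (v : List ℕ) (x : ℝ) : List ℕ :=
  if ⌊x * (deg ξ v : ℝ)⌋₊ < ξ v then ⌊x * (deg ξ v : ℝ)⌋₊ :: v else v.tail

/-- The walk started at `v` and driven by the sequence `u`. -/
noncomputable def walk (ξ : List ℕ → ℕ) (v : List ℕ) (u : ℕ → ℝ) : ℕ → List ℕ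
  | 0 => v
  | k + 1 => step ξ (walk ξ v u k) (u k)

/-- `Occ ξ η t v`: some awake frog is at `v` at time `t`.  Here `(η u).1` is the number of frogs
sleeping at `u ≠ []` and `(η u).2 i` drives the walk of the `i`-th frog at `u`; the single awake
frog at the root is driven by `(η []).2 0`.  The frogs at `u` start walking at the first time `s`
at which `u` is visited. -/
def Occ (ξ : List ℕ → ℕ) (η : List ℕ → ℕ × (ℕ → ℕ → ℝ)) (t : ℕ) (v : List ℕ) : Prop :=
  walk ξ [] ((η []).2 0) t = v ∨
    ∃ (s : ℕ) (_ : s < t) (u : List ℕ), u ≠ [] ∧ Occ ξ η s u ∧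
      (∀ (r : ℕ) (_ : r < s), ¬ Occ ξ η r u) ∧
      ∃ i < (η u).1, walk ξ u ((η u).2 i) (t - s) = v
termination_by t
decreasing_by
  · assumption
  · omega

/-- The uniform law on `[0,1)`. -/
noncomputable def unif : Measure ℝ := volume.restrict (Set.Ico 0 1)

/-- Galton-Watson law: the offspring numbers are i.i.d. with law `p`. -/
noncomputable def gw (p : Measure ℕ) : Measure (List ℕ → ℕ) :=
  Measure.infinitePi fun _ => p

/-- Law of the frogs: independently over the vertices, a Poisson(`μ`) number of frogs and an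
independent i.i.d. uniform array driving their walks. -/
noncomputable def frogs (μ : ℝ≥0) : Measure (List ℕ → ℕ × (ℕ → ℕ → ℝ)) :=
  Measure.infinitePi fun _ =>
    (poissonMeasure μ).prod (Measure.infinitePi fun _ => Measure.infinitePi fun _ => unif)

/-- Joint law of the tree and the frogs, conditioned on the tree being infinite. -/
noncomputable def law (p : Measure ℕ) (μ : ℝ≥0) :
    Measure ((List ℕ → ℕ) × (List ℕ → ℕ × (ℕ → ℕ → ℝ))) :=
  ProbabilityTheory.cond ((gw p).prod (frogs μ)) {ω | {v | InTree ω.1 v}.Infinite}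

/-- Almost surely the root is visited at only finitely many times. -/
def Transient (p : Measure ℕ) (μ : ℝ≥0) : Prop :=
  ∀ᵐ ω ∂(law p μ), {t | Occ ω.1 ω.2 t []}.Finite

/-- Almost surely the root is visited at infinitely many times. -/
def Recurrent (p : Measure ℕ) (μ : ℝ≥0) : Prop :=
  ∀ᵐ ω ∂(law p μ), {t | Occ ω.1 ω.2 t []}.Infinite

end Pool.Agent.Lib.MP_0cd4b8_pr
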