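import Pool.Agent.Lib.MP_0cd4b8_pr.Weight

/-! Galton-Watson basics and existence of a nontrivial damped conductance. -/

set_option autoImplicit false

open MeasureTheory ProbabilityTheory Measure Filter Topology
open scoped ENNReal NNReal

namespace Pool.Agent.Lib.MP_0cd4b8_pr

instance (p : Measure ℕ) [IsProbabilityMeasure p] : IsProbabilityMeasure (gw p) := by
  unfold gw; infer_instance

/-- Law of an i.i.d. sequence of trees. -/
noncomputable def gws (p : Measure ℕ) : Measure (ℕ → Tr) := infinitePi fun _ => gw p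

instance (p : Measure ℕ) [IsProbabilityMeasure p] : IsProbabilityMeasure (gws p) := by
  unfold gws; infer_instance

lemma gw_branch (p : Measure ℕ) [IsProbabilityMeasure p] {F : ℕ → (ℕ → Tr) → ℝ≥0∞}
    (hF : ∀ d, Measurable (F d)) :
    ∫⁻ ξ, F (ξ []) (fun i => sh [i] ξ) ∂(gw p) = ∫⁻ d, ∫⁻ ω, F d ω ∂(gws p) ∂p :=
  lintegral_branch p (measurable_from_prod_countable_right hF)

lemma gws_eval (p : Measure ℕ) [IsProbabilityMeasure p] (i : ℕ) {f : Tr → ℝ≥0∞}
    (hf : Measurable f) : ∫⁻ ω, f (ω i) ∂(gws p) = ∫⁻ t, f t ∂(gw p) :=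
  lintegral_eval (fun _ => gw p) i hf

lemma gws_eval_mul (p : Measure ℕ) [IsProbabilityMeasure p] (i : ℕ) {f : Tr → ℝ≥0∞}
    {g : (ℕ → Tr) → ℝ≥0∞} (hf : Measurable f) (hg : Measurable g)
    (hgp : ∀ x y, (∀ j, j ≠ i → x j = y j) → g x = g y) :
    ∫⁻ ω, f (ω i) * g ω ∂(gws p) = (∫⁻ t, f t ∂(gw p)) * ∫⁻ ω, g ω ∂(gws p) :=
  lintegral_eval_mul (fun _ => gw p) i hf hg hgp

lemma gws_prod (p : Measure ℕ) [IsProbabilityMeasure p] (J : Finset ℕ) {f : Tr → ℝ≥0∞}
    (hf : Measurable f) : ∫⁻ ω, ∏ j ∈ J, f (ω j) ∂(gws p) = (∫⁻ t, f t ∂(gw p)) ^ J.card := by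
  rw [gws, lintegral_finset_prod_eval (fun _ => gw p) J (f := fun _ => f) fun _ => hf]
  simp

lemma gws_leave_one_out (p : Measure ℕ) [IsProbabilityMeasure p] (d : ℕ) {f g : Tr → ℝ≥0∞}
    (hf : Measurable f) (hg : Measurable g) :
    ∫⁻ ω, ∑ i ∈ Finset.range d, f (ω i) * ∏ j ∈ (Finset.range d).erase i, g (ω j) ∂(gws p) =
      (∫⁻ t, f t ∂(gw p)) * (d * (∫⁻ t, g t ∂(gw p)) ^ (d - 1)) := by
  have hm : ∀ i, Measurable fun ω : ℕ → Tr => ∏ j ∈ (Finset.range d).erase i, g (ω j) :=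
    fun i => Finset.measurable_prod _ fun j _ => hg.comp (measurable_pi_apply j)
  rw [lintegral_finsetSum _ (f := fun i (ω : ℕ → Tr) =>
    f (ω i) * ∏ j ∈ (Finset.range d).erase i, g (ω j))
    fun i _ => (hf.comp (measurable_pi_apply i)).fun_mul (hm i)]
  rw [Finset.sum_congr rfl fun i hi => by
    rw [gws_eval_mul p i hf (hm i) fun x y h => Finset.prod_congr rfl fun j hj => by
      rw [h j (Finset.ne_of_mem_erase hj)], gws_prod p _ hg, Finset.card_erase_of_mem hi,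
      Finset.card_range]]
  simp only [Finset.sum_const, Finset.card_range, nsmul_eq_mul]
  ring

lemma inTree_append (ξ : Tr) (i : ℕ) (v : List ℕ) :
    InTree ξ (v ++ [i]) ↔ i < ξ [] ∧ InTree (sh [i] ξ) v := by
  induction v with
  | nil => simp [InTree]
  | cons j v ih =>
    simp only [List.cons_append, InTree, ih, sh]
    tauto

lemma measurable_inTree (v : List ℕ) : Measurable fun ξ : Tr => InTree ξ v := by
  induction v with
  | nil => exact measurable_const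
  | cons j v ih =>
    exact ((measurable_of_countable fun n : ℕ => j < n).comp (measurable_pi_apply v)).and ih

lemma measurable_infinite : Measurable fun ξ : Tr => {v | InTree ξ v}.Infinite :=
  (measurableSet_setOfPred.1 MeasurableSet.setOfPred_infinite).comp
    (measurable_set_iff.2 measurable_inTree)

lemma exists_child_infinite {ξ : Tr} (h : {v | InTree ξ v}.Infinite) :
    ∃ i < ξ [], {v | InTree (sh [i] ξ) v}.Infinite := by
  by_contra hn
  push Not at hn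
  refine h (Set.Finite.subset ((Set.finite_singleton []).union (Set.Finite.biUnion
    (Finset.range (ξ [])).finite_toSet (t := fun i => (· ++ [i]) '' {v | InTree (sh [i] ξ) v})
    fun i hi => (hn i (by simpa using hi)).image _)) ?_)
  intro v hv
  rcases List.eq_nil_or_concat v with rfl | ⟨w, i, rfl⟩
  · exact Or.inl rfl
  · rw [List.concat_eq_append] at hv ⊢
    have := (inTree_append ξ i w).1 hv
    exact Or.inr (Set.mem_biUnion (x := i) (by simpa using this.1) ⟨w, this.2, rfl⟩)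

/-- Sum over the children. -/
noncomputable def Cs (β : Tr → ℝ≥0) (ξ : Tr) : ℝ≥0 := ∑ i ∈ Finset.range (ξ []), β (sh [i] ξ)

lemma measurable_Cs {β : Tr → ℝ≥0} (hβ : Measurable β) : Measurable (Cs β) :=
  measurable_sum_children (measurable_pi_apply []) fun i => hβ.comp (measurable_sh [i])

/-- The damped conductance recursion. -/
structure IsRec (t : ℝ≥0) (β : Tr → ℝ≥0) : Prop where
  meas : Measurable β
  eq : ∀ ξ, β ξ = t * Cs β ξ / (1 + Cs β ξ)

lemma isRec_bb : IsRec 1 bb := ⟨measurable_bb, bb_eq_div⟩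

lemma damp_mono (t : ℝ≥0) {a b : ℝ≥0} (h : a ≤ b) : t * a / (1 + a) ≤ t * b / (1 + b) := by
  rw [div_le_div_iff₀ (by positivity) (by positivity), ← NNReal.coe_le_coe]
  have h' : (a : ℝ) ≤ b := h
  push_cast
  nlinarith [mul_nonneg t.2 (sub_nonneg.2 h')]

lemma damp_le (t a : ℝ≥0) : t * a / (1 + a) ≤ t := by
  rw [div_le_iff₀ (by positivity)]
  gcongr
  exact le_add_self

lemma damp_le' (t a : ℝ≥0) : t * a / (1 + a) ≤ t * a :=
  div_le_self zero_le le_self_add

lemma damp_ge (t a : ℝ≥0) : t * a ≤ t * a / (1 + a) + t * a ^ 2 := by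
  have h : (0 : ℝ≥0) < 1 + a := by positivity
  rw [div_add' _ _ _ h.ne', le_div_iff₀ h, ← NNReal.coe_le_coe]
  push_cast
  have h1 : (0 : ℝ) ≤ t * a ^ 3 := by positivity
  nlinarith

/-- Finite depth approximations. -/
noncomputable def bn (t : ℝ≥0) : ℕ → Tr → ℝ≥0
  | 0 => fun _ => 1
  | n + 1 => fun ξ => t * Cs (bn t n) ξ / (1 + Cs (bn t n) ξ)

lemma measurable_bn (t : ℝ≥0) (n : ℕ) : Measurable (bn t n) := by
  induction n with
  | zero => exact measurable_const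
  | succ n ih =>
    have := measurable_Cs ih
    unfold bn
    fun_prop

lemma Cs_mono {β β' : Tr → ℝ≥0} (h : ∀ ξ, β ξ ≤ β' ξ) (ξ : Tr) : Cs β ξ ≤ Cs β' ξ :=
  Finset.sum_le_sum fun _ _ => h _

lemma bn_anti {t : ℝ≥0} (ht : t ≤ 1) (ξ : Tr) : Antitone fun n => bn t n ξ := by
  refine antitone_nat_of_succ_le fun n => ?_
  induction n generalizing ξ with
  | zero => exact (damp_le _ _).trans ht
  | succ n ih => exact damp_mono t (Cs_mono ih ξ)

lemma isRec_iInf {t : ℝ≥0} (ht : t ≤ 1) : IsRec t fun ξ => ⨅ n, bn t n ξ := by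
  refine ⟨Measurable.iInf (measurable_bn t), fun ξ => ?_⟩
  have h1 : ∀ ξ, Tendsto (fun n => bn t n ξ) atTop (𝓝 (⨅ n, bn t n ξ)) := fun ξ =>
    tendsto_atTop_ciInf (bn_anti ht ξ) (OrderBot.bddBelow _)
  have h2 : Tendsto (fun n => Cs (bn t n) ξ) atTop (𝓝 (Cs (fun ξ => ⨅ n, bn t n ξ) ξ)) :=
    tendsto_finsetSum _ fun i _ => h1 _
  have h3 := (tendsto_add_atTop_iff_nat 1).2 (h1 ξ)
  refine tendsto_nhds_unique h3 ?_
  exact (h2.const_mul t).div (h2.const_add 1) (by positivity)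

lemma exists_inTree_of_bn {t : ℝ≥0} (n : ℕ) {ξ : Tr} (h : bn t n ξ ≠ 0) :
    ∃ v, InTree ξ v ∧ v.length = n := by
  induction n generalizing ξ with
  | zero => exact ⟨[], trivial, rfl⟩
  | succ n ih =>
    have h1 : Cs (bn t n) ξ ≠ 0 := fun h0 => h (by simp [bn, h0])
    obtain ⟨i, hi, hi'⟩ := Finset.exists_ne_zero_of_sum_ne_zero h1
    obtain ⟨v, hv, hl⟩ := ih hi'
    exact ⟨v ++ [i], (inTree_append ξ i v).2 ⟨Finset.mem_range.1 hi, hv⟩, by simp [hl]⟩

lemma infinite_of_iInf {t : ℝ≥0} {ξ : Tr} (h : ⨅ n, bn t n ξ ≠ 0) :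
    {v | InTree ξ v}.Infinite := by
  refine Set.infinite_of_forall_exists_gt (s := List.length '' {v | InTree ξ v}) (fun n => ?_)
    |>.of_image _
  have : bn t (n + 1) ξ ≠ 0 := fun h0 =>
    h (le_antisymm (h0 ▸ ciInf_le (OrderBot.bddBelow _) (n + 1)) zero_le)
  obtain ⟨v, hv, hl⟩ := exists_inTree_of_bn _ this
  exact ⟨n + 1, ⟨v, hv, hl⟩, by omega⟩

lemma second_moment_consts {m M : ℝ≥0} (hm : 1 < m) : ∃ t K δ : ℝ≥0, 0 < t ∧ t < 1 ∧ 1 ≤ K ∧
    0 < δ ∧ δ ≤ 1 ∧ t ^ 2 * (m * K + M ^ 2) ≤ K ∧ δ + t * ((m * K + M ^ 2) * δ ^ 2) ≤ t * (m * δ) := by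
  have hm' : (1 : ℝ) < m := hm
  have hM : (0 : ℝ) ≤ M := M.2
  set t : ℝ := 2 / (m + 1) with ht
  have ht0 : 0 < t := by positivity
  have ht1 : t < 1 := by rw [ht, div_lt_one (by positivity)]; linarith
  have h1 : t ^ 2 * m < 1 := by
    rw [ht, div_pow, div_mul_eq_mul_div, div_lt_one (by positivity)]; nlinarith
  have h2 : 1 < t * m := by
    rw [ht, div_mul_eq_mul_div, one_lt_div (by positivity)]; linarith
  set K : ℝ := 1 + t ^ 2 * M ^ 2 / (1 - t ^ 2 * m) with hK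
  have hpos : 0 < 1 - t ^ 2 * m := by linarith
  have hK1 : 1 ≤ K := by
    have : 0 ≤ t ^ 2 * M ^ 2 / (1 - t ^ 2 * m) := by positivity
    linarith
  have hK2 : t ^ 2 * (m * K + M ^ 2) ≤ K := by
    have : K * (1 - t ^ 2 * m) = (1 - t ^ 2 * m) + t ^ 2 * M ^ 2 := by
      rw [hK]; field_simp
    nlinarith
  have hA : 0 < t * (m * K + M ^ 2) := by positivity
  set δ : ℝ := min 1 ((t * m - 1) / (t * (m * K + M ^ 2))) with hδ
  have hδ0 : 0 < δ := lt_min one_pos (div_pos (by linarith) hA)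
  have hδ2 : δ * (t * (m * K + M ^ 2)) ≤ t * m - 1 := by
    rw [← le_div_iff₀ hA]; exact min_le_right _ _
  refine ⟨⟨t, ht0.le⟩, ⟨K, by linarith⟩, ⟨δ, hδ0.le⟩, ht0, ht1, hK1, hδ0,
    (min_le_left _ _ : δ ≤ 1), ?_, ?_⟩
  · rw [← NNReal.coe_le_coe]; push_cast; exact hK2
  · change δ + t * ((m * K + M ^ 2) * δ ^ 2) ≤ t * (m * δ)
    nlinarith [mul_le_mul_of_nonneg_left hδ2 hδ0.le]

lemma lintegral_sum_sq_le (p : Measure ℕ) [IsProbabilityMeasure p] {s : Tr → ℝ≥0}
    (hs : Measurable s) {δ K : ℝ≥0} (h1 : ∫⁻ ξ, s ξ ∂(gw p) = δ)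
    (h2 : ∫⁻ ξ, (s ξ : ℝ≥0∞) ^ 2 ∂(gw p) ≤ K * δ ^ 2) (n : ℕ) :
    ∫⁻ ω, (∑ i ∈ Finset.range n, (s (ω i) : ℝ≥0∞)) ^ 2 ∂(gws p) ≤ (n * K + n ^ 2) * δ ^ 2 := by
  have hs' : Measurable fun ξ => (s ξ : ℝ≥0∞) := hs.coe_nnreal_ennreal
  have hm : ∀ i, Measurable fun ω : ℕ → Tr => (s (ω i) : ℝ≥0∞) := fun i =>
    hs'.comp (measurable_pi_apply i)
  simp_rw [sq (∑ i ∈ Finset.range n, _), Finset.sum_mul_sum]
  rw [lintegral_finsetSum _ fun i _ => Finset.measurable_sum _ fun j _ => (hm i).fun_mul (hm j)]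
  calc _ ≤ ∑ _i ∈ Finset.range n, ((K : ℝ≥0∞) * δ ^ 2 + n * δ ^ 2) := by
        refine Finset.sum_le_sum fun i hi => ?_
        rw [lintegral_finsetSum _ fun j _ => (hm i).fun_mul (hm j),
          ← Finset.add_sum_erase _ _ hi]
        refine add_le_add ?_ ?_
        · simp_rw [← sq]
          rwa [gws_eval p i (f := fun ξ => (s ξ : ℝ≥0∞) ^ 2) (hs'.pow_const 2)]
        · calc _ ≤ ∑ _j ∈ (Finset.range n).erase i, (δ : ℝ≥0∞) ^ 2 := by
                refine Finset.sum_le_sum fun j hj => le_of_eq ?_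
                rw [gws_eval_mul p i hs' (hm j) fun x y h => by
                  rw [h j (Finset.ne_of_mem_erase hj)], gws_eval p j hs', h1, sq]
            _ ≤ _ := by
                rw [Finset.sum_const, nsmul_eq_mul]
                gcongr
                exact_mod_cast Finset.card_erase_le.trans (Finset.card_range n).le
    _ = _ := by simp; ring

theorem exists_isRec (p : Measure ℕ) [IsProbabilityMeasure p] (hp : 1 < ∫⁻ k, (k : ℝ≥0∞) ∂p) :
    ∃ t : ℝ≥0, 0 < t ∧ t < 1 ∧ ∃ β, IsRec t β ∧ ∫⁻ ξ, ind (β ξ = 0) ∂(gw p) < 1 ∧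
      ∀ ξ, β ξ ≠ 0 → {v | InTree ξ v}.Infinite := by
  obtain ⟨M, hM⟩ : ∃ M : ℕ, 1 < ∫⁻ k, ((min k M : ℕ) : ℝ≥0∞) ∂p := by
    have h : ∫⁻ k, (k : ℝ≥0∞) ∂p = ⨆ M : ℕ, ∫⁻ k, ((min k M : ℕ) : ℝ≥0∞) ∂p := by
      rw [← lintegral_iSup (fun M => measurable_of_countable _)
        fun a b hab k => by simp only [Nat.cast_le]; omega]
      refine lintegral_congr fun k => le_antisymm (le_iSup_of_le k (by simp)) (iSup_le fun M => ?_)
      simp only [Nat.cast_le]; omega
    rwa [h, lt_iSup_iff] at hp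
  have hfin : ∫⁻ k, ((min k M : ℕ) : ℝ≥0∞) ∂p ≤ M := by
    calc _ ≤ ∫⁻ _, (M : ℝ≥0∞) ∂p := lintegral_mono fun k => by simp only [Nat.cast_le]; omega
      _ = M := by simp
  lift ∫⁻ k, ((min k M : ℕ) : ℝ≥0∞) ∂p to ℝ≥0 using ne_top_of_le_ne_top (by simp) hfin with m hm
  obtain ⟨t, K, δ, ht0, ht1, hK1, hδ0, hδ1, hA, hB⟩ :=
    second_moment_consts (M := M) (m := m) (by exact_mod_cast hM)
  have key : ∀ n, ∃ s : Tr → ℝ≥0, Measurable s ∧ (∀ ξ, s ξ ≤ bn t n ξ) ∧
      ∫⁻ ξ, s ξ ∂(gw p) = δ ∧ ∫⁻ ξ, (s ξ : ℝ≥0∞) ^ 2 ∂(gw p) ≤ K * δ ^ 2 := by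
    intro n
    induction n with
    | zero =>
      refine ⟨fun _ => δ, measurable_const, fun _ => hδ1, by simp, ?_⟩
      simp only [lintegral_const, measure_univ, mul_one]
      exact le_mul_of_one_le_left zero_le (by exact_mod_cast hK1)
    | succ n ih =>
      obtain ⟨s, hs, hsb, h1, h2⟩ := ih
      have hs' : Measurable fun ξ => (s ξ : ℝ≥0∞) := hs.coe_nnreal_ennreal
      set C : Tr → ℝ≥0 := fun ξ => ∑ i ∈ Finset.range (min (ξ []) M), s (sh [i] ξ) with hC
      have hCm : Measurable C := measurable_sum_children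
        ((measurable_of_countable fun n => min n M).comp (measurable_pi_apply []))
        fun i => hs.comp (measurable_sh [i])
      have hC1 : ∫⁻ ξ, C ξ ∂(gw p) = m * δ := by
        simp only [hC, ENNReal.ofNNReal_finsetSum]
        rw [gw_branch p (F := fun d ω => ∑ i ∈ Finset.range (min d M), (s (ω i) : ℝ≥0∞))
          fun d => Finset.measurable_sum _ fun i _ => hs'.comp (measurable_pi_apply i), hm,
          ← lintegral_mul_const _ (measurable_of_countable _)]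
        refine lintegral_congr fun d => ?_
        rw [lintegral_finsetSum _ (f := fun i (ω : ℕ → Tr) => (s (ω i) : ℝ≥0∞))
          fun i _ => hs'.comp (measurable_pi_apply i),
          Finset.sum_congr rfl fun i _ => gws_eval p i hs', h1]
        simp
      have hC2 : ∫⁻ ξ, (C ξ : ℝ≥0∞) ^ 2 ∂(gw p) ≤ (m * K + M ^ 2) * δ ^ 2 := by
        simp only [hC, ENNReal.ofNNReal_finsetSum]
        rw [gw_branch p (F := fun d ω => (∑ i ∈ Finset.range (min d M), (s (ω i) : ℝ≥0∞)) ^ 2)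
          fun d => (Finset.measurable_sum _ fun i _ => hs'.comp (measurable_pi_apply i)).pow_const 2]
        calc _ ≤ ∫⁻ d, (((min d M : ℕ) : ℝ≥0∞) * K + M ^ 2) * δ ^ 2 ∂p := by
              refine lintegral_mono fun d => (lintegral_sum_sq_le p hs h1 h2 _).trans ?_
              gcongr
              omega
          _ = _ := by
              rw [lintegral_mul_const _ (measurable_of_countable _),
                lintegral_add_right _ measurable_const,
                lintegral_mul_const _ (measurable_of_countable _), ← hm]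
              simp
      set s1 : Tr → ℝ≥0 := fun ξ => t * C ξ / (1 + C ξ) with hs1
      have hs1m : Measurable s1 := by rw [hs1]; fun_prop
      have hs1m' : Measurable fun ξ => (s1 ξ : ℝ≥0∞) := hs1m.coe_nnreal_ennreal
      have hle : ∫⁻ ξ, s1 ξ ∂(gw p) ≤ 1 := by
        calc _ ≤ ∫⁻ _, 1 ∂(gw p) := lintegral_mono fun ξ =>
              ENNReal.coe_le_coe.2 ((damp_le _ _).trans ht1.le)
          _ = 1 := by simp
      have hge : (δ : ℝ≥0∞) ≤ ∫⁻ ξ, s1 ξ ∂(gw p) := by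
        have h3 : (t : ℝ≥0∞) * (m * δ) ≤ ∫⁻ ξ, s1 ξ ∂(gw p) + t * ((m * K + M ^ 2) * δ ^ 2) := by
          calc (t : ℝ≥0∞) * (m * δ) = ∫⁻ ξ, t * C ξ ∂(gw p) := by
                rw [lintegral_const_mul _ hCm.coe_nnreal_ennreal, hC1]
            _ ≤ ∫⁻ ξ, (s1 ξ + t * (C ξ : ℝ≥0∞) ^ 2) ∂(gw p) :=
                lintegral_mono fun ξ => by
                  have := ENNReal.coe_le_coe.2 (damp_ge t (C ξ))
                  simpa only [ENNReal.coe_mul, ENNReal.coe_add, ENNReal.coe_pow] using this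
            _ ≤ _ := by
                rw [lintegral_add_left hs1m', lintegral_const_mul _
                  (hCm.coe_nnreal_ennreal.pow_const 2)]
                gcongr
        have h4 : (δ : ℝ≥0∞) + t * ((m * K + M ^ 2) * δ ^ 2) ≤ t * (m * δ) := by exact_mod_cast hB
        exact ENNReal.le_of_add_le_add_right (by finiteness) (h4.trans h3)
      lift ∫⁻ ξ, s1 ξ ∂(gw p) to ℝ≥0 using ne_top_of_le_ne_top (by simp) hle with e he
      have hge' : δ ≤ e := by exact_mod_cast hge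
      have he0 : 0 < e := hδ0.trans_le hge'
      have ha : δ / e ≤ 1 := by rwa [div_le_one he0]
      refine ⟨fun ξ => δ / e * s1 ξ, by fun_prop, fun ξ => ?_, ?_, ?_⟩
      · refine (mul_le_of_le_one_left zero_le ha).trans (damp_mono t ?_)
        refine le_trans (Finset.sum_le_sum_of_subset ?_) (Cs_mono hsb ξ)
        exact Finset.range_subset_range.2 (min_le_left _ _)
      · simp only [ENNReal.coe_mul]
        rw [lintegral_const_mul _ hs1m', ← he, ← ENNReal.coe_mul, div_mul_cancel₀ _ he0.ne']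
      · calc _ ≤ ∫⁻ ξ, t ^ 2 * (C ξ : ℝ≥0∞) ^ 2 ∂(gw p) := by
              refine lintegral_mono fun ξ => ?_
              rw [← mul_pow]
              gcongr
              exact_mod_cast (mul_le_of_le_one_left zero_le ha).trans (damp_le' t _)
          _ ≤ t ^ 2 * ((m * K + M ^ 2) * δ ^ 2) := by
              rw [lintegral_const_mul _ (hCm.coe_nnreal_ennreal.pow_const 2)]
              gcongr
          _ ≤ _ := by
              rw [← mul_assoc]
              gcongr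
              exact_mod_cast hA
  refine ⟨t, ht0, ht1, _, isRec_iInf ht1.le, ?_, fun ξ => infinite_of_iInf⟩
  have h1 : (δ : ℝ≥0∞) ≤ ∫⁻ ξ, (⨅ n, bn t n ξ : ℝ≥0) ∂(gw p) := by
    simp_rw [ENNReal.coe_iInf]
    rw [lintegral_iInf (fun n => (measurable_bn t n).coe_nnreal_ennreal)
      (fun a b hab ξ => ENNReal.coe_le_coe.2 (bn_anti ht1.le ξ hab))
      (ne_top_of_le_ne_top ENNReal.one_ne_top (by simp [bn]))]
    refine le_iInf fun n => ?_
    obtain ⟨s, -, hsb, h1, -⟩ := key n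
    rw [← h1]
    exact lintegral_mono fun ξ => ENNReal.coe_le_coe.2 (hsb ξ)
  have hm0 := (isRec_iInf ht1.le).meas.eq_const 0
  by_contra hge
  have h2 := lintegral_ind_add_not (gw p) hm0
  have h3 : ∫⁻ ξ, ind (⨅ n, bn t n ξ = 0) ∂(gw p) = 1 :=
    le_antisymm (lintegral_ind_le_one _ _) (not_lt.1 hge)
  rw [h3] at h2
  have h4 : ∫⁻ ξ, ind (¬⨅ n, bn t n ξ = 0) ∂(gw p) = 0 :=
    (ENNReal.add_right_inj ENNReal.one_ne_top).1 (h2.trans (add_zero _).symm)
  have h5 : ∫⁻ ξ, (⨅ n, bn t n ξ : ℝ≥0) ∂(gw p) ≤ ∫⁻ ξ, ind (¬⨅ n, bn t n ξ = 0) ∂(gw p) := by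
    refine lintegral_mono fun ξ => ?_
    by_cases h : ⨅ n, bn t n ξ = 0
    · simp [h]
    · rw [ind_pos h]
      exact ENNReal.coe_le_coe.2 (ciInf_le (f := fun n => bn t n ξ) (OrderBot.bddBelow _) 0)
  rw [h4] at h5
  exact absurd (h1.trans h5) (by simpa using hδ0.ne')

end Pool.Agent.Lib.MP_0cd4b8_pr
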