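import Pool.Agent.Lib.MP_0cd4b8_pr.GW1

/-! Generating function estimates. -/

set_option autoImplicit false

open MeasureTheory ProbabilityTheory Measure Filter Topology
open scoped ENNReal NNReal

namespace Pool.Agent.Lib.MP_0cd4b8_pr

/-- Generating function. -/
noncomputable def pgf (p : Measure ℕ) (y : ℝ≥0∞) : ℝ≥0∞ := ∫⁻ d, y ^ d ∂p

/-- Its derivative. -/
noncomputable def dpgf (p : Measure ℕ) (y : ℝ≥0∞) : ℝ≥0∞ := ∫⁻ d, d * y ^ (d - 1) ∂p

lemma pgf_mono (p : Measure ℕ) {x y : ℝ≥0∞} (h : x ≤ y) : pgf p x ≤ pgf p y :=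
  lmono fun d => by gcongr

lemma dpgf_mono (p : Measure ℕ) {x y : ℝ≥0∞} (h : x ≤ y) : dpgf p x ≤ dpgf p y :=
  lmono fun d => by gcongr

lemma IsRec.eq_zero_iff {t : ℝ≥0} {β : Tr → ℝ≥0} (h : IsRec t β) (ht : 0 < t) (ξ : Tr) :
    β ξ = 0 ↔ Cs β ξ = 0 := by
  rw [h.eq ξ]
  have : (1 + Cs β ξ) ≠ 0 := by positivity
  simp [ht.ne', this]

lemma Cs_eq_zero_iff (β : Tr → ℝ≥0) (ξ : Tr) :
    Cs β ξ = 0 ↔ ∀ i ∈ Finset.range (ξ []), β (sh [i] ξ) = 0 := Finset.sum_eq_zero_iff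

lemma IsRec.le_one {t : ℝ≥0} {β : Tr → ℝ≥0} (h : IsRec t β) (ht : t ≤ 1) (ξ : Tr) : β ξ ≤ 1 := by
  rw [h.eq ξ]; exact (damp_le _ _).trans ht

lemma gw_prod_children (p : Measure ℕ) [IsProbabilityMeasure p] {f : Tr → ℝ≥0∞}
    (hf : Measurable f) :
    ∫⁻ ξ, ∏ i ∈ Finset.range (ξ []), f (sh [i] ξ) ∂(gw p) = pgf p (∫⁻ ξ, f ξ ∂(gw p)) := by
  rw [gw_branch p (F := fun d ω => ∏ i ∈ Finset.range d, f (ω i))
    fun d => Finset.measurable_prod _ fun i _ => hf.comp (measurable_pi_apply i)]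
  refine lintegral_congr fun d => ?_
  rw [gws_prod p _ hf, Finset.card_range]

lemma gw_leave_one_out (p : Measure ℕ) [IsProbabilityMeasure p] {f g : Tr → ℝ≥0∞}
    (hf : Measurable f) (hg : Measurable g) :
    ∫⁻ ξ, ∑ i ∈ Finset.range (ξ []), f (sh [i] ξ) *
      ∏ j ∈ (Finset.range (ξ [])).erase i, g (sh [j] ξ) ∂(gw p) =
      (∫⁻ t, f t ∂(gw p)) * dpgf p (∫⁻ t, g t ∂(gw p)) := by
  rw [gw_branch p (F := fun d ω => ∑ i ∈ Finset.range d, f (ω i) *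
    ∏ j ∈ (Finset.range d).erase i, g (ω j))
    fun d => Finset.measurable_sum _ fun i _ => (hf.comp (measurable_pi_apply i)).fun_mul
      (Finset.measurable_prod _ fun j _ => hg.comp (measurable_pi_apply j))]
  simp_rw [gws_leave_one_out p _ hf hg]
  rw [lintegral_const_mul _ (measurable_of_countable _), dpgf]

lemma IsRec.pgf_fix (p : Measure ℕ) [IsProbabilityMeasure p] {t : ℝ≥0} {β : Tr → ℝ≥0}
    (h : IsRec t β) (ht : 0 < t) :
    pgf p (∫⁻ ξ, ind (β ξ = 0) ∂(gw p)) = ∫⁻ ξ, ind (β ξ = 0) ∂(gw p) := by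
  rw [← gw_prod_children p (mind (h.meas.eq_const 0))]
  refine lintegral_congr fun ξ => ?_
  rw [← ind_forall_finset, h.eq_zero_iff ht ξ, Cs_eq_zero_iff]

lemma real_ineq1 {y : ℝ} (h0 : 0 ≤ y) (h1 : y ≤ 1) (n : ℕ) :
    ((n + 2 : ℕ) : ℝ) * y ^ (n + 1) * (1 - y) + (1 - y) ^ 2 + y ^ (n + 2) ≤ 1 := by
  induction n with
  | zero => norm_num; nlinarith
  | succ n ih =>
    have h2 : 0 ≤ (1 - y) * y ^ (n + 1) * ((n + 2) * (1 - y)) := by
      have : 0 ≤ 1 - y := by linarith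
      positivity
    push_cast at ih ⊢
    have e1 : y ^ (n + 1 + 1) = y ^ (n + 1) * y := pow_succ _ _
    have e2 : y ^ (n + 1 + 2) = y ^ (n + 1) * y * y := by ring
    have e3 : y ^ (n + 2) = y ^ (n + 1) * y := pow_succ _ _
    rw [e1, e2]
    rw [e3] at ih
    nlinarith

lemma real_ineq2 {x y : ℝ} (h0 : 0 ≤ x) (h1 : x ≤ y) (n : ℕ) :
    y ^ n ≤ x ^ n + (y - x) * (n * y ^ (n - 1)) := by
  induction n with
  | zero => simp
  | succ n ih =>
    have hy : 0 ≤ y := h0.trans h1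
    have h2 : x ^ n ≤ y ^ n := pow_le_pow_left₀ h0 h1 n
    have h3 : (n : ℝ) * y ^ (n - 1) * y = n * y ^ n := by
      cases n with
      | zero => simp
      | succ n => simp [pow_succ]; ring
    have h4 := mul_le_mul_of_nonneg_right ih hy
    simp only [Nat.add_sub_cancel]
    push_cast
    have h5 := mul_le_mul_of_nonneg_left h2 (sub_nonneg.2 h1)
    rw [pow_succ, pow_succ]
    nlinarith

lemma prob_two_pos (p : Measure ℕ) [IsProbabilityMeasure p] (hp : 1 < ∫⁻ k, (k : ℝ≥0∞) ∂p) :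
    ∫⁻ d, ind (2 ≤ d) ∂p ≠ 0 := by
  intro h
  rw [lintegral_eq_zero_iff (measurable_of_countable _)] at h
  refine absurd hp (not_lt.2 ?_)
  calc ∫⁻ k, (k : ℝ≥0∞) ∂p ≤ ∫⁻ _, 1 ∂p := by
        refine lintegral_mono_ae ?_
        filter_upwards [h] with d hd
        simp only [Pi.zero_apply, ind_eq_zero, not_le] at hd
        exact_mod_cast (by omega : d ≤ 1)
    _ = 1 := by simp

lemma exists_contraction (p : Measure ℕ) [IsProbabilityMeasure p]
    (hp : 1 < ∫⁻ k, (k : ℝ≥0∞) ∂p) {x : ℝ≥0∞} (hx : x < 1) (hfix : pgf p x = x) :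
    ∃ y : ℝ≥0, x < y ∧ y < 1 ∧ dpgf p y < 1 ∧ pgf p y < y := by
  lift x to ℝ≥0 using hx.ne_top
  have hx' : (x : ℝ) < 1 := by exact_mod_cast hx
  have hP0 := prob_two_pos p hp
  lift ∫⁻ d, ind (2 ≤ d) ∂p to ℝ≥0 using
    ne_top_of_le_ne_top ENNReal.one_ne_top (lintegral_ind_le_one _ _) with P hP
  have hP1 : (0 : ℝ) < P := by
    have : P ≠ 0 := by simpa using hP0
    positivity
  set s : ℝ := 1 - x with hs
  have hs0 : 0 < s := by linarith
  set θ : ℝ := min (1 / 2) (P * s / 8) with hθ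
  have hθ0 : 0 < θ := lt_min (by norm_num) (by positivity)
  have hθ1 : θ ≤ 1 / 2 := min_le_left _ _
  have hθ2 : θ ≤ P * s / 8 := min_le_right _ _
  have hy0 : 0 ≤ x + s * θ := by positivity
  set y : ℝ≥0 := ⟨x + s * θ, hy0⟩ with hy
  have hyc : (y : ℝ) = x + s * θ := rfl
  have hxy : x < y := by
    rw [← NNReal.coe_lt_coe, hyc]
    have : 0 < s * θ := by positivity
    linarith
  have hy1 : y < 1 := by
    rw [← NNReal.coe_lt_coe, hyc]
    push_cast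
    nlinarith
  have h1 : dpgf p y * (1 - y : ℝ≥0) + P * ((1 - y : ℝ≥0) : ℝ≥0∞) ^ 2 + pgf p y ≤ 1 := by
    rw [hP, dpgf, pgf, ← lintegral_mul_const _ (measurable_of_countable _),
      ← lintegral_mul_const _ (measurable_of_countable _),
      ← lintegral_add_left (measurable_of_countable _),
      ← lintegral_add_left (measurable_of_countable _)]
    calc _ ≤ ∫⁻ _, 1 ∂p := lmono fun d => ?_
      _ = 1 := by simp
    match d with
    | 0 => simp [ind_neg]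
    | 1 =>
      rw [ind_neg (by omega)]
      simp only [Nat.cast_one, tsub_self, pow_zero, mul_one, one_mul, zero_mul, add_zero, pow_one]
      rw [← ENNReal.coe_add, tsub_add_cancel_of_le hy1.le]; simp
    | n + 2 =>
      rw [ind_pos (by omega), one_mul]
      have := real_ineq1 y.2 hy1.le n
      rw [show n + 2 - 1 = n + 1 by omega]
      have h2 : ((n + 2 : ℕ) : ℝ≥0) * y ^ (n + 1) * (1 - y) + (1 - y) ^ 2 + y ^ (n + 2) ≤ 1 := by
        rw [← NNReal.coe_le_coe]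
        push_cast [NNReal.coe_sub hy1.le] at this ⊢
        exact this
      exact_mod_cast h2
  have h2 : (x : ℝ≥0∞) ≤ pgf p y := hfix ▸ pgf_mono p (by exact_mod_cast hxy.le)
  have hne : (1 - y : ℝ≥0) ≠ 0 := (tsub_pos_of_lt hy1).ne'
  have hD : dpgf p y ≠ ⊤ := by
    intro h
    rw [h, ENNReal.top_mul (by exact_mod_cast hne)] at h1
    simp at h1
  have hlt : dpgf p y < 1 := by
    lift dpgf p y to ℝ≥0 using hD with D
    have h3 : (D : ℝ≥0∞) * (1 - y : ℝ≥0) + P * ((1 - y : ℝ≥0) : ℝ≥0∞) ^ 2 + x ≤ 1 :=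
      le_trans (by gcongr) h1
    have h4 : D * (1 - y) + P * (1 - y) ^ 2 + x ≤ 1 := by exact_mod_cast h3
    rw [← NNReal.coe_le_coe] at h4
    push_cast [NNReal.coe_sub hy1.le] at h4
    have h5 : (1 : ℝ) - y = s * (1 - θ) := by rw [hyc, hs]; ring
    rw [h5] at h4
    have h6 : (D : ℝ) < 1 := by
      by_contra hge
      rw [not_lt] at hge
      have h7 : s * (1 - θ) ≤ D * (s * (1 - θ)) := le_mul_of_one_le_left (by nlinarith) hge
      have h8 : 1 / 4 ≤ (1 - θ) ^ 2 := by nlinarith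
      have h9 : P * s * (1 / 4) ≤ P * s * (1 - θ) ^ 2 := by gcongr
      have h10 : 0 < P * s := by positivity
      nlinarith
    exact_mod_cast h6
  refine ⟨y, by exact_mod_cast hxy, hy1, hlt, ?_⟩
  have h3 : pgf p y ≤ x + (y - x : ℝ≥0) * dpgf p y := by
    conv_rhs => rw [← hfix]
    rw [pgf, pgf, dpgf, ← lintegral_const_mul _ (measurable_of_countable _),
      ← lintegral_add_left (measurable_of_countable _)]
    refine lmono fun d => ?_
    have := real_ineq2 x.2 hxy.le d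
    have h2 : y ^ d ≤ x ^ d + (y - x) * (d * y ^ (d - 1)) := by
      rw [← NNReal.coe_le_coe]
      push_cast [NNReal.coe_sub hxy.le]
      exact this
    exact_mod_cast h2
  refine h3.trans_lt ?_
  calc (x : ℝ≥0∞) + (y - x : ℝ≥0) * dpgf p y < x + (y - x : ℝ≥0) * 1 := by
        refine ENNReal.add_lt_add_left ENNReal.coe_ne_top ?_
        exact ENNReal.mul_lt_mul_right (by exact_mod_cast (tsub_pos_of_lt hxy).ne')
          ENNReal.coe_ne_top hlt
    _ = y := by rw [mul_one, ← ENNReal.coe_add, add_tsub_cancel_of_le hxy.le]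

lemma exists_small_level {α : Type*} [MeasurableSpace α] (m : Measure α) [IsProbabilityMeasure m]
    {β : α → ℝ≥0} (hβ : Measurable β) {y : ℝ≥0∞} (hy : ∫⁻ ξ, ind (β ξ = 0) ∂m < y) :
    ∃ η : ℝ≥0, 0 < η ∧ η ≤ 1 ∧ ∫⁻ ξ, ind (β ξ < η) ∂m ≤ y := by
  have hm : ∀ n : ℕ, Measurable fun ξ => ind (β ξ < ((n : ℝ≥0) + 1)⁻¹) := fun n =>
    mind (Measurable.lt hβ measurable_const)
  have h1 : ∫⁻ ξ, ind (β ξ = 0) ∂m = ⨅ n : ℕ, ∫⁻ ξ, ind (β ξ < ((n : ℝ≥0) + 1)⁻¹) ∂m := by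
    rw [← lintegral_iInf hm _ (ne_top_of_le_ne_top ENNReal.one_ne_top (lintegral_ind_le_one _ _))]
    · refine lintegral_congr fun ξ => le_antisymm (le_iInf fun n => ind_mono fun h => ?_) ?_
      · rw [h]; positivity
      · by_cases h : β ξ = 0
        · rw [ind_pos h]; exact (iInf_le _ 0).trans (ind_le_one _)
        · obtain ⟨n, hn⟩ := exists_nat_one_div_lt (K := ℝ≥0) (pos_iff_ne_zero.2 h)
          refine (iInf_le _ n).trans (le_of_eq ?_)
          rw [ind_neg h, ind_neg]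
          rw [one_div] at hn
          exact not_lt.2 hn.le
    · intro a b hab ξ
      refine ind_mono fun h => h.trans_le ?_
      gcongr
  rw [h1, iInf_lt_iff] at hy
  obtain ⟨n, hn⟩ := hy
  refine ⟨_, by positivity, ?_, hn.le⟩
  exact inv_le_one_of_one_le₀ le_add_self

/-- Quantitative contraction data. -/
structure Contr (p : Measure ℕ) (β : Tr → ℝ≥0) (y η : ℝ≥0) : Prop where
  zero_le : ∫⁻ ξ, ind (β ξ = 0) ∂(gw p) ≤ y
  lt_one : y < 1
  dlt : dpgf p y < 1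
  flt : pgf p y < y
  pos : 0 < η
  le_one : η ≤ 1
  small : ∫⁻ ξ, ind (β ξ < η) ∂(gw p) ≤ y

lemma IsRec.exists_contr (p : Measure ℕ) [IsProbabilityMeasure p]
    (hp : 1 < ∫⁻ k, (k : ℝ≥0∞) ∂p) {t : ℝ≥0} {β : Tr → ℝ≥0} (h : IsRec t β) (ht : 0 < t)
    (hx : ∫⁻ ξ, ind (β ξ = 0) ∂(gw p) < 1) : ∃ y η, Contr p β y η := by
  obtain ⟨y, h1, h2, h3, h4⟩ := exists_contraction p hp hx (h.pgf_fix p ht)
  obtain ⟨η, h5, h6, h7⟩ := exists_small_level (gw p) h.meas h1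
  exact ⟨y, η, h1.le, h2, h3, h4, h5, h6, h7⟩

lemma eq_zero_of_le_mul {a r : ℝ≥0∞} (ha : a ≠ ⊤) (hr : r < 1) (h : a ≤ a * r) : a = 0 := by
  by_contra h0
  have := ENNReal.mul_lt_mul_right h0 ha hr
  rw [mul_one] at this
  exact absurd h (not_le.2 this)

lemma IsRec.ae_Cs_ne_zero (p : Measure ℕ) [IsProbabilityMeasure p] {t : ℝ≥0} {β : Tr → ℝ≥0}
    (h : IsRec t β) (ht : 0 < t) {y η : ℝ≥0} (hc : Contr p β y η) :
    ∀ᵐ ξ ∂(gw p), {v | InTree ξ v}.Infinite → Cs β ξ ≠ 0 := by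
  have hm : Measurable fun ξ => ind (β ξ = 0 ∧ {v | InTree ξ v}.Infinite) :=
    mind ((h.meas.eq_const 0).and measurable_infinite)
  have h0 : ∫⁻ ξ, ind (β ξ = 0 ∧ {v | InTree ξ v}.Infinite) ∂(gw p) = 0 := by
    refine eq_zero_of_le_mul (ne_top_of_le_ne_top ENNReal.one_ne_top (lintegral_ind_le_one _ _))
      ((dpgf_mono p hc.zero_le).trans_lt hc.dlt) ?_
    rw [← gw_leave_one_out p hm (mind (h.meas.eq_const 0))]
    refine lmono fun ξ => ind_le_of fun ⟨h1, h2⟩ => ?_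
    obtain ⟨i, hi, hi'⟩ := exists_child_infinite h2
    rw [h.eq_zero_iff ht ξ, Cs_eq_zero_iff] at h1
    refine le_trans ?_ (Finset.single_le_sum (f := fun i =>
      ind (β (sh [i] ξ) = 0 ∧ {v | InTree (sh [i] ξ) v}.Infinite) *
      ∏ j ∈ (Finset.range (ξ [])).erase i, ind (β (sh [j] ξ) = 0)) (fun _ _ => zero_le)
      (Finset.mem_range.2 hi))
    rw [ind_pos ⟨h1 i (Finset.mem_range.2 hi), hi'⟩, Finset.prod_eq_one fun j hj =>
      ind_pos (h1 j (Finset.mem_of_mem_erase hj)), one_mul]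
  rw [lintegral_eq_zero_iff hm] at h0
  filter_upwards [h0] with ξ hξ hinf hC
  simp only [Pi.zero_apply, ind_eq_zero] at hξ
  exact hξ ⟨(h.eq_zero_iff ht ξ).2 hC, hinf⟩

lemma pow_mul_geom_le {r : ℝ≥0} (hr : r < 1) (q : ℕ) :
    ∃ K : ℝ≥0, ∀ d : ℕ, ((1 : ℝ≥0) + d) ^ q * r ^ d ≤ K := by
  have h1 : Tendsto (fun d : ℕ => ((d : ℝ) + 1) ^ q * (r : ℝ) ^ d) atTop (𝓝 0) := by
    rcases eq_or_ne r 0 with rfl | hr0
    · refine tendsto_const_nhds.congr' ?_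
      filter_upwards [eventually_ge_atTop 1] with d hd
      simp [zero_pow (by omega : d ≠ 0)]
    have h := (tendsto_add_atTop_iff_nat 1).2
      (tendsto_pow_const_mul_const_pow_of_abs_lt_one q (r := (r : ℝ)) (by simpa using hr))
    have h2 := h.mul_const (r : ℝ)⁻¹
    rw [zero_mul] at h2
    refine h2.congr fun d => ?_
    have : (r : ℝ) ≠ 0 := by exact_mod_cast hr0
    push_cast
    field_simp
    ring
  obtain ⟨K, hK⟩ := h1.bddAbove_range
  refine ⟨K.toNNReal, fun d => ?_⟩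
  rw [← NNReal.coe_le_coe]
  push_cast
  refine le_trans ?_ (Real.le_coe_toNNReal K)
  rw [add_comm]
  exact hK ⟨d, rfl⟩

/-- Large deviation bound for the number of good trees. -/
lemma chernoff (p : Measure ℕ) [IsProbabilityMeasure p] {G : Tr → Prop} [DecidablePred G]
    (hG : Measurable G) (hpos : ∫⁻ ξ, ind (G ξ) ∂(gw p) ≠ 0) :
    ∃ k : ℕ, 1 ≤ k ∧ ∀ q : ℕ, ∃ K : ℝ≥0, ∀ (d : ℕ) (J : Finset ℕ), d ≤ J.card + 2 →
      ((1 : ℝ≥0∞) + d) ^ q *
        ∫⁻ ω, ind (k * (J.filter fun j => G (ω j)).card < d) ∂(gws p) ≤ K := by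
  have hadd := lintegral_ind_add_not (gw p) hG
  lift ∫⁻ ξ, ind (G ξ) ∂(gw p) to ℝ≥0 using
    ne_top_of_le_ne_top ENNReal.one_ne_top (lintegral_ind_le_one _ _) with g hg
  lift ∫⁻ ξ, ind (¬G ξ) ∂(gw p) to ℝ≥0 using
    ne_top_of_le_ne_top ENNReal.one_ne_top (lintegral_ind_le_one _ _) with g' hg'
  have hg0 : (0 : ℝ) < g := by
    have : g ≠ 0 := by simpa using hpos
    positivity
  have hgg : (g : ℝ) + g' = 1 := by exact_mod_cast hadd
  have hg'0 : (0 : ℝ) ≤ g' := g'.2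
  set y : ℝ≥0 := g' + 3 / 4 * g with hy
  set z : ℝ≥0 := g' + 1 / 2 * g with hz
  have hy1 : y < 1 := by rw [← NNReal.coe_lt_coe, hy]; push_cast; linarith
  have hy0 : 0 < y := by rw [← NNReal.coe_lt_coe, hy]; push_cast; linarith
  have hz0 : 0 < z := by rw [← NNReal.coe_lt_coe, hz]; push_cast; linarith
  have hzy : z < y := by rw [← NNReal.coe_lt_coe, hy, hz]; push_cast; linarith
  obtain ⟨k, hk⟩ := exists_pow_lt_of_lt_one (show (0 : ℝ≥0) < 1 / 2 by norm_num) hy1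
  have hk1 : 1 ≤ k := by
    rcases k with _ | k
    · norm_num at hk
    · omega
  refine ⟨k, hk1, fun q => ?_⟩
  obtain ⟨K, hK⟩ := pow_mul_geom_le (r := z / y) (by rwa [div_lt_one hy0]) q
  refine ⟨K * (z ^ 2)⁻¹, fun d J hd => ?_⟩
  have hf : Measurable fun ξ => ind (¬G ξ) + (2 : ℝ≥0∞)⁻¹ * ind (G ξ) :=
    (mind hG.not).add ((mind hG).const_mul _)
  have h1 : ∫⁻ ξ, (ind (¬G ξ) + (2 : ℝ≥0∞)⁻¹ * ind (G ξ)) ∂(gw p) = z := by
    rw [lintegral_add_left (mind hG.not), lintegral_const_mul _ (mind hG), ← hg, ← hg', hz]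
    simp
  have h2 : ∫⁻ ω, ind (k * (J.filter fun j => G (ω j)).card < d) ∂(gws p) ≤
      ((y ^ d)⁻¹ * z ^ J.card : ℝ≥0) := by
    have hfm : Measurable fun ω : ℕ → Tr =>
        ∏ j ∈ J, (ind (¬G (ω j)) + (2 : ℝ≥0∞)⁻¹ * ind (G (ω j))) :=
      Finset.measurable_prod _ fun j _ => hf.comp (measurable_pi_apply j)
    rw [ENNReal.coe_mul, ENNReal.coe_pow, ← h1, ← gws_prod p J hf, ← lintegral_const_mul _ hfm]
    refine lmono fun ω => ind_le_of fun hlt => ?_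
    have e : ∏ j ∈ J, (ind (¬G (ω j)) + (2 : ℝ≥0∞)⁻¹ * ind (G (ω j))) =
        (((1 / 2 : ℝ≥0) ^ (J.filter fun j => G (ω j)).card : ℝ≥0) : ℝ≥0∞) := by
      rw [← Finset.prod_filter_mul_prod_filter_not J fun j => G (ω j),
        Finset.prod_eq_one (s := J.filter fun j => ¬G (ω j)) fun j hj => by
          simp [(Finset.mem_filter.1 hj).2],
        Finset.prod_congr rfl (g := fun _ => (2 : ℝ≥0∞)⁻¹) fun j hj => by
          simp [(Finset.mem_filter.1 hj).2]]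
      simp [ENNReal.inv_pow]
    rw [e]
    have h3 : y ^ d ≤ (1 / 2 : ℝ≥0) ^ (J.filter fun j => G (ω j)).card := by
      calc y ^ d ≤ y ^ (k * (J.filter fun j => G (ω j)).card) :=
            pow_le_pow_of_le_one zero_le hy1.le hlt.le
        _ ≤ _ := by rw [pow_mul]; gcongr
    have h4 : (1 : ℝ≥0) ≤ (y ^ d)⁻¹ * (1 / 2 : ℝ≥0) ^ (J.filter fun j => G (ω j)).card := by
      rw [inv_mul_eq_div, le_div_iff₀ (by positivity), one_mul]; exact h3
    exact_mod_cast h4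
  calc _ ≤ ((1 : ℝ≥0∞) + d) ^ q * ((y ^ d)⁻¹ * z ^ J.card : ℝ≥0) := by gcongr
    _ ≤ _ := by
      have h3 : ((1 : ℝ≥0) + d) ^ q * ((y ^ d)⁻¹ * z ^ J.card) ≤ K * (z ^ 2)⁻¹ := by
        have h4 : z ^ J.card ≤ z ^ d * (z ^ 2)⁻¹ := by
          rw [← div_eq_mul_inv, le_div_iff₀ (by positivity), ← pow_add]
          exact pow_le_pow_of_le_one zero_le (hzy.trans hy1).le hd
        calc _ ≤ ((1 : ℝ≥0) + d) ^ q * ((y ^ d)⁻¹ * (z ^ d * (z ^ 2)⁻¹)) := by gcongr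
          _ = ((1 : ℝ≥0) + d) ^ q * (z / y) ^ d * (z ^ 2)⁻¹ := by rw [div_pow]; field_simp
          _ ≤ _ := by gcongr; exact hK d
      exact_mod_cast h3

end Pool.Agent.Lib.MP_0cd4b8_pr
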