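import Pool.Agent.Lib.MP_0cd4b8_pr.GW2

/-! Moment estimates. -/

set_option autoImplicit false

open MeasureTheory ProbabilityTheory Measure Filter Topology
open scoped ENNReal NNReal

namespace Pool.Agent.Lib.MP_0cd4b8_pr

lemma exists_one_lt_mul_lt {a b : ℝ≥0∞} (h : a < b) : ∃ l : ℝ≥0, 1 < l ∧ l * a < b := by
  obtain ⟨c, hac, hcb⟩ := ENNReal.lt_iff_exists_nnreal_btwn.1 h
  lift a to ℝ≥0 using hac.ne_top
  have hac' : a < c := by exact_mod_cast hac
  rcases eq_or_ne a 0 with rfl | ha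
  · exact ⟨2, by norm_num, by simpa using h⟩
  · refine ⟨c / a, by rwa [one_lt_div (pos_iff_ne_zero.2 ha)], ?_⟩
    rw [← ENNReal.coe_mul, div_mul_cancel₀ _ ha]
    exact hcb

lemma exists_pow_le_geom {l : ℝ≥0} (hl : 1 < l) (q : ℕ) :
    ∃ K : ℝ≥0, ∀ n : ℕ, (n : ℝ≥0∞) ^ q ≤ K * (l : ℝ≥0∞) ^ n := by
  obtain ⟨K, hK⟩ := pow_mul_geom_le (r := l⁻¹) (inv_lt_one_of_one_lt₀ hl) q
  refine ⟨K, fun n => ?_⟩
  have h0 : 0 < l := zero_lt_one.trans hl
  have h1 : (n : ℝ≥0) ^ q ≤ K * l ^ n := by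
    have h2 := hK n
    rw [inv_pow, ← div_eq_mul_inv, div_le_iff₀ (by positivity)] at h2
    refine le_trans ?_ h2
    gcongr
    exact le_add_self
  exact_mod_cast h1

lemma le_of_le_add_mul {m a r : ℝ≥0∞} (hm : m ≠ ⊤) (hr : r < 1) (h : m ≤ a + m * r) :
    m ≤ a * (1 - r)⁻¹ := by
  have h1 : 1 - r ≠ 0 := (tsub_pos_of_lt hr).ne'
  have h2 : 1 - r ≠ ⊤ := ne_top_of_le_ne_top ENNReal.one_ne_top tsub_le_self
  have h3 : m * (1 - r) ≤ a := by
    have e : m * (1 - r) + m * r = m := by rw [← mul_add, tsub_add_cancel_of_le hr.le, mul_one]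
    refine ENNReal.le_of_add_le_add_right (a := m * r) (ENNReal.mul_ne_top hm hr.ne_top) ?_
    rwa [e]
  calc m = m * (1 - r) * (1 - r)⁻¹ := by rw [mul_assoc, ENNReal.mul_inv_cancel h1 h2, mul_one]
    _ ≤ _ := by gcongr

lemma inv_bb_nnreal {ξ : Tr} (h : CC ξ ≠ 0) : (bb ξ)⁻¹ = (CC ξ)⁻¹ + 1 := by
  rw [bb_eq, hh_eq]
  field_simp

/-- Negative moments of the escape probability. -/
lemma neg_moment_bb (p : Measure ℕ) [IsProbabilityMeasure p] {y η : ℝ≥0}
    (hc : Contr p bb y η) (q : ℕ) :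
    ∫⁻ ξ, ind (bb ξ ≠ 0) * (bb ξ : ℝ≥0∞)⁻¹ ^ q ∂(gw p) ≠ ⊤ := by
  obtain ⟨l, hl1, hl2⟩ := exists_one_lt_mul_lt hc.dlt
  obtain ⟨K, hK⟩ := exists_pow_le_geom hl1 q
  have hl1' : (1 : ℝ≥0∞) ≤ l := by exact_mod_cast hl1.le
  set R : ℕ → Tr → ℕ := fun M ξ => min ⌈(bb ξ)⁻¹⌉₊ M with hR
  have hRm : ∀ M, Measurable (R M) := fun M =>
    (measurable_of_countable fun n => min n M).comp measurable_bb.inv.nat_ceil
  have hm0 : Measurable fun ξ => ind (bb ξ ≠ 0) := mind (measurable_bb.eq_const 0).not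
  have hφ : ∀ M, Measurable fun ξ => ind (bb ξ ≠ 0) * (l : ℝ≥0∞) ^ R M ξ := fun M =>
    hm0.fun_mul ((measurable_of_countable fun n => (l : ℝ≥0∞) ^ n).comp (hRm M))
  set a : ℝ≥0∞ := (l : ℝ≥0∞) ^ (⌈η⁻¹⌉₊ + 1) with ha
  have hB : ∀ M, ∫⁻ ξ, ind (bb ξ ≠ 0) * (l : ℝ≥0∞) ^ R M ξ ∂(gw p) ≤
      a * (1 - l * dpgf p y)⁻¹ := by
    intro M
    refine le_of_le_add_mul ?_ hl2 ?_
    · refine ne_top_of_le_ne_top (b := ∫⁻ _, (l : ℝ≥0∞) ^ M ∂(gw p)) (by simp) (lmono fun ξ => ?_)
      exact (ind_mul_le _ _).trans (pow_le_pow_right₀ hl1' (min_le_right _ _))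
    calc _ ≤ ∫⁻ ξ, (a + l * ∑ i ∈ Finset.range (ξ []), (ind (bb (sh [i] ξ) ≠ 0) *
          (l : ℝ≥0∞) ^ R M (sh [i] ξ)) * ∏ j ∈ (Finset.range (ξ [])).erase i,
            ind (bb (sh [j] ξ) < η)) ∂(gw p) := by
          refine lmono fun ξ => ind_mul_le_of fun hb => ?_
          have hC : CC ξ ≠ 0 := fun h => hb (by rw [bb_eq, h, zero_mul])
          have hne : (Finset.range (ξ [])).Nonempty := by
            rw [Finset.nonempty_iff_ne_empty]
            intro h
            exact hC (by rw [CC, h, Finset.sum_empty])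
          obtain ⟨i, hi, hmax⟩ := Finset.exists_max_image _ (fun i => bb (sh [i] ξ)) hne
          have hbi : bb (sh [i] ξ) ≠ 0 := fun h => hC (Finset.sum_eq_zero fun j hj =>
            le_antisymm (h ▸ hmax j hj) zero_le)
          have hle := bb_le_CC ξ (Finset.mem_range.1 hi)
          have hceil : ⌈(bb ξ)⁻¹⌉₊ ≤ ⌈(bb (sh [i] ξ))⁻¹⌉₊ + 1 := by
            rw [inv_bb_nnreal hC, Nat.ceil_add_one zero_le]
            gcongr
          rcases le_or_gt η (bb (sh [i] ξ)) with h | h
          · refine le_trans (pow_le_pow_right₀ hl1' ?_) le_self_add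
            refine (min_le_left _ _).trans (hceil.trans ?_)
            have := hc.pos
            gcongr
          · refine le_trans ?_ le_add_self
            refine le_trans ?_ (mul_le_mul_right (Finset.single_le_sum (f := fun i =>
              (ind (bb (sh [i] ξ) ≠ 0) * (l : ℝ≥0∞) ^ R M (sh [i] ξ)) *
                ∏ j ∈ (Finset.range (ξ [])).erase i, ind (bb (sh [j] ξ) < η))
              (fun _ _ => zero_le) hi) _)
            rw [ind_pos hbi, Finset.prod_eq_one fun j hj => ind_pos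
              ((hmax j (Finset.mem_of_mem_erase hj)).trans_lt h), one_mul, mul_one, ← pow_succ']
            refine pow_le_pow_right₀ hl1' ?_
            simp only [hR]
            omega
      _ ≤ _ := by
          rw [lintegral_add_left measurable_const, lintegral_const_mul' _ _ ENNReal.coe_ne_top,
            gw_leave_one_out p (hφ M) (mind (Measurable.lt measurable_bb measurable_const))]
          simp only [lintegral_const, measure_univ, mul_one]
          rw [mul_left_comm]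
          gcongr
          exact dpgf_mono p hc.small
  have hψ : ∀ M, Measurable fun ξ => ind (bb ξ ≠ 0) * (R M ξ : ℝ≥0∞) ^ q := fun M =>
    hm0.fun_mul ((measurable_of_countable fun n : ℕ => (n : ℝ≥0∞) ^ q).comp (hRm M))
  refine ne_top_of_le_ne_top (b := K * (a * (1 - l * dpgf p y)⁻¹)) ?_ ?_
  · refine ENNReal.mul_ne_top ENNReal.coe_ne_top (ENNReal.mul_ne_top (by simp [ha]) ?_)
    exact ENNReal.inv_ne_top.2 (tsub_pos_of_lt hl2).ne'
  calc _ ≤ ∫⁻ ξ, ⨆ M, ind (bb ξ ≠ 0) * (R M ξ : ℝ≥0∞) ^ q ∂(gw p) := by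
        refine lmono fun ξ => ind_mul_le_of fun hb => le_iSup_of_le ⌈(bb ξ)⁻¹⌉₊ ?_
        rw [ind_pos hb, one_mul, ← ENNReal.coe_inv hb]
        gcongr
        simp only [hR, min_self]
        exact_mod_cast Nat.le_ceil (bb ξ)⁻¹
    _ = ⨆ M, ∫⁻ ξ, ind (bb ξ ≠ 0) * (R M ξ : ℝ≥0∞) ^ q ∂(gw p) := by
        refine lintegral_iSup hψ fun a b hab ξ => ?_
        simp only [hR]
        gcongr
    _ ≤ _ := by
        refine iSup_le fun M => ?_
        calc _ ≤ ∫⁻ ξ, K * (ind (bb ξ ≠ 0) * (l : ℝ≥0∞) ^ R M ξ) ∂(gw p) := by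
              refine lmono fun ξ => ?_
              rw [mul_left_comm]
              gcongr
              exact hK _
          _ ≤ _ := by
              rw [lintegral_const_mul _ (hφ M)]
              gcongr
              exact hB M

/-- Number of vertices of depth less than `n`. -/
def sz : ℕ → Tr → ℕ
  | 0 => fun _ => 0
  | n + 1 => fun ξ => 1 + ∑ i ∈ Finset.range (ξ []), sz n (sh [i] ξ)

lemma measurable_sz (n : ℕ) : Measurable (sz n) := by
  induction n with
  | zero => exact measurable_const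
  | succ n ih =>
    exact measurable_const.add (measurable_sum_children (measurable_pi_apply [])
      fun i => ih.comp (measurable_sh [i]))

lemma sz_mono (ξ : Tr) : Monotone fun n => sz n ξ := by
  refine monotone_nat_of_le_succ fun n => ?_
  induction n generalizing ξ with
  | zero => exact Nat.zero_le _
  | succ n ih => exact Nat.add_le_add_left (Finset.sum_le_sum fun i _ => ih _) _

/-- Size of the tree on the event that `β` vanishes. -/
noncomputable def fsz (β : Tr → ℝ≥0) (ξ : Tr) : ℝ≥0∞ := ⨆ n, ind (β ξ = 0) * sz n ξ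

lemma measurable_fsz {β : Tr → ℝ≥0} (hβ : Measurable β) : Measurable (fsz β) :=
  Measurable.iSup fun n => (mind (hβ.eq_const 0)).fun_mul
    ((measurable_of_countable fun n : ℕ => (n : ℝ≥0∞)).comp (measurable_sz n))

lemma fsz_moment (p : Measure ℕ) [IsProbabilityMeasure p] {t : ℝ≥0} {β : Tr → ℝ≥0}
    (h : IsRec t β) (ht : 0 < t) {y η : ℝ≥0} (hc : Contr p β y η) (q : ℕ) :
    ∫⁻ ξ, fsz β ξ ^ (q + 1) ∂(gw p) ≠ ⊤ := by
  obtain ⟨l, hl1, hl2⟩ := exists_one_lt_mul_lt hc.flt
  obtain ⟨K, hK⟩ := exists_pow_le_geom hl1 (q + 1)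
  have hm0 : Measurable fun ξ => ind (β ξ = 0) := mind (h.meas.eq_const 0)
  have hφ : ∀ n, Measurable fun ξ => ind (β ξ = 0) * (l : ℝ≥0∞) ^ sz n ξ := fun n =>
    hm0.fun_mul ((measurable_of_countable fun n => (l : ℝ≥0∞) ^ n).comp (measurable_sz n))
  have hB : ∀ n, ∫⁻ ξ, ind (β ξ = 0) * (l : ℝ≥0∞) ^ sz n ξ ∂(gw p) ≤ y := by
    intro n
    induction n with
    | zero => simpa [sz] using hc.zero_le
    | succ n ih =>
      refine le_trans ?_ hl2.le
      calc _ = ∫⁻ ξ, l * ∏ i ∈ Finset.range (ξ []), (ind (β (sh [i] ξ) = 0) *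
            (l : ℝ≥0∞) ^ sz n (sh [i] ξ)) ∂(gw p) := by
            refine lintegral_congr fun ξ => ?_
            rw [Finset.prod_mul_distrib, ← ind_forall_finset, Finset.prod_pow_eq_pow_sum,
              h.eq_zero_iff ht ξ, Cs_eq_zero_iff, sz, pow_add]
            ring
        _ ≤ _ := by
            rw [lintegral_const_mul' _ _ ENNReal.coe_ne_top, gw_prod_children p (hφ n)]
            gcongr
            exact pgf_mono p ih
  have hψ : ∀ n, Measurable fun ξ => ind (β ξ = 0) * (sz n ξ : ℝ≥0∞) ^ (q + 1) := fun n =>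
    hm0.fun_mul ((measurable_of_countable fun n : ℕ => (n : ℝ≥0∞) ^ (q + 1)).comp
      (measurable_sz n))
  refine ne_top_of_le_ne_top (b := K * y) (by finiteness) ?_
  calc _ ≤ ∫⁻ ξ, ⨆ n, ind (β ξ = 0) * (sz n ξ : ℝ≥0∞) ^ (q + 1) ∂(gw p) := by
        refine lmono fun ξ => ?_
        by_cases hb : β ξ = 0
        · simp only [fsz, ind_pos hb, one_mul]
          rw [ENNReal.iSup_pow]
        · simp [fsz, ind_neg hb]
    _ = ⨆ n, ∫⁻ ξ, ind (β ξ = 0) * (sz n ξ : ℝ≥0∞) ^ (q + 1) ∂(gw p) := by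
        refine lintegral_iSup hψ fun a b hab ξ => ?_
        have := sz_mono ξ hab
        simp only at this ⊢
        gcongr
    _ ≤ _ := by
        refine iSup_le fun n => ?_
        calc _ ≤ ∫⁻ ξ, K * (ind (β ξ = 0) * (l : ℝ≥0∞) ^ sz n ξ) ∂(gw p) := by
              refine lmono fun ξ => ?_
              rw [mul_left_comm]
              gcongr
              exact hK _
          _ ≤ _ := by
              rw [lintegral_const_mul _ (hφ n)]
              gcongr
              exact hB n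

lemma Contr.good_pos {p : Measure ℕ} [IsProbabilityMeasure p] {β : Tr → ℝ≥0} (hβ : Measurable β)
    {y η : ℝ≥0} (hc : Contr p β y η) : ∫⁻ ξ, ind (η ≤ β ξ) ∂(gw p) ≠ 0 := by
  intro h0
  have h := lintegral_ind_add_not (gw p) (P := fun ξ => η ≤ β ξ) (Measurable.le' measurable_const hβ)
  simp_rw [not_le] at h
  rw [h0, zero_add] at h
  have := hc.small
  rw [h] at this
  exact absurd hc.lt_one (not_lt.2 (by exact_mod_cast this))

/-- Damping by the conductance of the other children compensates for large degrees. -/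
lemma damp_bound (p : Measure ℕ) [IsProbabilityMeasure p] {β : Tr → ℝ≥0} (hβ : Measurable β)
    {y η : ℝ≥0} (hc : Contr p β y η) (q : ℕ) : ∃ K : ℝ≥0, ∀ d i : ℕ,
    ∫⁻ ω, ((1 : ℝ≥0∞) + d) ^ q *
      (1 + ∑ j ∈ (Finset.range d).erase i, (β (ω j) : ℝ≥0∞))⁻¹ ^ q ∂(gws p) ≤ K := by
  classical
  obtain ⟨k, hk1, hk⟩ := chernoff p (G := fun ξ => η ≤ β ξ) (Measurable.le' measurable_const hβ)
    (hc.good_pos hβ)
  obtain ⟨K, hK⟩ := hk q
  refine ⟨K + (k / η) ^ q, fun d i => ?_⟩
  set J := (Finset.range d).erase i with hJ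
  have hd : d ≤ J.card + 2 := by
    have := Finset.pred_card_le_card_erase (s := Finset.range d) (a := i)
    rw [Finset.card_range, ← hJ] at this
    omega
  calc _ ≤ ∫⁻ ω, (((1 : ℝ≥0∞) + d) ^ q * ind (k * (J.filter fun j => η ≤ β (ω j)).card < d) +
        ((k / η) ^ q : ℝ≥0)) ∂(gws p) := by
        refine lmono fun ω => ?_
        by_cases h : k * (J.filter fun j => η ≤ β (ω j)).card < d
        · rw [ind_pos h]
          refine le_trans ?_ le_self_add
          gcongr
          exact pow_le_one₀ zero_le (ENNReal.inv_le_one.2 le_self_add)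
        · refine le_trans ?_ le_add_self
          rw [← mul_pow, ENNReal.coe_pow]
          gcongr
          set n := (J.filter fun j => η ≤ β (ω j)).card with hn
          have h1 : η * n ≤ ∑ j ∈ J, β (ω j) := by
            calc η * n = ∑ _j ∈ J.filter fun j => η ≤ β (ω j), η := by simp [hn, mul_comm]
              _ ≤ ∑ j ∈ J.filter fun j => η ≤ β (ω j), β (ω j) :=
                  Finset.sum_le_sum fun j hj => (Finset.mem_filter.1 hj).2
              _ ≤ _ := Finset.sum_le_sum_of_subset (Finset.filter_subset _ _)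
          have h2 : ((1 : ℝ≥0) + d) * (1 + ∑ j ∈ J, β (ω j))⁻¹ ≤ k / η := by
            rw [← div_eq_mul_inv, div_le_div_iff₀ (by positivity) hc.pos]
            have h3 : (d : ℝ≥0) ≤ k * n := by exact_mod_cast not_lt.1 h
            have h4 : η ≤ k := hc.le_one.trans (by exact_mod_cast hk1)
            calc ((1 : ℝ≥0) + d) * η ≤ (1 + k * n) * η := by gcongr
              _ = η + k * (η * n) := by ring
              _ ≤ k + k * ∑ j ∈ J, β (ω j) := by gcongr
              _ = _ := by ring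
          rw [← ENNReal.ofNNReal_finsetSum, ← ENNReal.coe_one, ← ENNReal.coe_add,
            ← ENNReal.coe_inv (by positivity)]
          exact_mod_cast h2
    _ ≤ _ := by
        rw [lintegral_add_right _ measurable_const, lintegral_const_mul' _ _ (by finiteness)]
        simp only [lintegral_const, measure_univ, mul_one, ENNReal.coe_add]
        gcongr
        exact hK d J hd

end Pool.Agent.Lib.MP_0cd4b8_pr
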