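import Pool.Agent.Lib.MP_0cd4b8_pr.Step

/-! Hitting and escape probabilities on the planted tree. -/

set_option autoImplicit false

open MeasureTheory ProbabilityTheory Measure
open scoped ENNReal NNReal

namespace Pool.Agent.Lib.MP_0cd4b8_pr

/-- The planted walk from `y` is absorbed. -/
def Hit (ξ : Tr) (y : Option (List ℕ)) (u : ℕ → ℝ) : Prop := ∃ k, path (pstep ξ) y u k = none

lemma measurable_ppath_param (y : Option (List ℕ)) (k : ℕ) :
    Measurable fun z : Tr × (ℕ → ℝ) => path (pstep z.1) y z.2 k :=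
  measurable_path_param (s := pstep) measurable_pstep_param y k

lemma measurable_ppath (ξ : Tr) (y : Option (List ℕ)) (k : ℕ) :
    Measurable fun u => path (pstep ξ) y u k := measurable_path (measurable_pstep ξ) y k

lemma measurable_Hit_param (y : Option (List ℕ)) :
    Measurable fun z : Tr × (ℕ → ℝ) => Hit z.1 y z.2 :=
  Measurable.exists fun k => (measurable_ppath_param y k).eq_const _

lemma measurable_Hit (ξ : Tr) (y : Option (List ℕ)) : Measurable (Hit ξ y) :=
  Measurable.exists fun k => (measurable_ppath ξ y k).eq_const _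

/-- Absorption probability. -/
noncomputable def aw (ξ : Tr) (y : Option (List ℕ)) : ℝ≥0∞ := ∫⁻ u, ind (Hit ξ y u) ∂nu

lemma aw_le_one (ξ : Tr) (y : Option (List ℕ)) : aw ξ y ≤ 1 := lintegral_ind_le_one _ _

lemma measurable_aw (y : Option (List ℕ)) : Measurable fun ξ => aw ξ y :=
  Measurable.lintegral_prod_right' (f := fun z : Tr × (ℕ → ℝ) => ind (Hit z.1 y z.2))
    (measurable_ind.comp (measurable_Hit_param y))

/-- Probability of absorption from the root. -/
noncomputable def hh (ξ : Tr) : ℝ≥0 := (aw ξ (some [])).toNNReal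

/-- Probability of escape from the root. -/
noncomputable def bb (ξ : Tr) : ℝ≥0 := (∫⁻ u, ind (¬Hit ξ (some []) u) ∂nu).toNNReal

/-- Effective conductance. -/
noncomputable def CC (ξ : Tr) : ℝ≥0 := ∑ i ∈ Finset.range (ξ []), bb (sh [i] ξ)

lemma coe_hh (ξ : Tr) : (hh ξ : ℝ≥0∞) = aw ξ (some []) :=
  ENNReal.coe_toNNReal (ne_top_of_le_ne_top ENNReal.one_ne_top (aw_le_one _ _))

lemma coe_bb (ξ : Tr) : (bb ξ : ℝ≥0∞) = ∫⁻ u, ind (¬Hit ξ (some []) u) ∂nu :=
  ENNReal.coe_toNNReal (ne_top_of_le_ne_top ENNReal.one_ne_top (lintegral_ind_le_one _ _))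

lemma hh_add_bb (ξ : Tr) : hh ξ + bb ξ = 1 := by
  have := lintegral_ind_add_not nu (measurable_Hit ξ (some []))
  rw [← coe_bb, ← aw, ← coe_hh] at this
  exact_mod_cast this

lemma bb_le_one (ξ : Tr) : bb ξ ≤ 1 := by rw [← hh_add_bb ξ]; exact le_add_self
lemma hh_le_one (ξ : Tr) : hh ξ ≤ 1 := by rw [← hh_add_bb ξ]; exact le_self_add

@[fun_prop]
lemma measurable_bb : Measurable bb :=
  (Measurable.lintegral_prod_right' (f := fun z : Tr × (ℕ → ℝ) => ind (¬Hit z.1 (some []) z.2))
    (measurable_ind.comp (measurable_Hit_param _).not)).ennreal_toNNReal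

@[fun_prop]
lemma measurable_hh : Measurable hh := (measurable_aw _).ennreal_toNNReal

lemma measurable_sum_children {α M : Type*} [MeasurableSpace α] [AddCommMonoid M]
    [MeasurableSpace M] [MeasurableAdd₂ M] {d : α → ℕ} (hd : Measurable d) {f : ℕ → α → M}
    (hf : ∀ i, Measurable (f i)) : Measurable fun a => ∑ i ∈ Finset.range (d a), f i a := by
  have h1 : Measurable fun w : ℕ × α => ∑ i ∈ Finset.range w.1, f i w.2 :=
    measurable_from_prod_countable_right fun n =>
      Finset.measurable_sum (Finset.range n) fun i _ => hf i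
  exact h1.comp (hd.prodMk measurable_id)

@[fun_prop]
lemma measurable_CC : Measurable CC :=
  measurable_sum_children (measurable_pi_apply []) fun i => measurable_bb.comp (measurable_sh [i])

lemma aw_child (ξ : Tr) (i : ℕ) (v : List ℕ) :
    aw ξ (some (v ++ [i])) = aw (sh [i] ξ) (some v) * aw ξ (some []) := by
  have h := lintegral_first_hit (measurable_pstep ξ) (some (v ++ [i])) (some [])
    (φ := fun u => ind (Hit ξ (some []) u)) (measurable_ind.comp (measurable_Hit _ _))
  simp_rw [embed_hit_iff (hs_planted ξ) (Option.some_injective _)] at h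
  rw [aw, aw, aw]
  refine Eq.trans (lintegral_congr fun u => ?_) h
  simp_rw [← ind_and]
  rw [← ind_exists_eq]
  · congr 1
    refine propext ⟨fun ⟨k, hk⟩ => ?_, fun ⟨k, ⟨h1, _⟩, j, hj⟩ => ⟨k + j, ?_⟩⟩
    · have h1 : ∃ k, path (pstep ξ) (some (v ++ [i])) u k = some [] := by
        refine embed_hit (hs_planted ξ) i v u ⟨k, ?_⟩
        cases hk' : path (pstep (sh [i] ξ)) (some v) u k with
        | none => rfl
        | some w => rw [embed_some (hs_planted ξ) i v u k hk'] at hk; simp at hk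
      classical
      have h2 := Nat.find_spec h1
      refine ⟨Nat.find h1, ⟨h2, fun j hj => Nat.find_min h1 hj⟩, ?_⟩
      rcases le_total k (Nat.find h1) with h3 | h3
      · rw [path_none_of_le hk h3] at h2; simp at h2
      · obtain ⟨j, hj⟩ := Nat.exists_eq_add_of_le h3
        refine ⟨j, ?_⟩
        rw [hj, path_add, h2] at hk
        exact hk
    · rw [path_add, h1, hj]
  · rintro i j ⟨⟨hi, hi'⟩, _⟩ ⟨⟨hj, hj'⟩, _⟩
    by_contra hne
    rcases lt_or_gt_of_ne hne with h | h
    · exact hj' i h hi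
    · exact hi' j h hj

lemma aw_none (ξ : Tr) : aw ξ none = 1 := by
  have : ∀ u, ind (Hit ξ none u) = 1 := fun u => ind_pos ⟨0, rfl⟩
  simp [aw, this]

lemma aw_first_step (ξ : Tr) (v : List ℕ) :
    aw ξ (some v) = ∫⁻ t, aw ξ (pstep ξ (some v) t) ∂unif := by
  unfold aw
  rw [← lintegral_first_step (measurable_pstep ξ) (some v) (G := fun y u => ind (Hit ξ y u))
    fun y => measurable_ind.comp (measurable_Hit _ _)]
  refine lintegral_congr fun u => ?_
  congr 1
  refine propext ⟨fun ⟨k, hk⟩ => ?_, fun ⟨k, hk⟩ => ⟨k + 1, by rwa [path_succ']⟩⟩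
  cases k with
  | zero => simp at hk
  | succ k => exact ⟨k, by rwa [path_succ'] at hk⟩

lemma hh_mul (ξ : Tr) : hh ξ * (1 + CC ξ) = 1 := by
  have h := pstep_law ξ [] (aw ξ)
  rw [← aw_first_step, par, aw_none] at h
  have h2 : ∀ j, aw ξ (some [j]) = (hh (sh [j] ξ) * hh ξ : ℝ≥0) := fun j => by
    have := aw_child ξ j []
    rw [List.nil_append, ← coe_hh, ← coe_hh] at this
    rw [this]; simp
  simp_rw [h2] at h
  rw [← coe_hh] at h
  have h3 : ((ξ [] : ℝ≥0) + 1) * hh ξ =
      1 + ∑ j ∈ Finset.range (ξ []), hh (sh [j] ξ) * hh ξ := by exact_mod_cast h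
  have h4 : ∑ j ∈ Finset.range (ξ []), hh (sh [j] ξ) + CC ξ = ξ [] := by
    rw [CC, ← Finset.sum_add_distrib]
    simp [hh_add_bb]
  rw [← Finset.sum_mul, ← h4] at h3
  have h5 : ((∑ j ∈ Finset.range (ξ []), hh (sh [j] ξ) + CC ξ + 1) * hh ξ : ℝ) =
      1 + (∑ j ∈ Finset.range (ξ []), hh (sh [j] ξ) : ℝ≥0) * hh ξ := by exact_mod_cast h3
  have : (hh ξ : ℝ) * (1 + CC ξ) = 1 := by
    push_cast at h5 ⊢
    linarith
  exact_mod_cast this

lemma bb_eq (ξ : Tr) : bb ξ = CC ξ * hh ξ := by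
  have h1 : (hh ξ : ℝ) * (1 + CC ξ) = 1 := by exact_mod_cast hh_mul ξ
  have h2 : (hh ξ : ℝ) + bb ξ = 1 := by exact_mod_cast hh_add_bb ξ
  have : (bb ξ : ℝ) = CC ξ * hh ξ := by linarith
  exact_mod_cast this

lemma hh_eq (ξ : Tr) : hh ξ = (1 + CC ξ)⁻¹ := eq_inv_of_mul_eq_one_left (hh_mul ξ)

lemma hh_pos (ξ : Tr) : 0 < hh ξ := by rw [hh_eq]; positivity

lemma bb_eq_div (ξ : Tr) : bb ξ = 1 * CC ξ / (1 + CC ξ) := by
  rw [bb_eq, hh_eq, one_mul, div_eq_mul_inv]

lemma CC_le (ξ : Tr) : CC ξ ≤ ξ [] := by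
  calc CC ξ ≤ ∑ _i ∈ Finset.range (ξ []), (1 : ℝ≥0) := Finset.sum_le_sum fun i _ => bb_le_one _
    _ = _ := by simp

lemma bb_le_CC (ξ : Tr) {i : ℕ} (hi : i < ξ []) : bb (sh [i] ξ) ≤ CC ξ :=
  Finset.single_le_sum (f := fun i => bb (sh [i] ξ)) (fun _ _ => zero_le)
    (Finset.mem_range.2 hi)

/-- The walk from `y` leaves the root for the last time at time `k`, towards the child `w`. -/
def Via (ξ : Tr) (w : ℕ) (y : Option (List ℕ)) (k : ℕ) (x : ℕ → ℝ) : Prop :=
  (path (pstep ξ) y x k = some [] ∧ path (pstep ξ) y x (k + 1) = some [w]) ∧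
    ¬Hit (sh [w] ξ) (some []) (shift (k + 1) x)

lemma measurable_Via (ξ : Tr) (w : ℕ) (y : Option (List ℕ)) (k : ℕ) :
    Measurable (Via ξ w y k) :=
  (((measurable_ppath ξ y k).eq_const _).and ((measurable_ppath ξ y (k + 1)).eq_const _)).and
    ((measurable_Hit _ _).comp (measurable_shift _)).not

lemma Via.post {ξ : Tr} {w : ℕ} {y : Option (List ℕ)} {k : ℕ} {x : ℕ → ℝ} (h : Via ξ w y k x)
    (j : ℕ) {z : List ℕ} (hz : path (pstep (sh [w] ξ)) (some []) (shift (k + 1) x) j = some z) :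
    path (pstep ξ) y x (k + 1 + j) = some (z ++ [w]) := by
  rw [path_add, h.1.2]
  exact embed_some (hs_planted ξ) w [] _ j hz

lemma Via.post' {ξ : Tr} {w : ℕ} {y : Option (List ℕ)} {k : ℕ} {x : ℕ → ℝ} (h : Via ξ w y k x)
    (j : ℕ) : ∃ z, path (pstep ξ) y x (k + 1 + j) = some (z ++ [w]) := by
  cases hk' : path (pstep (sh [w] ξ)) (some []) (shift (k + 1) x) j with
  | none => exact absurd ⟨j, hk'⟩ h.2
  | some z => exact ⟨z, h.post j hk'⟩

lemma Via.unique {ξ : Tr} {w w' : ℕ} {y : Option (List ℕ)} {k k' : ℕ} {x : ℕ → ℝ}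
    (h : Via ξ w y k x) (h' : Via ξ w' y k' x) : k = k' ∧ w = w' := by
  have key : ∀ {w w' k k'}, Via ξ w y k x → Via ξ w' y k' x → ¬k < k' := by
    intro w w' k k' h h' hlt
    obtain ⟨j, rfl⟩ := Nat.exists_eq_add_of_lt hlt
    obtain ⟨z, hz⟩ := h.post' j
    have := h'.1.1
    rw [show k + j + 1 = k + 1 + j by omega, hz] at this
    simp at this
  have hk : k = k' := by
    have := key h h'
    have := key h' h
    omega
  subst hk
  have := h.1.2.symm.trans h'.1.2
  exact ⟨rfl, by simpa using this⟩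

lemma Via.not_hit {ξ : Tr} {w : ℕ} {y : Option (List ℕ)} {k : ℕ} {x : ℕ → ℝ}
    (h : Via ξ w y k x) : ¬Hit ξ y x := by
  rintro ⟨j, hj⟩
  obtain ⟨z, hz⟩ := h.post' j
  rw [path_none_of_le hj (by omega)] at hz
  simp at hz

lemma lintegral_two_step (ξ : Tr) (y y' : Option (List ℕ)) (k : ℕ) :
    ∫⁻ x, ind (path (pstep ξ) y x k = some [] ∧ path (pstep ξ) y x (k + 1) = y') ∂nu =
      (∫⁻ x, ind (path (pstep ξ) y x k = some []) ∂nu) *
        ∫⁻ t, ind (pstep ξ (some []) t = y') ∂unif := by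
  have hm : Measurable fun t => ind (pstep ξ (some []) t = y') :=
    measurable_ind.comp ((measurable_pstep ξ _).eq_const _)
  rw [← lintegral_eval (fun _ : ℕ => unif) 0 hm]
  refine Eq.trans (lintegral_congr fun x => ?_) (lintegral_mul_shift k
    (f := fun x => ind (path (pstep ξ) y x k = some []))
    (g := fun x => ind (pstep ξ (some []) (x 0) = y'))
    (measurable_ind.comp ((measurable_ppath ξ y k).eq_const _))
    (hm.comp (measurable_pi_apply 0)) fun a b h => by rw [path_congr _ _ h])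
  rw [← ind_and]
  congr 1
  refine propext (and_congr_right fun h => ?_)
  rw [path_succ, h]
  rfl

lemma pstep_prob_child (ξ : Tr) {w : ℕ} (hw : w < ξ []) :
    ∫⁻ t, ind (pstep ξ (some []) t = some [w]) ∂unif =
      ∫⁻ t, ind (pstep ξ (some []) t = none) ∂unif := by
  have h1 := pstep_law ξ [] fun y => ind (y = some [w])
  have h2 := pstep_law ξ [] fun y => ind (y = none)
  rw [Finset.sum_eq_single w (fun b _ hb => ind_neg (by simpa using hb))
    (fun h => absurd (Finset.mem_range.2 hw) h)] at h1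
  simp only [par, reduceCtorEq, ind_false, ind_true, zero_add, Finset.sum_const_zero,
    add_zero] at h1 h2
  exact (ENNReal.mul_right_inj (a := (ξ [] : ℝ≥0∞) + 1) (by simp) (by simp)).1 (h1.trans h2.symm)

lemma aw_eq_tsum (ξ : Tr) (v : List ℕ) :
    aw ξ (some v) = ∑' k, ∫⁻ x, ind (path (pstep ξ) (some v) x k = some [] ∧
      path (pstep ξ) (some v) x (k + 1) = none) ∂nu := by
  rw [← lintegral_tsum]
  · refine lintegral_congr fun x => ?_
    rw [← ind_exists_eq]
    · congr 1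
      refine propext ⟨fun h => ?_, fun ⟨k, _, hk⟩ => ⟨k + 1, hk⟩⟩
      classical
      have h1 := Nat.find_spec h
      cases hk : Nat.find h with
      | zero => rw [hk] at h1; simp at h1
      | succ k =>
        have h2 := Nat.find_min h (m := k) (by omega)
        rw [hk] at h1
        refine ⟨k, ?_, h1⟩
        rw [path_succ] at h1
        cases hk' : path (pstep ξ) (some v) x k with
        | none => exact absurd hk' h2
        | some w => rw [hk'] at h1; rw [pstep_eq_none h1]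
    · rintro i j ⟨hi, hi'⟩ ⟨hj, hj'⟩
      by_contra hne
      rcases lt_or_gt_of_ne hne with h | h
      · rw [path_none_of_le hi' h] at hj; simp at hj
      · rw [path_none_of_le hj' h] at hi; simp at hi
  · exact fun k => (measurable_ind.comp (((measurable_ppath ξ _ k).eq_const _).and
      ((measurable_ppath ξ _ (k + 1)).eq_const _))).aemeasurable

lemma measurable_Via_sum (ξ : Tr) (w : ℕ) (y : Option (List ℕ)) {φ : (ℕ → ℝ) → ℝ≥0∞}
    (hφ : Measurable φ) : Measurable fun x => ∑' k, ind (Via ξ w y k x) * φ (shift (k + 1) x) :=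
  Measurable.tsum fun k => (measurable_ind.comp (measurable_Via ξ w y k)).fun_mul
    (hφ.comp (measurable_shift _))

/-- Last exit decomposition. -/
lemma lintegral_Via (ξ : Tr) {w : ℕ} (hw : w < ξ []) (v : List ℕ) {φ : (ℕ → ℝ) → ℝ≥0∞}
    (hφ : Measurable φ) :
    ∫⁻ x, ∑' k, ind (Via ξ w (some v) k x) * φ (shift (k + 1) x) ∂nu =
      aw ξ (some v) * ∫⁻ x, ind (¬Hit (sh [w] ξ) (some []) x) * φ x ∂nu := by
  rw [lintegral_tsum, aw_eq_tsum, ← ENNReal.tsum_mul_right]
  · refine tsum_congr fun k => ?_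
    rw [lintegral_two_step, ← pstep_prob_child ξ hw, ← lintegral_two_step]
    refine Eq.trans (lintegral_congr fun x => ?_) (lintegral_mul_shift (k + 1)
      (f := fun x => ind (path (pstep ξ) (some v) x k = some [] ∧
        path (pstep ξ) (some v) x (k + 1) = some [w]))
      (g := fun x => ind (¬Hit (sh [w] ξ) (some []) x) * φ x)
      (measurable_ind.comp (((measurable_ppath ξ _ k).eq_const _).and
        ((measurable_ppath ξ _ (k + 1)).eq_const _)))
      ((measurable_ind.comp (measurable_Hit _ _).not).fun_mul hφ) fun a b h => ?_)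
    · rw [Via, ind_and, mul_assoc]
    · rw [path_congr _ _ h, path_congr _ _ (k := k) fun i hi => h i (by omega)]
  · exact fun k => ((measurable_ind.comp (measurable_Via ξ w _ k)).fun_mul
      (hφ.comp (measurable_shift _))).aemeasurable

lemma measurable_exists_Via (ξ : Tr) (w : ℕ) (y : Option (List ℕ)) :
    Measurable fun x => ∃ k, Via ξ w y k x := Measurable.exists fun k => measurable_Via ξ w y k

lemma prob_Via (ξ : Tr) {w : ℕ} (hw : w < ξ []) (v : List ℕ) :
    ∫⁻ x, ind (∃ k, Via ξ w (some v) k x) ∂nu = aw ξ (some v) * bb (sh [w] ξ) := by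
  have h := lintegral_Via ξ hw v (φ := fun _ => 1) measurable_const
  simp only [mul_one] at h
  rw [coe_bb, ← h]
  exact lintegral_congr fun x => ind_exists_eq fun i j hi hj => (hi.unique hj).1

lemma ae_Via (ξ : Tr) : ∀ᵐ x ∂nu, ¬Hit ξ (some []) x →
    ∃ w ∈ Finset.range (ξ []), ∃ k, Via ξ w (some []) k x := by
  set B : (ℕ → ℝ) → Prop := fun x => ∃ w ∈ Finset.range (ξ []), ∃ k, Via ξ w (some []) k x
  have hBm : Measurable B := Measurable.exists fun w => measurable_const.and
    (measurable_exists_Via ξ w _)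
  have h1 : ∫⁻ x, ind (B x) ∂nu = bb ξ := by
    rw [lintegral_ind_exists_finset nu _ (fun w => measurable_exists_Via ξ w _)
      fun c c' x ⟨_, h⟩ ⟨_, h'⟩ => (h.unique h').2,
      Finset.sum_congr rfl fun w hw => prob_Via ξ (Finset.mem_range.1 hw) [], ← coe_hh,
      ← Finset.mul_sum, bb_eq ξ, CC]
    push_cast
    ring
  have hm : Measurable fun x => ¬Hit ξ (some []) x ∧ ¬B x :=
    (measurable_Hit _ _).not.and hBm.not
  have h2 : ∫⁻ x, ind (B x) ∂nu + ∫⁻ x, ind (¬Hit ξ (some []) x ∧ ¬B x) ∂nu = bb ξ := by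
    rw [← lintegral_add_left (mind hBm), coe_bb]
    refine lintegral_congr fun x => ?_
    by_cases hb : B x
    · obtain ⟨w, _, k, hk⟩ := id hb
      rw [ind_pos hb, ind_pos hk.not_hit, ind_neg (fun h => h.2 hb), add_zero]
    · simp [hb]
  rw [h1] at h2
  have h3 : ∫⁻ x, ind (¬Hit ξ (some []) x ∧ ¬B x) ∂nu = 0 := by
    have := ENNReal.add_right_inj (a := bb ξ) ENNReal.coe_ne_top
      (b := ∫⁻ x, ind (¬Hit ξ (some []) x ∧ ¬B x) ∂nu) (c := 0)
    exact this.1 (by rw [h2, add_zero])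
  rw [lintegral_eq_zero_iff (mind hm)] at h3
  filter_upwards [h3] with x hx hn
  by_contra hb
  simp only [Pi.zero_apply, ind_eq_zero] at hx
  exact hx ⟨hn, hb⟩

/-- Decomposition of an escaping walk according to the child through which it escapes. -/
lemma lintegral_esc_le (ξ : Tr) {F : (ℕ → ℝ) → ℝ≥0∞} {φ : ℕ → (ℕ → ℝ) → ℝ≥0∞}
    (hφ : ∀ w, Measurable (φ w))
    (hF : ∀ w < ξ [], ∀ k x, Via ξ w (some []) k x → F x ≤ φ w (shift (k + 1) x)) :
    ∫⁻ x, ind (¬Hit ξ (some []) x) * F x ∂nu ≤ hh ξ * ∑ w ∈ Finset.range (ξ []),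
      ∫⁻ x, ind (¬Hit (sh [w] ξ) (some []) x) * φ w x ∂nu := by
  rw [Finset.mul_sum, coe_hh, ← Finset.sum_congr rfl fun w hw =>
    lintegral_Via ξ (Finset.mem_range.1 hw) [] (hφ w),
    ← lintegral_finsetSum _ fun w _ => measurable_Via_sum ξ w _ (hφ w)]
  refine lintegral_mono_ae ?_
  filter_upwards [ae_Via ξ] with x hx
  refine ind_mul_le_of fun hn => ?_
  obtain ⟨w, hw, k, hk⟩ := hx hn
  refine le_trans ?_ (Finset.single_le_sum (f := fun w => ∑' k, ind (Via ξ w (some []) k x) *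
    φ w (shift (k + 1) x)) (fun _ _ => zero_le) hw)
  refine le_trans ?_ (ENNReal.le_tsum k)
  rw [ind_pos hk, one_mul]
  exact hF w (Finset.mem_range.1 hw) k x hk

end Pool.Agent.Lib.MP_0cd4b8_pr
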