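import Pool.Agent.Lib.MP_0cd4b8_pr.RecQ3

/-! The weighted loss bound. -/

set_option autoImplicit false

open MeasureTheory ProbabilityTheory Measure Filter Topology Sum
open scoped ENNReal NNReal

namespace Pool.Agent.Lib.MP_0cd4b8_pr

/-- Good subtrees. -/
def Good (β₀ : ℝ≥0) (θ : Tr) : Prop := β₀ ≤ bb θ ∧ β₀ ≤ hh θ

noncomputable instance (β₀ : ℝ≥0) : DecidablePred (Good β₀) := Classical.decPred _

lemma measurable_Good (β₀ : ℝ≥0) : Measurable (Good β₀) :=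
  (Measurable.le' measurable_const measurable_bb).and
    (Measurable.le' measurable_const measurable_hh)

/-- Negative moment. -/
noncomputable def nb (θ : Tr) : ℝ≥0∞ := ind (bb θ ≠ 0) * (bb θ : ℝ≥0∞)⁻¹ ^ 4

lemma measurable_nb : Measurable nb :=
  (mind (measurable_bb.eq_const 0).not).fun_mul (by fun_prop)

/-- Number of good children other than `a` and `w`. -/
noncomputable def ng (β₀ : ℝ≥0) (d w a : ℕ) (ω : ℕ → Tr) : ℕ :=
  ((((Finset.range d).erase a).erase w).filter fun j => Good β₀ (ω j)).card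

lemma measurable_ng (β₀ : ℝ≥0) (d w a : ℕ) : Measurable (ng β₀ d w a) := by
  unfold ng
  simp_rw [Finset.card_filter]
  exact Finset.measurable_sum _ fun j _ => Measurable.ite
    (measurableSet_setOfPred.2 ((measurable_Good β₀).comp (measurable_pi_apply j)))
    measurable_const measurable_const

/-- The bound for a pair of children. -/
noncomputable def Tm (μ β₀ : ℝ≥0) (k d w a : ℕ) (ω : ℕ → Tr) : ℝ≥0∞ :=
  nb (ω a) * (Psi μ (ω w) * ((1 + d) ^ 4 * ind (k * ng β₀ d w a ω < d))) +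
    (d : ℝ≥0∞)⁻¹ ^ 2 * Psi μ (ω w) +
    (d : ℝ≥0∞)⁻¹ ^ 3 * ∑ j ∈ (Finset.range d).erase a, nb (ω a) * Psi μ (ω j)

lemma Lo_le {μ : ℝ≥0} {ξ : Tr} {w a : ℕ} {X Y : ℝ≥0∞} (hX : X ≠ ⊤)
    (h : ∀ s, lo μ ξ w a s ≤ X * Gt μ (sh [w] ξ) (fun y => UU y ^ 4) s + Y) :
    Lo μ ξ w a ≤ X * Psi μ (sh [w] ξ) + Y := by
  calc _ ≤ ∫⁻ x, (X * (ind (¬Hit (sh [w] ξ) (some []) x) *
        Gt μ (sh [w] ξ) (fun y => UU y ^ 4) (rng (sh [w] ξ) [] x)) + Y) ∂nu := by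
        refine lmono fun x => ind_mul_le_of fun hx => ?_
        rw [ind_pos hx, one_mul]
        exact h _
    _ = _ := by
        rw [lintegral_add_right _ measurable_const, lintegral_const_mul' _ _ hX, lintegral_const,
          measure_univ, mul_one]
        rfl

lemma coe_inv_hh (ξ : Tr) : (hh ξ : ℝ≥0∞)⁻¹ = 1 + CC ξ := by
  rw [hh_eq, ENNReal.coe_inv (by positivity), inv_inv]; simp

lemma inv_hh_le (ξ : Tr) : (hh ξ : ℝ≥0∞)⁻¹ ≤ 1 + ξ [] := by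
  rw [coe_inv_hh]
  exact add_le_add le_rfl (by exact_mod_cast CC_le ξ)

lemma loss_pt {β₀ : ℝ≥0} (hβ : β₀ ≠ 0) {k : ℕ} (hk : 1 ≤ k) : ∃ K : ℝ≥0∞, K ≠ ⊤ ∧
    ∀ μ : ℝ≥0, μ ≠ 0 →
    4 * (β₀ : ℝ≥0∞)⁻¹ * ex (μ * (β₀ * ((2 * k)⁻¹ : ℝ≥0) * 4⁻¹) * β₀) ≤ 2⁻¹ →
    ∀ (ξ : Tr) (g : ℝ≥0∞), g ≤ 1 → g ≤ (CC ξ : ℝ≥0∞)⁻¹ → ∀ w ∈ Finset.range (ξ []),
    ∀ a ∈ (Finset.range (ξ [])).erase w,
      g * (bb (sh [a] ξ) * (CC ξ : ℝ≥0∞)⁻¹ * Lo μ ξ w a) ≤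
        (μ : ℝ≥0∞)⁻¹ ^ 4 * K * Tm μ β₀ k (ξ []) w a fun j => sh [j] ξ := by
  have hk0 : (k : ℝ≥0) ≠ 0 := by simp only [ne_eq, Nat.cast_eq_zero]; omega
  set c : ℝ≥0 := (2 * k)⁻¹ with hc
  have hc0 : c ≠ 0 := by rw [hc]; positivity
  set c₁ : ℝ≥0∞ := β₀ * c * 4⁻¹ with hc₁
  have hc1 : c₁ ≠ 0 := by simp [hc₁, hβ, hc0]
  have hc2 : c₁ ≠ ⊤ := by rw [hc₁]; finiteness
  set X : ℝ≥0∞ := (β₀ : ℝ≥0∞)⁻¹ * k with hX
  set Y : ℝ≥0∞ := 48 * c₁⁻¹ ^ 4 with hY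
  have hXt : X ≠ ⊤ := ENNReal.mul_ne_top (by simpa using hβ) (by simp)
  have hYt : Y ≠ ⊤ := ENNReal.mul_ne_top (by simp) (ENNReal.pow_ne_top (by simpa using hc1))
  refine ⟨24 + Y * X ^ 2 + Y * X ^ 3, by finiteness, fun μ hμ hr ξ g hg1 hg2 w hw a ha => ?_⟩
  by_cases hb : bb (sh [a] ξ) = 0
  · simp [hb]
  obtain ⟨haw, ha⟩ := Finset.mem_erase.1 ha
  have hw' : w ∈ (Finset.range (ξ [])).erase a := Finset.mem_erase.2 ⟨haw.symm, hw⟩
  have hμ' : (μ : ℝ≥0∞) ≠ 0 := by simpa using hμ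
  have hb' : (bb (sh [a] ξ) : ℝ≥0∞) ≠ 0 := by simpa using hb
  have hnb : nb (sh [a] ξ) = (bb (sh [a] ξ) : ℝ≥0∞)⁻¹ ^ 4 := by rw [nb, ind_pos hb, one_mul]
  rcases lt_or_ge (k * ng β₀ (ξ []) w a fun j => sh [j] ξ) (ξ []) with h | h
  · have h1 := Lo_le (Y := 0) (ENNReal.mul_ne_top (by simp) (ENNReal.pow_ne_top
      (by simp [hμ, hb, (hh_pos ξ).ne']))) fun s => (lo_le_one hμ ξ hb hw' s).trans le_self_add
    have h2 : (bb (sh [a] ξ) : ℝ≥0∞) * (CC ξ : ℝ≥0∞)⁻¹ ≤ 1 :=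
      le_trans (by gcongr; exact bb_le_CC ξ (Finset.mem_range.1 ha)) (ENNReal.mul_inv_le_one _)
    rw [add_zero, ENNReal.mul_inv (Or.inl hμ') (Or.inl ENNReal.coe_ne_top),
      ENNReal.mul_inv (Or.inl hb') (Or.inl ENNReal.coe_ne_top)] at h1
    calc _ ≤ 1 * (1 * (24 * ((μ : ℝ≥0∞)⁻¹ * ((bb (sh [a] ξ) : ℝ≥0∞)⁻¹ * (1 + ξ []))) ^ 4 *
          Psi μ (sh [w] ξ))) := by
          gcongr
          refine h1.trans ?_
          gcongr
          exact inv_hh_le ξ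
      _ = (μ : ℝ≥0∞)⁻¹ ^ 4 * 24 * (nb (sh [a] ξ) * (Psi μ (sh [w] ξ) * ((1 + ξ []) ^ 4 *
          ind (k * (ng β₀ (ξ []) w a fun j => sh [j] ξ) < ξ [])))) := by
          rw [hnb, ind_pos h]; ring
      _ ≤ _ := by
          gcongr
          · exact le_add_right le_self_add
          · exact le_add_right le_self_add
  · set J := (((Finset.range (ξ [])).erase a).erase w).filter fun j => Good β₀ (sh [j] ξ) with hJ
    have hD : 1 ≤ ξ [] := by have := Finset.mem_range.1 hw; omega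
    have h' : ξ [] ≤ k * J.card := h
    have hJ0 : J.card ≠ 0 := fun h0 => by rw [h0] at h'; omega
    have hn : (J.card : ℝ≥0∞)⁻¹ ≤ k * (ξ [] : ℝ≥0∞)⁻¹ := by
      have h1 : ((k : ℝ≥0∞) * J.card)⁻¹ ≤ (ξ [] : ℝ≥0∞)⁻¹ :=
        ENNReal.inv_le_inv.2 (by exact_mod_cast h')
      rw [ENNReal.mul_inv (by simp) (by simp)] at h1
      calc _ = k * ((k : ℝ≥0∞)⁻¹ * (J.card : ℝ≥0∞)⁻¹) := by
            rw [← mul_assoc, ENNReal.mul_inv_cancel (by exact_mod_cast hk0) (by simp), one_mul]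
        _ ≤ _ := by gcongr
    have hcJ : (c : ℝ≥0∞) ≤ J.card * hh ξ := by
      have h1 : c ≤ J.card * hh ξ := by
        rw [hh_eq, hc, ← div_eq_mul_inv, le_div_iff₀ (by positivity), inv_mul_le_iff₀ (by positivity)]
        have h2 : (1 : ℝ≥0) + ξ [] ≤ 2 * k * J.card := by
          exact_mod_cast (by nlinarith : 1 + ξ [] ≤ 2 * k * J.card)
        exact le_trans (add_le_add le_rfl (CC_le ξ)) h2
      exact_mod_cast h1
    have hC : (CC ξ : ℝ≥0∞)⁻¹ ≤ X * (ξ [] : ℝ≥0∞)⁻¹ := by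
      have h1 : (β₀ : ℝ≥0∞) * J.card ≤ CC ξ := by
        rw [coe_CC, mul_comm, ← nsmul_eq_mul]
        refine (Finset.card_nsmul_le_sum J (fun j => (bb (sh [j] ξ) : ℝ≥0∞)) _ fun j hj => ?_).trans
          (Finset.sum_le_sum_of_subset ((Finset.filter_subset _ _).trans
            ((Finset.erase_subset _ _).trans (Finset.erase_subset _ _))))
        exact_mod_cast (Finset.mem_filter.1 hj).2.1
      refine (ENNReal.inv_le_inv.2 h1).trans ?_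
      rw [ENNReal.mul_inv (by simp) (by simp), hX, mul_assoc]
      gcongr
    have h1 := Lo_le (ENNReal.mul_ne_top (by simp) (ENNReal.pow_ne_top (by simp [hμ, hβ, hc0])))
      fun s => lo_le_two hμ hβ hc0 ξ hb hw' (Finset.filter_subset _ _) hJ0
        (fun j hj => (Finset.mem_filter.1 hj).2) hcJ hr s
    rw [← hc₁, ENNReal.mul_inv (Or.inl hμ') (Or.inl ENNReal.coe_ne_top),
      ENNReal.mul_inv (Or.inr hc2) (Or.inr hc1),
      ENNReal.mul_inv (Or.inl hμ') (Or.inl ENNReal.coe_ne_top), ← Finset.mul_sum] at h1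
    calc _ ≤ X * (ξ [] : ℝ≥0∞)⁻¹ * (1 * (X * (ξ [] : ℝ≥0∞)⁻¹) *
          (48 * ((μ : ℝ≥0∞)⁻¹ * c₁⁻¹) ^ 4 * Psi μ (sh [w] ξ) +
            48 * ((μ : ℝ≥0∞)⁻¹ * (bb (sh [a] ξ) : ℝ≥0∞)⁻¹ * c₁⁻¹) ^ 4 * (k * (ξ [] : ℝ≥0∞)⁻¹) *
              ((β₀ : ℝ≥0∞)⁻¹ * ∑ j ∈ (Finset.range (ξ [])).erase a, Psi μ (sh [j] ξ)))) := by
          gcongr
          · exact hg2.trans hC
          · exact_mod_cast bb_le_one _
          · refine h1.trans ?_
            gcongr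
            exact (Finset.filter_subset _ _).trans (Finset.erase_subset _ _)
      _ = (μ : ℝ≥0∞)⁻¹ ^ 4 * (Y * X ^ 2 * ((ξ [] : ℝ≥0∞)⁻¹ ^ 2 * Psi μ (sh [w] ξ)) +
          Y * X ^ 3 * ((ξ [] : ℝ≥0∞)⁻¹ ^ 3 *
            ∑ j ∈ (Finset.range (ξ [])).erase a, nb (sh [a] ξ) * Psi μ (sh [j] ξ))) := by
          rw [← Finset.mul_sum, hnb, hY, hX]; ring
      _ ≤ _ := by
          rw [mul_assoc ((μ : ℝ≥0∞)⁻¹ ^ 4), Tm, mul_add (24 + Y * X ^ 2 + Y * X ^ 3),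
            mul_add (24 + Y * X ^ 2 + Y * X ^ 3)]
          gcongr _ * (?_ + ?_ * _)
          · refine le_add_left ?_
            gcongr
            exact le_add_right le_add_self
          · exact le_add_self

lemma measurable_Tm (μ β₀ : ℝ≥0) (k d w a : ℕ) : Measurable (Tm μ β₀ k d w a) := by
  have h1 : ∀ j, Measurable fun ω : ℕ → Tr => nb (ω j) := fun j =>
    measurable_nb.comp (measurable_pi_apply j)
  have h2 : ∀ j, Measurable fun ω : ℕ → Tr => Psi μ (ω j) := fun j =>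
    (measurable_Psi μ).comp (measurable_pi_apply j)
  have h3 : Measurable fun ω => ind (k * ng β₀ d w a ω < d) :=
    (measurable_of_countable fun n : ℕ => ind (k * n < d)).comp (measurable_ng β₀ d w a)
  exact (((h1 a).fun_mul ((h2 w).fun_mul (h3.const_mul _))).fun_add ((h2 w).const_mul _)).fun_add
    ((Finset.measurable_sum _ fun j _ => (h1 a).fun_mul (h2 j)).const_mul _)

lemma lintegral_Tm_le (p : Measure ℕ) [IsProbabilityMeasure p] (μ β₀ : ℝ≥0) {k d w a : ℕ}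
    (haw : a ≠ w) {K : ℝ≥0∞}
    (hK : ((1 : ℝ≥0∞) + d) ^ 6 * ∫⁻ ω, ind (k * ng β₀ d w a ω < d) ∂(gws p) ≤ K) :
    (d : ℝ≥0∞) ^ 2 * ∫⁻ ω, Tm μ β₀ k d w a ω ∂(gws p) ≤
      ((∫⁻ ξ, nb ξ ∂(gw p)) * K + 1 + ∫⁻ ξ, nb ξ ∂(gw p)) * ∫⁻ ξ, Psi μ ξ ∂(gw p) := by
  have h1 : ∀ j, Measurable fun ω : ℕ → Tr => nb (ω j) := fun j =>
    measurable_nb.comp (measurable_pi_apply j)
  have h2 : ∀ j, Measurable fun ω : ℕ → Tr => Psi μ (ω j) := fun j =>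
    (measurable_Psi μ).comp (measurable_pi_apply j)
  have h3 : Measurable fun ω => ind (k * ng β₀ d w a ω < d) :=
    (measurable_of_countable fun n : ℕ => ind (k * n < d)).comp (measurable_ng β₀ d w a)
  have hng : ∀ i, i = a ∨ i = w → ∀ x y : ℕ → Tr, (∀ j, j ≠ i → x j = y j) →
      ng β₀ d w a x = ng β₀ d w a y := fun i hi x y h => by
    unfold ng
    refine congrArg _ (Finset.filter_congr fun j hj => ?_)
    rw [h j]
    rintro rfl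
    rcases hi with rfl | rfl
    · exact Finset.notMem_erase _ _ (Finset.mem_of_mem_erase hj)
    · exact Finset.notMem_erase _ _ hj
  have hdd : (d : ℝ≥0∞) * (d : ℝ≥0∞)⁻¹ ≤ 1 := ENNReal.mul_inv_le_one _
  unfold Tm
  rw [lintegral_add_right _ ((Finset.measurable_sum _ fun j _ => (h1 a).fun_mul (h2 j)).const_mul _),
    lintegral_add_right _ ((h2 w).const_mul _),
    gws_eval_mul p a measurable_nb ((h2 w).fun_mul (h3.const_mul _))
      (fun x y h => by rw [h w haw.symm, hng a (Or.inl rfl) x y h]),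
    gws_eval_mul p w (measurable_Psi μ) (h3.const_mul _)
      (fun x y h => by rw [hng w (Or.inr rfl) x y h]),
    lintegral_const_mul _ h3, lintegral_const_mul _ (h2 w), gws_eval p w (measurable_Psi μ),
    lintegral_const_mul _ (Finset.measurable_sum _ fun j _ => (h1 a).fun_mul (h2 j)),
    lintegral_finsetSum _ fun j _ => (h1 a).fun_mul (h2 j),
    Finset.sum_congr rfl fun j hj => gws_eval_mul p a measurable_nb (h2 j)
      (fun x y h => by rw [h j (Finset.ne_of_mem_erase hj)])]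
  simp_rw [gws_eval p _ (measurable_Psi μ)]
  rw [Finset.sum_const, nsmul_eq_mul]
  set M := ∫⁻ ξ, nb ξ ∂(gw p)
  set E := ∫⁻ ξ, Psi μ ξ ∂(gw p)
  set P := ∫⁻ ω, ind (k * ng β₀ d w a ω < d) ∂(gws p)
  have hc : (((Finset.range d).erase a).card : ℝ≥0∞) ≤ d := by
    exact_mod_cast (Finset.card_erase_le).trans (Finset.card_range d).le
  calc _ ≤ (d : ℝ≥0∞) ^ 2 * (M * (E * ((1 + d) ^ 4 * P)) + (d : ℝ≥0∞)⁻¹ ^ 2 * E +
        (d : ℝ≥0∞)⁻¹ ^ 3 * (d * (M * E))) := by gcongr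
    _ = M * ((d : ℝ≥0∞) ^ 2 * (1 + d) ^ 4 * P) * E + (d * (d : ℝ≥0∞)⁻¹) ^ 2 * E +
        (d * (d : ℝ≥0∞)⁻¹) ^ 3 * (M * E) := by ring
    _ ≤ M * ((1 + d : ℝ≥0∞) ^ 2 * (1 + d) ^ 4 * P) * E + 1 ^ 2 * E + 1 ^ 3 * (M * E) := by
        gcongr
        exact le_add_self
    _ = (M * ((1 + d : ℝ≥0∞) ^ 6 * P) + 1 + M) * E := by ring
    _ ≤ _ := by gcongr

lemma lintegral_sum_Tm_le (p : Measure ℕ) [IsProbabilityMeasure p] (μ β₀ : ℝ≥0) {k : ℕ}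
    {K : ℝ≥0∞} (hK : ∀ d w a : ℕ,
      ((1 : ℝ≥0∞) + d) ^ 6 * ∫⁻ ω, ind (k * ng β₀ d w a ω < d) ∂(gws p) ≤ K) :
    ∫⁻ ξ, ∑ w ∈ Finset.range (ξ []), ∑ a ∈ (Finset.range (ξ [])).erase w,
      Tm μ β₀ k (ξ []) w a (fun j => sh [j] ξ) ∂(gw p) ≤
      ((∫⁻ ξ, nb ξ ∂(gw p)) * K + 1 + ∫⁻ ξ, nb ξ ∂(gw p)) * ∫⁻ ξ, Psi μ ξ ∂(gw p) := by
  rw [gw_branch p (F := fun d ω => ∑ w ∈ Finset.range d, ∑ a ∈ (Finset.range d).erase w,
    Tm μ β₀ k d w a ω) fun d => Finset.measurable_sum _ fun w _ => Finset.measurable_sum _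
      fun a _ => measurable_Tm μ β₀ k d w a]
  refine (lmono fun d => ?_).trans (by rw [lintegral_const, measure_univ, mul_one])
  rw [lintegral_finsetSum _ fun w _ => Finset.measurable_sum _
    fun a _ => measurable_Tm μ β₀ k d w a]
  simp_rw [lintegral_finsetSum _ fun a _ => measurable_Tm μ β₀ k d _ a]
  rcases Nat.eq_zero_or_pos d with rfl | hd
  · simp
  have hd0 : (d : ℝ≥0∞) ^ 2 ≠ 0 := by simpa using hd.ne'
  refine (ENNReal.mul_le_mul_iff_right hd0 (by simp)).1 ?_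
  simp_rw [Finset.mul_sum]
  refine (Finset.sum_le_card_nsmul _ _ _ fun w _ => (Finset.sum_le_card_nsmul _ _ _ fun a ha =>
    lintegral_Tm_le p μ β₀ (Finset.ne_of_mem_erase ha) (hK d w a)).trans
    (nsmul_le_nsmul_left zero_le (Finset.card_erase_le.trans (Finset.card_range d).le))).trans ?_
  rw [Finset.card_range, nsmul_eq_mul, nsmul_eq_mul, ← mul_assoc, sq]

end Pool.Agent.Lib.MP_0cd4b8_pr
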