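import Pool.Agent.Lib.MP_0cd4b8_pr.RecA1

/-! The annealed argument. -/

set_option autoImplicit false

open MeasureTheory ProbabilityTheory Measure Filter Topology Sum
open scoped ENNReal NNReal

namespace Pool.Agent.Lib.MP_0cd4b8_pr

/-- Stationary density. -/
noncomputable def rr (p : Measure ℕ) (t : Tr) : ℝ≥0∞ :=
  ∫⁻ s, (CC s / (bb t + CC s) : ℝ≥0) ∂(gw p)

/-- Stationary density times the return probability. -/
noncomputable def sg (p : Measure ℕ) (t : Tr) : ℝ≥0∞ :=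
  ∫⁻ s, (bb s / (bb s + CC t) : ℝ≥0) ∂(gw p)

lemma rho_mul_hh (t s : Tr) : CC s / (bb t + CC s) * hh t = bb s / (bb s + CC t) := by
  rw [bb_eq t, bb_eq s, hh_eq t, hh_eq s]
  generalize CC t = a
  generalize CC s = b
  rcases eq_or_ne b 0 with rfl | hb
  · simp
  · field_simp
    ring

section
variable (p : Measure ℕ) [IsProbabilityMeasure p]

lemma measurable_rr : Measurable (rr p) :=
  Measurable.lintegral_prod_right' (f := fun z : Tr × Tr => ((CC z.2 / (bb z.1 + CC z.2) : ℝ≥0) :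
    ℝ≥0∞)) (by fun_prop)

lemma measurable_sg : Measurable (sg p) :=
  Measurable.lintegral_prod_right' (f := fun z : Tr × Tr => ((bb z.2 / (bb z.2 + CC z.1) : ℝ≥0) :
    ℝ≥0∞)) (by fun_prop)

omit [IsProbabilityMeasure p] in
lemma rr_mul_hh (t : Tr) : rr p t * hh t = sg p t := by
  rw [rr, ← lintegral_mul_const' _ _ ENNReal.coe_ne_top]
  simp_rw [← ENNReal.coe_mul, rho_mul_hh]
  rfl

lemma rr_le_one (t : Tr) : rr p t ≤ 1 :=
  (lmono fun _ => ENNReal.coe_le_one_iff.2 (div_le_one_of_le₀ le_add_self zero_le)).trans (by simp)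

lemma sg_le_one (t : Tr) : sg p t ≤ 1 :=
  (lmono fun _ => ENNReal.coe_le_one_iff.2 (div_le_one_of_le₀ le_self_add zero_le)).trans (by simp)

lemma sg_le_inv (t : Tr) : sg p t ≤ (CC t : ℝ≥0∞)⁻¹ := by
  by_cases h : CC t = 0
  · simp [h]
  rw [← ENNReal.coe_inv h]
  refine (lmono fun s => ENNReal.coe_le_coe.2 (?_ : _ ≤ (CC t)⁻¹)).trans (by simp)
  rw [← one_div]
  exact div_le_div₀ zero_le (bb_le_one s) (by positivity) le_add_self

omit [IsProbabilityMeasure p] in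
lemma le_sg (t : Tr) : (∫⁻ s, bb s ∂(gw p)) * ((1 : ℝ≥0∞) + t [])⁻¹ ≤ sg p t := by
  rw [← lintegral_mul_const' _ _ (by simp)]
  refine lmono fun s => ?_
  have : bb s * (1 + t [] : ℝ≥0)⁻¹ ≤ bb s / (bb s + CC t) := by
    rcases eq_or_ne (bb s) 0 with h | h
    · simp [h]
    · rw [← div_eq_mul_inv]
      exact div_le_div₀ zero_le le_rfl (by positivity) (add_le_add (bb_le_one s) (CC_le t))
  have h2 := ENNReal.coe_le_coe.2 this
  rwa [ENNReal.coe_mul, ENNReal.coe_inv (by positivity), ENNReal.coe_add, ENNReal.coe_one,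
    ENNReal.coe_natCast] at h2

lemma invariance {f : Tr → ℝ≥0∞} (hf : Measurable f) :
    ∫⁻ ξ, sg p ξ * ∑ i ∈ Finset.range (ξ []), f (sh [i] ξ) ∂(gw p) =
      ∫⁻ ξ, rr p ξ * f ξ ∂(gw p) := by
  have hS : ∀ d, Measurable fun ω : ℕ → Tr => ∑ j ∈ Finset.range d, bb (ω j) := fun d =>
    Finset.measurable_sum _ fun j _ => measurable_bb.comp (measurable_pi_apply j)
  have hG : ∀ d, Measurable fun z : (ℕ → Tr) × Tr =>
      ((bb z.2 / (bb z.2 + ∑ j ∈ Finset.range d, bb (z.1 j)) : ℝ≥0) : ℝ≥0∞) := fun d =>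
    ((measurable_bb.comp measurable_snd).div ((measurable_bb.comp measurable_snd).add
      ((hS d).comp measurable_fst))).coe_nnreal_ennreal
  have hF : ∀ d i, Measurable fun z : Tr × (ℕ → Tr) => f z.1 *
      ((bb (z.2 i) / (bb z.1 + ∑ j ∈ Finset.range d, bb (z.2 j)) : ℝ≥0) : ℝ≥0∞) := fun d i =>
    (hf.comp measurable_fst).fun_mul (((measurable_bb.comp ((measurable_pi_apply i).comp
      measurable_snd)).div ((measurable_bb.comp measurable_fst).add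
      ((hS d).comp measurable_snd))).coe_nnreal_ennreal)
  have h1 := gw_branch p (F := fun d ω => (∫⁻ s, (bb s / (bb s +
    ∑ j ∈ Finset.range d, bb (ω j)) : ℝ≥0) ∂(gw p)) * ∑ i ∈ Finset.range d, f (ω i))
    fun d => (hG d).lintegral_prod_right'.fun_mul
      (Finset.measurable_sum _ fun i _ => hf.comp (measurable_pi_apply i))
  have h2 : ∀ t, rr p t * f t = ∫⁻ d, ∫⁻ ω, ∑ i ∈ Finset.range d, f t *
      ((bb (ω i) / (bb t + ∑ j ∈ Finset.range d, bb (ω j)) : ℝ≥0) : ℝ≥0∞) ∂(gws p) ∂p := fun t => by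
    rw [← gw_branch p (F := fun d ω => ∑ i ∈ Finset.range d, f t *
      ((bb (ω i) / (bb t + ∑ j ∈ Finset.range d, bb (ω j)) : ℝ≥0) : ℝ≥0∞)) fun d =>
      Finset.measurable_sum _ fun i _ => ((hF d i).comp (measurable_prodMk_left (x := t)) :),
      rr, mul_comm, ← lintegral_const_mul _ (by fun_prop)]
    refine lintegral_congr fun s => ?_
    rw [← Finset.mul_sum, ← ENNReal.ofNNReal_finsetSum, ← Finset.sum_div]
    rfl
  refine h1.trans ?_
  simp_rw [h2]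
  rw [lintegral_lintegral_swap (measurable_from_prod_countable_left fun d =>
    ((Finset.measurable_sum (Finset.range d) fun i _ => hF d i).lintegral_prod_right'
      (ν := gws p) :)).aemeasurable]
  refine lintegral_congr fun d => ?_
  have h3 : ∀ i ∈ Finset.range d, ∫⁻ ω, (∫⁻ s, (bb s / (bb s +
      ∑ j ∈ Finset.range d, bb (ω j)) : ℝ≥0) ∂(gw p)) * f (ω i) ∂(gws p) =
      ∫⁻ t, ∫⁻ ω, f t * ((bb (ω i) / (bb t + ∑ j ∈ Finset.range d, bb (ω j)) : ℝ≥0) : ℝ≥0∞)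
        ∂(gws p) ∂(gw p) := fun i hi => by
    refine Eq.trans (lintegral_congr fun ω => ?_) (lintegral_swap (fun _ : ℕ => gw p) i
      (F := fun t ω => f t *
        ((bb (ω i) / (bb t + ∑ j ∈ Finset.range d, bb (ω j)) : ℝ≥0) : ℝ≥0∞)) (hF d i))
    rw [mul_comm, ← lintegral_const_mul _ (by fun_prop)]
    refine lintegral_congr fun s => ?_
    have h4 : ∑ j ∈ (Finset.range d).erase i, bb (Function.update ω i s j) =
        ∑ j ∈ (Finset.range d).erase i, bb (ω j) := Finset.sum_congr rfl fun j hj => by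
      rw [Function.update_of_ne (Finset.ne_of_mem_erase hj)]
    rw [Function.update_self, ← Finset.add_sum_erase _ _ hi, ← Finset.add_sum_erase _ _ hi,
      Function.update_self, add_left_comm, h4]
  simp_rw [Finset.mul_sum]
  have h4 : ∀ i, Measurable fun ω : ℕ → Tr => (∫⁻ s, (bb s / (bb s +
      ∑ j ∈ Finset.range d, bb (ω j)) : ℝ≥0) ∂(gw p)) * f (ω i) := fun i =>
    (hG d).lintegral_prod_right'.fun_mul (hf.comp (measurable_pi_apply i))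
  have h5 : ∀ i t, Measurable fun ω : ℕ → Tr => f t *
      ((bb (ω i) / (bb t + ∑ j ∈ Finset.range d, bb (ω j)) : ℝ≥0) : ℝ≥0∞) := fun i t =>
    ((hF d i).comp (measurable_prodMk_left (x := t)) :)
  rw [lintegral_finsetSum _ fun i _ => h4 i, Finset.sum_congr rfl h3,
    ← lintegral_finsetSum _ fun i _ => (hF d i).lintegral_prod_right']
  refine lintegral_congr fun t => ?_
  rw [lintegral_finsetSum _ fun i _ => h5 i t]

lemma gain_le_loss (μ : ℝ≥0) :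
    ∫⁻ ξ, sg p ξ * (hh ξ * (4⁻¹ * ∑ i ∈ Finset.range (ξ []), Psi μ (sh [i] ξ))) ∂(gw p) ≤
      ∫⁻ ξ, sg p ξ * ∑ w ∈ Finset.range (ξ []), ∑ a ∈ (Finset.range (ξ [])).erase w,
        bb (sh [a] ξ) * (CC ξ : ℝ≥0∞)⁻¹ * Lo μ ξ w a ∂(gw p) := by
  have hfin : ∫⁻ ξ, rr p ξ * Phi μ ξ ∂(gw p) ≠ ⊤ := by
    refine ne_top_of_le_ne_top ENNReal.one_ne_top ((lmono fun ξ => ?_).trans
      (by rw [lintegral_const, measure_univ, mul_one]))
    exact mul_le_one' (rr_le_one p ξ) ((Avg_le_bb μ ξ fun _ => UU_le_one _).trans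
      (by exact_mod_cast bb_le_one ξ))
  have hm : Measurable fun ξ => sg p ξ * ∑ i ∈ Finset.range (ξ []), Phi μ (sh [i] ξ) :=
    (measurable_sg p).fun_mul (measurable_sum_children (measurable_pi_apply [])
      fun i => (measurable_Phi μ).comp (measurable_sh [i]))
  refine (ENNReal.add_le_add_iff_left hfin).1 ((le_lintegral_add _ _).trans ?_)
  rw [← invariance p (measurable_Phi μ), ← lintegral_add_left hm]
  refine lmono fun ξ => ?_
  rw [← rr_mul_hh, mul_assoc, mul_assoc, mul_assoc, ← mul_add, ← mul_add]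
  exact mul_le_mul_right (quenched_rec μ ξ) _

lemma le_gain (μ : ℝ≥0) : (∫⁻ s, bb s ∂(gw p)) * 4⁻¹ *
    (∫⁻ ξ, ∑ _i ∈ Finset.range (ξ []), ((1 : ℝ≥0∞) + ξ [])⁻¹ ^ 2 ∂(gw p)) *
      ∫⁻ ξ, Psi μ ξ ∂(gw p) ≤
    ∫⁻ ξ, sg p ξ * (hh ξ * (4⁻¹ * ∑ i ∈ Finset.range (ξ []), Psi μ (sh [i] ξ))) ∂(gw p) := by
  have h1 := gw_loo p (measurable_Psi μ) (ψ := fun d _ _ => ((1 : ℝ≥0∞) + d)⁻¹ ^ 2)
    (fun _ _ => measurable_const) fun _ _ _ _ _ => rfl
  have hb : ∫⁻ s, bb s ∂(gw p) ≤ 1 :=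
    (lmono fun s => ENNReal.coe_le_one_iff.2 (bb_le_one s)).trans (by simp)
  rw [mul_assoc, mul_comm _ (∫⁻ ξ, Psi μ ξ ∂(gw p)), ← h1, ← lintegral_const_mul' _ _
    (ENNReal.mul_ne_top (ne_top_of_le_ne_top ENNReal.one_ne_top hb) (by simp))]
  refine lmono fun ξ => ?_
  calc _ = (∫⁻ s, bb s ∂(gw p)) * ((1 : ℝ≥0∞) + ξ [])⁻¹ * (((1 : ℝ≥0∞) + ξ [])⁻¹ *
        (4⁻¹ * ∑ i ∈ Finset.range (ξ []), Psi μ (sh [i] ξ))) := by
        rw [← Finset.sum_mul]; ring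
    _ ≤ _ := by
        gcongr
        · exact le_sg p ξ
        · exact ENNReal.inv_le_iff_inv_le.1 (inv_hh_le ξ)

lemma exists_large {A B : ℝ≥0∞} (hA : A ≠ 0) (hB : B ≠ ⊤) :
    ∃ m : ℝ≥0, ∀ μ : ℝ≥0, m ≤ μ → (μ : ℝ≥0∞)⁻¹ ^ 4 * B < A := by
  have h1 : Tendsto (fun n : ℕ => (n : ℝ≥0∞)⁻¹ ^ 4 * B) atTop (𝓝 (0 ^ 4 * B)) :=
    ENNReal.Tendsto.mul_const (ENNReal.Tendsto.pow ENNReal.tendsto_inv_nat_nhds_zero) (Or.inr hB)
  rw [zero_pow (by norm_num), zero_mul] at h1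
  obtain ⟨n, hn⟩ := (h1.eventually (gt_mem_nhds (pos_iff_ne_zero.2 hA))).exists
  refine ⟨n, fun μ hμ => lt_of_le_of_lt ?_ hn⟩
  gcongr
  exact_mod_cast hμ

variable (hp : 1 < ∫⁻ k, (k : ℝ≥0∞) ∂p)
include hp

lemma bb_zero_lt_one : ∫⁻ ξ, ind (bb ξ = 0) ∂(gw p) < 1 := by
  obtain ⟨t, -, ht1, β, hβ, hx, -⟩ := exists_isRec p hp
  have h : ∀ ξ, β ξ ≤ bb ξ := le_bb fun ξ => by
    rw [hβ.eq ξ]
    exact (div_mul_cancel₀ _ (by positivity)).le.trans (mul_le_of_le_one_left' ht1.le)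
  exact lt_of_le_of_lt (lmono fun ξ => ind_mono fun h0 => le_zero_iff.1 (h0 ▸ h ξ)) hx

lemma not_ae_bb_zero : ¬∀ᵐ ξ ∂(gw p), bb ξ = 0 := fun h => by
  have := bb_zero_lt_one p hp
  rw [lintegral_congr_ae (g := fun _ => 1) (h.mono fun ξ h => ind_pos h)] at this
  simp at this

lemma exists_good : ∃ β₀ : ℝ≥0, β₀ ≠ 0 ∧ ∫⁻ ξ, ind (Good β₀ ξ) ∂(gw p) ≠ 0 := by
  by_contra hn
  push Not at hn
  have h1 : ∀ᵐ ξ ∂(gw p), ∀ n : ℕ, ¬Good ((n : ℝ≥0) + 1)⁻¹ ξ := ae_all_iff.2 fun n => by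
    have := hn ((n : ℝ≥0) + 1)⁻¹ (by positivity)
    rw [lintegral_eq_zero_iff (mind (measurable_Good _))] at this
    filter_upwards [this] with ξ h using ind_eq_zero.1 h
  refine not_ae_bb_zero p hp (h1.mono fun ξ h => ?_)
  by_contra hb
  obtain ⟨n, hn⟩ := exists_nat_one_div_lt (lt_min (pos_iff_ne_zero.2 hb) (hh_pos ξ))
  rw [one_div] at hn
  exact h n ⟨hn.le.trans (min_le_left _ _), hn.le.trans (min_le_right _ _)⟩

theorem ae_Psi_eq_zero : ∃ m : ℝ≥0, ∀ μ : ℝ≥0, m ≤ μ → ∀ᵐ ξ ∂(gw p), Psi μ ξ = 0 := by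
  obtain ⟨β₀, hβ, hg⟩ := exists_good p hp
  obtain ⟨k, hk, hK⟩ := chernoff p (measurable_Good β₀) hg
  obtain ⟨K₆, hK₆⟩ := hK 6
  obtain ⟨K, hKt, hK⟩ := loss_pt hβ hk
  obtain ⟨y, η, hc⟩ := isRec_bb.exists_contr p hp one_pos (bb_zero_lt_one p hp)
  have hM : ∫⁻ ξ, nb ξ ∂(gw p) ≠ ⊤ := neg_moment_bb p hc 4
  set A := (∫⁻ s, bb s ∂(gw p)) * 4⁻¹ *
    (∫⁻ ξ, ∑ _i ∈ Finset.range (ξ []), ((1 : ℝ≥0∞) + ξ [])⁻¹ ^ 2 ∂(gw p)) with hA
  have hA0 : A ≠ 0 := by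
    refine mul_ne_zero (mul_ne_zero (fun h => ?_) (by simp)) fun h => ?_
    · rw [lintegral_eq_zero_iff (by fun_prop)] at h
      exact not_ae_bb_zero p hp (h.mono fun ξ h => by simpa using h)
    · have hm : Measurable fun ξ : Tr =>
          ∑ _i ∈ Finset.range (ξ []), ((1 : ℝ≥0∞) + ξ [])⁻¹ ^ 2 :=
        (measurable_of_countable fun d : ℕ =>
          ∑ _i ∈ Finset.range d, ((1 : ℝ≥0∞) + d)⁻¹ ^ 2).comp (measurable_pi_apply [])
      rw [lintegral_eq_zero_iff hm] at h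
      refine prob_two_pos p hp ?_
      rw [← lintegral_eval (fun _ : List ℕ => p) [] (measurable_of_countable _)]
      refine (lintegral_congr_ae (g := fun _ => 0) (h.mono fun ξ h => ind_neg fun h2 => ?_)).trans
        lintegral_zero
      simp at h
      omega
  obtain ⟨m₁, h₁⟩ := exists_large hA0 (B := K * ((∫⁻ ξ, nb ξ ∂(gw p)) * K₆ + 1 +
    ∫⁻ ξ, nb ξ ∂(gw p))) (by finiteness)
  have hk0 : (k : ℝ≥0) ≠ 0 := by simp only [ne_eq, Nat.cast_eq_zero]; omega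
  set c₁ : ℝ≥0∞ := β₀ * ((2 * k)⁻¹ : ℝ≥0) * 4⁻¹ * β₀ with hc₁
  have hc0 : c₁ ≠ 0 := by simp [hc₁, hβ, hk0]
  obtain ⟨m₂, h₂⟩ := exists_large (A := 2⁻¹) (by simp) (B := 4 * (β₀ : ℝ≥0∞)⁻¹ * (24 * c₁⁻¹ ^ 4))
    (ENNReal.mul_ne_top (ENNReal.mul_ne_top (by simp) (by simpa using hβ))
      (ENNReal.mul_ne_top (by simp) (ENNReal.pow_ne_top (by simpa using hc0))))
  refine ⟨max 1 (max m₁ m₂), fun μ hμ => ?_⟩
  have hμ0 : μ ≠ 0 := (one_pos.trans_le ((le_max_left _ _).trans hμ)).ne'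
  have h3 := h₁ μ ((le_max_left _ _).trans ((le_max_right _ _).trans hμ))
  have h4 := h₂ μ ((le_max_right _ _).trans ((le_max_right _ _).trans hμ))
  have hr : 4 * (β₀ : ℝ≥0∞)⁻¹ * ex (μ * (β₀ * ((2 * k)⁻¹ : ℝ≥0) * 4⁻¹) * β₀) ≤ 2⁻¹ := by
    refine le_trans ?_ h4.le
    refine (mul_le_mul_right (ex_le_mul_inv (by simpa using hμ0) ENNReal.coe_ne_top
      (mul_assoc _ _ _).ge) _).trans (le_of_eq ?_)
    rw [hc₁]; ring
  have h5 := lintegral_sum_Tm_le p μ β₀ (k := k) (K := K₆) fun d w a => hK₆ d _ (by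
    have h1 := Finset.pred_card_le_card_erase (s := Finset.range d) (a := a)
    have h2 := Finset.pred_card_le_card_erase (s := (Finset.range d).erase a) (a := w)
    rw [Finset.card_range] at h1
    omega)
  have h6 := (le_gain p μ).trans ((gain_le_loss p μ).trans (lmono fun ξ => show _ ≤
    (μ : ℝ≥0∞)⁻¹ ^ 4 * K * ∑ w ∈ Finset.range (ξ []), ∑ a ∈ (Finset.range (ξ [])).erase w,
      Tm μ β₀ k (ξ []) w a (fun j => sh [j] ξ) by
    simp_rw [Finset.mul_sum]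
    exact Finset.sum_le_sum fun w hw => Finset.sum_le_sum fun a ha =>
      hK μ hμ0 hr ξ _ (sg_le_one p ξ) (sg_le_inv p ξ) w hw a ha))
  rw [lintegral_const_mul' _ _ (ENNReal.mul_ne_top (ENNReal.pow_ne_top (by simpa using hμ0)) hKt),
    ← hA] at h6
  have h7 := h6.trans (mul_le_mul_right h5 _)
  rw [← mul_assoc, mul_assoc _ K] at h7
  have hE : ∫⁻ ξ, Psi μ ξ ∂(gw p) ≠ ⊤ := by
    refine ne_top_of_le_ne_top ENNReal.one_ne_top ((lmono fun ξ => ?_).trans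
      (by rw [lintegral_const, measure_univ, mul_one]))
    exact (Avg_le_bb μ ξ fun _ => pow_le_one' (UU_le_one _) _).trans
      (by exact_mod_cast bb_le_one ξ)
  have h8 : ∫⁻ ξ, Psi μ ξ ∂(gw p) = 0 := by
    by_contra h0
    exact absurd ((ENNReal.mul_le_mul_iff_left h0 hE).1 h7) (not_le.2 h3)
  exact (lintegral_eq_zero_iff (measurable_Psi μ)).1 h8

end

end Pool.Agent.Lib.MP_0cd4b8_pr
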