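import Pool.Agent.Lib.MP_0cd4b8_pr.RecA2

/-! Recurrence for large densities. -/

set_option autoImplicit false

open MeasureTheory ProbabilityTheory Measure Filter Topology Sum
open scoped ENNReal NNReal

namespace Pool.Agent.Lib.MP_0cd4b8_pr

/-- Activated vertices carrying a frog which reaches the parent of the root. -/
def Ret (θ : Tr) (Z : Set (List ℕ)) (η : List ℕ → Site) : Set (List ℕ) :=
  {u | u ∈ cl (Ef θ η) Z ∧ hits (Hit θ (some u)) (η u)}

lemma measurable_Ret (θ : Tr) :
    Measurable fun z : Set (List ℕ) × (List ℕ → Site) => (Ret θ z.1 z.2).Infinite :=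
  (measurableSet_setOfPred.1 MeasurableSet.setOfPred_infinite).comp (measurable_set_iff.2 fun u =>
    (measurable_set_iff.1 (measurable_cl ((measurable_Ef θ).comp measurable_snd)
      measurable_fst) u).and ((measurable_hits (measurable_Hit θ _)).comp
        ((measurable_pi_apply u).comp measurable_snd)))

lemma WW_diff (θ : Tr) {A : Set (List ℕ)} (h : WW θ A = ⊤) (F : Finset (List ℕ)) :
    WW θ (A \ F) = ⊤ := by
  by_contra hn
  refine ENNReal.add_ne_top.2 ⟨hn, ENNReal.natCast_ne_top F.card⟩ (top_le_iff.1 ?_)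
  rw [← h]
  calc WW θ A ≤ ∑' u, (ind (u ∈ A \ F) * aw θ (some u) + ind (u ∈ F)) := by
        refine ENNReal.tsum_le_tsum fun u => ind_mul_le_of fun hu => ?_
        by_cases hF : u ∈ F
        · rw [ind_pos hF]
          exact le_add_left (aw_le_one _ _)
        · rw [ind_pos ⟨hu, hF⟩, one_mul]
          exact le_self_add
    _ = _ := by
        rw [ENNReal.tsum_add, tsum_eq_sum (s := F) fun b hb => ind_neg hb,
          Finset.sum_congr rfl fun b hb => ind_pos hb]
        simp [WW]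

lemma ae_Ret {μ : ℝ≥0} (hμ : μ ≠ 0) (θ : Tr) {Z : Set (List ℕ)}
    (h : ∀ᵐ η ∂(frogs μ), WW θ (cl (Ef θ η) Z) = ⊤) : ∀ᵐ η ∂(frogs μ), (Ret θ Z η).Infinite := by
  set D : Bool → List ℕ × List ℕ → (ℕ → ℝ) → Prop := fun c l t =>
    cond c (Hit θ (some l.1) t) (¬Hit θ (some l.1) t ∧ l.2 ∈ rng θ l.1 t) with hD
  have hDm : ∀ c l, Measurable (D c l) := by
    rintro (_ | _) l
    · exact (measurable_Hit _ _).not.and (measurable_mem_rng _ _ _)
    · exact measurable_Hit _ _
  have hdisj : ∀ (c c' : Bool) (l l' : List ℕ × List ℕ) t, l.1 = l'.1 → D c l t → D c' l' t →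
      c = c' := by
    rintro (_ | _) (_ | _) l l' t h h1 h2
    · rfl
    · exact (h1.1 (h ▸ h2)).elim
    · exact (h2.1 (h ▸ h1)).elim
    · rfl
  have key : ∀ F : Finset (List ℕ), ∀ᵐ η ∂(frogs μ),
      ¬∀ u ∈ cl (Ef θ η) Z \ F, ¬hits (Hit θ (some u)) (η u) := fun F => by
    have hm : Measurable fun z : Rel × Rel => ind (∀ u ∈ cl z.1 Z \ F, (u, []) ∉ z.2) :=
      mind (Measurable.forall fun u => ((measurable_set_iff.1
        (measurable_cl measurable_fst measurable_const) u).and measurable_const).imp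
        (measurable_set_iff.1 measurable_snd (u, [])).not)
    have h1 := col_split (fun _ l => l.1) μ hDm hdisj {false} (a := fun R => R false)
      (b := fun R => R true) (measurable_pi_apply _) (measurable_pi_apply _)
      (fun _ _ h => h _ rfl) (fun _ _ h => h _ (by simp))
      (G := fun E E' => ind (∀ u ∈ cl E Z \ F, (u, []) ∉ E')) hm
    have h2 : ∫⁻ η, ind (∀ u ∈ cl (Ef θ η) Z \ F, ¬hits (Hit θ (some u)) (η u)) ∂(frogs μ) = 0 := by
      refine le_zero_iff.1 (h1.trans_le ((lintegral_mono_ae (g := fun _ => 0) ?_).trans (by simp)))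
      filter_upwards [h] with η hη
      refine (void_le μ (fun u => measurable_Hit θ (some u)) (cl (Ef θ η) Z \ F)).trans ?_
      have := WW_diff θ hη F
      rw [WW] at this
      simp only [aw] at this
      rw [this, ENNReal.mul_top (by simpa using hμ), ex_top]
    have hm2 : Measurable fun η =>
        ind (∀ u ∈ cl (Ef θ η) Z \ F, ¬hits (Hit θ (some u)) (η u)) :=
      (hm.comp ((measurable_col_apply (fun _ l => l.1) hDm false).prodMk
        (measurable_col_apply (fun _ l => l.1) hDm true)) :)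
    rw [lintegral_eq_zero_iff hm2] at h2
    filter_upwards [h2] with η hη using ind_eq_zero.1 hη
  filter_upwards [ae_all_iff.2 key] with η hη hf
  exact hη hf.toFinset fun u hu h1 => hu.2 (by simpa using ⟨hu.1, h1⟩)

lemma lintegral_not_Ret {μ : ℝ≥0} (hμ : μ ≠ 0) {θ : Tr} (h : Psi μ θ = 0) :
    ∫⁻ x, ind (¬Hit θ (some []) x) *
      ∫⁻ η, ind (¬(Ret θ (rng θ [] x) η).Infinite) ∂(frogs μ) ∂nu = 0 := by
  have hG : Measurable fun y => UU y ^ 4 := by fun_prop
  have hm : Measurable fun x => ind (¬Hit θ (some []) x) *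
      Gt μ θ (fun y => UU y ^ 4) (rng θ [] x) :=
    (mind (measurable_Hit _ _).not).fun_mul ((measurable_Gt μ θ hG).comp (measurable_rng _ _))
  rw [Psi, Avg, lintegral_eq_zero_iff hm] at h
  refine (lintegral_congr_ae (g := fun _ => 0) ?_).trans lintegral_zero
  filter_upwards [h] with x hx
  by_cases hH : Hit θ (some []) x
  · simp [hH]
  simp only [ind_pos hH, one_mul, Pi.zero_apply] at hx ⊢
  have hm2 : Measurable fun η => UU (WW θ (cl (Ef θ η) (rng θ [] x))) ^ 4 :=
    hG.comp ((measurable_WW _).comp (measurable_cl (measurable_Ef _) measurable_const))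
  rw [Gt, lintegral_eq_zero_iff hm2] at hx
  refine (lintegral_congr_ae (g := fun _ => 0) ?_).trans lintegral_zero
  filter_upwards [ae_Ret hμ θ (Z := rng θ [] x) (hx.mono fun η hη => by simpa [UU] using hη)]
    with η hη using ind_neg (not_not.2 hη)

lemma ae_exit {ξ : Tr} (hC : CC ξ ≠ 0) : ∀ᵐ x ∂nu,
    ¬∀ k i, walk ξ [] x k = [i] → Hit (sh [i] ξ) (some []) (shift k x) := by
  set N : (ℕ → ℝ) → Prop := fun x =>
    ∀ k i, walk ξ [] x k = [i] → Hit (sh [i] ξ) (some []) (shift k x) with hN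
  have hm : Measurable N := Measurable.forall fun k => Measurable.forall fun i =>
    ((measurable_walk ξ [] k).eq_const _).imp ((measurable_Hit _ _).comp (measurable_shift k))
  have hs : ∀ x m, N x → walk ξ [] x m = [] → N (shift m x) := fun x m h1 h2 k i h3 => by
    rw [shift_shift]
    refine h1 _ i ?_
    rw [walk_eq_path] at h2 h3 ⊢
    rw [path_add, h2, h3]
  set q := ∫⁻ x, ind (N x) ∂nu with hq
  have hq1 : q ≠ ⊤ := ne_top_of_le_ne_top ENNReal.one_ne_top (lintegral_ind_le_one _ _)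
  have h1 : q ≤ ∫⁻ t, (∫⁻ u, ind (∃ k, path (step ξ) (step ξ [] t) u k = []) ∂nu) * q ∂unif := by
    simp_rw [hq, ← lintegral_first_hit (measurable_step ξ) _ [] (mind hm)]
    rw [← lintegral_first_step (measurable_step ξ) [] (G := fun y u => ∑' k,
      ind (path (step ξ) y u k = [] ∧ ∀ j < k, path (step ξ) y u j ≠ []) * ind (N (shift k u)))
      fun y => Measurable.tsum fun k => (mind
        (((measurable_path (measurable_step ξ) y k).eq_const _).and (Measurable.forall fun j =>
          measurable_const.imp ((measurable_path (measurable_step ξ) y j).eq_const _).not))).fun_mul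
        (mind (hm.comp (measurable_shift k)))]
    refine lmono fun x => ind_le_of fun hx => ?_
    have h2 : ∃ k, path (step ξ) (step ξ [] (x 0)) (shift 1 x) k = [] := by
      rcases step_cases ξ [] (x 0) with ⟨j, -, h⟩ | h
      · rw [h]
        exact embed_hit (hs_real ξ) j [] _ (hx 1 j h)
      · exact ⟨0, h⟩
    classical
    refine le_trans ?_ (ENNReal.le_tsum (Nat.find h2))
    rw [ind_pos ⟨Nat.find_spec h2, fun j hj => Nat.find_min h2 hj⟩, one_mul, shift_shift,
      ind_pos (hs x _ hx ?_)]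
    rw [walk_eq_path, add_comm, path_succ']
    exact Nat.find_spec h2
  have h2 := step_law_nil ξ fun y => (∫⁻ u, ind (∃ k, path (step ξ) y u k = []) ∂nu) * q
  have h3 : ∀ j, ∫⁻ u, ind (∃ k, path (step ξ) [j] u k = []) ∂nu = hh (sh [j] ξ) := fun j => by
    rw [coe_hh, aw]
    exact lintegral_congr fun u => congrArg ind
      (propext (embed_hit_iff (hs_real ξ) Function.injective_id j [] u))
  simp_rw [h3] at h2
  have h4 : ∑ j ∈ Finset.range (ξ []), hh (sh [j] ξ) * q + CC ξ * q = ξ [] * q := by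
    rw [coe_CC, ← Finset.sum_mul, ← add_mul, ← Finset.sum_add_distrib]
    simp_rw [← ENNReal.coe_add, hh_add_bb]
    simp
  have h5 : ∑ j ∈ Finset.range (ξ []), hh (sh [j] ξ) * q + CC ξ * q ≤
      ∑ j ∈ Finset.range (ξ []), hh (sh [j] ξ) * q + 0 := by
    rw [h4, add_zero, ← h2]
    gcongr
  have h6 := (ENNReal.add_le_add_iff_left (ENNReal.sum_ne_top.2 fun _ _ =>
    ENNReal.mul_ne_top ENNReal.coe_ne_top hq1)).1 h5
  have h7 : q = 0 := by simpa [hC] using h6
  rw [hq, lintegral_eq_zero_iff (mind hm)] at h7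
  filter_upwards [h7] with x hx using ind_eq_zero.1 hx

lemma length_walk_le (ξ : Tr) (u : List ℕ) (x : ℕ → ℝ) (k : ℕ) :
    (walk ξ u x k).length ≤ u.length + k := by
  induction k with
  | zero => exact le_rfl
  | succ k ih =>
    rw [walk]
    rcases step_cases ξ (walk ξ u x k) (x k) with ⟨j, -, h⟩ | h <;> rw [h]
    · rw [List.length_cons]; omega
    · rw [List.length_tail]; omega

lemma length_le_of_occ {ξ : Tr} {η : List ℕ → Site} {t : ℕ} {v : List ℕ} (h : Occ ξ η t v) :
    v.length ≤ t := by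
  induction t using Nat.strong_induction_on generalizing v with
  | _ t ih =>
  rcases (occ_iff _ _ _ _).1 h with rfl | ⟨s, hs, u, -, h1, -, i, -, rfl⟩
  · simpa using length_walk_le ξ [] _ t
  · have := ih s hs h1
    have := length_walk_le ξ u ((η u).2 i) (t - s)
    omega

lemma finite_level (ξ : Tr) (N : ℕ) : {v | InTree ξ v ∧ v.length ≤ N}.Finite := by
  induction N with
  | zero => exact (Set.finite_singleton []).subset fun v hv => by simpa using hv.2
  | succ N ih =>
    refine ((Set.finite_singleton []).union (ih.biUnion fun u _ =>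
      (Set.finite_lt_nat (ξ u)).image fun j => j :: u)).subset ?_
    rintro (_ | ⟨j, u⟩) ⟨h1, h2⟩
    · exact Or.inl rfl
    · exact Or.inr (Set.mem_biUnion (x := u) ⟨h1.2, by simpa using h2⟩ ⟨j, h1.1, rfl⟩)

lemma occ_of_frog {ξ : Tr} {η : List ℕ → Site} {u : List ℕ} (hu : u ≠ []) (h : ∃ t, Occ ξ η t u) :
    ∃ s, Occ ξ η s u ∧ ∀ i < (η u).1, ∀ j, Occ ξ η (s + j) (walk ξ u ((η u).2 i) j) := by
  classical
  refine ⟨Nat.find h, Nat.find_spec h, fun i hi j => ?_⟩
  cases j with
  | zero => exact Nat.find_spec h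
  | succ j =>
    refine (occ_iff _ _ _ _).2 (Or.inr ⟨Nat.find h, by omega, u, hu, Nat.find_spec h,
      fun r hr => Nat.find_min h hr, i, hi, ?_⟩)
    rw [Nat.add_sub_cancel_left]

lemma infinite_of_Ret {ξ : Tr} {η : List ℕ → Site} {k i : ℕ} (hk : walk ξ [] ((η []).2 0) k = [i])
    (h : (Ret (sh [i] ξ) (rng (sh [i] ξ) [] (shift k ((η []).2 0))) (sh [i] η)).Infinite) :
    {t | Occ ξ η t []}.Infinite := by
  have h1 : cl (Ef (sh [i] ξ) (sh [i] η)) (rng (sh [i] ξ) [] (shift k ((η []).2 0))) ⊆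
      {z | ∃ t, Occ ξ η t (z ++ [i])} := by
    refine cl_subset ?_ ?_
    · rintro z ⟨j, hj⟩
      refine ⟨k + j, (occ_iff _ _ _ _).2 (Or.inl ?_)⟩
      rw [walk_eq_path] at hk ⊢
      rw [path_add, hk]
      exact embed_some (hs_real ξ) i [] _ j hj
    · rintro u hu z ⟨m, hm, -, j, hj⟩
      obtain ⟨s, -, hs⟩ := occ_of_frog (by simp) hu
      have h2 := hs m hm j
      rw [walk_eq_path] at h2
      have h3 : path (step ξ) (u ++ [i]) ((η (u ++ [i])).2 m) j = z ++ [i] :=
        embed_some (hs_real ξ) i u _ j hj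
      exact ⟨s + j, h3 ▸ h2⟩
  intro hf
  obtain ⟨N, hN⟩ := hf.bddAbove
  refine h (((finite_level ξ N).preimage (f := fun z => z ++ [i])
    (List.append_left_injective _).injOn).subset ?_)
  rintro u ⟨hu, m, hm, hH⟩
  obtain ⟨s, h2, hs⟩ := occ_of_frog (by simp) (h1 hu)
  obtain ⟨j, hj⟩ := embed_hit (hs_real ξ) i u _ hH
  have h3 := hs m hm j
  rw [walk_eq_path] at h3
  have h4 : s + j ≤ N := hN ((hj : _ = []) ▸ h3 :)
  exact ⟨(occ_mem_cl bb 0 η h2).1, (length_le_of_occ h2).trans (by omega)⟩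

lemma quenched_recurrent {μ : ℝ≥0} (hμ : μ ≠ 0) {ξ : Tr} (hC : CC ξ ≠ 0)
    (h : ∀ i, Psi μ (sh [i] ξ) = 0) : ∀ᵐ η ∂(frogs μ), {t | Occ ξ η t []}.Infinite := by
  have h1 : ∀ᵐ η ∂(frogs μ), ¬∀ k i, walk ξ [] ((η []).2 0) k = [i] →
      Hit (sh [i] ξ) (some []) (shift k ((η []).2 0)) := by
    have hm : Measurable fun η : List ℕ → Site => (η []).2 0 := by fun_prop
    have hmap : (frogs μ).map (fun η : List ℕ → Site => (η []).2 0) = nu := by
      ext s hs
      rw [map_apply hm hs]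
      have h1 := lintegral_eval (fun _ : List ℕ => site μ) []
        (f := fun x => ind (x.2 0 ∈ s)) (mind ((measurableSet_setOfPred.1 hs).comp (by fun_prop)))
      have hs' : Measurable fun y => y ∈ s := measurableSet_setOfPred.1 hs
      have hs'' : Measurable fun η : List ℕ → Site => (η []).2 0 ∈ s := hs'.comp hm
      rw [lintegral_site_eval μ 0 (mind hs'), lintegral_ind _ hs', lintegral_ind _ hs''] at h1
      exact h1
    exact ae_of_ae_map hm.aemeasurable (by rw [hmap]; exact ae_exit hC)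
  have h2 : ∀ k i, ∀ᵐ η ∂(frogs μ), ¬(¬Hit (sh [i] ξ) (some []) (shift k ((η []).2 0)) ∧
      ¬(Ret (sh [i] ξ) (rng (sh [i] ξ) [] (shift k ((η []).2 0))) (sh [i] η)).Infinite) :=
    fun k i => by
    have hm0 : Measurable fun z : (ℕ → ℝ) × (List ℕ → Site) =>
        ind (¬(Ret (sh [i] ξ) (rng (sh [i] ξ) [] z.1) z.2).Infinite) :=
      mind ((measurable_Ret _).comp (((measurable_rng _ _).comp measurable_fst).prodMk
        measurable_snd)).not
    have hm1 : Measurable fun z : (ℕ → ℝ) × (List ℕ → Site) =>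
        ind (¬Hit (sh [i] ξ) (some []) z.1) *
          ind (¬(Ret (sh [i] ξ) (rng (sh [i] ξ) [] z.1) z.2).Infinite) :=
      (mind ((measurable_Hit _ _).comp measurable_fst).not).fun_mul hm0
    have hm2 : Measurable fun x : Site => shift k (x.2 0) :=
      (measurable_shift k).comp (by fun_prop)
    have hm3 : Measurable fun x => ind (¬Hit (sh [i] ξ) (some []) x) *
        ∫⁻ η, ind (¬(Ret (sh [i] ξ) (rng (sh [i] ξ) [] x) η).Infinite) ∂(frogs μ) :=
      (mind (measurable_Hit _ _).not).fun_mul hm0.lintegral_prod_right'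
    have hm4 : Measurable fun η : List ℕ → Site =>
        ind (¬Hit (sh [i] ξ) (some []) (shift k ((η []).2 0))) * ind (¬(Ret (sh [i] ξ)
          (rng (sh [i] ξ) [] (shift k ((η []).2 0))) (sh [i] η)).Infinite) :=
      (hm1.comp ((hm2.comp (measurable_pi_apply [])).prodMk (measurable_sh [i])) :)
    have h3 := lintegral_branch (site μ) (F := fun x ω =>
      ind (¬Hit (sh [i] ξ) (some []) (shift k (x.2 0))) *
        ind (¬(Ret (sh [i] ξ) (rng (sh [i] ξ) [] (shift k (x.2 0))) (ω i)).Infinite))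
      (hm1.comp ((hm2.comp measurable_fst).prodMk (show Measurable
        fun z : Site × (ℕ → List ℕ → Site) => z.2 i from
          (measurable_pi_apply i).comp measurable_snd)) :)
    have h4 : ∀ x, ∫⁻ ω : ℕ → List ℕ → Site, ind (¬Hit (sh [i] ξ) (some []) x) *
        ind (¬(Ret (sh [i] ξ) (rng (sh [i] ξ) [] x) (ω i)).Infinite)
        ∂(infinitePi fun _ => infinitePi fun _ => site μ) = ind (¬Hit (sh [i] ξ) (some []) x) *
        ∫⁻ η, ind (¬(Ret (sh [i] ξ) (rng (sh [i] ξ) [] x) η).Infinite) ∂(frogs μ) := fun x => by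
      rw [lintegral_const_mul' _ _ (ind_ne_top _)]
      exact congrArg _ (lintegral_eval (fun _ : ℕ => infinitePi fun _ : List ℕ => site μ) i
        (hm0.comp (measurable_prodMk_left (x := x)) :))
    simp_rw [h4] at h3
    replace h3 := h3.trans (((lintegral_site_eval μ 0 (hm3.comp (measurable_shift k))).trans
      (lintegral_shift k hm3)).trans (lintegral_not_Ret hμ (h i)))
    filter_upwards [(lintegral_eq_zero_iff hm4).1 h3] with η hη
    rwa [← ind_and, Pi.zero_apply, ind_eq_zero] at hη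
  filter_upwards [h1, ae_all_iff.2 fun k => ae_all_iff.2 (h2 k)] with η h3 h4
  push Not at h3
  obtain ⟨k, i, h5, h6⟩ := h3
  exact infinite_of_Ret h5 (not_not.1 fun h7 => h4 k i ⟨h6, h7⟩)

theorem exists_recurrent (p : Measure ℕ) [IsProbabilityMeasure p]
    (hp : 1 < ∫⁻ k, (k : ℝ≥0∞) ∂p) : ∃ μ₂ : ℝ≥0, ∀ μ, μ₂ ≤ μ → Recurrent p μ := by
  obtain ⟨m, hm⟩ := ae_Psi_eq_zero p hp
  obtain ⟨y, η, hc⟩ := isRec_bb.exists_contr p hp one_pos (bb_zero_lt_one p hp)
  refine ⟨max 1 m, fun μ hμ => ?_⟩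
  refine ae_law p μ (measurableSet_setOfPred.1 MeasurableSet.setOfPred_infinite) ?_
  filter_upwards [ae_sh p (hm μ ((le_max_right _ _).trans hμ)),
    isRec_bb.ae_Cs_ne_zero p one_pos hc] with ξ h1 h2 hi
  exact quenched_recurrent (one_pos.trans_le ((le_max_left _ _).trans hμ)).ne' (h2 hi)
    fun i => h1 [i]

theorem survival_pos (p : Measure ℕ) [IsProbabilityMeasure p]
    (hp : 1 < ∫⁻ k, (k : ℝ≥0∞) ∂p) : 0 < gw p {ξ | {v | InTree ξ v}.Infinite} := by
  obtain ⟨t, -, -, β, -, hx, h⟩ := exists_isRec p hp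
  refine pos_iff_ne_zero.2 fun h0 => ?_
  have h1 : ∀ᵐ ξ ∂(gw p), ¬{v | InTree ξ v}.Infinite := measure_eq_zero_iff_ae_notMem.1 h0
  rw [lintegral_congr_ae (g := fun _ => 1) (h1.mono fun ξ h2 =>
    ind_pos (not_not.1 fun h3 => h2 (h ξ h3)))] at hx
  simp at hx

end Pool.Agent.Lib.MP_0cd4b8_pr
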