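import Pool.Agent.Lib.MP_0cd4b8_pr.TransQ2

/-! Columns of frogs in a planted tree, pressure and seeding. -/

set_option autoImplicit false

open MeasureTheory ProbabilityTheory Measure Filter Topology Sum
open scoped ENNReal NNReal

namespace Pool.Agent.Lib.MP_0cd4b8_pr

/-- Sets of pairs of vertices. -/
abbrev Rel := Set (List ℕ × List ℕ)

/-- Edges given by the frogs that never reach the parent of the root. -/
def Ef (ξ : Tr) (η : List ℕ → Site) : Rel :=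
  {e | hits (fun t => ¬Hit ξ (some e.1) t ∧ e.2 ∈ rng ξ e.1 t) (η e.1)}

lemma measurable_mem_rng_param (v z : List ℕ) :
    Measurable fun w : Tr × (ℕ → ℝ) => z ∈ rng w.1 v w.2 :=
  measurable_set_iff.1 (measurable_rng_param v) z

lemma measurable_mem_rng (ξ : Tr) (v z : List ℕ) : Measurable fun x => z ∈ rng ξ v x :=
  measurable_set_iff.1 (measurable_rng ξ v) z

lemma measurable_Ef_param : Measurable fun w : Tr × (List ℕ → Site) => Ef w.1 w.2 :=
  measurable_set_iff.2 fun e =>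
    (measurable_hits_param (B := fun ξ t => ¬Hit ξ (some e.1) t ∧ e.2 ∈ rng ξ e.1 t)
      ((measurable_Hit_param _).not.and (measurable_mem_rng_param _ _))).comp
      (measurable_fst.prodMk ((measurable_pi_apply e.1).comp measurable_snd))

lemma measurable_Ef (ξ : Tr) : Measurable (Ef ξ) :=
  (measurable_Ef_param.comp (measurable_prodMk_left (x := ξ)) :)

/-- Average of `G` of the weight of the closure of a seed. -/
noncomputable def Gt (μ : ℝ≥0) (ξ : Tr) (G : ℝ≥0∞ → ℝ≥0∞) (Z : Set (List ℕ)) : ℝ≥0∞ :=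
  ∫⁻ η, G (WW ξ (cl (Ef ξ η) Z)) ∂(frogs μ)

/-- Average of `G` of the weight activated by an escaping walk. -/
noncomputable def Avg (μ : ℝ≥0) (ξ : Tr) (G : ℝ≥0∞ → ℝ≥0∞) : ℝ≥0∞ :=
  ∫⁻ x, ind (¬Hit ξ (some []) x) * Gt μ ξ G (rng ξ [] x) ∂nu

lemma measurable_WW_cl : Measurable fun w : (Tr × Set (List ℕ)) × (List ℕ → Site) =>
    WW w.1.1 (cl (Ef w.1.1 w.2) w.1.2) :=
  measurable_WW_param.comp (measurable_fst.fst.prodMk (measurable_cl
    (measurable_Ef_param.comp (measurable_fst.fst.prodMk measurable_snd)) measurable_fst.snd))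

lemma measurable_Gt_param (μ : ℝ≥0) {G : Tr → ℝ≥0∞ → ℝ≥0∞}
    (hG : Measurable fun w : Tr × ℝ≥0∞ => G w.1 w.2) :
    Measurable fun w : Tr × Set (List ℕ) => Gt μ w.1 (G w.1) w.2 :=
  Measurable.lintegral_prod_right' (hG.comp (measurable_fst.fst.prodMk measurable_WW_cl))

lemma measurable_Gt (μ : ℝ≥0) (ξ : Tr) {G : ℝ≥0∞ → ℝ≥0∞} (hG : Measurable G) :
    Measurable (Gt μ ξ G) :=
  ((measurable_Gt_param μ (G := fun _ => G) (hG.comp measurable_snd)).comp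
    (measurable_prodMk_left (x := ξ)) :)

lemma measurable_Avg (μ : ℝ≥0) {G : Tr → ℝ≥0∞ → ℝ≥0∞}
    (hG : Measurable fun w : Tr × ℝ≥0∞ => G w.1 w.2) : Measurable fun ξ => Avg μ ξ (G ξ) :=
  Measurable.lintegral_prod_right' (f := fun w : Tr × (ℕ → ℝ) =>
      ind (¬Hit w.1 (some []) w.2) * Gt μ w.1 (G w.1) (rng w.1 [] w.2))
    ((mind (measurable_Hit_param _).not).fun_mul ((measurable_Gt_param μ hG).comp
      (measurable_fst.prodMk (measurable_rng_param _))))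

lemma Gt_anti (μ : ℝ≥0) (ξ : Tr) {G : ℝ≥0∞ → ℝ≥0∞} (hG : Antitone G) : Antitone (Gt μ ξ G) :=
  fun _ _ h => lmono fun _ => hG (WW_mono ξ (cl_mono le_rfl h))

lemma Gt_le_one (μ : ℝ≥0) (ξ : Tr) {G : ℝ≥0∞ → ℝ≥0∞} (hG : ∀ w, G w ≤ 1) (Z : Set (List ℕ)) :
    Gt μ ξ G Z ≤ 1 :=
  (lmono fun _ => hG _).trans (by simp)

lemma Avg_le_bb (μ : ℝ≥0) (ξ : Tr) {G : ℝ≥0∞ → ℝ≥0∞} (hG : ∀ w, G w ≤ 1) :
    Avg μ ξ G ≤ bb ξ := by
  rw [coe_bb]
  exact lmono fun x => mul_le_of_le_one_right' (Gt_le_one μ ξ hG _)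

/-- Location of a column entry. -/
def loc : ℕ ⊕ ℕ → List ℕ × List ℕ → List ℕ
  | inl w, l => l.1 ++ [w]
  | inr _, l => l.1

/-- The types of frogs. -/
def DD (ξ : Tr) : ℕ ⊕ ℕ → List ℕ × List ℕ → (ℕ → ℝ) → Prop
  | inl w, l => fun t => ¬Hit (sh [w] ξ) (some l.1) t ∧ l.2 ∈ rng (sh [w] ξ) l.1 t
  | inr w, l => fun t => ∃ k, Via ξ w (some l.1) k t ∧ l.2 ∈ rng (sh [w] ξ) [] (shift (k + 1) t)

/-- Families of columns. -/
abbrev Cols := ℕ ⊕ ℕ → Rel

/-- The columns. -/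
def RR (ξ : Tr) (η : List ℕ → Site) : Cols := col loc (DD ξ) η

lemma RR_inl (ξ : Tr) (η : List ℕ → Site) (w : ℕ) :
    RR ξ η (inl w) = Ef (sh [w] ξ) (sh [w] η) := rfl

lemma measurable_DD (ξ : Tr) (c : ℕ ⊕ ℕ) (l : List ℕ × List ℕ) : Measurable (DD ξ c l) := by
  cases c with
  | inl w => exact (measurable_Hit _ _).not.and (measurable_mem_rng _ _ _)
  | inr w =>
    exact Measurable.exists fun k => (measurable_Via _ _ _ _).and
      ((measurable_mem_rng _ _ _).comp (measurable_shift _))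

lemma measurable_RR (ξ : Tr) : Measurable (RR ξ) := measurable_col loc (measurable_DD ξ)

lemma path_of_not_hit {ξ : Tr} {w : ℕ} {u : List ℕ} {t : ℕ → ℝ}
    (h : ¬Hit (sh [w] ξ) (some u) t) (k : ℕ) :
    ∃ z, path (pstep ξ) (some (u ++ [w])) t k = some (z ++ [w]) := by
  cases hk : path (pstep (sh [w] ξ)) (some u) t k with
  | none => exact (h ⟨k, hk⟩).elim
  | some z => exact ⟨z, embed_some (hs_planted ξ) w u t k hk⟩

lemma DD_disj (ξ : Tr) : ∀ c c' l l' t, loc c l = loc c' l' → DD ξ c l t → DD ξ c' l' t →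
    c = c' := by
  have key : ∀ w w' l l' t, loc (inl w) l = loc (inr w') l' → DD ξ (inl w) l t →
      DD ξ (inr w') l' t → False := fun w w' l l' t h h1 ⟨k, h2, _⟩ => by
    obtain ⟨z, hz⟩ := path_of_not_hit h1.1 k
    have h3 : l.1 ++ [w] = l'.1 := h
    rw [h3, h2.1.1] at hz
    simp at hz
  rintro (w | w) (w' | w') l l' t h h1 h2
  · have h3 : l.1 ++ [w] = l'.1 ++ [w'] := h
    rw [(List.singleton_inj.1 (List.append_inj' h3 rfl).2)]
  · exact (key _ _ _ _ _ h h1 h2).elim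
  · exact (key _ _ _ _ _ h.symm h2 h1).elim
  · obtain ⟨k, h1, -⟩ := h1
    obtain ⟨k', h2, -⟩ := h2
    have h3 : l.1 = l'.1 := h
    rw [h3] at h1
    rw [(h1.unique h2).2]

lemma RR_split (μ : ℝ≥0) (ξ : Tr) (c : ℕ ⊕ ℕ) {α : Type*} [MeasurableSpace α]
    {a : Cols → α} (ha : Measurable a) (hap : ∀ x y, (∀ i, i ≠ c → x i = y i) → a x = a y)
    {G : α → Rel → ℝ≥0∞} (hG : Measurable (Function.uncurry G)) :
    ∫⁻ η, G (a (RR ξ η)) (RR ξ η c) ∂(frogs μ) =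
      ∫⁻ η, ∫⁻ η', G (a (RR ξ η)) (RR ξ η' c) ∂(frogs μ) ∂(frogs μ) :=
  col_split loc μ (measurable_DD ξ) (DD_disj ξ) {i | i ≠ c} ha (measurable_pi_apply c) hap
    (fun _ _ h => h c fun h => h rfl) hG

/-- Targets of the edges from `A`. -/
def Zs (A : Set (List ℕ)) (E : Rel) : Set (List ℕ) := {z | ∃ u ∈ A, (u, z) ∈ E}

lemma measurable_Zs {Ω : Type*} [MeasurableSpace Ω] {A : Ω → Set (List ℕ)} {E : Ω → Rel}
    (hA : Measurable A) (hE : Measurable E) : Measurable fun ω => Zs (A ω) (E ω) :=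
  measurable_set_iff.2 fun z => Measurable.exists fun u =>
    (measurable_set_iff.1 hA u).and (measurable_set_iff.1 hE (u, z))

lemma measurable_nonempty : Measurable fun A : Set (List ℕ) => A.Nonempty :=
  Measurable.exists fun z => measurable_set_mem z

lemma Zs_mono {A B : Set (List ℕ)} (h : A ⊆ B) (E : Rel) : Zs A E ⊆ Zs B E :=
  fun _ ⟨u, hu, h1⟩ => ⟨u, h hu, h1⟩

lemma Zs_nonempty_iff (ξ : Tr) (η : List ℕ → Site) (a : ℕ) (A : Set (List ℕ)) :
    (Zs A (RR ξ η (inr a))).Nonempty ↔ ∃ u ∈ A, hits (fun t => ∃ k, Via ξ a (some u) k t) (η u) :=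
  ⟨fun ⟨_, u, hu, i, hi, k, hk, _⟩ => ⟨u, hu, i, hi, k, hk⟩,
    fun ⟨u, hu, i, hi, k, hk⟩ => ⟨[], u, hu, i, hi, k, hk, self_mem_rng _ _ _⟩⟩

lemma tsum_prob_Via (ξ : Tr) {a : ℕ} (ha : a < ξ []) (A : Set (List ℕ)) :
    ∑' u, ind (u ∈ A) * ∫⁻ t, ind (∃ k, Via ξ a (some u) k t) ∂nu = bb (sh [a] ξ) * WW ξ A := by
  simp_rw [prob_Via ξ ha, ← mul_assoc]
  rw [ENNReal.tsum_mul_right, mul_comm, WW]

lemma pressure (μ : ℝ≥0) (ξ : Tr) {a : ℕ} (ha : a < ξ []) (A : Set (List ℕ)) :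
    ∫⁻ η, ind (¬(Zs A (RR ξ η (inr a))).Nonempty) ∂(frogs μ) ≤
      ex (μ * (bb (sh [a] ξ) * WW ξ A)) := by
  rw [← tsum_prob_Via ξ ha]
  refine le_trans (lmono fun η => ind_mono fun h u hu h1 => h ?_)
    (void_le μ (fun u => measurable_exists_Via ξ a (some u)) A)
  exact (Zs_nonempty_iff _ _ _ _).2 ⟨u, hu, h1⟩

lemma pressure' (μ : ℝ≥0) (ξ : Tr) {a : ℕ} (ha : a < ξ []) (A : Set (List ℕ)) :
    ∫⁻ η, ind (Zs A (RR ξ η (inr a))).Nonempty ∂(frogs μ) ≤ μ * (bb (sh [a] ξ) * WW ξ A) := by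
  rw [← tsum_prob_Via ξ ha]
  simp_rw [Zs_nonempty_iff]
  exact exists_hits_le μ (fun u => measurable_exists_Via ξ a (some u)) A

lemma seeding (μ : ℝ≥0) (ξ : Tr) {a : ℕ} (ha : a < ξ []) (A : Set (List ℕ))
    {G : ℝ≥0∞ → ℝ≥0∞} (hG : Measurable G) (hG' : Antitone G) :
    bb (sh [a] ξ) * ∫⁻ η, ind (Zs A (RR ξ η (inr a))).Nonempty *
      Gt μ (sh [a] ξ) G (Zs A (RR ξ η (inr a))) ∂(frogs μ) ≤ Avg μ (sh [a] ξ) G := by
  by_cases hb : bb (sh [a] ξ) = 0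
  · simp [hb]
  set g : ℝ≥0∞ := Avg μ (sh [a] ξ) G * (bb (sh [a] ξ) : ℝ≥0∞)⁻¹ with hg
  have hgb : g * bb (sh [a] ξ) = Avg μ (sh [a] ξ) G := by
    rw [hg, mul_assoc, ENNReal.inv_mul_cancel (by simpa using hb) ENNReal.coe_ne_top, mul_one]
  have hGt := measurable_Gt μ (sh [a] ξ) hG
  have hGa := Gt_anti μ (sh [a] ξ) hG'
  have hm0 : Measurable fun x => Gt μ (sh [a] ξ) G (rng (sh [a] ξ) [] x) :=
    hGt.comp (measurable_rng _ _)
  set φ : List ℕ → Site → ℝ≥0∞ := fun u x =>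
    Gt μ (sh [a] ξ) G {z | hits (DD ξ (inr a) (u, z)) x} with hφ
  have hφm : ∀ u, Measurable (φ u) := fun u =>
    hGt.comp (measurable_set_iff.2 fun z => measurable_hits (measurable_DD _ _ _))
  have key := first_success (site μ) A
    (P := fun u x => hits (fun t => ∃ k, Via ξ a (some u) k t) x)
    (fun u => measurable_hits (measurable_exists_Via ξ a (some u))) hφm (g := g)
    (fun u _ => hits_first_success μ (measurable_exists_Via ξ a (some u))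
      (measurable_Via_sum ξ a (some u) hm0)
      (by
        rw [prob_Via ξ ha, mul_left_comm, hgb, Avg, ← lintegral_Via ξ ha u hm0]
        exact lmono fun t => ind_mul_le _ _)
      fun x i hi ⟨k, hk⟩ => by
        refine le_trans ?_ (ENNReal.le_tsum k)
        rw [ind_pos hk, one_mul]
        exact hGa fun z hz => ⟨i, hi, k, hk, hz⟩)
    (F := fun η => Gt μ (sh [a] ξ) G (Zs A (RR ξ η (inr a))))
    fun η u hu _ => hGa fun z hz => ⟨u, hu, hz⟩
  simp_rw [Zs_nonempty_iff]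
  rw [← hgb, mul_comm g]
  gcongr
  exact key.trans (mul_le_of_le_one_right' (lintegral_ind_le_one _ _))

lemma lintegral_inl (μ : ℝ≥0) (ξ : Tr) (a : ℕ) {G : ℝ≥0∞ → ℝ≥0∞} (hG : Measurable G)
    (Z : Set (List ℕ)) :
    ∫⁻ η, G (WW (sh [a] ξ) (cl (RR ξ η (inl a)) Z)) ∂(frogs μ) = Gt μ (sh [a] ξ) G Z :=
  lintegral_sh (site μ) [a] (F := fun η => G (WW (sh [a] ξ) (cl (Ef (sh [a] ξ) η) Z)))
    (hG.comp ((measurable_WW _).comp (measurable_cl (measurable_Ef _) measurable_const)))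

section dep
variable (μ : ℝ≥0) (ξ : Tr) {a : ℕ} (ha : a < ξ []) {A : Cols → Set (List ℕ)}
  (hA : Measurable A) (hAp : ∀ x y, (∀ i, i ≠ inl a → i ≠ inr a → x i = y i) → A x = A y)
include ha hA hAp

lemma pressure_dep : ∫⁻ η, ind (¬(Zs (A (RR ξ η)) (RR ξ η (inr a))).Nonempty) ∂(frogs μ) ≤
    ∫⁻ η, ex (μ * (bb (sh [a] ξ) * WW ξ (A (RR ξ η)))) ∂(frogs μ) := by
  rw [RR_split μ ξ (inr a) hA (fun x y h => hAp x y fun i _ hi => h i hi)
    (G := fun A E => ind (¬(Zs A E).Nonempty))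
    (mind (measurable_nonempty.comp (measurable_Zs measurable_fst measurable_snd)).not)]
  exact lmono fun η => pressure μ ξ ha _

lemma seeding_dep {G : ℝ≥0∞ → ℝ≥0∞} (hG : Measurable G) (hG' : Antitone G) :
    bb (sh [a] ξ) * ∫⁻ η, ind (Zs (A (RR ξ η)) (RR ξ η (inr a))).Nonempty *
      G (WW (sh [a] ξ) (cl (RR ξ η (inl a)) (Zs (A (RR ξ η)) (RR ξ η (inr a))))) ∂(frogs μ) ≤
      Avg μ (sh [a] ξ) G := by
  have hZ : Measurable fun w : Set (List ℕ) × Rel => Zs w.1 w.2 :=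
    measurable_Zs measurable_fst measurable_snd
  have hm : Measurable fun w : Set (List ℕ) × Rel =>
      ind (Zs w.1 w.2).Nonempty * Gt μ (sh [a] ξ) G (Zs w.1 w.2) :=
    (mind (measurable_nonempty.comp hZ)).fun_mul ((measurable_Gt μ _ hG).comp hZ)
  rw [RR_split μ ξ (inl a) (a := fun R => Zs (A R) (R (inr a)))
    (measurable_Zs hA (measurable_pi_apply _))
    (fun x y h => by rw [hAp x y fun i hi _ => h i hi, h (inr a) (by simp)])
    (G := fun Z E => ind Z.Nonempty * G (WW (sh [a] ξ) (cl E Z)))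
    ((mind (measurable_nonempty.comp measurable_fst)).fun_mul
      (hG.comp ((measurable_WW _).comp (measurable_cl measurable_snd measurable_fst))))]
  simp_rw [lintegral_const_mul' _ _ (ind_ne_top _), lintegral_inl μ ξ a hG]
  rw [RR_split μ ξ (inr a) hA (fun x y h => hAp x y fun i _ hi => h i hi)
    (G := fun A E => ind (Zs A E).Nonempty * Gt μ (sh [a] ξ) G (Zs A E)) hm,
    ← lintegral_const_mul' _ _ ENNReal.coe_ne_top]
  exact (lmono fun η => seeding μ ξ ha _ hG hG').trans (by simp)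

end dep

end Pool.Agent.Lib.MP_0cd4b8_pr
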