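import Pool.Agent.Lib.MP_0cd4b8_pr.RecQ1

/-! The quenched recursive inequality. -/

set_option autoImplicit false

open MeasureTheory ProbabilityTheory Measure Filter Topology Sum
open scoped ENNReal NNReal

namespace Pool.Agent.Lib.MP_0cd4b8_pr

/-- Edges coming from the columns of the children in `K`. -/
def EK (K : Finset ℕ) (R : Cols) : Rel :=
  {e | ∃ w ∈ K, ∃ z, e.2 = z ++ [w] ∧
    ((∃ u, e.1 = u ++ [w] ∧ (u, z) ∈ R (inl w)) ∨ (e.1, z) ∈ R (inr w))}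

/-- Embedding of a set of vertices of the subtree of the child `w`. -/
def emb (w : ℕ) (s : Set (List ℕ)) : Set (List ℕ) := {z | ∃ y ∈ s, z = y ++ [w]}

/-- The activated set using the columns of the children in `K`. -/
def AK (K : Finset ℕ) (w : ℕ) (s : Set (List ℕ)) (R : Cols) : Set (List ℕ) :=
  cl (EK K R) ({[]} ∪ emb w s)

lemma measurable_EK (K : Finset ℕ) : Measurable (EK K) :=
  measurable_set_iff.2 fun e => Measurable.exists fun w => measurable_const.and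
    (Measurable.exists fun z => measurable_const.and
      ((Measurable.exists fun u => measurable_const.and
        (measurable_set_iff.1 (measurable_pi_apply (inl w)) (u, z))).or
        (measurable_set_iff.1 (measurable_pi_apply (inr w)) (e.1, z))))

lemma measurable_emb (w : ℕ) : Measurable (emb w) :=
  measurable_set_iff.2 fun _ => Measurable.exists fun y =>
    (measurable_set_mem y).and measurable_const

lemma measurable_AK_param (K : Finset ℕ) (w : ℕ) :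
    Measurable fun z : Set (List ℕ) × Cols => AK K w z.1 z.2 :=
  measurable_cl ((measurable_EK K).comp measurable_snd) (measurable_set_iff.2 fun y =>
    measurable_const.or (measurable_set_iff.1 ((measurable_emb w).comp measurable_fst) y))

lemma measurable_AK (K : Finset ℕ) (w : ℕ) (s : Set (List ℕ)) : Measurable (AK K w s) :=
  ((measurable_AK_param K w).comp (measurable_prodMk_left (x := s)) :)

lemma EK_mono {K K' : Finset ℕ} {R R' : Cols} (hK : K ⊆ K')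
    (h : ∀ w ∈ K, R (inl w) = R' (inl w) ∧ R (inr w) = R' (inr w)) : EK K R ⊆ EK K' R' := by
  rintro e ⟨w, hw, z, h1, h2⟩
  refine ⟨w, hK hw, z, h1, ?_⟩
  rwa [← (h w hw).1, ← (h w hw).2]

lemma AK_mono {K K' : Finset ℕ} (hK : K ⊆ K') (w : ℕ) (s : Set (List ℕ)) (R : Cols) :
    AK K w s R ⊆ AK K' w s R := cl_mono (EK_mono hK fun _ _ => ⟨rfl, rfl⟩) le_rfl

lemma AK_dep {K : Finset ℕ} {a : ℕ} (ha : a ∉ K) (w : ℕ) (s : Set (List ℕ)) (x y : Cols)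
    (h : ∀ i, i ≠ inl a → i ≠ inr a → x i = y i) : AK K w s x = AK K w s y := by
  have h1 : ∀ v ∈ K, x (inl v) = y (inl v) ∧ x (inr v) = y (inr v) := fun v hv =>
    ⟨h _ (fun h => ha (inl_injective h ▸ hv)) (by simp),
      h _ (by simp) fun h => ha (inr_injective h ▸ hv)⟩
  rw [AK, AK, (EK_mono le_rfl h1).antisymm
    (EK_mono le_rfl fun v hv => ⟨(h1 v hv).1.symm, (h1 v hv).2.symm⟩)]

lemma nil_mem_AK (K : Finset ℕ) (w : ℕ) (s : Set (List ℕ)) (R : Cols) : [] ∈ AK K w s R :=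
  subset_cl _ _ (Or.inl rfl)

lemma cl_subset_pull {K : Finset ℕ} {a : ℕ} (ha : a ∈ K) {w : ℕ} {s Z : Set (List ℕ)} {R : Cols}
    (hZ : Z ⊆ pull a (AK K w s R)) : cl (R (inl a)) Z ⊆ pull a (AK K w s R) :=
  cl_subset hZ fun u hu z hz => cl_step hu ⟨a, ha, z, rfl, Or.inl ⟨u, rfl, hz⟩⟩

lemma seed_subset_pull (K : Finset ℕ) (w : ℕ) (s : Set (List ℕ)) (R : Cols) :
    s ⊆ pull w (AK K w s R) := fun z hz => subset_cl _ _ (Or.inr ⟨z, hz, rfl⟩)

lemma Zs_subset_pull {K : Finset ℕ} {a : ℕ} (ha : a ∈ K) {w : ℕ} {s A : Set (List ℕ)} {R : Cols}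
    (hA : A ⊆ AK K w s R) : Zs A (R (inr a)) ⊆ pull a (AK K w s R) :=
  fun z ⟨_, hu, hz⟩ => cl_step (hA hu) ⟨a, ha, z, rfl, Or.inr hz⟩

lemma act_of_mem {K : Finset ℕ} {a w : ℕ} (haw : a ≠ w) {s : Set (List ℕ)} {R : Cols}
    (h : [a] ∈ AK K w s R) : (Zs (AK (K.erase a) w s R) (R (inr a))).Nonempty := by
  by_contra hn
  have h1 : AK (K.erase a) w s R ⊆ {z | ∀ y, z ≠ y ++ [a]} := by
    refine cl_subset ?_ ?_
    · rintro z (rfl | ⟨y, -, rfl⟩) y' h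
      · simp at h
      · exact haw (List.singleton_inj.1 (List.append_inj' h rfl).2).symm
    · rintro u - z ⟨v, hv, y, (rfl : z = _), -⟩ y' h
      exact Finset.ne_of_mem_erase hv (List.singleton_inj.1 (List.append_inj' h rfl).2)
  have h2 : AK K w s R ⊆ AK (K.erase a) w s R := by
    refine cl_subset (subset_cl _ _) ?_
    rintro u hu z ⟨v, hv, y, h3, h4⟩
    by_cases hva : v = a
    · subst hva
      rcases h4 with ⟨u', h4, -⟩ | h4
      · exact (h1 hu u' h4).elim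
      · exact (hn ⟨y, u, hu, h4⟩).elim
    · exact cl_step hu ⟨v, Finset.mem_erase.2 ⟨hva, hv⟩, y, h3, h4⟩
  exact h1 (h2 h) [] rfl

lemma AK_subset_full {ξ : Tr} {w k : ℕ} {x : ℕ → ℝ} (h : Via ξ w (some []) k x) (K : Finset ℕ)
    (η : List ℕ → Site) :
    AK K w (rng (sh [w] ξ) [] (shift (k + 1) x)) (RR ξ η) ⊆ cl (Ef ξ η) (rng ξ [] x) := by
  refine cl_mono ?_ ?_
  · rintro ⟨u, z⟩ ⟨v, -, y, (rfl : z = _), ⟨u', (rfl : u = _), i, hi, h1, j, h2⟩ |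
      ⟨i, hi, j, h1, h2⟩⟩
    · refine ⟨i, hi, fun ⟨m, hm⟩ => ?_, j, embed_some (hs_planted ξ) v u' _ j h2⟩
      obtain ⟨z, hz⟩ := path_of_not_hit h1 m
      exact absurd (hz.symm.trans hm) (by simp)
    · exact ⟨i, hi, h1.not_hit, h1.rng_subset h2⟩
  · rintro z (rfl | ⟨y, hy, rfl⟩)
    · exact self_mem_rng _ _ _
    · exact h.rng_subset hy

/-- The convex function. -/
noncomputable def UU (y : ℝ≥0∞) : ℝ≥0∞ := (1 + y)⁻¹

lemma UU_anti : Antitone UU := fun _ _ h => ENNReal.inv_le_inv.2 (add_le_add le_rfl h)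

lemma UU_le_one (y : ℝ≥0∞) : UU y ≤ 1 := ENNReal.inv_le_one.2 le_self_add

@[fun_prop]
lemma measurable_UU : Measurable UU := by unfold UU; fun_prop

lemma two_le_add_inv {m : ℝ≥0∞} (h0 : m ≠ 0) (h1 : m ≠ ⊤) (y : ℝ≥0∞) :
    2 ≤ y * m⁻¹ + m * y⁻¹ := by
  rcases eq_or_ne y ⊤ with rfl | hy
  · rw [ENNReal.top_mul (ENNReal.inv_ne_zero.2 h1)]; simp
  rcases eq_or_ne y 0 with rfl | hy0
  · rw [ENNReal.inv_zero, ENNReal.mul_top h0]; simp
  lift m to ℝ≥0 using h1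
  lift y to ℝ≥0 using hy
  have hm : m ≠ 0 := by simpa using h0
  have hy : y ≠ 0 := by simpa using hy0
  rw [← ENNReal.coe_inv hm, ← ENNReal.coe_inv hy]
  have : (2 : ℝ≥0) ≤ y * m⁻¹ + m * y⁻¹ := by
    rw [← NNReal.coe_le_coe]
    push_cast
    have h2 : (0 : ℝ) < m := by positivity
    have h3 : (0 : ℝ) < y := by positivity
    have : (y : ℝ) * (m : ℝ)⁻¹ + m * (y : ℝ)⁻¹ - 2 = (y - m) ^ 2 / (m * y) := by
      field_simp; ring
    have h4 : 0 ≤ ((y : ℝ) - m) ^ 2 / (m * y) := by positivity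
    linarith
  exact_mod_cast this

lemma am_hm {ι : Type*} (J : Finset ι) {π y : ι → ℝ≥0∞} (hπ : ∑ a ∈ J, π a = 1)
    (hy : ∀ a, 1 ≤ y a) : (∑ a ∈ J, π a * y a)⁻¹ ≤ ∑ a ∈ J, π a * (y a)⁻¹ := by
  set m := ∑ a ∈ J, π a * y a with hm
  rcases eq_or_ne m ⊤ with h1 | h1
  · simp [h1]
  have h0 : m ≠ 0 := by
    refine (lt_of_lt_of_le one_pos ?_).ne'
    rw [← hπ]
    exact Finset.sum_le_sum fun a _ => le_mul_of_one_le_right' (hy a)
  have h2 : 1 + 1 ≤ 1 + m * ∑ a ∈ J, π a * (y a)⁻¹ := by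
    calc (1 : ℝ≥0∞) + 1 = ∑ a ∈ J, π a * 2 := by rw [← Finset.sum_mul, hπ]; norm_num
      _ ≤ ∑ a ∈ J, π a * (y a * m⁻¹ + m * (y a)⁻¹) := by
          gcongr with a
          exact two_le_add_inv h0 h1 _
      _ = m * m⁻¹ + m * ∑ a ∈ J, π a * (y a)⁻¹ := by
          rw [Finset.mul_sum]
          nth_rewrite 3 [hm]
          rw [Finset.sum_mul, ← Finset.sum_add_distrib]
          exact Finset.sum_congr rfl fun a _ => by ring
      _ = _ := by rw [ENNReal.mul_inv_cancel h0 h1]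
  have h3 := (ENNReal.add_le_add_iff_left ENNReal.one_ne_top).1 h2
  calc m⁻¹ = m⁻¹ * 1 := (mul_one _).symm
    _ ≤ m⁻¹ * (m * ∑ a ∈ J, π a * (y a)⁻¹) := by gcongr
    _ = _ := by rw [← mul_assoc, ENNReal.inv_mul_cancel h0 h1, one_mul]

lemma coe_CC (ξ : Tr) : (CC ξ : ℝ≥0∞) = ∑ i ∈ Finset.range (ξ []), (bb (sh [i] ξ) : ℝ≥0∞) :=
  ENNReal.ofNNReal_finsetSum _ _

lemma sum_pi {ξ : Tr} (hC : CC ξ ≠ 0) :
    ∑ a ∈ Finset.range (ξ []), (bb (sh [a] ξ) : ℝ≥0∞) * (CC ξ : ℝ≥0∞)⁻¹ = 1 := by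
  rw [← Finset.sum_mul, ← coe_CC, ENNReal.mul_inv_cancel (by simpa using hC) ENNReal.coe_ne_top]

lemma jensen_step {ξ : Tr} (hC : CC ξ ≠ 0) {A : Set (List ℕ)} (hA : [] ∈ A) :
    UU (WW ξ A * (bb ξ : ℝ≥0∞)⁻¹) ≤ ∑ a ∈ Finset.range (ξ []),
      (bb (sh [a] ξ) : ℝ≥0∞) * (CC ξ : ℝ≥0∞)⁻¹ *
        UU ((CC ξ : ℝ≥0∞)⁻¹ + WW (sh [a] ξ) (pull a A) * (bb (sh [a] ξ) : ℝ≥0∞)⁻¹) := by
  refine le_trans (ENNReal.inv_le_inv.2 ?_) (am_hm _ (sum_pi hC) fun a => le_self_add)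
  have h1 := WW_ge ξ A (Finset.range (ξ []))
  rw [ind_pos hA] at h1
  have h2 : (hh ξ : ℝ≥0∞) * (bb ξ : ℝ≥0∞)⁻¹ = (CC ξ : ℝ≥0∞)⁻¹ := by
    rw [bb_eq, ENNReal.coe_mul, ENNReal.mul_inv (Or.inr ENNReal.coe_ne_top)
      (Or.inl ENNReal.coe_ne_top), mul_left_comm,
      ENNReal.mul_inv_cancel (by simpa using (hh_pos ξ).ne') ENNReal.coe_ne_top, mul_one]
  calc _ ≤ ∑ a ∈ Finset.range (ξ []), ((bb (sh [a] ξ) : ℝ≥0∞) * (CC ξ : ℝ≥0∞)⁻¹ *
        (1 + (CC ξ : ℝ≥0∞)⁻¹) + (CC ξ : ℝ≥0∞)⁻¹ * WW (sh [a] ξ) (pull a A)) := by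
        refine Finset.sum_le_sum fun a _ => ?_
        rw [← add_assoc, mul_add _ (1 + _)]
        refine add_le_add le_rfl ?_
        calc _ = (CC ξ : ℝ≥0∞)⁻¹ * WW (sh [a] ξ) (pull a A) *
              ((bb (sh [a] ξ) : ℝ≥0∞) * (bb (sh [a] ξ) : ℝ≥0∞)⁻¹) := by ring
          _ ≤ _ := mul_le_of_le_one_right' (ENNReal.mul_inv_le_one _)
    _ = 1 + hh ξ * (1 + ∑ a ∈ Finset.range (ξ []), WW (sh [a] ξ) (pull a A)) *
        (bb ξ : ℝ≥0∞)⁻¹ := by
        rw [Finset.sum_add_distrib, ← Finset.sum_mul, sum_pi hC, ← Finset.mul_sum,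
          mul_right_comm, h2]
        ring
    _ ≤ _ := by gcongr

lemma gain_ineq (C : ℝ≥0) (hC : C ≠ 0) (X : ℝ≥0∞) :
    UU ((C : ℝ≥0∞)⁻¹ + X) + ((1 + C)⁻¹ : ℝ≥0) * UU X ^ 2 ≤ UU X := by
  rcases eq_or_ne X ⊤ with rfl | hX
  · simp [UU]
  lift X to ℝ≥0 using hX
  have : (1 + (C⁻¹ + X))⁻¹ + (1 + C)⁻¹ * (1 + X)⁻¹ ^ 2 ≤ (1 + X)⁻¹ := by
    rw [← NNReal.coe_le_coe]
    push_cast
    have h2 : (0 : ℝ) < C := by positivity
    have h3 : (0 : ℝ) ≤ X := by positivity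
    have : (1 + (X : ℝ))⁻¹ - ((1 + ((C : ℝ)⁻¹ + X))⁻¹ + (1 + (C : ℝ))⁻¹ * (1 + (X : ℝ))⁻¹ ^ 2) =
        X / ((1 + X) ^ 2 * (1 + C) * (1 + C * (1 + X))) := by
      field_simp; ring
    have h4 : 0 ≤ (X : ℝ) / ((1 + X) ^ 2 * (1 + C) * (1 + C * (1 + X))) := by positivity
    linarith
  unfold UU
  rw [← ENNReal.coe_inv hC, ← ENNReal.coe_add, ← ENNReal.coe_one, ← ENNReal.coe_add,
    ← ENNReal.coe_add, ← ENNReal.coe_inv (by positivity), ← ENNReal.coe_inv (by positivity)]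
  exact_mod_cast this

lemma ray_ineq {W c : ℝ≥0∞} (h : c ≤ 2 * W) : 4⁻¹ * UU W ^ 4 ≤ UU (W * (1 + c)) ^ 2 := by
  have h1 : 1 + W * (1 + c) ≤ 2 * (1 + W) ^ 2 := by
    calc _ ≤ 1 + W * (1 + 2 * W) + (1 + 3 * W) := le_add_right (by gcongr)
      _ = _ := by ring
  have h2 := ENNReal.inv_le_inv.2 h1
  rw [ENNReal.mul_inv (by simp) (by simp), ENNReal.inv_pow] at h2
  calc _ = (2⁻¹ * (1 + W)⁻¹ ^ 2) ^ 2 := by
        rw [mul_pow, ← ENNReal.inv_pow, ← pow_mul, UU]; norm_num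
    _ ≤ _ := pow_le_pow_left' h2 2

/-- The potential. -/
noncomputable def Phi (μ : ℝ≥0) (ξ : Tr) : ℝ≥0∞ := Avg μ ξ fun w => UU (w * (bb ξ : ℝ≥0∞)⁻¹)

/-- The quantity which is shown to vanish. -/
noncomputable def Psi (μ : ℝ≥0) (ξ : Tr) : ℝ≥0∞ := Avg μ ξ fun w => UU w ^ 4

lemma measurable_Phi (μ : ℝ≥0) : Measurable (Phi μ) :=
  measurable_Avg μ (G := fun ξ w => UU (w * (bb ξ : ℝ≥0∞)⁻¹)) (by fun_prop)

lemma measurable_Psi (μ : ℝ≥0) : Measurable (Psi μ) :=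
  measurable_Avg μ (G := fun _ w => UU w ^ 4) (by fun_prop)

lemma gain_step (μ : ℝ≥0) (C : ℝ≥0) (hC : C ≠ 0) (θ : Tr) :
    Avg μ θ (fun w => UU ((C : ℝ≥0∞)⁻¹ + w * (bb θ : ℝ≥0∞)⁻¹)) +
      ((1 + C)⁻¹ : ℝ≥0) * (4⁻¹ * Psi μ θ) ≤ Phi μ θ := by
  have hm : Measurable fun w : ℝ≥0∞ => UU ((C : ℝ≥0∞)⁻¹ + w * (bb θ : ℝ≥0∞)⁻¹) := by fun_prop
  have hW : ∀ Z, Measurable fun η => WW θ (cl (Ef θ η) Z) := fun Z =>
    (measurable_WW _).comp (measurable_cl (measurable_Ef _) measurable_const)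
  have hm1 : Measurable fun x => ind (¬Hit θ (some []) x) *
      Gt μ θ (fun w => UU ((C : ℝ≥0∞)⁻¹ + w * (bb θ : ℝ≥0∞)⁻¹)) (rng θ [] x) :=
    (mind (measurable_Hit _ _).not).fun_mul ((measurable_Gt μ θ hm).comp (measurable_rng _ _))
  have hm2 : ∀ Z, Measurable fun η =>
      UU ((C : ℝ≥0∞)⁻¹ + WW θ (cl (Ef θ η) Z) * (bb θ : ℝ≥0∞)⁻¹) := fun Z => hm.comp (hW Z)
  rw [Psi, Phi, Avg, Avg, Avg, ← lintegral_const_mul' _ _ (by simp),
    ← lintegral_const_mul' _ _ ENNReal.coe_ne_top, ← lintegral_add_left hm1]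
  refine lintegral_mono_ae ?_
  filter_upwards [ae_ray_bound θ] with x hx
  by_cases hH : Hit θ (some []) x
  · simp [hH]
  simp only [ind_pos hH, one_mul, Gt]
  rw [← lintegral_const_mul' _ _ (by simp), ← lintegral_const_mul' _ _ ENNReal.coe_ne_top,
    ← lintegral_add_left (hm2 _)]
  refine lmono fun η => le_trans ?_ (gain_ineq C hC _)
  refine add_le_add le_rfl ?_
  gcongr
  rw [inv_bb]
  refine ray_ineq ((hx hH).trans ?_)
  gcongr
  exact WW_mono θ (subset_cl _ _)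

/-- The probability of not activating the child `a` (upper bound). -/
noncomputable def lo (μ : ℝ≥0) (ξ : Tr) (w a : ℕ) (s : Set (List ℕ)) : ℝ≥0∞ :=
  ∫⁻ η, ex (μ * (bb (sh [a] ξ) * WW ξ (AK ((Finset.range (ξ [])).erase a) w s (RR ξ η))))
    ∂(frogs μ)

lemma measurable_lo (μ : ℝ≥0) (ξ : Tr) (w a : ℕ) : Measurable (lo μ ξ w a) :=
  Measurable.lintegral_prod_right' (f := fun z : Set (List ℕ) × (List ℕ → Site) =>
      ex (μ * (bb (sh [a] ξ) * WW ξ (AK ((Finset.range (ξ [])).erase a) w z.1 (RR ξ z.2)))))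
    (measurable_ex.comp ((((measurable_WW ξ).comp ((measurable_AK_param _ w).comp
      (measurable_fst.prodMk ((measurable_RR ξ).comp measurable_snd)))).const_mul _).const_mul _))

/-- The loss term. -/
noncomputable def Lo (μ : ℝ≥0) (ξ : Tr) (w a : ℕ) : ℝ≥0∞ :=
  ∫⁻ x, ind (¬Hit (sh [w] ξ) (some []) x) * lo μ ξ w a (rng (sh [w] ξ) [] x) ∂nu

lemma child_step (μ : ℝ≥0) (ξ : Tr) {a : ℕ} (ha : a < ξ []) (w : ℕ) (s : Set (List ℕ))
    {G : ℝ≥0∞ → ℝ≥0∞} (hG : Measurable G) (hG' : Antitone G) (hG1 : ∀ w, G w ≤ 1) :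
    bb (sh [a] ξ) * ∫⁻ η, G (WW (sh [a] ξ) (pull a (AK (Finset.range (ξ [])) w s (RR ξ η))))
      ∂(frogs μ) ≤ Avg μ (sh [a] ξ) G + bb (sh [a] ξ) * lo μ ξ w a s := by
  set K := (Finset.range (ξ [])).erase a
  have hK : a ∉ K := Finset.notMem_erase _ _
  have h1 := seeding_dep μ ξ ha (measurable_AK K w s) (AK_dep hK w s) hG hG'
  have h2 := pressure_dep μ ξ ha (measurable_AK K w s) (AK_dep hK w s)
  have hm : Measurable fun η => ind (¬(Zs (AK K w s (RR ξ η)) (RR ξ η (inr a))).Nonempty) :=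
    mind (measurable_nonempty.comp (measurable_Zs ((measurable_AK K w s).comp (measurable_RR ξ))
      ((measurable_pi_apply (inr a)).comp (measurable_RR ξ)))).not
  refine le_trans ?_ (add_le_add h1 (mul_le_mul_right h2 _))
  rw [← mul_add, ← lintegral_add_right _ hm]
  refine mul_le_mul_right (lmono fun η => ?_) _
  by_cases h : (Zs (AK K w s (RR ξ η)) (RR ξ η (inr a))).Nonempty
  · rw [ind_pos h, one_mul]
    exact le_add_right (hG' (WW_mono _ (cl_subset_pull (Finset.mem_range.2 ha)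
      (Zs_subset_pull (Finset.mem_range.2 ha) (AK_mono (Finset.erase_subset _ _) _ _ _)))))
  · rw [ind_pos h]
    exact le_add_left (hG1 _)

theorem quenched_rec (μ : ℝ≥0) (ξ : Tr) :
    Phi μ ξ + hh ξ * (hh ξ * (4⁻¹ * ∑ i ∈ Finset.range (ξ []), Psi μ (sh [i] ξ))) ≤
      hh ξ * ∑ i ∈ Finset.range (ξ []), Phi μ (sh [i] ξ) +
      hh ξ * ∑ w ∈ Finset.range (ξ []), ∑ a ∈ (Finset.range (ξ [])).erase w,
        bb (sh [a] ξ) * (CC ξ : ℝ≥0∞)⁻¹ * Lo μ ξ w a := by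
  by_cases hC : CC ξ = 0
  · have h1 : Phi μ ξ = 0 := le_zero_iff.1 ((Avg_le_bb μ ξ fun _ => UU_le_one _).trans
      (by rw [bb_eq, hC]; simp))
    have h2 : ∑ i ∈ Finset.range (ξ []), Psi μ (sh [i] ξ) = 0 :=
      Finset.sum_eq_zero fun i hi => le_zero_iff.1
        ((Avg_le_bb μ _ fun _ => pow_le_one' (UU_le_one _) _).trans
          (by simpa [hC] using bb_le_CC ξ (Finset.mem_range.1 hi)))
    simp [h1, h2]
  set D := Finset.range (ξ []) with hD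
  set G : ℕ → ℝ≥0∞ → ℝ≥0∞ := fun a w =>
    UU ((CC ξ : ℝ≥0∞)⁻¹ + w * (bb (sh [a] ξ) : ℝ≥0∞)⁻¹) with hG
  have hGm : ∀ a, Measurable (G a) := fun a => by simp only [hG]; fun_prop
  have hGa : ∀ a, Antitone (G a) := fun a x y h => UU_anti (by gcongr)
  have hm1 : ∀ w, Measurable fun x => Gt μ (sh [w] ξ) (G w) (rng (sh [w] ξ) [] x) := fun w =>
    (measurable_Gt μ _ (hGm w)).comp (measurable_rng _ _)
  have hm2 : ∀ w a, Measurable fun x => lo μ ξ w a (rng (sh [w] ξ) [] x) := fun w a =>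
    (measurable_lo μ ξ w a).comp (measurable_rng _ _)
  have hm3 : ∀ w, Measurable fun x => ind (¬Hit (sh [w] ξ) (some []) x) := fun w =>
    mind (measurable_Hit _ _).not
  have key := lintegral_esc_le ξ
    (F := fun x => Gt μ ξ (fun w => UU (w * (bb ξ : ℝ≥0∞)⁻¹)) (rng ξ [] x))
    (φ := fun w x => bb (sh [w] ξ) * (CC ξ : ℝ≥0∞)⁻¹ * Gt μ (sh [w] ξ) (G w) (rng (sh [w] ξ) [] x)
      + ∑ a ∈ D.erase w, ((CC ξ : ℝ≥0∞)⁻¹ * Avg μ (sh [a] ξ) (G a) +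
        bb (sh [a] ξ) * (CC ξ : ℝ≥0∞)⁻¹ * lo μ ξ w a (rng (sh [w] ξ) [] x)))
    (fun w => ((hm1 w).const_mul _).fun_add (Finset.measurable_sum _ fun a _ =>
      measurable_const.fun_add ((hm2 w a).const_mul _)))
    fun w hw k x hx => by
      set s := rng (sh [w] ξ) [] (shift (k + 1) x)
      have hm4 : ∀ a, Measurable fun η => G a (WW (sh [a] ξ) (pull a (AK D w s (RR ξ η)))) :=
        fun a => (hGm a).comp ((measurable_WW _).comp ((measurable_pull a).comp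
          ((measurable_AK _ _ _).comp (measurable_RR ξ))))
      calc _ ≤ ∫⁻ η, ∑ a ∈ D, bb (sh [a] ξ) * (CC ξ : ℝ≥0∞)⁻¹ *
            G a (WW (sh [a] ξ) (pull a (AK D w s (RR ξ η)))) ∂(frogs μ) := by
            refine lmono fun η => le_trans (UU_anti ?_) (jensen_step hC (nil_mem_AK D w s _))
            gcongr
            exact WW_mono ξ (AK_subset_full hx D η)
        _ ≤ _ := by
            rw [lintegral_finsetSum D fun a _ => (hm4 a).const_mul _,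
              ← Finset.add_sum_erase D _ (Finset.mem_range.2 hw)]
            refine add_le_add ?_ (Finset.sum_le_sum fun a ha => ?_)
            · rw [lintegral_const_mul _ (hm4 w), ← lintegral_inl μ ξ w (hGm w)]
              exact mul_le_mul_right (lmono fun η => hGa w (WW_mono _
                (cl_subset_pull (Finset.mem_range.2 hw) (seed_subset_pull _ _ _ _)))) _
            · rw [lintegral_const_mul _ (hm4 a), mul_comm (bb (sh [a] ξ) : ℝ≥0∞), mul_assoc,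
                mul_assoc, ← mul_add]
              gcongr
              exact child_step μ ξ (Finset.mem_range.1 (Finset.mem_of_mem_erase ha)) w s (hGm a)
                (hGa a) fun _ => UU_le_one _
  have h1 : ∀ w ∈ D, ∫⁻ x, ind (¬Hit (sh [w] ξ) (some []) x) *
      (bb (sh [w] ξ) * (CC ξ : ℝ≥0∞)⁻¹ * Gt μ (sh [w] ξ) (G w) (rng (sh [w] ξ) [] x)
      + ∑ a ∈ D.erase w, ((CC ξ : ℝ≥0∞)⁻¹ * Avg μ (sh [a] ξ) (G a) +
        bb (sh [a] ξ) * (CC ξ : ℝ≥0∞)⁻¹ * lo μ ξ w a (rng (sh [w] ξ) [] x))) ∂nu =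
      bb (sh [w] ξ) * (CC ξ : ℝ≥0∞)⁻¹ * ∑ a ∈ D, Avg μ (sh [a] ξ) (G a) +
        ∑ a ∈ D.erase w, bb (sh [a] ξ) * (CC ξ : ℝ≥0∞)⁻¹ * Lo μ ξ w a := fun w hw => by
    simp_rw [mul_add, Finset.mul_sum (D.erase w), mul_add, mul_left_comm (ind _) (_ * _)]
    rw [lintegral_add_left (((hm3 w).fun_mul (hm1 w)).const_mul _),
      lintegral_const_mul _ ((hm3 w).fun_mul (hm1 w)), lintegral_finsetSum _ fun a _ =>
        ((hm3 w).mul_const _).fun_add (((hm3 w).fun_mul (hm2 w a)).const_mul _),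
      ← Finset.add_sum_erase _ _ hw, mul_add, add_assoc, Finset.mul_sum,
      ← Finset.sum_add_distrib]
    refine congrArg₂ _ rfl (Finset.sum_congr rfl fun a _ => ?_)
    rw [lintegral_add_left ((hm3 w).mul_const _), lintegral_mul_const _ (hm3 w), ← coe_bb,
      lintegral_const_mul _ ((hm3 w).fun_mul (hm2 w a)), ← mul_assoc]
    rfl
  rw [Finset.sum_congr rfl h1, Finset.sum_add_distrib, ← Finset.sum_mul, sum_pi hC, one_mul,
    mul_add] at key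
  calc _ ≤ hh ξ * ∑ a ∈ D, Avg μ (sh [a] ξ) (G a) + hh ξ * ∑ w ∈ D, ∑ a ∈ D.erase w,
        bb (sh [a] ξ) * (CC ξ : ℝ≥0∞)⁻¹ * Lo μ ξ w a +
        hh ξ * (hh ξ * (4⁻¹ * ∑ i ∈ D, Psi μ (sh [i] ξ))) := add_le_add key le_rfl
    _ ≤ _ := by
      rw [add_right_comm, ← mul_add, Finset.mul_sum, Finset.mul_sum, ← Finset.sum_add_distrib]
      gcongr with a
      rw [hh_eq]
      exact gain_step μ _ hC _

end Pool.Agent.Lib.MP_0cd4b8_pr
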