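import Pool.Agent.Lib.MP_0cd4b8_pr.RecQ2

/-! Bounds for the loss term. -/

set_option autoImplicit false

open MeasureTheory ProbabilityTheory Measure Filter Topology Sum
open scoped ENNReal NNReal

namespace Pool.Agent.Lib.MP_0cd4b8_pr

lemma ex_nat_mul (m : ℕ) (y : ℝ≥0∞) : ex (m * y) = ex y ^ m := by
  have := ex_sum (Finset.range m) fun _ => y
  simpa using this

lemma ex_le_mul_inv {y a b : ℝ≥0∞} (ha0 : a ≠ 0) (ha : a ≠ ⊤) (h : a * b ≤ y) :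
    ex y ≤ 24 * a⁻¹ ^ 4 * b⁻¹ ^ 4 := by
  refine (ex_anti h).trans ((ex_le_inv_pow _ 4).trans (le_of_eq ?_))
  rw [ENNReal.mul_inv (Or.inl ha0) (Or.inl ha), mul_pow, mul_assoc]
  norm_num [Nat.factorial]

lemma measurable_UW (ξ : Tr) (w : ℕ) (s : Set (List ℕ)) :
    Measurable fun η => UU (WW (sh [w] ξ) (cl (RR ξ η (inl w)) s)) ^ 4 :=
  (measurable_UU.comp ((measurable_WW _).comp (measurable_cl
    ((measurable_pi_apply (inl w)).comp (measurable_RR ξ)) measurable_const))).pow_const 4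

lemma lo_le_one {μ : ℝ≥0} (hμ : μ ≠ 0) (ξ : Tr) {w a : ℕ} (hb : bb (sh [a] ξ) ≠ 0)
    (hw : w ∈ (Finset.range (ξ [])).erase a) (s : Set (List ℕ)) :
    lo μ ξ w a s ≤ 24 * ((μ : ℝ≥0∞) * (bb (sh [a] ξ) * hh ξ))⁻¹ ^ 4 *
      Gt μ (sh [w] ξ) (fun y => UU y ^ 4) s := by
  rw [← lintegral_inl μ ξ w (by fun_prop), ← lintegral_const_mul _ (measurable_UW ξ w s)]
  refine lmono fun η => ex_le_mul_inv (by simp [hμ, hb, (hh_pos ξ).ne'])
    (by finiteness) ?_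
  rw [mul_assoc, mul_assoc]
  gcongr
  refine le_trans ?_ (WW_ge ξ _ {w})
  rw [ind_pos (nil_mem_AK _ _ _ _), Finset.sum_singleton]
  gcongr
  exact WW_mono _ (cl_subset_pull hw (seed_subset_pull _ _ _ _))

/-- The sources. -/
def src (w : ℕ) (Z : Set (List ℕ)) (S : Finset ℕ) : Set (List ℕ) :=
  ({[]} ∪ emb w Z) ∪ {z | ∃ j ∈ S, z = [j]}

lemma measurable_src (w : ℕ) (S : Finset ℕ) : Measurable fun Z => src w Z S :=
  measurable_set_iff.2 fun z => (measurable_const.or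
    (measurable_set_iff.1 (measurable_emb w) z)).or measurable_const

lemma exists_stable {K J : Finset ℕ} (hJ : J ⊆ K) {w : ℕ} (hw : w ∈ K) (s : Set (List ℕ))
    (ξ : Tr) (η : List ℕ → Site) : ∃ S ⊆ J,
      (∀ j ∈ S, (Zs (src w (cl (RR ξ η (inl w)) s) S) (RR ξ η (inr j))).Nonempty) ∧
      (∀ j ∈ J \ S, ¬(Zs (src w (cl (RR ξ η (inl w)) s) S) (RR ξ η (inr j))).Nonempty) ∧
      ∀ j ∈ S, [j] ∈ AK K w s (RR ξ η) := by
  classical
  set Z := cl (RR ξ η (inl w)) s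
  obtain ⟨S, hS, hmax⟩ := Finset.exists_max_image (J.powerset.filter fun S =>
    (∀ j ∈ S, (Zs (src w Z S) (RR ξ η (inr j))).Nonempty) ∧ ∀ j ∈ S, [j] ∈ AK K w s (RR ξ η))
    Finset.card ⟨∅, by simp⟩
  simp only [Finset.mem_filter, Finset.mem_powerset] at hS hmax
  refine ⟨S, hS.1, hS.2.1, fun j hj hn => ?_, hS.2.2⟩
  obtain ⟨hj1, hj2⟩ := Finset.mem_sdiff.1 hj
  have hsub : src w Z S ⊆ src w Z (insert j S) :=
    Set.union_subset_union_right _ fun z ⟨i, hi, hz⟩ => ⟨i, Finset.mem_insert_of_mem hi, hz⟩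
  have hA : src w Z S ⊆ AK K w s (RR ξ η) := by
    rintro z ((rfl | ⟨y, hy, rfl⟩) | ⟨i, hi, rfl⟩)
    · exact nil_mem_AK _ _ _ _
    · exact cl_subset_pull hw (seed_subset_pull _ _ _ _) hy
    · exact hS.2.2 i hi
  have := hmax (insert j S) ⟨Finset.insert_subset hj1 hS.1, fun i hi => ?_, fun i hi => ?_⟩
  · rw [Finset.card_insert_of_notMem hj2] at this
    omega
  · rcases Finset.mem_insert.1 hi with rfl | hi
    · exact hn.mono (Zs_mono hsub _)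
    · exact (hS.2.1 i hi).mono (Zs_mono hsub _)
  · rcases Finset.mem_insert.1 hi with rfl | hi
    · obtain ⟨u, hu, m, hm, k, hk⟩ := (Zs_nonempty_iff _ _ _ _).1 hn
      exact Zs_subset_pull (hJ hj1) hA ⟨u, hu, m, hm, k, hk, self_mem_rng _ _ _⟩
    · exact hS.2.2 i hi

lemma RR_prod (μ : ℝ≥0) (ξ : Tr) (J : Finset ℕ) {f : ℕ → Rel → ℝ≥0∞}
    (hf : ∀ j, Measurable (f j)) :
    ∫⁻ η, ∏ j ∈ J, f j (RR ξ η (inr j)) ∂(frogs μ) =
      ∏ j ∈ J, ∫⁻ η, f j (RR ξ η (inr j)) ∂(frogs μ) := by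
  have := col_prod loc μ (measurable_DD ξ) (DD_disj ξ) (J.map Function.Embedding.inr)
    (f := Sum.elim f f) (by rintro (c | c) <;> exact hf c)
  simp only [Finset.prod_map, Function.Embedding.inr_apply, Sum.elim_inr] at this
  exact this

lemma stable_prob {μ β₀ : ℝ≥0} (ξ : Tr) {J S : Finset ℕ} (hS : S ⊆ J)
    (hJ : ∀ j ∈ J, j < ξ [] ∧ β₀ ≤ bb (sh [j] ξ)) (A : Set (List ℕ)) :
    ∫⁻ η, ind ((∀ j ∈ S, (Zs A (RR ξ η (inr j))).Nonempty) ∧
      ∀ j ∈ J \ S, ¬(Zs A (RR ξ η (inr j))).Nonempty) ∂(frogs μ) ≤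
      (μ * WW ξ A) ^ S.card * ex (μ * (β₀ * WW ξ A)) ^ (J.card - S.card) := by
  have hm : Measurable fun E : Rel => (Zs A E).Nonempty :=
    measurable_nonempty.comp (measurable_Zs measurable_const measurable_id)
  have key := RR_prod μ ξ J (f := fun j E => if j ∈ S then ind (Zs A E).Nonempty else
    ind (¬(Zs A E).Nonempty)) fun j => by
      split_ifs
      exacts [mind hm, mind hm.not]
  simp_rw [← Finset.prod_sdiff hS] at key
  calc _ = _ := lintegral_congr fun η => by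
        rw [ind_and, ind_forall_finset, ind_forall_finset, mul_comm]
        congr 1 <;> refine Finset.prod_congr rfl fun j hj => ?_
        · rw [if_neg (Finset.mem_sdiff.1 hj).2]
        · rw [if_pos hj]
    _ = _ := key
    _ ≤ _ := by
        rw [mul_comm, ← Finset.card_sdiff_of_subset hS, ← Finset.prod_const, ← Finset.prod_const]
        refine mul_le_mul' (Finset.prod_le_prod' fun j hj => ?_)
          (Finset.prod_le_prod' fun j hj => ?_)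
        · simp only [if_pos hj]
          refine (pressure' μ ξ (hJ j (hS hj)).1 A).trans ?_
          gcongr
          exact mul_le_of_le_one_left' (by exact_mod_cast bb_le_one _)
        · obtain ⟨h1, h2⟩ := Finset.mem_sdiff.1 hj
          simp only [if_neg h2]
          refine (pressure μ ξ (hJ j h1).1 A).trans (ex_anti ?_)
          gcongr
          exact (hJ j h1).2

lemma stable_num {μ β₀ c y W : ℝ≥0∞} (hβ0 : β₀ ≠ 0) (hβ : β₀ ≠ ⊤) {n m : ℕ} (hn : n ≠ 0)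
    (hm : 2 * m ≤ n) (hy : c * (1 + W + m * β₀) ≤ n * y) :
    (μ * y) ^ m * ex (μ * (β₀ * y)) ^ (n - m) ≤
      m.factorial * (4 * β₀⁻¹ * ex (μ * (β₀ * c * 4⁻¹) * β₀) * (n : ℝ≥0∞)⁻¹) ^ m *
        ex (μ * (β₀ * c * 4⁻¹) * (1 + W)) := by
  set z : ℝ≥0∞ := μ * (β₀ * 4⁻¹) * (n * y) with hz
  have h44 : (4 : ℝ≥0∞) * 4⁻¹ = 1 := ENNReal.mul_inv_cancel (by simp) (by simp)
  have h1 : ex (μ * (β₀ * y)) ^ (n - m) ≤ ex z * ex z := by
    rw [← ex_nat_mul, ← ex_add]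
    refine ex_anti ?_
    have h2 : (n : ℝ≥0∞) ≤ 2 * (n - m : ℕ) := by exact_mod_cast (by omega : n ≤ 2 * (n - m))
    calc z + z = 2 * 4⁻¹ * n * (μ * (β₀ * y)) := by rw [hz]; ring
      _ ≤ 2 * 4⁻¹ * (2 * (n - m : ℕ)) * (μ * (β₀ * y)) := by gcongr
      _ = 4 * 4⁻¹ * ((n - m : ℕ) * (μ * (β₀ * y))) := by ring
      _ = _ := by rw [h44, one_mul]
  have h2 : μ * y = 4 * β₀⁻¹ * (n : ℝ≥0∞)⁻¹ * z := by
    calc μ * y = 4 * 4⁻¹ * (β₀ * β₀⁻¹) * (n * (n : ℝ≥0∞)⁻¹) * (μ * y) := by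
          rw [h44, ENNReal.mul_inv_cancel hβ0 hβ,
            ENNReal.mul_inv_cancel (by simpa using hn) (by simp)]
          ring
      _ = _ := by rw [hz]; ring
  have h3 : ex z ≤ ex (μ * (β₀ * c * 4⁻¹) * β₀) ^ m * ex (μ * (β₀ * c * 4⁻¹) * (1 + W)) := by
    rw [← ex_nat_mul, ← ex_add]
    refine ex_anti ?_
    calc _ = μ * (β₀ * 4⁻¹) * (c * (1 + W + m * β₀)) := by ring
      _ ≤ _ := by rw [hz]; gcongr
  calc _ ≤ (4 * β₀⁻¹ * (n : ℝ≥0∞)⁻¹ * z) ^ m * (ex z * ex z) := by rw [h2]; gcongr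
    _ = (4 * β₀⁻¹ * (n : ℝ≥0∞)⁻¹) ^ m * (z ^ m * ex z) * ex z := by ring
    _ ≤ (4 * β₀⁻¹ * (n : ℝ≥0∞)⁻¹) ^ m * m.factorial * (ex (μ * (β₀ * c * 4⁻¹) * β₀) ^ m *
        ex (μ * (β₀ * c * 4⁻¹) * (1 + W))) := by
        gcongr
        exact pow_mul_ex_le z m
    _ = _ := by ring

lemma sum_powerset_le {ι : Type*} (J : Finset ι) {r : ℝ≥0∞} (hr : r ≤ 2⁻¹) :
    ∑ S ∈ J.powerset, (S.card.factorial : ℝ≥0∞) * (r * (J.card : ℝ≥0∞)⁻¹) ^ S.card ≤ 2 := by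
  rw [Finset.sum_powerset_apply_card
    (fun m => (m.factorial : ℝ≥0∞) * (r * (J.card : ℝ≥0∞)⁻¹) ^ m)]
  calc _ ≤ ∑ m ∈ Finset.range (J.card + 1), (2⁻¹ : ℝ≥0∞) ^ m := by
        refine Finset.sum_le_sum fun m _ => ?_
        have h1 : ((J.card.choose m : ℕ) : ℝ≥0∞) * m.factorial ≤ (J.card : ℝ≥0∞) ^ m := by
          have := Nat.descFactorial_le_pow J.card m
          rw [Nat.descFactorial_eq_factorial_mul_choose, mul_comm] at this
          exact_mod_cast this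
        rw [nsmul_eq_mul, ← mul_assoc]
        refine (mul_le_mul_left h1 _).trans ?_
        rw [← mul_pow, mul_left_comm]
        exact pow_le_pow_left' ((mul_le_of_le_one_right' (ENNReal.mul_inv_le_one _)).trans hr) m
    _ ≤ ∑' m : ℕ, (2⁻¹ : ℝ≥0∞) ^ m := ENNReal.sum_le_tsum _
    _ = 2 := by rw [ENNReal.tsum_geometric, ENNReal.one_sub_inv_two, inv_inv]

lemma coe_hh_le_WW {ξ : Tr} {A : Set (List ℕ)} (h : [] ∈ A) : (hh ξ : ℝ≥0∞) ≤ WW ξ A := by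
  rw [coe_hh]
  exact le_WW_of_mem ξ h

lemma few_prob {μ β₀ c : ℝ≥0} (hβ : β₀ ≠ 0) (ξ : Tr) {J : Finset ℕ} {w : ℕ} (hw : w ∉ J)
    (hJ0 : J.card ≠ 0) (hJ : ∀ j ∈ J, j < ξ [] ∧ β₀ ≤ bb (sh [j] ξ) ∧ β₀ ≤ hh (sh [j] ξ))
    (hc : (c : ℝ≥0∞) ≤ J.card * hh ξ)
    (hr : 4 * (β₀ : ℝ≥0∞)⁻¹ * ex (μ * (β₀ * c * 4⁻¹) * β₀) ≤ 2⁻¹) (Z : Set (List ℕ)) :
    ∫⁻ η, ∑ S ∈ J.powerset, ind (2 * S.card ≤ J.card) *
      ind ((∀ j ∈ S, (Zs (src w Z S) (RR ξ η (inr j))).Nonempty) ∧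
        ∀ j ∈ J \ S, ¬(Zs (src w Z S) (RR ξ η (inr j))).Nonempty) ∂(frogs μ) ≤
      2 * ex (μ * (β₀ * c * 4⁻¹) * (1 + WW (sh [w] ξ) Z)) := by
  have hm : ∀ S j, Measurable fun η => (Zs (src w Z S) (RR ξ η (inr j))).Nonempty := fun S j =>
    measurable_nonempty.comp (measurable_Zs measurable_const
      ((measurable_pi_apply (inr j)).comp (measurable_RR ξ)))
  rw [lintegral_finsetSum _ fun S _ => (mind
    ((Measurable.forall fun j => measurable_const.imp (hm S j)).and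
      (Measurable.forall fun j => measurable_const.imp (hm S j).not))).const_mul _]
  refine le_trans ?_ (mul_le_mul_left (sum_powerset_le J hr) _)
  rw [Finset.sum_mul]
  refine Finset.sum_le_sum fun S hS => ?_
  rw [lintegral_const_mul' _ _ (ind_ne_top _)]
  have hS := Finset.mem_powerset.1 hS
  refine ind_mul_le_of fun h2 => (stable_prob ξ hS
    (fun j hj => ⟨(hJ j hj).1, (hJ j hj).2.1⟩) _).trans
    (stable_num (by simpa using hβ) ENNReal.coe_ne_top hJ0 h2 ?_)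
  refine le_trans ?_ (mul_le_mul_right (WW_ge ξ _ (insert w S)) _)
  rw [← mul_assoc, ind_pos (show [] ∈ src w Z S from Or.inl (Or.inl rfl)),
    Finset.sum_insert fun h => hw (hS h), add_assoc]
  gcongr
  · exact WW_mono _ fun z hz => Or.inl (Or.inr ⟨z, hz, rfl⟩)
  · rw [← nsmul_eq_mul]
    refine Finset.card_nsmul_le_sum _ _ _ fun j hj => le_trans ?_
      (coe_hh_le_WW (Or.inr ⟨j, hj, rfl⟩))
    exact_mod_cast (hJ j (hS hj)).2.2

lemma many_num {T : Finset ℕ} {n : ℕ} (hT : n < 2 * T.card) {W : ℕ → ℝ≥0∞} {β₀ c h y a : ℝ≥0∞}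
    (ha0 : a * (β₀ * c * 4⁻¹) ≠ 0) (ha : a * (β₀ * c * 4⁻¹) ≠ ⊤) (hβ : β₀ ≤ 1)
    (hW : ∀ j ∈ T, β₀ ≤ W j) (hc : c ≤ n * h) (hy : h * ∑ j ∈ T, W j ≤ y) :
    ex (a * y) ≤ 48 * (a * (β₀ * c * 4⁻¹))⁻¹ ^ 4 * (n : ℝ≥0∞)⁻¹ * ∑ j ∈ T, UU (W j) ^ 4 := by
  set m : ℝ≥0∞ := (T.card : ℝ≥0∞) with hm
  have hm0 : m ≠ 0 := by simp only [hm, ne_eq, Nat.cast_eq_zero]; omega
  have hmm : m * m⁻¹ = 1 := ENNReal.mul_inv_cancel hm0 (by simp [hm])
  have h44 : (4 : ℝ≥0∞) * 4⁻¹ = 1 := ENNReal.mul_inv_cancel (by simp) (by simp)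
  have hn : (n : ℝ≥0∞) ≤ 2 * m := by rw [hm]; exact_mod_cast hT.le
  have h1 : β₀ * c * 4⁻¹ * ∑ j ∈ T, m⁻¹ * (1 + W j) ≤ y := by
    calc _ = 4⁻¹ * c * m⁻¹ * ∑ j ∈ T, β₀ * (1 + W j) := by
          rw [← Finset.mul_sum, ← Finset.mul_sum]; ring
      _ ≤ 4⁻¹ * (2 * m * h) * m⁻¹ * ∑ j ∈ T, 2 * W j := by
          gcongr 4⁻¹ * ?_ * m⁻¹ * ∑ j ∈ T, ?_ with j hj
          · exact hc.trans (by gcongr)
          · rw [mul_add, mul_one, two_mul]
            exact add_le_add (hW j hj) (mul_le_of_le_one_left' hβ)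
      _ = 4 * 4⁻¹ * (m * m⁻¹) * (h * ∑ j ∈ T, W j) := by rw [← Finset.mul_sum]; ring
      _ ≤ y := by rw [h44, hmm, one_mul, one_mul]; exact hy
  have h2 : (∑ j ∈ T, m⁻¹ * (1 + W j))⁻¹ ^ 4 ≤ 2 * (n : ℝ≥0∞)⁻¹ * ∑ j ∈ T, UU (W j) ^ 4 := by
    calc _ ≤ (∑ j ∈ T, m⁻¹ * UU (W j)) ^ (3 + 1) := pow_le_pow_left'
          (am_hm T (by rw [Finset.sum_const, nsmul_eq_mul, hmm]) fun _ => le_self_add) _
      _ ≤ m ^ 3 * ∑ j ∈ T, (m⁻¹ * UU (W j)) ^ (3 + 1) := epow_sum_le _ _ _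
      _ = (m * m⁻¹) ^ 3 * (m⁻¹ * ∑ j ∈ T, UU (W j) ^ 4) := by
          simp_rw [mul_pow]
          rw [← Finset.mul_sum]; ring
      _ ≤ _ := by
          rw [hmm, one_pow, one_mul]
          gcongr
          have := ENNReal.inv_le_inv.2 hn
          rw [ENNReal.mul_inv (by simp) (by simp)] at this
          calc m⁻¹ = 2 * (2⁻¹ * m⁻¹) := by
                rw [← mul_assoc, ENNReal.mul_inv_cancel (by simp) (by simp), one_mul]
            _ ≤ _ := by gcongr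
  calc _ ≤ 24 * (a * (β₀ * c * 4⁻¹))⁻¹ ^ 4 * (∑ j ∈ T, m⁻¹ * (1 + W j))⁻¹ ^ 4 :=
        ex_le_mul_inv ha0 ha (by rw [mul_assoc]; gcongr)
    _ ≤ 24 * (a * (β₀ * c * 4⁻¹))⁻¹ ^ 4 * (2 * (n : ℝ≥0∞)⁻¹ * ∑ j ∈ T, UU (W j) ^ 4) := by gcongr
    _ = _ := by ring

lemma good_child {μ β₀ : ℝ≥0} (hβ : β₀ ≠ 0) (ξ : Tr) {K : Finset ℕ} {j w : ℕ} (hj : j < ξ [])
    (hjK : j ∈ K) (hjw : j ≠ w) (hb : β₀ ≤ bb (sh [j] ξ)) (s : Set (List ℕ)) :
    ∫⁻ η, ind ([j] ∈ AK K w s (RR ξ η)) * UU (WW (sh [j] ξ) (pull j (AK K w s (RR ξ η)))) ^ 4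
      ∂(frogs μ) ≤ (β₀ : ℝ≥0∞)⁻¹ * Psi μ (sh [j] ξ) := by
  have h1 := seeding_dep μ ξ hj (measurable_AK (K.erase j) w s)
    (AK_dep (Finset.notMem_erase _ _) w s) (G := fun y => UU y ^ 4) (by fun_prop)
    fun _ _ h => pow_le_pow_left' (UU_anti h) 4
  refine le_trans ?_ (mul_le_mul_right h1 _)
  rw [← mul_assoc]
  refine le_trans (lmono fun η => ind_mul_mono fun h => ⟨act_of_mem hjw h, ?_⟩)
    (le_mul_of_one_le_left' ?_)
  · exact pow_le_pow_left' (UU_anti (WW_mono _ (cl_subset_pull hjK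
      (Zs_subset_pull hjK (AK_mono (Finset.erase_subset _ _) _ _ _))))) 4
  · rw [← ENNReal.inv_mul_cancel (a := β₀) (by simpa using hβ) ENNReal.coe_ne_top]
    gcongr

lemma lo_le_two {μ β₀ c : ℝ≥0} (hμ : μ ≠ 0) (hβ : β₀ ≠ 0) (hc0 : c ≠ 0) (ξ : Tr) {w a : ℕ}
    (hb : bb (sh [a] ξ) ≠ 0) (hw : w ∈ (Finset.range (ξ [])).erase a) {J : Finset ℕ}
    (hJK : J ⊆ ((Finset.range (ξ [])).erase a).erase w) (hJ0 : J.card ≠ 0)
    (hJ : ∀ j ∈ J, β₀ ≤ bb (sh [j] ξ) ∧ β₀ ≤ hh (sh [j] ξ)) (hc : (c : ℝ≥0∞) ≤ J.card * hh ξ)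
    (hr : 4 * (β₀ : ℝ≥0∞)⁻¹ * ex (μ * (β₀ * c * 4⁻¹) * β₀) ≤ 2⁻¹) (s : Set (List ℕ)) :
    lo μ ξ w a s ≤ 48 * ((μ : ℝ≥0∞) * (β₀ * c * 4⁻¹))⁻¹ ^ 4 *
        Gt μ (sh [w] ξ) (fun y => UU y ^ 4) s +
      48 * ((μ : ℝ≥0∞) * bb (sh [a] ξ) * (β₀ * c * 4⁻¹))⁻¹ ^ 4 * (J.card : ℝ≥0∞)⁻¹ *
        ∑ j ∈ J, (β₀ : ℝ≥0∞)⁻¹ * Psi μ (sh [j] ξ) := by
  classical
  set K := (Finset.range (ξ [])).erase a with hK
  have hwJ : w ∉ J := fun h => Finset.notMem_erase _ _ (hJK h)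
  have hJK' : J ⊆ K := hJK.trans (Finset.erase_subset _ _)
  have hlt : ∀ j ∈ J, j < ξ [] := fun j hj => Finset.mem_range.1 (Finset.mem_of_mem_erase (hJK' hj))
  have hβ1 : β₀ ≤ 1 := by
    obtain ⟨j, hj⟩ := Finset.card_ne_zero.1 hJ0
    exact (hJ j hj).1.trans (bb_le_one _)
  have hm1 : ∀ j, Measurable fun η => ind ([j] ∈ AK K w s (RR ξ η)) *
      UU (WW (sh [j] ξ) (pull j (AK K w s (RR ξ η)))) ^ 4 := fun j =>
    (mind (measurable_set_iff.1 ((measurable_AK K w s).comp (measurable_RR ξ)) [j])).fun_mul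
      ((measurable_UU.comp ((measurable_WW _).comp ((measurable_pull j).comp
        ((measurable_AK K w s).comp (measurable_RR ξ))))).pow_const 4)
  set F : Rel → (ℕ → Rel) → ℝ≥0∞ := fun E R => ∑ S ∈ J.powerset, ind (2 * S.card ≤ J.card) *
      ind ((∀ j ∈ S, (Zs (src w (cl E s) S) (R j)).Nonempty) ∧
        ∀ j ∈ J \ S, ¬(Zs (src w (cl E s) S) (R j)).Nonempty) with hF
  have hm2 : ∀ S j, Measurable fun z : Rel × (ℕ → Rel) =>
      (Zs (src w (cl z.1 s) S) (z.2 j)).Nonempty := fun S j =>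
    measurable_nonempty.comp (measurable_Zs ((measurable_src w S).comp
      (measurable_cl measurable_fst measurable_const))
      ((measurable_pi_apply j).comp measurable_snd))
  have hFm : Measurable (Function.uncurry F) := Finset.measurable_sum _ fun S _ => (mind
    ((Measurable.forall fun j => measurable_const.imp (hm2 S j)).and
      (Measurable.forall fun j => measurable_const.imp (hm2 S j).not))).const_mul _
  have key := col_split loc μ (measurable_DD ξ) (DD_disj ξ) {inl w}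
    (a := fun R => R (inl w)) (b := fun R j => R (inr j)) (measurable_pi_apply _)
    (measurable_pi_lambda _ fun j => measurable_pi_apply _) (fun _ _ h => h _ rfl)
    (fun _ _ h => funext fun j => h _ (by simp)) hFm
  calc _ ≤ ∫⁻ η, (F (RR ξ η (inl w)) (fun j => RR ξ η (inr j)) +
        48 * ((μ : ℝ≥0∞) * bb (sh [a] ξ) * (β₀ * c * 4⁻¹))⁻¹ ^ 4 * (J.card : ℝ≥0∞)⁻¹ *
          ∑ j ∈ J, ind ([j] ∈ AK K w s (RR ξ η)) *
            UU (WW (sh [j] ξ) (pull j (AK K w s (RR ξ η)))) ^ 4) ∂(frogs μ) := by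
        refine lmono fun η => ?_
        set T := J.filter fun j => [j] ∈ AK K w s (RR ξ η) with hT
        rcases le_or_gt (2 * T.card) J.card with h | h
        · obtain ⟨S, h1, h2, h3, h4⟩ := exists_stable hJK' hw s ξ η
          refine le_add_right ((ex_le_one _).trans (le_trans ?_ (Finset.single_le_sum
            (f := fun S => ind (2 * S.card ≤ J.card) *
              ind ((∀ j ∈ S, (Zs (src w (cl (RR ξ η (inl w)) s) S) (RR ξ η (inr j))).Nonempty) ∧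
              ∀ j ∈ J \ S, ¬(Zs (src w (cl (RR ξ η (inl w)) s) S) (RR ξ η (inr j))).Nonempty))
            (fun _ _ => zero_le) (Finset.mem_powerset.2 h1))))
          have : S.card ≤ T.card :=
            Finset.card_le_card fun j hj => Finset.mem_filter.2 ⟨h1 hj, h4 j hj⟩
          rw [ind_pos (by omega), ind_pos ⟨h2, h3⟩, one_mul]
        · rw [← mul_assoc]
          refine le_add_left ((many_num h (β₀ := β₀) (c := c) (h := hh ξ)
            (W := fun j => WW (sh [j] ξ) (pull j (AK K w s (RR ξ η)))) (by simp [hμ, hb, hβ, hc0])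
            (by finiteness) (by exact_mod_cast hβ1) (fun j hj => ?_) hc ?_).trans ?_)
          · obtain ⟨h1, h2⟩ := Finset.mem_filter.1 hj
            exact le_trans (by exact_mod_cast (hJ j h1).2) (coe_hh_le_WW h2)
          · exact le_trans (by gcongr; exact le_add_self) (WW_ge ξ _ T)
          · rw [hT, Finset.sum_filter]
            gcongr with j
            split_ifs with h
            · rw [ind_pos h, one_mul]
            · exact zero_le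
    _ ≤ _ := by
        rw [lintegral_add_right _ ((Finset.measurable_sum _ fun j _ => hm1 j).const_mul _),
          lintegral_const_mul _ (Finset.measurable_sum _ fun j _ => hm1 j),
          lintegral_finsetSum _ fun j _ => hm1 j]
        refine add_le_add (key.trans_le ?_) (mul_le_mul_right (Finset.sum_le_sum fun j hj =>
          good_child hβ ξ (hlt j hj) (hJK' hj) (Finset.ne_of_mem_erase (hJK hj)) (hJ j hj).1 s) _)
        rw [← lintegral_inl μ ξ w (by fun_prop), ← lintegral_const_mul _ (measurable_UW ξ w s)]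
        refine lmono fun η => (few_prob hβ ξ hwJ hJ0 (fun j hj => ⟨hlt j hj, hJ j hj⟩) hc hr
          _).trans ?_
        refine (mul_le_mul_right (ex_le_mul_inv (by simp [hμ, hβ, hc0]) (by finiteness) le_rfl)
          _).trans (le_of_eq ?_)
        rw [UU, RR]; ring

end Pool.Agent.Lib.MP_0cd4b8_pr
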