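import Pool.Agent.Lib.MP_0cd4b8_pr.Columns

/-! The random walk on a planted tree. -/

set_option autoImplicit false

open MeasureTheory ProbabilityTheory Measure
open scoped ENNReal NNReal

namespace Pool.Agent.Lib.MP_0cd4b8_pr

instance instMSList : MeasurableSpace (List ℕ) := ⊤
instance : DiscreteMeasurableSpace (List ℕ) := ⟨fun _ => trivial⟩
instance instMSOpt : MeasurableSpace (Option (List ℕ)) := ⊤
instance : DiscreteMeasurableSpace (Option (List ℕ)) := ⟨fun _ => trivial⟩

/-- Offspring numbers. -/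
abbrev Tr := List ℕ → ℕ

lemma floor_law (n : ℕ) (F : ℕ → ℝ≥0∞) :
    (n : ℝ≥0∞) * ∫⁻ x, F ⌊x * (n : ℝ)⌋₊ ∂unif = ∑ j ∈ Finset.range n, F j := by
  rcases Nat.eq_zero_or_pos n with rfl | hn
  · simp
  have hn' : (0 : ℝ) < n := by exact_mod_cast hn
  have h1 : ∫⁻ x, F ⌊x * (n : ℝ)⌋₊ ∂unif = ∫⁻ x, ∑ j ∈ Finset.range n,
      F j * (Set.Ico ((j : ℝ) / n) ((j + 1) / n)).indicator 1 x ∂unif := by
    unfold unif
    refine setLIntegral_congr_fun measurableSet_Ico fun x hx => ?_
    have hx0 : 0 ≤ x * n := mul_nonneg hx.1 hn'.le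
    have hlt : ⌊x * (n : ℝ)⌋₊ < n := by
      rw [Nat.floor_lt hx0]
      nlinarith [hx.2]
    have key : ∀ j : ℕ, x ∈ Set.Ico ((j : ℝ) / n) ((j + 1) / n) ↔ ⌊x * (n : ℝ)⌋₊ = j := by
      intro j
      rw [Nat.floor_eq_iff hx0, Set.mem_Ico, div_le_iff₀ hn', lt_div_iff₀ hn']
    rw [Finset.sum_eq_single ⌊x * (n : ℝ)⌋₊]
    · rw [Set.indicator_of_mem ((key _).2 rfl)]; simp
    · intro j _ hj
      rw [Set.indicator_of_notMem (fun h => hj ((key j).1 h).symm)]; simp
    · intro h; exact absurd (Finset.mem_range.2 hlt) h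
  rw [h1, lintegral_finsetSum, Finset.mul_sum]
  · refine Finset.sum_congr rfl fun j hj => ?_
    have hj' : (j : ℝ) + 1 ≤ n := by exact_mod_cast Finset.mem_range.1 hj
    rw [lintegral_const_mul _ (measurable_one.indicator measurableSet_Ico),
      lintegral_indicator_one measurableSet_Ico, unif, restrict_apply measurableSet_Ico,
      Set.inter_eq_left.2 (Set.Ico_subset_Ico (by positivity) (by rwa [div_le_one hn'])),
      Real.volume_Ico, mul_left_comm, ← ENNReal.ofReal_natCast, ← ENNReal.ofReal_mul hn'.le]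
    have : (n : ℝ) * ((j + 1) / n - j / n) = 1 := by field_simp; ring
    rw [this]; simp
  · exact fun j _ => (measurable_one.indicator measurableSet_Ico).const_mul _

/-- The parent in the planted tree. -/
def par : List ℕ → Option (List ℕ)
  | [] => none
  | _ :: w => some w

/-- One step of the walk on the planted tree, absorbed at the extra vertex `none`. -/
noncomputable def pstep (ξ : Tr) : Option (List ℕ) → ℝ → Option (List ℕ)
  | none, _ => none
  | some v, x => if ⌊x * ((ξ v + 1 : ℕ) : ℝ)⌋₊ < ξ v then some (⌊x * ((ξ v + 1 : ℕ) : ℝ)⌋₊ :: v)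
      else par v

lemma measurable_floor_fun {S : Type*} [MeasurableSpace S] (G : ℕ → ℕ → S) (c : ℕ → ℕ)
    (v : List ℕ) : Measurable fun z : Tr × ℝ => G (z.1 v) ⌊z.2 * (c (z.1 v) : ℝ)⌋₊ := by
  have h1 : Measurable fun w : ℕ × ℝ => G w.1 ⌊w.2 * (c w.1 : ℝ)⌋₊ :=
    measurable_from_prod_countable_right fun n =>
      (measurable_of_countable (G n)).comp
        (measurable_id'.mul_const ((c n : ℕ) : ℝ)).nat_floor
  have h2 : Measurable fun z : Tr × ℝ => (z.1 v, z.2) := by fun_prop
  exact h1.comp h2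

lemma measurable_pstep_param (y : Option (List ℕ)) :
    Measurable fun z : Tr × ℝ => pstep z.1 y z.2 := by
  cases y with
  | none => exact measurable_const
  | some v =>
    exact measurable_floor_fun (fun d j => if j < d then some (j :: v) else par v) (· + 1) v

lemma measurable_pstep (ξ : Tr) (y : Option (List ℕ)) : Measurable (pstep ξ y) :=
  (measurable_pstep_param y).comp (measurable_const.prodMk measurable_id)

lemma measurable_step_param (v : List ℕ) : Measurable fun z : Tr × ℝ => step z.1 v z.2 := by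
  have := measurable_floor_fun (fun d j => if j < d then j :: v else v.tail)
    (fun d => if v = [] then d else d + 1) v
  exact this

lemma measurable_step (ξ : Tr) (v : List ℕ) : Measurable (step ξ v) :=
  (measurable_step_param v).comp (measurable_const.prodMk measurable_id)

lemma pstep_law (ξ : Tr) (v : List ℕ) (F : Option (List ℕ) → ℝ≥0∞) :
    ((ξ v : ℝ≥0∞) + 1) * ∫⁻ x, F (pstep ξ (some v) x) ∂unif =
      F (par v) + ∑ j ∈ Finset.range (ξ v), F (some (j :: v)) := by
  have h := floor_law (ξ v + 1) fun j => F (if j < ξ v then some (j :: v) else par v)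
  rw [Finset.sum_range_succ, if_neg (lt_irrefl _), add_comm (∑ _ ∈ _, _),
    Finset.sum_congr rfl fun j hj => by rw [if_pos (Finset.mem_range.1 hj)]] at h
  rw [← h]
  push_cast
  simp only [pstep]
  push_cast
  rfl

lemma step_law_cons (ξ : Tr) (i : ℕ) (w : List ℕ) (F : List ℕ → ℝ≥0∞) :
    ((ξ (i :: w) : ℝ≥0∞) + 1) * ∫⁻ x, F (step ξ (i :: w) x) ∂unif =
      F w + ∑ j ∈ Finset.range (ξ (i :: w)), F (j :: i :: w) := by
  have h := floor_law (ξ (i :: w) + 1) fun j => F (if j < ξ (i :: w) then j :: i :: w else w)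
  rw [Finset.sum_range_succ, if_neg (lt_irrefl _), add_comm (∑ _ ∈ _, _),
    Finset.sum_congr rfl fun j hj => by rw [if_pos (Finset.mem_range.1 hj)]] at h
  rw [← h]
  simp [step, deg]

lemma step_law_nil (ξ : Tr) (F : List ℕ → ℝ≥0∞) :
    (ξ [] : ℝ≥0∞) * ∫⁻ x, F (step ξ [] x) ∂unif = ∑ j ∈ Finset.range (ξ []), F [j] := by
  have h := floor_law (ξ []) fun j => F (if j < ξ [] then [j] else [])
  rw [Finset.sum_congr rfl fun j hj => by rw [if_pos (Finset.mem_range.1 hj)]] at h
  rw [← h]
  simp [step, deg]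

lemma pstep_eq_step (ξ : Tr) {v : List ℕ} (hv : v ≠ []) (x : ℝ) :
    pstep ξ (some v) x = some (step ξ v x) := by
  obtain ⟨i, w, rfl⟩ := List.exists_cons_of_ne_nil hv
  simp only [pstep, step, deg, if_neg hv]
  split_ifs <;> rfl

lemma pstep_sh_eq (ξ : Tr) (i : ℕ) (z : List ℕ) (x : ℝ) :
    pstep (sh [i] ξ) (some z) x =
      if ⌊x * ((ξ (z ++ [i]) + 1 : ℕ) : ℝ)⌋₊ < ξ (z ++ [i]) then
        some (⌊x * ((ξ (z ++ [i]) + 1 : ℕ) : ℝ)⌋₊ :: z) else par z := rfl

lemma pstep_sh_some (ξ : Tr) (i : ℕ) {z z' : List ℕ} {x : ℝ}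
    (h : pstep (sh [i] ξ) (some z) x = some z') : step ξ (z ++ [i]) x = z' ++ [i] := by
  have hne : z ++ [i] ≠ [] := by simp
  rw [pstep_sh_eq] at h
  simp only [step, deg, if_neg hne]
  split_ifs at h ⊢ with h1
  · rw [← Option.some.inj h]; rfl
  · cases z with
    | nil => simp [par] at h
    | cons a z => simp only [par, Option.some.injEq] at h; rw [← h]; rfl

lemma pstep_sh_none (ξ : Tr) (i : ℕ) {z : List ℕ} {x : ℝ}
    (h : pstep (sh [i] ξ) (some z) x = none) : step ξ (z ++ [i]) x = [] := by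
  have hne : z ++ [i] ≠ [] := by simp
  rw [pstep_sh_eq] at h
  simp only [step, deg, if_neg hne]
  split_ifs at h ⊢ with h1
  cases z with
  | nil => rfl
  | cons a z => simp [par] at h

lemma pstep_eq_none {ξ : Tr} {v : List ℕ} {x : ℝ} (h : pstep ξ (some v) x = none) : v = [] := by
  simp only [pstep] at h
  split_ifs at h
  cases v with
  | nil => rfl
  | cons a z => simp [par] at h

lemma path_none (ξ : Tr) (u : ℕ → ℝ) (k : ℕ) : path (pstep ξ) none u k = none := by
  induction k with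
  | zero => rfl
  | succ k ih => rw [path_succ, ih]; rfl

lemma path_none_of_le {ξ : Tr} {y : Option (List ℕ)} {u : ℕ → ℝ} {k l : ℕ}
    (h : path (pstep ξ) y u k = none) (hl : k ≤ l) : path (pstep ξ) y u l = none := by
  obtain ⟨j, rfl⟩ := Nat.exists_eq_add_of_le hl
  rw [path_add, h, path_none]

section embed
variable {S : Type*} {s : S → ℝ → S} {ι : List ℕ → S} {ξ : Tr}

lemma embed_some (hs : ∀ v x, v ≠ [] → s (ι v) x = ι (step ξ v x)) (i : ℕ) (v : List ℕ)
    (u : ℕ → ℝ) (k : ℕ) {z : List ℕ} (h : path (pstep (sh [i] ξ)) (some v) u k = some z) :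
    path s (ι (v ++ [i])) u k = ι (z ++ [i]) := by
  induction k generalizing z with
  | zero => simp only [path_zero, Option.some.injEq] at h; rw [← h]; rfl
  | succ k ih =>
    rw [path_succ] at h
    cases hk : path (pstep (sh [i] ξ)) (some v) u k with
    | none => rw [hk] at h; simp [pstep] at h
    | some w =>
      rw [hk] at h
      rw [path_succ, ih hk, hs _ _ (by simp), pstep_sh_some ξ i h]

lemma embed_hit (hs : ∀ v x, v ≠ [] → s (ι v) x = ι (step ξ v x)) (i : ℕ) (v : List ℕ)
    (u : ℕ → ℝ) (h : ∃ k, path (pstep (sh [i] ξ)) (some v) u k = none) :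
    ∃ k, path s (ι (v ++ [i])) u k = ι [] := by
  classical
  have h1 := Nat.find_spec h
  cases hk : Nat.find h with
  | zero => rw [hk] at h1; simp at h1
  | succ k =>
    have h2 := Nat.find_min h (m := k) (by omega)
    rw [hk, path_succ] at h1
    cases hk' : path (pstep (sh [i] ξ)) (some v) u k with
    | none => exact absurd hk' h2
    | some w =>
      rw [hk'] at h1
      refine ⟨k + 1, ?_⟩
      rw [path_succ, embed_some hs i v u k hk', hs _ _ (by simp), pstep_sh_none ξ i h1]

lemma embed_hit_iff (hs : ∀ v x, v ≠ [] → s (ι v) x = ι (step ξ v x))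
    (hι : Function.Injective ι) (i : ℕ) (v : List ℕ) (u : ℕ → ℝ) :
    (∃ k, path s (ι (v ++ [i])) u k = ι []) ↔
      ∃ k, path (pstep (sh [i] ξ)) (some v) u k = none := by
  refine ⟨fun ⟨k, hk⟩ => ⟨k, ?_⟩, embed_hit hs i v u⟩
  cases hk' : path (pstep (sh [i] ξ)) (some v) u k with
  | none => rfl
  | some w =>
    rw [embed_some hs i v u k hk'] at hk
    simpa using hι hk

end embed

lemma hs_planted (ξ : Tr) : ∀ v x, v ≠ [] → pstep ξ (some v) x = some (step ξ v x) :=
  fun _ x hv => pstep_eq_step ξ hv x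

lemma hs_real (ξ : Tr) : ∀ v x, v ≠ [] → step ξ (id v) x = id (step ξ v x) := fun _ _ _ => rfl

end Pool.Agent.Lib.MP_0cd4b8_pr
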