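import Pool.Agent.Lib.MP_0cd4b8_pr.GW3

/-! Auxiliary estimates for the tightness of the island weights. -/

set_option autoImplicit false

open MeasureTheory ProbabilityTheory Measure Filter Topology
open scoped ENNReal NNReal

namespace Pool.Agent.Lib.MP_0cd4b8_pr

lemma epow_sum_le {ι : Type*} (s : Finset ι) (f : ι → ℝ≥0∞) (q : ℕ) :
    (∑ i ∈ s, f i) ^ (q + 1) ≤ (s.card : ℝ≥0∞) ^ q * ∑ i ∈ s, f i ^ (q + 1) := by
  have h := ENNReal.rpow_sum_le_const_mul_sum_rpow s f (p := ((q + 1 : ℕ) : ℝ))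
    (by exact_mod_cast Nat.le_add_left 1 q)
  have e : ((q + 1 : ℕ) : ℝ) - 1 = (q : ℕ) := by push_cast; ring
  rw [e] at h
  simpa only [ENNReal.rpow_natCast] using h

lemma exists_add_pow_le {κ : ℝ≥0∞} (hκ : κ < 1) (P : ℕ) : ∃ l K : ℝ≥0, l * κ < 1 ∧
    ∀ Z H : ℝ≥0∞, (Z + H) ^ P ≤ l * H ^ P + K * Z ^ P := by
  lift κ to ℝ≥0 using hκ.ne_top
  have hκ' : κ < 1 := by exact_mod_cast hκ
  have h1 : Tendsto (fun e : ℝ≥0 => (1 + e) ^ P * κ) (𝓝[>] 0) (𝓝 ((1 + 0) ^ P * κ)) :=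
    (Continuous.tendsto (by fun_prop) 0).mono_left nhdsWithin_le_nhds
  rw [add_zero, one_pow, one_mul] at h1
  obtain ⟨e, he, he0⟩ := ((h1.eventually (gt_mem_nhds hκ')).and self_mem_nhdsWithin).exists
  have he0' : 0 < e := he0
  refine ⟨(1 + e) ^ P, (1 + e⁻¹) ^ P, by exact_mod_cast he, fun Z H => ?_⟩
  rcases le_total Z (e * H) with h | h
  · refine le_trans ?_ le_self_add
    rw [ENNReal.coe_pow, ← mul_pow]
    gcongr
    push_cast
    rw [add_mul, one_mul, add_comm]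
    gcongr
  · refine le_trans ?_ le_add_self
    rw [ENNReal.coe_pow, ← mul_pow]
    gcongr
    push_cast
    rw [add_mul, one_mul]
    gcongr
    calc H = (e⁻¹ : ℝ≥0) * (e * H) := by
          rw [← mul_assoc, ← ENNReal.coe_mul, inv_mul_cancel₀ he0'.ne']; simp
      _ ≤ _ := by gcongr

lemma exists_abs_cont {α : Type*} [MeasurableSpace α] (m : Measure α) {f : α → ℝ≥0∞}
    (h : ∫⁻ x, f x ∂m ≠ ⊤) {ε : ℝ≥0∞} (hε : ε ≠ 0) : ∃ δ : ℝ≥0, 0 < δ ∧ ∀ P : α → Prop,
      Measurable P → ∫⁻ x, ind (P x) ∂m ≤ δ → ∫⁻ x, ind (P x) * f x ∂m ≤ ε := by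
  obtain ⟨δ, hδ, H⟩ := exists_pos_setLIntegral_lt_of_measure_lt h hε
  obtain ⟨δ', h1, h2⟩ := ENNReal.lt_iff_exists_nnreal_btwn.1 hδ
  refine ⟨δ', by exact_mod_cast h1, fun P hP hle => ?_⟩
  rw [lintegral_ind m hP] at hle
  refine le_trans (le_of_eq ?_) (H _ (hle.trans_lt h2)).le
  rw [← lintegral_indicator hP.setOf]
  refine lintegral_congr fun x => ?_
  by_cases hx : P x <;> simp [ind, hx]

lemma exists_tail_le (p : Measure ℕ) [IsProbabilityMeasure p] {ε : ℝ≥0∞} (hε : ε ≠ 0) :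
    ∃ M : ℕ, ∫⁻ d, ind (M < d) ∂p ≤ ε := by
  have h1 : ⨅ M : ℕ, ∫⁻ d, ind (M < d) ∂p = 0 := by
    rw [← lintegral_iInf (fun _ => measurable_of_countable _) _
      (ne_top_of_le_ne_top ENNReal.one_ne_top (lintegral_ind_le_one _ _))]
    · refine (lintegral_congr fun d => ?_).trans lintegral_zero
      exact le_antisymm ((iInf_le _ d).trans (ind_neg (lt_irrefl _)).le) zero_le
    · intro a b hab d
      exact ind_mono fun h => by omega
  have h2 : ⨅ M : ℕ, ∫⁻ d, ind (M < d) ∂p < ε := h1 ▸ pos_iff_ne_zero.2 hε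
  obtain ⟨M, hM⟩ := iInf_lt_iff.1 h2
  exact ⟨M, hM.le⟩

lemma measurable_branch {α : Type*} [MeasurableSpace α] {F : ℕ → (ℕ → Tr) → α}
    (hF : ∀ d, Measurable (F d)) : Measurable fun ξ : Tr => F (ξ []) fun j => sh [j] ξ := by
  have h2 : Measurable fun w : ℕ × (ℕ → Tr) => F w.1 w.2 := measurable_from_prod_countable_right hF
  have h3 : Measurable fun ξ : Tr => (ξ [], fun j : ℕ => sh [j] ξ) := by fun_prop
  exact h2.comp h3

lemma gw_sh (p : Measure ℕ) [IsProbabilityMeasure p] (v : List ℕ) {F : Tr → ℝ≥0∞}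
    (hF : Measurable F) : ∫⁻ ξ, F (sh v ξ) ∂(gw p) = ∫⁻ ξ, F ξ ∂(gw p) := lintegral_sh p v hF

lemma gw_loo (p : Measure ℕ) [IsProbabilityMeasure p] {φ : Tr → ℝ≥0∞} (hφ : Measurable φ)
    {ψ : ℕ → ℕ → (ℕ → Tr) → ℝ≥0∞} (hψ : ∀ d i, Measurable (ψ d i))
    (hdep : ∀ d i x y, (∀ j, j ≠ i → x j = y j) → ψ d i x = ψ d i y) :
    ∫⁻ ξ, ∑ i ∈ Finset.range (ξ []), φ (sh [i] ξ) * ψ (ξ []) i (fun j => sh [j] ξ) ∂(gw p) =
      (∫⁻ t, φ t ∂(gw p)) *
        ∫⁻ ξ, ∑ i ∈ Finset.range (ξ []), ψ (ξ []) i (fun j => sh [j] ξ) ∂(gw p) := by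
  rw [gw_branch p (F := fun d ω => ∑ i ∈ Finset.range d, φ (ω i) * ψ d i ω)
    fun d => Finset.measurable_sum _ fun i _ => (hφ.comp (measurable_pi_apply i)).fun_mul (hψ d i),
    gw_branch p (F := fun d ω => ∑ i ∈ Finset.range d, ψ d i ω)
    fun d => Finset.measurable_sum _ fun i _ => hψ d i,
    ← lintegral_const_mul _ (measurable_of_countable _)]
  refine lintegral_congr fun d => ?_
  rw [lintegral_finsetSum _ (f := fun i (ω : ℕ → Tr) => φ (ω i) * ψ d i ω)
    fun i _ => (hφ.comp (measurable_pi_apply i)).fun_mul (hψ d i),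
    lintegral_finsetSum _ fun i _ => hψ d i, Finset.mul_sum]
  exact Finset.sum_congr rfl fun i _ => gws_eval_mul p i hφ (hψ d i) (hdep d i)

/-- Inverse of one plus the sum over the other children. -/
noncomputable def iv (β : Tr → ℝ≥0) (d i : ℕ) (ω : ℕ → Tr) : ℝ≥0∞ :=
  (1 + ∑ j ∈ (Finset.range d).erase i, (β (ω j) : ℝ≥0∞))⁻¹

lemma measurable_iv {β : Tr → ℝ≥0} (hβ : Measurable β) (d i : ℕ) : Measurable (iv β d i) :=
  (measurable_const.add (Finset.measurable_sum _ fun j _ =>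
    hβ.coe_nnreal_ennreal.comp (measurable_pi_apply j))).inv

lemma iv_dep (β : Tr → ℝ≥0) (d i : ℕ) (x y : ℕ → Tr) (h : ∀ j, j ≠ i → x j = y j) :
    iv β d i x = iv β d i y := by
  unfold iv
  rw [Finset.sum_congr rfl fun j hj => by rw [h j (Finset.ne_of_mem_erase hj)]]

lemma iv_le_one (β : Tr → ℝ≥0) (d i : ℕ) (x : ℕ → Tr) : iv β d i x ≤ 1 :=
  ENNReal.inv_le_one.2 le_self_add

lemma inv_Cs_le_iv (β : Tr → ℝ≥0) (ξ : Tr) (i : ℕ) :
    (1 + (Cs β ξ : ℝ≥0∞))⁻¹ ≤ iv β (ξ []) i fun j => sh [j] ξ := by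
  refine ENNReal.inv_le_inv.2 (add_le_add le_rfl ?_)
  rw [Cs, ENNReal.ofNNReal_finsetSum]
  exact Finset.sum_le_sum_of_subset (Finset.erase_subset _ _)

lemma damp_sum (p : Measure ℕ) [IsProbabilityMeasure p] {β : Tr → ℝ≥0} (hβ : Measurable β)
    {y η : ℝ≥0} (hc : Contr p β y η) (q : ℕ) :
    ∫⁻ ξ, ∑ i ∈ Finset.range (ξ []), (ξ [] : ℝ≥0∞) ^ q *
      iv β (ξ []) i (fun j => sh [j] ξ) ^ (q + 1) ∂(gw p) ≠ ⊤ := by
  obtain ⟨K, hK⟩ := damp_bound p hβ hc (q + 1)
  have hm : ∀ d i : ℕ, Measurable fun ω => (d : ℝ≥0∞) ^ q * iv β d i ω ^ (q + 1) := fun d i =>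
    ((measurable_iv hβ d i).pow_const _).const_mul _
  rw [gw_branch p (F := fun d ω => ∑ i ∈ Finset.range d, (d : ℝ≥0∞) ^ q * iv β d i ω ^ (q + 1))
    fun d => Finset.measurable_sum _ fun i _ => hm d i]
  refine ne_top_of_le_ne_top (b := ∫⁻ _, K ∂p) (by simp) (lmono fun d => ?_)
  rw [lintegral_finsetSum _ fun i _ => hm d i]
  refine (ENNReal.mul_le_mul_iff_right (a := (1 : ℝ≥0∞) + d) (by simp) (by simp)).1 ?_
  rw [Finset.mul_sum]
  calc _ ≤ ∑ _i ∈ Finset.range d, (K : ℝ≥0∞) := by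
        refine Finset.sum_le_sum fun i _ => le_trans ?_ (hK d i)
        rw [← lintegral_const_mul _ (hm d i)]
        refine lmono fun ω => ?_
        rw [← mul_assoc, pow_succ' ((1 : ℝ≥0∞) + d)]
        unfold iv
        gcongr
        exact le_add_self
    _ ≤ _ := by
        simp only [Finset.sum_const, Finset.card_range, nsmul_eq_mul]
        gcongr
        exact le_add_self

lemma exists_kappa (p : Measure ℕ) [IsProbabilityMeasure p] {β : Tr → ℝ≥0} (hβ : Measurable β)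
    {y η : ℝ≥0} (hc : Contr p β y η) : ∃ q : ℕ, ∫⁻ ξ, ∑ i ∈ Finset.range (ξ []),
      iv β (ξ []) i (fun j => sh [j] ξ) ^ (q + 1) ∂(gw p) < 1 := by
  have hK := damp_sum p hβ hc 0
  simp only [pow_zero, one_mul, zero_add, pow_one] at hK
  set K := ∫⁻ ξ, ∑ i ∈ Finset.range (ξ []), iv β (ξ []) i (fun j => sh [j] ξ) ∂(gw p) with hKdef
  have hr : (1 + (η : ℝ≥0∞))⁻¹ < 1 :=
    ENNReal.inv_lt_one.2 (ENNReal.lt_add_right ENNReal.one_ne_top (by exact_mod_cast hc.pos.ne'))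
  have h1 : Tendsto (fun q : ℕ => dpgf p y + (1 + (η : ℝ≥0∞))⁻¹ ^ q * K) atTop
      (𝓝 (dpgf p y + 0 * K)) :=
    (ENNReal.Tendsto.mul_const (ENNReal.tendsto_pow_atTop_nhds_zero_of_lt_one hr)
      (Or.inr hK)).const_add _
  rw [zero_mul, add_zero] at h1
  obtain ⟨q, hq⟩ := (h1.eventually (gt_mem_nhds hc.dlt)).exists
  refine ⟨q, lt_of_le_of_lt ?_ hq⟩
  have hm : Measurable fun ξ => ind (β ξ < η) := mind (Measurable.lt hβ measurable_const)
  calc _ ≤ ∫⁻ ξ, (∑ i ∈ Finset.range (ξ []), 1 * ∏ j ∈ (Finset.range (ξ [])).erase i,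
        ind (β (sh [j] ξ) < η)) + (1 + (η : ℝ≥0∞))⁻¹ ^ q *
        ∑ i ∈ Finset.range (ξ []), iv β (ξ []) i (fun j => sh [j] ξ) ∂(gw p) := by
        refine lmono fun ξ => ?_
        rw [Finset.mul_sum, ← Finset.sum_add_distrib]
        refine Finset.sum_le_sum fun i _ => ?_
        rw [← ind_forall_finset, one_mul]
        by_cases h : ∀ j ∈ (Finset.range (ξ [])).erase i, β (sh [j] ξ) < η
        · rw [ind_pos h]
          exact (pow_le_one₀ zero_le (iv_le_one _ _ _ _)).trans le_self_add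
        · rw [ind_neg h, zero_add, pow_succ]
          push Not at h
          obtain ⟨j, hj, hj'⟩ := h
          gcongr
          refine ENNReal.inv_le_inv.2 (add_le_add le_rfl (le_trans ?_ (Finset.single_le_sum
            (f := fun j => (β (sh [j] ξ) : ℝ≥0∞)) (fun _ _ => zero_le) hj)))
          exact_mod_cast hj'
    _ ≤ _ := by
        rw [lintegral_add_right, lintegral_const_mul' _ _ (by finiteness),
          gw_leave_one_out p (f := fun _ => 1) measurable_const hm]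
        · simp only [lintegral_const, measure_univ, mul_one, one_mul]
          gcongr
          exact dpgf_mono p hc.small
        · refine Measurable.const_mul ?_ _
          exact measurable_branch (F := fun d ω => ∑ i ∈ Finset.range d, iv β d i ω) fun d =>
              Finset.measurable_sum (Finset.range d) fun i _ => measurable_iv hβ d i

lemma Z_moment (p : Measure ℕ) [IsProbabilityMeasure p] {t : ℝ≥0} {β : Tr → ℝ≥0}
    (h : IsRec t β) (ht : 0 < t) {y η : ℝ≥0} (hc : Contr p β y η) (q : ℕ) :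
    ∫⁻ ξ, ((1 + ∑ i ∈ Finset.range (ξ []), fsz β (sh [i] ξ)) * (1 + (Cs β ξ : ℝ≥0∞))⁻¹) ^ (q + 1)
      ∂(gw p) ≠ ⊤ := by
  have h1 := fsz_moment p h ht hc q
  have h2 := damp_sum p h.meas hc q
  have hf : Measurable fun ξ => fsz β ξ ^ (q + 1) := (measurable_fsz h.meas).pow_const _
  have h3 := gw_loo p hf (ψ := fun d i ω => (d : ℝ≥0∞) ^ q * iv β d i ω ^ (q + 1))
    (fun d i => ((measurable_iv h.meas d i).pow_const _).const_mul _)
    (fun d i x y hxy => by rw [iv_dep β d i x y hxy])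
  refine ne_top_of_le_ne_top (b := ∫⁻ ξ, 2 ^ q * (1 + ∑ i ∈ Finset.range (ξ []),
    fsz β (sh [i] ξ) ^ (q + 1) * ((ξ [] : ℝ≥0∞) ^ q *
      iv β (ξ []) i (fun j => sh [j] ξ) ^ (q + 1))) ∂(gw p)) ?_ (lmono fun ξ => ?_)
  · rw [lintegral_const_mul' _ _ (by finiteness), lintegral_add_left measurable_const, h3]
    simp only [lintegral_const, measure_univ, mul_one]
    finiteness
  · set c := (1 + (Cs β ξ : ℝ≥0∞))⁻¹ with hcdef
    have hc1 : c ≤ 1 := ENNReal.inv_le_one.2 le_self_add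
    have h4 := epow_sum_le (Finset.univ : Finset Bool) (fun b => if b then c else
      (∑ i ∈ Finset.range (ξ []), fsz β (sh [i] ξ)) * c) q
    simp only [Fintype.univ_bool, Finset.mem_singleton, Bool.true_eq_false, not_false_eq_true,
      Finset.sum_insert, if_true, Finset.sum_singleton, Bool.false_eq_true, if_false,
      Finset.card_insert_of_notMem, Finset.card_singleton] at h4
    rw [add_mul, one_mul]
    refine h4.trans ?_
    norm_num
    gcongr
    · exact pow_le_one₀ zero_le hc1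
    · rw [mul_pow]
      refine (mul_le_mul_left (epow_sum_le _ _ q) _).trans ?_
      rw [Finset.card_range, Finset.mul_sum, Finset.sum_mul]
      refine Finset.sum_le_sum fun i _ => ?_
      rw [mul_comm ((ξ [] : ℝ≥0∞) ^ q), mul_assoc]
      gcongr
      exact inv_Cs_le_iv β ξ i

lemma H_bound (p : Measure ℕ) [IsProbabilityMeasure p] {β : Tr → ℝ≥0} (hβ : Measurable β)
    {h : Tr → ℝ≥0∞} (hh : Measurable h) (q : ℕ) :
    ∫⁻ ξ, ((∑ i ∈ Finset.range (ξ []), h (sh [i] ξ)) * (1 + (Cs β ξ : ℝ≥0∞))⁻¹) ^ (q + 1) ∂(gw p)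
      ≤ (∫⁻ ξ, h ξ ^ (q + 1) ∂(gw p)) *
        (∫⁻ ξ, ∑ i ∈ Finset.range (ξ []), iv β (ξ []) i (fun j => sh [j] ξ) ^ (q + 1) ∂(gw p) +
        ∫⁻ ξ, ind (∃ j ∈ Finset.range (ξ []), h (sh [j] ξ) ≠ 0) * ∑ i ∈ Finset.range (ξ []),
          (ξ [] : ℝ≥0∞) ^ q * iv β (ξ []) i (fun j => sh [j] ξ) ^ (q + 1) ∂(gw p)) := by
  classical
  have hE : ∀ (s : Finset ℕ), Measurable fun ω : ℕ → Tr => ind (∃ j ∈ s, h (ω j) ≠ 0) := fun s =>
    mind (Measurable.exists fun j => measurable_const.and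
      ((hh.comp (measurable_pi_apply j)).eq_const 0).not)
  have h3 := gw_loo p (hh.pow_const (q + 1)) (ψ := fun d i ω => iv β d i ω ^ (q + 1) +
    ind (∃ j ∈ (Finset.range d).erase i, h (ω j) ≠ 0) * ((d : ℝ≥0∞) ^ q * iv β d i ω ^ (q + 1)))
    (fun d i => ((measurable_iv hβ d i).pow_const _).add ((hE _).fun_mul
      (((measurable_iv hβ d i).pow_const _).const_mul _)))
    (fun d i x y hxy => by
      rw [iv_dep β d i x y hxy]
      congr 3
      refine propext (exists_congr fun j => and_congr_right fun hj => ?_)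
      rw [hxy j (Finset.ne_of_mem_erase hj)])
  refine le_trans (lmono fun ξ => ?_) (h3.le.trans ?_)
  · set S := (Finset.range (ξ [])).filter fun i => h (sh [i] ξ) ≠ 0 with hS
    rw [← Finset.sum_filter_ne_zero, ← hS, mul_pow]
    refine (mul_le_mul_left (epow_sum_le _ _ q) _).trans ?_
    rw [Finset.mul_sum, Finset.sum_mul]
    refine le_trans (Finset.sum_le_sum fun i hi => ?_)
      (Finset.sum_le_sum_of_subset (Finset.filter_subset (fun i => h (sh [i] ξ) ≠ 0) _))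
    rw [mul_comm ((S.card : ℝ≥0∞) ^ q), mul_assoc]
    refine mul_le_mul_right ?_ _
    have hiv := pow_le_pow_left' (inv_Cs_le_iv β ξ i) (q + 1)
    by_cases he : ∃ j ∈ (Finset.range (ξ [])).erase i, h (sh [j] ξ) ≠ 0
    · rw [ind_pos he, one_mul]
      refine le_trans ?_ le_add_self
      gcongr
      exact (Finset.card_filter_le _ _).trans (Finset.card_range _).le
    · refine le_trans ?_ le_self_add
      have : S.card ≤ 1 := by
        rw [Finset.card_le_one]
        have key : ∀ a ∈ S, a = i := fun a ha => by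
          by_contra hne
          exact he ⟨a, Finset.mem_erase.2 ⟨hne, (Finset.mem_filter.1 ha).1⟩,
            (Finset.mem_filter.1 ha).2⟩
        intro a ha b hb
        rw [key a ha, key b hb]
      calc _ ≤ (1 : ℝ≥0∞) ^ q * (1 + (Cs β ξ : ℝ≥0∞))⁻¹ ^ (q + 1) := by
            gcongr
            exact_mod_cast this
        _ ≤ _ := by rwa [one_pow, one_mul]
  · refine mul_le_mul_right ?_ _
    rw [← lintegral_add_left (measurable_branch (F := fun d ω =>
      ∑ i ∈ Finset.range d, iv β d i ω ^ (q + 1)) fun d => Finset.measurable_sum _ fun i _ =>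
        (measurable_iv hβ d i).pow_const _)]
    refine lmono fun ξ => ?_
    rw [Finset.mul_sum, ← Finset.sum_add_distrib]
    refine Finset.sum_le_sum fun i _ => add_le_add le_rfl (ind_mul_mono ?_)
    rintro ⟨j, hj, hj'⟩
    exact ⟨⟨j, Finset.mem_of_mem_erase hj, hj'⟩, le_rfl⟩

lemma exists_child_le (p : Measure ℕ) [IsProbabilityMeasure p] {P : Tr → Prop}
    (hP : Measurable P) (M : ℕ) :
    ∫⁻ ξ, ind (∃ j ∈ Finset.range (ξ []), P (sh [j] ξ)) ∂(gw p) ≤
      ∫⁻ d, ind (M < d) ∂p + M * ∫⁻ ξ, ind (P ξ) ∂(gw p) := by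
  calc _ ≤ ∫⁻ ξ, (ind (M < ξ []) + ∑ j ∈ Finset.range M, ind (P (sh [j] ξ))) ∂(gw p) := by
        refine lmono fun ξ => ind_le_of fun ⟨j, hj, hj'⟩ => ?_
        by_cases hM : M < ξ []
        · rw [ind_pos hM]; exact le_self_add
        · refine le_trans ?_ le_add_self
          rw [← ind_pos hj']
          refine Finset.single_le_sum (f := fun j => ind (P (sh [j] ξ))) (fun _ _ => zero_le) ?_
          rw [Finset.mem_range] at hj ⊢
          omega
    _ = _ := by
        have hm : ∀ j, Measurable fun ξ : Tr => ind (P (sh [j] ξ)) := fun j =>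
          mind (hP.comp (measurable_sh _))
        rw [lintegral_add_right _ (Finset.measurable_sum _ fun j _ => hm j),
          lintegral_finsetSum _ fun j _ => hm j]
        congr 1
        · exact lintegral_eval (fun _ : List ℕ => p) [] (f := fun d => ind (M < d))
            (measurable_of_countable _)
        · rw [Finset.sum_congr rfl fun j _ => gw_sh p [j] (mind hP)]
          simp

end Pool.Agent.Lib.MP_0cd4b8_pr
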