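import Pool.Agent.Lib.MP_0cd4b8_pr.TransA1

/-! Tightness of the island weights. -/

set_option autoImplicit false

open MeasureTheory ProbabilityTheory Measure Filter Topology
open scoped ENNReal NNReal

namespace Pool.Agent.Lib.MP_0cd4b8_pr

/-- Island weights, computed to depth `n`. -/
noncomputable def gg (β : Tr → ℝ≥0) (K : ℝ≥0) : ℕ → Tr → ℝ≥0∞
  | 0 => fun _ => 0
  | n + 1 => fun ξ =>
    ind ((K : ℝ≥0∞) * Cs β ξ < 1 + ∑ i ∈ Finset.range (ξ []), gg β K n (sh [i] ξ)) *
      ((1 + ∑ i ∈ Finset.range (ξ []), gg β K n (sh [i] ξ)) * (1 + (Cs β ξ : ℝ≥0∞))⁻¹)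

/-- One plus the weights of the children. -/
noncomputable def YY (β : Tr → ℝ≥0) (K : ℝ≥0) (n : ℕ) (ξ : Tr) : ℝ≥0∞ :=
  1 + ∑ i ∈ Finset.range (ξ []), gg β K n (sh [i] ξ)

lemma gg_succ (β : Tr → ℝ≥0) (K : ℝ≥0) (n : ℕ) (ξ : Tr) : gg β K (n + 1) ξ =
    ind ((K : ℝ≥0∞) * Cs β ξ < YY β K n ξ) * (YY β K n ξ * (1 + (Cs β ξ : ℝ≥0∞))⁻¹) := rfl

lemma measurable_YY_of {β : Tr → ℝ≥0} {K : ℝ≥0} {n : ℕ} (h : Measurable (gg β K n)) :
    Measurable (YY β K n) :=
  measurable_const.add (measurable_sum_children (measurable_pi_apply [])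
    fun i => h.comp (measurable_sh [i]))

lemma measurable_gg {β : Tr → ℝ≥0} (hβ : Measurable β) (K : ℝ≥0) (n : ℕ) :
    Measurable (gg β K n) := by
  induction n with
  | zero => exact measurable_const
  | succ n ih =>
    have h1 := measurable_YY_of ih
    have h2 := (measurable_Cs hβ).coe_nnreal_ennreal
    exact (mind (Measurable.lt (h2.const_mul _) h1)).fun_mul
      (h1.fun_mul (measurable_const.add h2).inv)

lemma gg_mono (β : Tr → ℝ≥0) (K : ℝ≥0) (ξ : Tr) : Monotone fun n => gg β K n ξ := by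
  refine monotone_nat_of_le_succ fun n => ?_
  induction n generalizing ξ with
  | zero => exact zero_le
  | succ n ih =>
    have h : YY β K n ξ ≤ YY β K (n + 1) ξ :=
      add_le_add le_rfl (Finset.sum_le_sum fun i _ => ih _)
    rw [gg_succ, gg_succ]
    exact ind_mul_mono fun hlt => ⟨hlt.trans_le h, by gcongr⟩

lemma YY_mono (β : Tr → ℝ≥0) (K : ℝ≥0) (ξ : Tr) : Monotone fun n => YY β K n ξ :=
  fun _ _ hab => add_le_add le_rfl (Finset.sum_le_sum fun _ _ => gg_mono β K _ hab)

lemma gg_le_sz (β : Tr → ℝ≥0) (K : ℝ≥0) (n : ℕ) (ξ : Tr) : gg β K n ξ ≤ sz n ξ := by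
  induction n generalizing ξ with
  | zero => exact zero_le
  | succ n ih =>
    rw [gg_succ]
    refine (ind_mul_le _ _).trans ((mul_le_of_le_one_right zero_le
      (ENNReal.inv_le_one.2 le_self_add)).trans ?_)
    simp only [YY, sz]
    push_cast
    exact add_le_add le_rfl (Finset.sum_le_sum fun i _ => ih _)

lemma gg_le_add (β : Tr → ℝ≥0) (K : ℝ≥0) (n : ℕ) (ξ : Tr) :
    gg β K n ξ ≤ fsz β ξ + ind (β ξ ≠ 0) * gg β K n ξ := by
  by_cases h : β ξ = 0
  · refine le_trans ?_ le_self_add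
    refine le_iSup_of_le n ?_
    rw [ind_pos h, one_mul]
    exact gg_le_sz β K n ξ
  · rw [ind_pos h, one_mul]; exact le_add_self

theorem exists_tight (p : Measure ℕ) [IsProbabilityMeasure p] {t : ℝ≥0} {β : Tr → ℝ≥0}
    (h : IsRec t β) (ht : 0 < t) {y η : ℝ≥0} (hc : Contr p β y η) :
    ∃ K : ℝ≥0, 0 < K ∧ ∀ᵐ ξ ∂(gw p), ⨆ n, gg β K n ξ ≠ ⊤ := by
  obtain ⟨q, hκ⟩ := exists_kappa p h.meas hc
  set κ := ∫⁻ ξ, ∑ i ∈ Finset.range (ξ []), iv β (ξ []) i (fun j => sh [j] ξ) ^ (q + 1) ∂(gw p)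
  obtain ⟨ε1, hε1, hκ1⟩ := ENNReal.lt_iff_exists_add_pos_lt.1 hκ
  obtain ⟨δ1, hδ1, hΘ⟩ := exists_abs_cont (gw p) (damp_sum p h.meas hc q)
    (ε := ε1) (by exact_mod_cast hε1.ne')
  obtain ⟨l, K', hl, hadd⟩ := exists_add_pow_le hκ1 (q + 1)
  obtain ⟨ε2, hε2, hl2⟩ := ENNReal.lt_iff_exists_add_pos_lt.1 hl
  have hZ := Z_moment p h ht hc q
  set Z : Tr → ℝ≥0∞ := fun ξ =>
    (1 + ∑ i ∈ Finset.range (ξ []), fsz β (sh [i] ξ)) * (1 + (Cs β ξ : ℝ≥0∞))⁻¹ with hZdef
  obtain ⟨δ2, hδ2, hZac⟩ := exists_abs_cont (gw p) hZ (ε := (ε2 / (K' + 1) : ℝ≥0))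
    (by exact_mod_cast (show ε2 / (K' + 1) ≠ 0 by positivity))
  obtain ⟨M, hM⟩ := exists_tail_le p (ε := (δ1 / 2 : ℝ≥0))
    (by exact_mod_cast (show δ1 / 2 ≠ 0 by positivity))
  set η1 : ℝ≥0 := δ1 / 2 / (M + 1) with hη1
  set δ0 : ℝ≥0 := min η1 δ2 with hδ0
  have hδ0pos : 0 < δ0 := lt_min (by positivity) hδ2
  have hCm := measurable_Cs h.meas
  obtain ⟨η2, hη2, hη21, hη2s⟩ := exists_small_level (gw p) hCm
    (y := ∫⁻ ξ, ind (Cs β ξ = 0) ∂(gw p) + (δ0 / 2 : ℝ≥0)) (ENNReal.lt_add_right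
      (ne_top_of_le_ne_top ENNReal.one_ne_top (lintegral_ind_le_one _ _))
      (by exact_mod_cast (show δ0 / 2 ≠ 0 by positivity)))
  have hsmall : ∫⁻ ξ, ind (Cs β ξ ≠ 0 ∧ Cs β ξ < η2) ∂(gw p) ≤ (δ0 / 2 : ℝ≥0) := by
    refine ENNReal.le_of_add_le_add_left (a := ∫⁻ ξ, ind (Cs β ξ = 0) ∂(gw p))
      (ne_top_of_le_ne_top ENNReal.one_ne_top (lintegral_ind_le_one _ _)) (le_trans ?_ hη2s)
    rw [← lintegral_add_left (mind (hCm.eq_const 0))]
    refine lmono fun ξ => ?_
    by_cases h0 : Cs β ξ = 0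
    · simp [h0, hη2]
    · simp [h0]
  lift ∫⁻ ξ, Z ξ ^ (q + 1) ∂(gw p) to ℝ≥0 using hZ with zz hzz
  set B : ℝ≥0 := 1 + K' * zz with hB
  set a : ℝ≥0 := max 1 (2 * B / δ0) with ha
  have ha1 : 1 ≤ a := le_max_left _ _
  have ha0 : 0 < a := zero_lt_one.trans_le ha1
  have haB : a⁻¹ * B ≤ δ0 / 2 := by
    have : 2 * B / δ0 ≤ a := le_max_right _ _
    rw [div_le_iff₀ hδ0pos] at this
    rw [inv_mul_le_iff₀ ha0, ← mul_div_assoc, le_div_iff₀ (by norm_num), mul_comm]
    exact this
  set K : ℝ≥0 := 2 * a / η2 with hK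
  refine ⟨K, by positivity, ?_⟩
  set hn : ℕ → Tr → ℝ≥0∞ := fun n ξ => ind (β ξ ≠ 0) * gg β K n ξ with hhn
  have hnm : ∀ n, Measurable (hn n) := fun n =>
    (mind (h.meas.eq_const 0).not).fun_mul (measurable_gg h.meas K n)
  have hZm : Measurable Z := (measurable_const.add (measurable_sum_children
    (measurable_pi_apply []) fun i => (measurable_fsz h.meas).comp (measurable_sh [i]))).fun_mul
      (measurable_const.add hCm.coe_nnreal_ennreal).inv
  have key : ∀ n, ∫⁻ ξ, hn n ξ ^ (q + 1) ∂(gw p) ≤ 1 ∧ ∫⁻ ξ, ind (hn n ξ ≠ 0) ∂(gw p) ≤ η1 := by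
    intro n
    induction n with
    | zero => simp [hhn, gg]
    | succ n ih =>
      obtain ⟨ih1, ih2⟩ := ih
      set H : Tr → ℝ≥0∞ := fun ξ =>
        (∑ i ∈ Finset.range (ξ []), hn n (sh [i] ξ)) * (1 + (Cs β ξ : ℝ≥0∞))⁻¹ with hH
      have hHm : Measurable H := (measurable_sum_children (measurable_pi_apply [])
        fun i => (hnm n).comp (measurable_sh [i])).fun_mul
          (measurable_const.add hCm.coe_nnreal_ennreal).inv
      have hH1 : ∫⁻ ξ, H ξ ^ (q + 1) ∂(gw p) ≤ κ + ε1 := by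
        refine (H_bound p h.meas (hnm n) q).trans ((mul_le_of_le_one_left zero_le ih1).trans
          (add_le_add le_rfl (hΘ _ ?_ ?_)))
        · exact Measurable.exists fun j => ((measurable_of_countable fun d : ℕ =>
            j ∈ Finset.range d).comp (measurable_pi_apply [])).and
              (((hnm n).comp (measurable_sh [j])).eq_const 0).not
        · refine (exists_child_le p (P := fun ξ => hn n ξ ≠ 0) ((hnm n).eq_const 0).not M).trans ?_
          calc _ ≤ ((δ1 / 2 : ℝ≥0) : ℝ≥0∞) + M * η1 := by gcongr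
            _ ≤ _ := by
              have : δ1 / 2 + M * η1 ≤ δ1 := by
                have h1 : (M : ℝ≥0) * η1 ≤ δ1 / 2 := by
                  rw [hη1, ← mul_div_assoc, div_le_iff₀ (by positivity), mul_comm]
                  gcongr
                  exact le_self_add
                calc δ1 / 2 + M * η1 ≤ δ1 / 2 + δ1 / 2 := by gcongr
                  _ = δ1 := add_halves _
              exact_mod_cast this
      have hYle : ∀ ξ, YY β K n ξ * (1 + (Cs β ξ : ℝ≥0∞))⁻¹ ≤ Z ξ + H ξ := by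
        intro ξ
        rw [hZdef, hH, ← add_mul, add_assoc, ← Finset.sum_add_distrib]
        exact mul_le_mul_left (add_le_add le_rfl (Finset.sum_le_sum fun i _ =>
          gg_le_add β K n _)) _
      have hsum : ∫⁻ ξ, (Z ξ + H ξ) ^ (q + 1) ∂(gw p) ≤ B := by
        calc _ ≤ ∫⁻ ξ, (l * H ξ ^ (q + 1) + K' * Z ξ ^ (q + 1)) ∂(gw p) :=
              lmono fun ξ => hadd _ _
          _ ≤ l * (κ + ε1) + K' * zz := by
              rw [lintegral_add_left ((hHm.pow_const _).const_mul _),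
                lintegral_const_mul _ (hHm.pow_const _), lintegral_const_mul _ (hZm.pow_const _),
                ← hzz]
              gcongr
          _ ≤ _ := by
              rw [hB]
              push_cast
              gcongr
      set E : Tr → Prop := fun ξ => Cs β ξ ≠ 0 ∧ (K : ℝ≥0∞) * Cs β ξ < YY β K n ξ with hE
      have hEm : Measurable E := (hCm.eq_const 0).not.and (Measurable.lt
        (hCm.coe_nnreal_ennreal.const_mul _) (measurable_YY_of (measurable_gg h.meas K n)))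
      have hEle : ∫⁻ ξ, ind (E ξ) ∂(gw p) ≤ δ0 := by
        calc _ ≤ ∫⁻ ξ, (ind (Cs β ξ ≠ 0 ∧ Cs β ξ < η2) +
              (a⁻¹ : ℝ≥0) * (Z ξ + H ξ) ^ (q + 1)) ∂(gw p) := by
              refine lmono fun ξ => ind_le_of fun ⟨h1, h2⟩ => ?_
              rcases lt_or_ge (Cs β ξ) η2 with h3 | h3
              · rw [ind_pos ⟨h1, h3⟩]; exact le_self_add
              · refine le_trans ?_ le_add_self
                have h4 : a ≤ K * Cs β ξ * (1 + Cs β ξ)⁻¹ := by
                  rw [← div_eq_mul_inv, le_div_iff₀ (by positivity), hK, div_mul_eq_mul_div,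
                    le_div_iff₀ hη2]
                  calc a * (1 + Cs β ξ) * η2 = a * (η2 + Cs β ξ * η2) := by ring
                    _ ≤ a * (Cs β ξ + Cs β ξ * 1) := by gcongr
                    _ = _ := by ring
                have h5 : (a : ℝ≥0∞) ≤ Z ξ + H ξ := by
                  refine le_trans ?_ (hYle ξ)
                  refine le_trans ?_ (mul_le_mul_left h2.le _)
                  rw [← ENNReal.coe_one, ← ENNReal.coe_add, ← ENNReal.coe_inv (by positivity)]
                  exact_mod_cast h4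
                calc (1 : ℝ≥0∞) = (a⁻¹ : ℝ≥0) * a := by
                      rw [← ENNReal.coe_mul, inv_mul_cancel₀ ha0.ne']; rfl
                  _ ≤ _ := by
                      gcongr
                      refine h5.trans (le_self_pow₀ (le_trans ?_ h5) (by omega))
                      exact_mod_cast ha1
          _ ≤ (δ0 / 2 : ℝ≥0) + (a⁻¹ : ℝ≥0) * B := by
              rw [lintegral_add_left (mind ((hCm.eq_const 0).not.and
                (Measurable.lt hCm measurable_const))),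
                lintegral_const_mul' _ _ ENNReal.coe_ne_top]
              gcongr
          _ ≤ _ := by
              have : δ0 / 2 + a⁻¹ * B ≤ δ0 := by
                calc δ0 / 2 + a⁻¹ * B ≤ δ0 / 2 + δ0 / 2 := by gcongr
                  _ = δ0 := add_halves _
              exact_mod_cast this
      have hle : ∀ ξ, hn (n + 1) ξ ≤ ind (E ξ) * (Z ξ + H ξ) := by
        intro ξ
        simp only [hhn]
        rw [gg_succ, ← mul_assoc, ← ind_and]
        exact ind_mul_mono fun ⟨h1, h2⟩ =>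
          ⟨⟨fun h0 => h1 ((h.eq_zero_iff ht ξ).2 h0), h2⟩, hYle ξ⟩
      constructor
      · calc _ ≤ ∫⁻ ξ, (l * H ξ ^ (q + 1) + K' * (ind (E ξ) * Z ξ ^ (q + 1))) ∂(gw p) := by
              refine lmono fun ξ => (pow_le_pow_left' (hle ξ) _).trans ?_
              by_cases he : E ξ
              · rw [ind_pos he, one_mul, one_mul]; exact hadd _ _
              · rw [ind_neg he]; simp
          _ ≤ l * (κ + ε1) + K' * (ε2 / (K' + 1) : ℝ≥0) := by
              rw [lintegral_add_left ((hHm.pow_const _).const_mul _),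
                lintegral_const_mul _ (hHm.pow_const _),
                lintegral_const_mul' _ _ ENNReal.coe_ne_top]
              gcongr
              exact hZac E hEm (hEle.trans (by exact_mod_cast min_le_right _ _))
          _ ≤ _ := by
              refine le_trans ?_ hl2.le
              gcongr
              have : K' * (ε2 / (K' + 1)) ≤ ε2 := by
                rw [← mul_div_assoc, div_le_iff₀ (by positivity), mul_comm]
                gcongr
                exact le_self_add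
              exact_mod_cast this
      · refine le_trans (lmono fun ξ => ind_mono fun h0 => ?_)
          (hEle.trans (by exact_mod_cast min_le_left _ _))
        by_contra he
        have := hle ξ
        rw [ind_neg he, zero_mul] at this
        exact h0 (le_antisymm this zero_le)
  have hmono : ∀ ξ, Monotone fun n => hn n ξ := fun ξ _ _ hab =>
    mul_le_mul_right (gg_mono β K ξ hab) _
  have h1 : ∫⁻ ξ, (⨆ n, hn n ξ) ^ (q + 1) ∂(gw p) ≠ ⊤ := by
    simp_rw [ENNReal.iSup_pow]
    rw [lintegral_iSup (fun n => (hnm n).pow_const _)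
      fun a b hab ξ => pow_le_pow_left' (hmono ξ hab) _]
    exact ne_top_of_le_ne_top ENNReal.one_ne_top (iSup_le fun n => (key n).1)
  have h2 := ae_lt_top ((Measurable.iSup hnm).pow_const _) h1
  have h3 := ae_lt_top ((measurable_fsz h.meas).pow_const _) (fsz_moment p h ht hc 0)
  filter_upwards [h2, h3] with ξ h2 h3
  rw [zero_add, pow_one] at h3
  have h4 : ⨆ n, hn n ξ ≠ ⊤ := fun h0 => by simp [h0] at h2
  refine ne_top_of_le_ne_top (ENNReal.add_ne_top.2 ⟨h3.ne, h4⟩) (iSup_le fun n => ?_)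
  exact (gg_le_add β K n ξ).trans (add_le_add le_rfl (le_iSup (fun n => hn n ξ) n))

end Pool.Agent.Lib.MP_0cd4b8_pr
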