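import Pool.Agent.Lib.MP_0cd4b8_pr.TransA2

/-! Islands and the supersolution. -/

set_option autoImplicit false

open MeasureTheory ProbabilityTheory Measure Filter Topology
open scoped ENNReal NNReal

namespace Pool.Agent.Lib.MP_0cd4b8_pr

section islands
variable (β : Tr → ℝ≥0) (K : ℝ≥0)

/-- Bad vertices. -/
def Bad (ξ : Tr) : Prop := ∃ n, (K : ℝ≥0∞) * Cs β ξ < YY β K n ξ

/-- Limit of `YY`. -/
noncomputable def Yi (ξ : Tr) : ℝ≥0∞ := ⨆ n, YY β K n ξ

lemma Yi_le_of_good {ξ : Tr} (h : ¬Bad β K ξ) : Yi β K ξ ≤ K * Cs β ξ :=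
  iSup_le fun n => not_lt.1 fun hlt => h ⟨n, hlt⟩

lemma Yi_eq (ξ : Tr) :
    Yi β K ξ = 1 + ∑ i ∈ Finset.range (ξ []), ⨆ n, gg β K n (sh [i] ξ) := by
  rw [ENNReal.finsetSum_iSup_of_monotone (fun i => gg_mono β K _), ENNReal.add_iSup]
  rfl

lemma le_gi_of_bad {ξ : Tr} (h : Bad β K ξ) :
    Yi β K ξ * (1 + (Cs β ξ : ℝ≥0∞))⁻¹ ≤ ⨆ n, gg β K n ξ := by
  obtain ⟨m, hm⟩ := h
  rw [Yi, ENNReal.iSup_mul]
  refine iSup_le fun n => le_iSup_of_le (max n m + 1) ?_
  rw [gg_succ, ind_pos (hm.trans_le (YY_mono β K ξ (le_max_right _ _))), one_mul]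
  gcongr
  exact YY_mono β K ξ (le_max_left _ _)

/-- The island below `w`. -/
inductive Isl (ξ : Tr) (w : List ℕ) : List ℕ → Prop
  | base : Isl ξ w w
  | step {u : List ℕ} {j : ℕ} : Isl ξ w u → j < ξ u → Bad β K (sh (j :: u) ξ) → Isl ξ w (j :: u)

variable {β K}

lemma Isl.length_le {ξ : Tr} {w u : List ℕ} (h : Isl β K ξ w u) : w.length ≤ u.length := by
  induction h with
  | base => exact le_rfl
  | step _ _ _ ih => simp only [List.length_cons]; omega

lemma Isl.top_cases {ξ : Tr} {w u : List ℕ} (h : Isl β K ξ w u) :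
    u = w ∨ ∃ j ∈ Finset.range (ξ w), Bad β K (sh (j :: w) ξ) ∧ Isl β K ξ (j :: w) u := by
  induction h with
  | base => exact Or.inl rfl
  | step _ hj hb ih =>
    rcases ih with rfl | ⟨i, hi, hi', hi''⟩
    · exact Or.inr ⟨_, Finset.mem_range.2 hj, hb, Isl.base⟩
    · exact Or.inr ⟨i, hi, hi', hi''.step hj hb⟩

/-- The damping factor. -/
noncomputable def al (β : Tr → ℝ≥0) (ξ : Tr) : ℝ≥0 := (1 + Cs β ξ)⁻¹

lemma coe_al (β : Tr → ℝ≥0) (ξ : Tr) : (al β ξ : ℝ≥0∞) = (1 + (Cs β ξ : ℝ≥0∞))⁻¹ := by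
  rw [al, ENNReal.coe_inv (by positivity)]; simp

lemma sh_cons {E : Type*} (j : ℕ) (u : List ℕ) (ξ : List ℕ → E) :
    sh (j :: u) ξ = sh [j] (sh u ξ) := by rw [sh_sh]; rfl

lemma island_sum_aux (ξ : Tr) (n : ℕ) (w : List ℕ) :
    ∑' u, ind (Isl β K ξ w u ∧ u.length < w.length + n) * Fp (al β) ξ u ≤
      Fp (al β) ξ w * Yi β K (sh w ξ) := by
  induction n generalizing w with
  | zero =>
    refine le_trans (le_of_eq ?_) zero_le
    refine (tsum_congr fun u => ?_).trans tsum_zero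
    rw [ind_neg (fun h => by have := h.1.length_le; omega), zero_mul]
  | succ n ih =>
    calc _ ≤ ∑' u, (ind (u = w) * Fp (al β) ξ u + ∑ j ∈ Finset.range (ξ w),
          ind (Bad β K (sh (j :: w) ξ)) * (ind (Isl β K ξ (j :: w) u ∧
            u.length < (j :: w).length + n) * Fp (al β) ξ u)) := by
          refine ENNReal.tsum_le_tsum fun u => ind_mul_le_of fun ⟨h1, h2⟩ => ?_
          rcases h1.top_cases with rfl | ⟨j, hj, hb, hi⟩
          · rw [ind_pos rfl, one_mul]; exact le_self_add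
          · refine le_trans ?_ le_add_self
            refine le_trans ?_ (Finset.single_le_sum (f := fun j =>
              ind (Bad β K (sh (j :: w) ξ)) * (ind (Isl β K ξ (j :: w) u ∧
                u.length < (j :: w).length + n) * Fp (al β) ξ u)) (fun _ _ => zero_le) hj)
            rw [ind_pos hb, ind_pos ⟨hi, by simp only [List.length_cons]; omega⟩, one_mul, one_mul]
      _ ≤ Fp (al β) ξ w + ∑ j ∈ Finset.range (ξ w), Fp (al β) ξ w *
          ⨆ n, gg β K n (sh [j] (sh w ξ)) := by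
          rw [ENNReal.tsum_add, tsum_eq_single w fun b hb => by rw [ind_neg hb, zero_mul],
            ind_pos rfl, one_mul, Summable.tsum_finsetSum fun _ _ => ENNReal.summable]
          refine add_le_add le_rfl (Finset.sum_le_sum fun j _ => ?_)
          rw [ENNReal.tsum_mul_left]
          refine ind_mul_le_of fun hb => (ih (j :: w)).trans ?_
          rw [Fp, ENNReal.coe_mul, mul_assoc, coe_al, mul_comm _ (Yi β K _), ← sh_cons]
          gcongr
          exact le_gi_of_bad β K hb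
      _ = _ := by rw [Yi_eq, ← Finset.mul_sum, mul_add, mul_one]; rfl

lemma island_sum (ξ : Tr) (w : List ℕ) :
    ∑' u, ind (Isl β K ξ w u) * Fp (al β) ξ u ≤ Fp (al β) ξ w * Yi β K (sh w ξ) := by
  rw [ENNReal.tsum_eq_iSup_sum]
  refine iSup_le fun J => le_trans ?_ (island_sum_aux ξ (J.sup List.length + 1) w)
  refine le_trans (Finset.sum_le_sum fun u hu => ?_) (ENNReal.sum_le_tsum J)
  refine ind_mul_mono fun h => ⟨⟨h, ?_⟩, le_rfl⟩
  have := Finset.le_sup (f := List.length) hu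
  omega

end islands

/-- The supersolution. -/
noncomputable def FF (β : Tr → ℝ≥0) (ξ : Tr) (u : List ℕ) : ℝ≥0 :=
  (ξ [] : ℝ≥0) / Cs β ξ * Fp (al β) ξ u

/-- The cost of entering a vertex from its parent. -/
noncomputable def psi (t : ℝ≥0) (β : Tr → ℝ≥0) (ξ : Tr) (w : List ℕ) : ℝ≥0 :=
  FF β ξ w * ((1 - t) * Cs β (sh w ξ))

lemma psi_add_FF {t : ℝ≥0} {β : Tr → ℝ≥0} (h : IsRec t β) (ht : t ≤ 1) (ξ : Tr) (j : ℕ)
    (u : List ℕ) :
    psi t β ξ (j :: u) + FF β ξ (j :: u) + FF β ξ u * β (sh (j :: u) ξ) = FF β ξ u := by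
  rw [h.eq (sh (j :: u) ξ)]
  simp only [psi, FF, Fp, al]
  generalize Cs β (sh (j :: u) ξ) = c
  generalize (ξ [] : ℝ≥0) / Cs β ξ = a
  generalize Fp (fun ξ => (1 + Cs β ξ)⁻¹) ξ u = b
  rw [← NNReal.coe_inj]
  push_cast [NNReal.coe_sub ht]
  field_simp
  ring

lemma sum_psi_add_FF {t : ℝ≥0} {β : Tr → ℝ≥0} (h : IsRec t β) (ht : t ≤ 1) (ξ : Tr)
    (u : List ℕ) : ∑ j ∈ Finset.range (ξ u), (psi t β ξ (j :: u) + FF β ξ (j :: u)) +
      FF β ξ u * Cs β (sh u ξ) = ξ u * FF β ξ u := by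
  rw [Cs, Finset.mul_sum, sh_apply_nil, ← Finset.sum_add_distrib,
    Finset.sum_congr rfl fun j _ => by rw [← sh_cons, psi_add_FF h ht]]
  simp

lemma super_FF {t : ℝ≥0} {β : Tr → ℝ≥0} (h : IsRec t β) (ht : t ≤ 1) {ξ : Tr}
    (hC : Cs β ξ ≠ 0) (x : List ℕ) :
    ∫⁻ s, ((ind (x = []) + ind ((step ξ x s).tail = x ∧ step ξ x s ≠ []) *
      psi t β ξ (step ξ x s)) + FF β ξ (step ξ x s)) ∂unif ≤ FF β ξ x := by
  have hs := sum_psi_add_FF h ht ξ x
  cases x with
  | nil =>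
    have hD : ξ [] ≠ 0 := fun h0 => hC (by rw [Cs, h0]; simp)
    have hl := step_law_nil ξ fun y => (ind (([] : List ℕ) = []) + ind (y.tail = [] ∧ y ≠ []) *
      psi t β ξ y) + FF β ξ y
    refine (ENNReal.mul_le_mul_iff_right (a := (ξ [] : ℝ≥0∞)) (by simpa using hD) (by simp)).1 ?_
    rw [hl]
    simp only [ind_true, List.tail_cons, ne_eq, reduceCtorEq, not_false_eq_true, and_self, one_mul]
    have h1 : FF β ξ [] * Cs β (sh [] ξ) = ξ [] := by
      simp only [FF, Fp, sh_nil, mul_one]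
      rw [div_mul_cancel₀ _ hC]
    rw [h1] at hs
    have h2 : ∑ j ∈ Finset.range (ξ []), (1 + psi t β ξ [j] + FF β ξ [j]) =
        ξ [] * FF β ξ [] := by
      rw [← hs]
      simp only [add_assoc, Finset.sum_add_distrib, Finset.sum_const, Finset.card_range,
        nsmul_eq_mul, mul_one]
      ring
    exact le_of_eq (by exact_mod_cast h2)
  | cons i w =>
    have hl := step_law_cons ξ i w fun y => (ind (i :: w = []) +
      ind (y.tail = i :: w ∧ y ≠ []) * psi t β ξ y) + FF β ξ y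
    refine (ENNReal.mul_le_mul_iff_right (a := (ξ (i :: w) : ℝ≥0∞) + 1) (by simp) (by simp)).1 ?_
    rw [hl, ind_neg (P := w.tail = i :: w ∧ w ≠ []) (fun h => by
      have := congrArg List.length h.1
      simp only [List.length_tail, List.length_cons] at this
      omega)]
    simp only [reduceCtorEq, ind_false, zero_mul, zero_add, List.tail_cons, ne_eq,
      not_false_eq_true, and_self, ind_true, one_mul]
    have h1 : FF β ξ w = FF β ξ (i :: w) * (1 + Cs β (sh (i :: w) ξ)) := by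
      simp only [FF, Fp, al]
      field_simp
    have h2 : FF β ξ w + ∑ j ∈ Finset.range (ξ (i :: w)),
        (psi t β ξ (j :: i :: w) + FF β ξ (j :: i :: w)) = (ξ (i :: w) + 1) * FF β ξ (i :: w) := by
      rw [add_mul, ← hs, h1]
      ring
    exact le_of_eq (by exact_mod_cast h2)

/-- The walk from `u` enters `w` from its parent. -/
def Enter (ξ : Tr) (u w : List ℕ) (x : ℕ → ℝ) : Prop :=
  ∃ k, (walk ξ u x k = w.tail ∧ w ≠ []) ∧ walk ξ u x (k + 1) = w

lemma measurable_walk (ξ : Tr) (u : List ℕ) (k : ℕ) : Measurable fun x => walk ξ u x k := by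
  simp_rw [walk_eq_path]
  exact measurable_path (measurable_step ξ) u k

lemma measurable_Enter (ξ : Tr) (u w : List ℕ) : Measurable (Enter ξ u w) :=
  Measurable.exists fun k => (((measurable_walk ξ u k).eq_const _).and measurable_const).and
    ((measurable_walk ξ u (k + 1)).eq_const _)

lemma walk_cost_le {t : ℝ≥0} {β : Tr → ℝ≥0} (h : IsRec t β) (ht : t ≤ 1) {ξ : Tr}
    (hC : Cs β ξ ≠ 0) (u : List ℕ) :
    ∑' k, ∫⁻ x, ind (walk ξ u x k = []) ∂nu +
      ∑' w, (∫⁻ x, ind (Enter ξ u w x) ∂nu) * psi t β ξ w ≤ FF β ξ u := by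
  refine le_trans ?_ (lintegral_cost_le (measurable_step ξ)
    (fun x y => ind (x = []) + ind (y.tail = x ∧ y ≠ []) * psi t β ξ y) (fun y => FF β ξ y)
    (super_FF h ht hC) u)
  have hm1 : ∀ k, Measurable fun x => ind (walk ξ u x k = []) := fun k =>
    mind ((measurable_walk ξ u k).eq_const _)
  have hm2 : ∀ w, Measurable fun x => ind (Enter ξ u w x) := fun w => mind (measurable_Enter ξ u w)
  simp_rw [← lintegral_mul_const _ (hm2 _)]
  rw [← lintegral_tsum fun k => (hm1 k).aemeasurable,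
    ← lintegral_tsum fun w => ((hm2 w).mul_const _).aemeasurable,
    ← lintegral_add_left (Measurable.tsum hm1)]
  refine lmono fun x => ?_
  simp_rw [← walk_eq_path]
  rw [ENNReal.tsum_add]
  refine add_le_add le_rfl ?_
  calc _ ≤ ∑' w, ∑' k, ind ((walk ξ u x k = w.tail ∧ w ≠ []) ∧ walk ξ u x (k + 1) = w) *
        psi t β ξ w := ENNReal.tsum_le_tsum fun w => by
        rw [ENNReal.tsum_mul_right]
        gcongr
        exact ind_exists_le _
    _ ≤ _ := by
        rw [ENNReal.tsum_comm]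
        refine ENNReal.tsum_le_tsum fun k => ?_
        rw [tsum_eq_single (walk ξ u x (k + 1)) fun b hb => by
          rw [ind_neg fun h => hb h.2.symm, zero_mul]]
        exact ind_mul_mono fun h => ⟨⟨h.1.1.symm, h.1.2⟩, le_rfl⟩

lemma island_le_psi {t K μ : ℝ≥0} {β : Tr → ℝ≥0} (hμ : μ * K ≤ 1 - t) {ξ : Tr} {w : List ℕ}
    (hw : ¬Bad β K (sh w ξ)) :
    ∑' z, ind (Isl β K ξ w z) * (μ * FF β ξ z) ≤ psi t β ξ w := by
  have h1 : ∀ z, ind (Isl β K ξ w z) * (μ * FF β ξ z) = (μ * ((ξ [] : ℝ≥0) / Cs β ξ) : ℝ≥0) *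
      (ind (Isl β K ξ w z) * Fp (al β) ξ z) := fun z => by
    simp only [FF, ENNReal.coe_mul]; ring
  simp_rw [h1]
  rw [ENNReal.tsum_mul_left]
  calc _ ≤ (μ * ((ξ [] : ℝ≥0) / Cs β ξ) : ℝ≥0) * (Fp (al β) ξ w *
        ((K : ℝ≥0∞) * Cs β (sh w ξ))) := by
        gcongr
        refine (island_sum ξ w).trans ?_
        gcongr
        exact Yi_le_of_good β K hw
    _ ≤ _ := by
        have : μ * ((ξ [] : ℝ≥0) / Cs β ξ) * (Fp (al β) ξ w * (K * Cs β (sh w ξ))) ≤
            psi t β ξ w := by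
          calc _ = FF β ξ w * ((μ * K) * Cs β (sh w ξ)) := by rw [FF]; ring
            _ ≤ _ := by rw [psi]; gcongr
        exact_mod_cast this

end Pool.Agent.Lib.MP_0cd4b8_pr
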