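import Pool.Agent.Lib.MP_0cd4b8_pr.TransQ1

/-! Transience for small densities. -/

set_option autoImplicit false

open MeasureTheory ProbabilityTheory Measure Filter Topology
open scoped ENNReal NNReal

namespace Pool.Agent.Lib.MP_0cd4b8_pr

lemma measurable_walk_param (u : List ℕ) (k : ℕ) :
    Measurable fun z : Tr × (ℕ → ℝ) => walk z.1 u z.2 k := by
  simp_rw [walk_eq_path]
  exact measurable_path_param (s := step) measurable_step_param u k

lemma occ_iff (ξ : Tr) (η : List ℕ → Site) (t : ℕ) (v : List ℕ) : Occ ξ η t v ↔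
    walk ξ [] ((η []).2 0) t = v ∨ ∃ s, s < t ∧ ∃ u : List ℕ, u ≠ [] ∧ Occ ξ η s u ∧
      (∀ r, r < s → ¬Occ ξ η r u) ∧ ∃ i < (η u).1, walk ξ u ((η u).2 i) (t - s) = v := by
  rw [Occ]
  simp only [exists_prop]

lemma measurable_Occ (t : ℕ) (v : List ℕ) :
    Measurable fun ω : Tr × (List ℕ → Site) => Occ ω.1 ω.2 t v := by
  induction t using Nat.strong_induction_on generalizing v with
  | _ t ih =>
  have hw : ∀ u i k, Measurable fun ω : Tr × (List ℕ → Site) =>
      walk ω.1 u ((ω.2 u).2 i) k = v := fun u i k =>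
    ((measurable_walk_param u k).comp (measurable_fst.prodMk (by fun_prop))).eq_const _
  simp_rw [occ_iff _ _ t]
  refine (hw _ _ _).or (Measurable.exists fun s => ?_)
  by_cases hs : s < t
  · refine measurable_const.and (Measurable.exists fun u => measurable_const.and
      ((ih s hs u).and (Measurable.and (Measurable.forall fun r => ?_)
        (Measurable.exists fun i => Measurable.and ?_ (hw _ _ _)))))
    · by_cases hr : r < s
      · exact measurable_const.imp (ih r (hr.trans hs) u).not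
      · simp only [hr, false_imp_iff]; exact measurable_const
    · exact (measurable_of_countable fun n : ℕ => i < n).comp (by fun_prop)
  · simp only [hs, false_and]; exact measurable_const

lemma measurable_visits :
    Measurable fun ω : Tr × (List ℕ → Site) => {t | Occ ω.1 ω.2 t []} :=
  measurable_set_iff.2 fun t => measurable_Occ t []

lemma ae_law (p : Measure ℕ) [IsProbabilityMeasure p] (μ : ℝ≥0) {Q : Set ℕ → Prop}
    (hQ : Measurable Q)
    (h : ∀ᵐ ξ ∂(gw p), {v | InTree ξ v}.Infinite → ∀ᵐ η ∂(frogs μ), Q {t | Occ ξ η t []}) :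
    ∀ᵐ ω ∂(law p μ), Q {t | Occ ω.1 ω.2 t []} := by
  have hI : Measurable fun ω : Tr × (List ℕ → Site) => {v | InTree ω.1 v}.Infinite :=
    measurable_infinite.comp measurable_fst
  have h1 : ∀ᵐ ω ∂((gw p).prod (frogs μ)), {v | InTree ω.1 v}.Infinite →
      Q {t | Occ ω.1 ω.2 t []} := by
    refine (ae_prod_iff_ae_ae (measurableSet_setOfPred.2
      (hI.imp (hQ.comp measurable_visits)))).2 ?_
    filter_upwards [h] with ξ hξ
    by_cases hi : {v | InTree ξ v}.Infinite
    · filter_upwards [hξ hi] with η hη using fun _ => hη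
    · exact Eventually.of_forall fun η h => (hi h).elim
  have h2 := cond_absolutelyContinuous (μ := (gw p).prod (frogs μ))
    (s := {ω | {v | InTree ω.1 v}.Infinite}) |>.ae_le h1
  filter_upwards [h2, ae_cond_mem (μ := (gw p).prod (frogs μ))
    (measurableSet_setOfPred.2 hI)] with ω h3 h4 using h3 h4

lemma InTree.tail {ξ : Tr} {v : List ℕ} (h : InTree ξ v) : InTree ξ v.tail := by
  cases v with
  | nil => exact h
  | cons i v => exact h.2

lemma step_cases (ξ : Tr) (v : List ℕ) (x : ℝ) :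
    (∃ j < ξ v, step ξ v x = j :: v) ∨ step ξ v x = v.tail := by
  unfold step
  split_ifs with h
  · exact Or.inl ⟨_, h, rfl⟩
  · exact Or.inr rfl

lemma InTree.walk {ξ : Tr} {u : List ℕ} (h : InTree ξ u) (x : ℕ → ℝ) (k : ℕ) :
    InTree ξ (walk ξ u x k) := by
  induction k with
  | zero => exact h
  | succ k ih =>
    rw [Pool.Agent.Lib.MP_0cd4b8_pr.walk]
    rcases step_cases ξ (Pool.Agent.Lib.MP_0cd4b8_pr.walk ξ u x k) (x k) with ⟨j, hj, h1⟩ | h1
    · rw [h1]; exact ⟨hj, ih⟩
    · rw [h1]; exact ih.tail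

lemma suffix_walk {ξ : Tr} {u w : List ℕ} {x : ℕ → ℝ} {k : ℕ} (h : w <:+ walk ξ u x k) :
    w <:+ u ∨ Enter ξ u w x := by
  induction k with
  | zero => exact Or.inl h
  | succ k ih =>
    rcases step_cases ξ (walk ξ u x k) (x k) with ⟨j, -, h1⟩ | h1
    · have h2 : walk ξ u x (k + 1) = j :: walk ξ u x k := h1
      rw [h2, List.suffix_cons_iff] at h
      rcases h with h | h
      · exact Or.inr ⟨k, ⟨by rw [h]; rfl, by rw [h]; simp⟩, h2.trans h.symm⟩
      · exact ih h
    · have h2 : walk ξ u x (k + 1) = (walk ξ u x k).tail := h1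
      rw [h2] at h
      exact ih (h.trans (List.tail_suffix _))

/-- Some frog starting at `u` has the property `B`. -/
def act (u : List ℕ) (B : (ℕ → ℝ) → Prop) (x : Site) : Prop :=
  (u = [] ∧ B (x.2 0)) ∨ (u ≠ [] ∧ hits B x)

lemma measurable_act (u : List ℕ) {B : (ℕ → ℝ) → Prop} (hB : Measurable B) :
    Measurable (act u B) :=
  (measurable_const.and (hB.comp (by fun_prop))).or (measurable_const.and (measurable_hits hB))

lemma lintegral_site_eval (μ : ℝ≥0) (i : ℕ) {f : (ℕ → ℝ) → ℝ≥0∞} (hf : Measurable f) :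
    ∫⁻ x, f (x.2 i) ∂(site μ) = ∫⁻ y, f y ∂nu := by
  have hm : Measurable fun x : Site => f (x.2 i) := hf.comp (by fun_prop)
  rw [site, lintegral_prod _ hm.aemeasurable]
  simp only [lintegral_eval (fun _ : ℕ => nu) i hf, lintegral_const, measure_univ, mul_one]

/-- The mean number of frogs. -/
noncomputable def mu (μ : ℝ≥0) (u : List ℕ) : ℝ≥0∞ := if u = [] then 1 else μ

lemma lintegral_act_le (μ : ℝ≥0) (u : List ℕ) {B : (ℕ → ℝ) → Prop} (hB : Measurable B) :
    ∫⁻ x, ind (act u B x) ∂(site μ) ≤ mu μ u * ∫⁻ y, ind (B y) ∂nu := by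
  by_cases hu : u = []
  · simp only [act, hu, mu, true_and, ne_eq, not_true_eq_false, false_and, or_false, if_true,
      one_mul]
    exact (lintegral_site_eval μ 0 (mind hB)).le
  · simp only [act, hu, mu, true_and, ne_eq, not_false_eq_true, false_and, false_or, if_false]
    exact lintegral_hits_le μ hB

section
variable (β : Tr → ℝ≥0) (K : ℝ≥0) (ξ : Tr)

/-- The edges of the dominating percolation. -/
def ed (u z : List ℕ) (x : Site) : Prop :=
  z ≠ [] ∧ ((u = [] ∧ Isl β K ξ [] z) ∨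
    ∃ w, (¬Bad β K (sh w ξ) ∧ Isl β K ξ w z) ∧ act u (Enter ξ u w) x)

lemma measurable_ed (u z : List ℕ) : Measurable (ed β K ξ u z) :=
  measurable_const.and (measurable_const.or (Measurable.exists fun w =>
    measurable_const.and (measurable_act u (measurable_Enter ξ u w))))

variable {ξ}

lemma exists_isl {v : List ℕ} (hv : InTree ξ v) :
    ∃ w, w <:+ v ∧ (w = [] ∨ ¬Bad β K (sh w ξ)) ∧ Isl β K ξ w v := by
  induction v with
  | nil => exact ⟨[], List.suffix_rfl, Or.inl rfl, Isl.base⟩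
  | cons j u ih =>
    by_cases hb : Bad β K (sh (j :: u) ξ)
    · obtain ⟨w, h1, h2, h3⟩ := ih hv.2
      exact ⟨w, h1.trans (List.suffix_cons _ _), h2, h3.step hv.1 hb⟩
    · exact ⟨_, List.suffix_rfl, Or.inr hb, Isl.base⟩

lemma occ_mem_cl (η : List ℕ → Site) {t : ℕ} {v : List ℕ} (h : Occ ξ η t v) :
    InTree ξ v ∧ (∀ w, w <:+ v → w ≠ [] → ¬Bad β K (sh w ξ) → ∀ z, Isl β K ξ w z →
      z ∈ cl {e | ed β K ξ e.1 e.2 (η e.1)} {[]}) ∧
      v ∈ cl {e | ed β K ξ e.1 e.2 (η e.1)} {[]} := by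
  have h0 : [] ∈ cl {e | ed β K ξ e.1 e.2 (η e.1)} {[]} := subset_cl _ _ rfl
  have hz : ∀ {w z}, w ≠ [] → Isl β K ξ w z → z ≠ [] := fun {w z} hw hi hz => by
    have := hi.length_le
    rw [hz] at this
    exact hw (List.length_eq_zero_iff.1 (Nat.le_zero.1 this))
  induction t using Nat.strong_induction_on generalizing v with
  | _ t ih =>
  have key : InTree ξ v ∧ (∀ w, w <:+ v → w ≠ [] → ¬Bad β K (sh w ξ) → ∀ z, Isl β K ξ w z →
      z ∈ cl {e | ed β K ξ e.1 e.2 (η e.1)} {[]}) := by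
    rcases (occ_iff _ _ _ _).1 h with rfl | ⟨s, hs, u, hu, h1, -, i, hi, rfl⟩
    · refine ⟨InTree.walk (u := []) trivial _ _, fun w hw hw0 hb z hi => ?_⟩
      rcases suffix_walk hw with h2 | h2
      · exact (hw0 (List.suffix_nil.1 h2)).elim
      · exact cl_step h0 ⟨hz hw0 hi, Or.inr ⟨w, ⟨hb, hi⟩, Or.inl ⟨rfl, h2⟩⟩⟩
    · obtain ⟨h2, h3, h4⟩ := ih s hs h1
      refine ⟨h2.walk _ _, fun w hw hw0 hb z hi' => ?_⟩
      rcases suffix_walk hw with h5 | h5
      · exact h3 w h5 hw0 hb z hi'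
      · exact cl_step h4 ⟨hz hw0 hi', Or.inr ⟨w, ⟨hb, hi'⟩, Or.inr ⟨hu, i, hi, h5⟩⟩⟩
  refine ⟨key.1, key.2, ?_⟩
  obtain ⟨w, h1, h2, h3⟩ := exists_isl β K key.1
  by_cases hw : w = []
  · subst hw
    by_cases hv : v = []
    · rw [hv]; exact h0
    · exact cl_step h0 ⟨hv, Or.inl ⟨rfl, h3⟩⟩
  · exact key.2 w h1 hw (h2.resolve_left hw) v h3

lemma finite_of_visits (η : List ℕ → Site)
    (h : ∑' u, ind (u ∈ cl {e | ed β K ξ e.1 e.2 (η e.1)} {[]}) *
      ∑' k, ind (act u (fun y => walk ξ u y k = []) (η u)) ≠ ⊤) :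
    {t | Occ ξ η t []}.Finite := by
  simp_rw [← ENNReal.tsum_mul_left, ← ind_and] at h
  rw [← ENNReal.tsum_prod] at h
  refine ((ENNReal.finite_const_le_of_tsum_ne_top h one_ne_zero).image
    fun e => sInf {s | Occ ξ η s e.1} + e.2).subset fun t ht => ?_
  rcases (occ_iff _ _ _ _).1 ht with h1 | ⟨s, hs, u, hu, h1, h2, i, hi, h3⟩
  · refine ⟨([], t), (ind_pos ⟨subset_cl _ _ rfl, Or.inl ⟨rfl, h1⟩⟩).ge, ?_⟩
    have : sInf {s | Occ ξ η s []} = 0 :=
      Nat.le_zero.1 (Nat.sInf_le ((occ_iff _ _ _ _).2 (Or.inl rfl)))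
    simp only [this, zero_add]
  · refine ⟨(u, t - s), (ind_pos ⟨(occ_mem_cl β K η h1).2.2, Or.inr ⟨hu, i, hi, h3⟩⟩).ge, ?_⟩
    have : sInf {s | Occ ξ η s u} = s :=
      le_antisymm (Nat.sInf_le h1) (not_lt.1 fun hlt => h2 _ hlt (Nat.sInf_mem (s := {s | Occ ξ η s u}) ⟨s, h1⟩))
    simp only [this]
    omega

end

lemma quenched_transient {t K μ : ℝ≥0} {β : Tr → ℝ≥0} (h : IsRec t β) (ht : t ≤ 1)
    (hμ : μ * K ≤ 1 - t) {ξ : Tr} (hC : Cs β ξ ≠ 0) (hY : Yi β K ξ ≠ ⊤) :
    ∀ᵐ η ∂(frogs μ), {t | Occ ξ η t []}.Finite := by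
  have hv : ∀ u k, Measurable fun x => ind (act u (fun y => walk ξ u y k = []) x) := fun u k =>
    mind (measurable_act u ((measurable_walk ξ u k).eq_const _))
  set I0 : ℝ≥0∞ := ∑' z, ind (Isl β K ξ [] z) * (μ * FF β ξ z) with hI0
  have key := perc_bound (site μ) (measurable_ed β K ξ) []
    (vis := fun u x => ∑' k, ind (act u (fun y => walk ξ u y k = []) x))
    (fun u => Measurable.tsum (hv u)) (Φ := fun u => mu μ u * FF β ξ u + ind (u = []) * I0)
    fun u => by
      have hm : ∀ w, Measurable fun x => ind (act u (Enter ξ u w) x) := fun w =>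
        mind (measurable_act u (measurable_Enter ξ u w))
      have h1 : ∀ z, (∫⁻ x, ind (ed β K ξ u z x) ∂(site μ)) *
          (mu μ z * FF β ξ z + ind (z = []) * I0) ≤
          ind (u = []) * (ind (Isl β K ξ [] z) * (μ * FF β ξ z)) +
          ∑' w, mu μ u * ((∫⁻ x, ind (Enter ξ u w x) ∂nu) *
            (ind (¬Bad β K (sh w ξ)) * (ind (Isl β K ξ w z) * (μ * FF β ξ z)))) := fun z => by
        by_cases hz : z = []
        · simp [ed, hz]
        rw [ind_neg hz, zero_mul, add_zero, mu, if_neg hz]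
        calc _ ≤ (∫⁻ x, (ind (u = []) * ind (Isl β K ξ [] z) + ∑' w,
              ind (¬Bad β K (sh w ξ)) * ind (Isl β K ξ w z) * ind (act u (Enter ξ u w) x))
              ∂(site μ)) * (μ * FF β ξ z) := by
              gcongr ?_ * _
              refine lmono fun x => ?_
              simp_rw [← ind_and]
              exact (ind_mono fun h => h.2).trans ((ind_or_le _ _).trans
                (add_le_add le_rfl (ind_exists_le _)))
          _ ≤ _ := by
              rw [lintegral_add_left measurable_const, lintegral_const, measure_univ, mul_one,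
                lintegral_tsum fun w => ((hm w).const_mul _).aemeasurable, add_mul, mul_assoc,
                ← ENNReal.tsum_mul_right]
              refine add_le_add le_rfl (ENNReal.tsum_le_tsum fun w => ?_)
              rw [lintegral_const_mul _ (hm w)]
              calc _ ≤ ind (¬Bad β K (sh w ξ)) * ind (Isl β K ξ w z) *
                    (mu μ u * ∫⁻ x, ind (Enter ξ u w x) ∂nu) * (μ * FF β ξ z) := by
                    gcongr
                    exact lintegral_act_le μ u (measurable_Enter ξ u w)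
                _ = _ := by ring
      calc _ ≤ ∑' k, mu μ u * ∫⁻ x, ind (walk ξ u x k = []) ∂nu + (ind (u = []) * I0 +
            ∑' w, mu μ u * ((∫⁻ x, ind (Enter ξ u w x) ∂nu) * psi t β ξ w)) := by
            refine add_le_add ?_ ((ENNReal.tsum_le_tsum h1).trans ?_)
            · rw [lintegral_tsum fun k => (hv u k).aemeasurable]
              exact ENNReal.tsum_le_tsum fun k =>
                lintegral_act_le μ u ((measurable_walk ξ u k).eq_const _)
            · rw [ENNReal.tsum_add, ENNReal.tsum_mul_left, ENNReal.tsum_comm]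
              refine add_le_add le_rfl (ENNReal.tsum_le_tsum fun w => ?_)
              rw [ENNReal.tsum_mul_left, ENNReal.tsum_mul_left, ENNReal.tsum_mul_left]
              gcongr
              exact ind_mul_le_of fun hb => island_le_psi hμ hb
        _ ≤ _ := by
            rw [ENNReal.tsum_mul_left, ENNReal.tsum_mul_left, add_comm (ind _ * I0), ← add_assoc,
              ← mul_add]
            gcongr
            exact walk_cost_le h ht hC u
  have hfin : mu μ [] * FF β ξ [] + ind (([] : List ℕ) = []) * I0 ≠ ⊤ := by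
    refine ENNReal.add_ne_top.2 ⟨by simp [mu], ENNReal.mul_ne_top (ind_ne_top _) ?_⟩
    have h1 : ∀ z, ind (Isl β K ξ [] z) * (μ * FF β ξ z) = (μ * ((ξ [] : ℝ≥0) / Cs β ξ) : ℝ≥0) *
        (ind (Isl β K ξ [] z) * Fp (al β) ξ z) := fun z => by
      simp only [FF, ENNReal.coe_mul]; ring
    rw [hI0]
    simp_rw [h1]
    rw [ENNReal.tsum_mul_left]
    have h2 := island_sum (β := β) (K := K) ξ []
    rw [sh_nil] at h2
    exact ENNReal.mul_ne_top ENNReal.coe_ne_top (ne_top_of_le_ne_top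
      (ENNReal.mul_ne_top ENNReal.coe_ne_top hY) h2)
  have hm : Measurable fun η : List ℕ → Site =>
      ∑' u, ind (u ∈ cl {e | ed β K ξ e.1 e.2 (η e.1)} {[]}) *
        ∑' k, ind (act u (fun y => walk ξ u y k = []) (η u)) := by
    have hE : Measurable fun η : List ℕ → Site =>
        {e : List ℕ × List ℕ | ed β K ξ e.1 e.2 (η e.1)} := measurable_set_iff.2 fun e =>
      (measurable_ed β K ξ e.1 e.2).comp (measurable_pi_apply e.1)
    have hA := measurable_cl hE (measurable_const (a := ({[]} : Set (List ℕ))))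
    refine Measurable.tsum fun u => Measurable.fun_mul (mind (measurable_set_iff.1 hA u)) ?_
    exact Measurable.tsum fun k => (hv u k).comp (measurable_pi_apply u)
  filter_upwards [ae_lt_top hm (ne_top_of_le_ne_top hfin key)] with η hη
  exact finite_of_visits β K η hη.ne

lemma ae_sh (p : Measure ℕ) [IsProbabilityMeasure p] {Q : Tr → Prop} (h : ∀ᵐ ξ ∂(gw p), Q ξ) :
    ∀ᵐ ξ ∂(gw p), ∀ v, Q (sh v ξ) := by
  refine ae_all_iff.2 fun v => ?_
  have hmap : (gw p).map (sh v) = gw p :=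
    map_reindex p (f := fun w => w ++ v) (List.append_left_injective v)
  exact ae_of_ae_map (measurable_sh v).aemeasurable (by rwa [hmap])

theorem exists_transient (p : Measure ℕ) [IsProbabilityMeasure p]
    (hp : 1 < ∫⁻ k, (k : ℝ≥0∞) ∂p) : ∃ μ₁ : ℝ≥0, 0 < μ₁ ∧ ∀ μ ≤ μ₁, Transient p μ := by
  obtain ⟨t, ht0, ht1, β, hβ, hx, -⟩ := exists_isRec p hp
  obtain ⟨y, η, hc⟩ := hβ.exists_contr p hp ht0 hx
  obtain ⟨K, hK, hT⟩ := exists_tight p hβ ht0 hc
  refine ⟨(1 - t) / K, div_pos (tsub_pos_of_lt ht1) hK, fun μ hμ => ?_⟩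
  refine ae_law p μ (measurableSet_setOfPred.1 MeasurableSet.setOfPred_finite) ?_
  filter_upwards [ae_sh p hT, hβ.ae_Cs_ne_zero p ht0 hc] with ξ h1 h2 hi
  refine quenched_transient hβ ht1.le ((le_div_iff₀ hK).1 hμ) (h2 hi) ?_
  rw [Yi_eq]
  exact ENNReal.add_ne_top.2 ⟨ENNReal.one_ne_top, ENNReal.sum_ne_top.2 fun i _ => h1 [i]⟩

end Pool.Agent.Lib.MP_0cd4b8_pr
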