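import Pool.Agent.Lib.MP_0cd4b8_pr.Planted

/-! Weights of sets of vertices. -/

set_option autoImplicit false

open MeasureTheory ProbabilityTheory Measure
open scoped ENNReal NNReal

namespace Pool.Agent.Lib.MP_0cd4b8_pr

/-- The range of the planted walk. -/
def rng (ξ : Tr) (v : List ℕ) (x : ℕ → ℝ) : Set (List ℕ) :=
  {z | ∃ k, path (pstep ξ) (some v) x k = some z}

lemma self_mem_rng (ξ : Tr) (v : List ℕ) (x : ℕ → ℝ) : v ∈ rng ξ v x := ⟨0, rfl⟩

lemma measurable_rng_param (v : List ℕ) : Measurable fun z : Tr × (ℕ → ℝ) => rng z.1 v z.2 :=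
  measurable_set_iff.2 fun _ => Measurable.exists fun k => (measurable_ppath_param _ k).eq_const _

lemma measurable_rng (ξ : Tr) (v : List ℕ) : Measurable (rng ξ v) :=
  measurable_set_iff.2 fun _ => Measurable.exists fun k => (measurable_ppath ξ _ k).eq_const _

/-- Total absorption probability of a set of vertices. -/
noncomputable def WW (ξ : Tr) (A : Set (List ℕ)) : ℝ≥0∞ := ∑' u, ind (u ∈ A) * aw ξ (some u)

lemma WW_mono (ξ : Tr) {A B : Set (List ℕ)} (h : A ⊆ B) : WW ξ A ≤ WW ξ B :=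
  ENNReal.tsum_le_tsum fun _ => ind_mul_mono fun hu => ⟨h hu, le_rfl⟩

lemma measurable_WW_param : Measurable fun z : Tr × Set (List ℕ) => WW z.1 z.2 :=
  Measurable.tsum fun u => (mind ((measurable_set_mem u).comp measurable_snd)).fun_mul
    ((measurable_aw _).comp measurable_fst)

lemma measurable_WW (ξ : Tr) : Measurable (WW ξ) :=
  measurable_WW_param.comp (measurable_const.prodMk measurable_id)

lemma le_WW_of_mem (ξ : Tr) {A : Set (List ℕ)} {u : List ℕ} (h : u ∈ A) :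
    aw ξ (some u) ≤ WW ξ A := by
  refine le_trans ?_ (ENNReal.le_tsum u)
  rw [ind_pos h, one_mul]

/-- The part of `A` below the child `w`. -/
def pull (w : ℕ) (A : Set (List ℕ)) : Set (List ℕ) := {z | z ++ [w] ∈ A}

lemma measurable_pull (w : ℕ) : Measurable (pull w) :=
  measurable_set_iff.2 fun _ => measurable_set_mem _

lemma WW_ge (ξ : Tr) (A : Set (List ℕ)) (J : Finset ℕ) :
    hh ξ * (ind ([] ∈ A) + ∑ w ∈ J, WW (sh [w] ξ) (pull w A)) ≤ WW ξ A := by
  classical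
  have hinj : Function.Injective fun z : ℕ × List ℕ => z.2 ++ [z.1] := by
    rintro ⟨a, b⟩ ⟨c, d⟩ h
    simp only [List.append_singleton_inj] at h
    rw [h.1, h.2]
  rw [WW, ENNReal.tsum_eq_add_tsum_ite [], mul_add, coe_hh, mul_comm]
  refine add_le_add le_rfl (le_trans ?_ (ENNReal.tsum_comp_le_tsum_of_injective hinj _))
  rw [ENNReal.tsum_prod', Finset.mul_sum]
  refine le_trans (Finset.sum_le_sum fun w _ => le_of_eq ?_) (ENNReal.sum_le_tsum J)
  rw [WW, ← ENNReal.tsum_mul_left]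
  refine tsum_congr fun z => ?_
  rw [if_neg (by simp), aw_child]
  simp only [pull, Set.mem_ofPred_eq]
  ring

lemma Via.rng_subset {ξ : Tr} {w : ℕ} {v : List ℕ} {k : ℕ} {x : ℕ → ℝ}
    (h : Via ξ w (some v) k x) :
    rng (sh [w] ξ) [] (shift (k + 1) x) ⊆ pull w (rng ξ v x) := by
  rintro z ⟨j, hj⟩
  exact ⟨k + 1 + j, h.post j hj⟩

lemma inv_bb (ξ : Tr) : (bb ξ : ℝ≥0∞)⁻¹ = 1 + (CC ξ : ℝ≥0∞)⁻¹ := by
  rcases eq_or_ne (CC ξ) 0 with h | h
  · rw [bb_eq, h]; simp
  · have hb : bb ξ ≠ 0 := by rw [bb_eq]; exact mul_ne_zero h (hh_pos ξ).ne'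
    rw [← ENNReal.coe_inv h, ← ENNReal.coe_inv hb, bb_eq, hh_eq]
    norm_cast
    field_simp
    ring

lemma ray_bound (L : ℕ) (ξ : Tr) : ∫⁻ x, ind (¬Hit ξ (some []) x) *
    ind (2 * WW ξ (rng ξ [] x) < min (CC ξ : ℝ≥0∞)⁻¹ L) ∂nu = 0 := by
  induction L generalizing ξ with
  | zero => simp
  | succ L ih =>
    refine le_antisymm ((lintegral_esc_le ξ (φ := fun w x =>
      ind (2 * WW (sh [w] ξ) (rng (sh [w] ξ) [] x) < min (CC (sh [w] ξ) : ℝ≥0∞)⁻¹ L))
      (fun w => mind (Measurable.lt ?_ measurable_const)) ?_).trans ?_) zero_le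
    · exact ((measurable_WW _).comp (measurable_rng _ _)).const_mul _
    · intro w hw k x hv
      refine ind_mono fun hlt => ?_
      by_contra hge
      rw [not_lt] at hge
      refine absurd hlt (not_lt.2 ?_)
      have h1 := WW_ge ξ (rng ξ [] x) {w}
      rw [ind_pos (self_mem_rng _ _ _), Finset.sum_singleton] at h1
      have h2 := WW_mono (sh [w] ξ) hv.rng_subset
      have h3 : (CC ξ : ℝ≥0∞)⁻¹ ≤ 1 + (CC (sh [w] ξ) : ℝ≥0∞)⁻¹ := by
        rw [← inv_bb]
        exact ENNReal.inv_le_inv.2 (by exact_mod_cast bb_le_CC ξ hw)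
      set M := min (CC ξ : ℝ≥0∞)⁻¹ ((L + 1 : ℕ) : ℝ≥0∞) with hM
      have h4 : M ≤ 1 + min (CC (sh [w] ξ) : ℝ≥0∞)⁻¹ L := by
        rw [← min_add_add_left]
        refine min_le_min h3 (le_of_eq ?_)
        push_cast; ring
      have h5 : M * CC ξ ≤ 1 := by
        calc M * CC ξ ≤ (CC ξ : ℝ≥0∞)⁻¹ * CC ξ := by gcongr; exact min_le_left _ _
          _ ≤ 1 := ENNReal.inv_mul_le_one _
      have h6 : (hh ξ : ℝ≥0∞) * (1 + CC ξ) = 1 := by exact_mod_cast hh_mul ξ
      calc M = hh ξ * (M + M * CC ξ) := by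
            rw [← mul_one_add, mul_left_comm, h6, mul_one]
        _ ≤ hh ξ * ((1 + 2 * WW (sh [w] ξ) (pull w (rng ξ [] x))) + 1) := by
            gcongr
            refine h4.trans ?_
            gcongr
            refine hge.trans ?_
            gcongr
        _ = 2 * (hh ξ * (1 + WW (sh [w] ξ) (pull w (rng ξ [] x)))) := by ring
        _ ≤ _ := by gcongr
    · rw [Finset.sum_eq_zero fun w _ => ih _, mul_zero]

lemma ae_ray_bound (ξ : Tr) : ∀ᵐ x ∂nu, ¬Hit ξ (some []) x →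
    (CC ξ : ℝ≥0∞)⁻¹ ≤ 2 * WW ξ (rng ξ [] x) := by
  have h : ∀ L : ℕ, ∀ᵐ x ∂nu, ¬Hit ξ (some []) x →
      min (CC ξ : ℝ≥0∞)⁻¹ L ≤ 2 * WW ξ (rng ξ [] x) := by
    intro L
    have h1 := ray_bound L ξ
    have hm : Measurable fun x => ind (¬Hit ξ (some []) x) *
        ind (2 * WW ξ (rng ξ [] x) < min (CC ξ : ℝ≥0∞)⁻¹ L) :=
      (mind (measurable_Hit _ _).not).fun_mul (mind (Measurable.lt
        (((measurable_WW _).comp (measurable_rng _ _)).const_mul _) measurable_const))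
    rw [lintegral_eq_zero_iff hm] at h1
    filter_upwards [h1] with x hx hn
    simp only [Pi.zero_apply, ind_pos hn, one_mul, ind_eq_zero, not_lt] at hx
    exact hx
  filter_upwards [ae_all_iff.2 h] with x hx hn
  rcases eq_or_ne (2 * WW ξ (rng ξ [] x)) ⊤ with ht | ht
  · rw [ht]; exact le_top
  obtain ⟨n, hn'⟩ := ENNReal.exists_nat_gt ht
  have := hx n hn
  rcases min_le_iff.1 this with h | h
  · exact h
  · exact absurd hn' (not_lt.2 h)

/-- Products along a path, used as supersolutions. -/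
noncomputable def Fp (a : Tr → ℝ≥0) (ξ : Tr) : List ℕ → ℝ≥0
  | [] => 1
  | j :: u => Fp a ξ u * a (sh (j :: u) ξ)

lemma le_bb {β : Tr → ℝ≥0}
    (hβ : ∀ ξ, β ξ * (1 + ∑ i ∈ Finset.range (ξ []), β (sh [i] ξ)) ≤
      ∑ i ∈ Finset.range (ξ []), β (sh [i] ξ)) (ξ : Tr) : β ξ ≤ bb ξ := by
  have hβ1 : ∀ ξ, β ξ ≤ 1 := by
    intro ξ
    have h : (β ξ : ℝ) * (1 + (∑ i ∈ Finset.range (ξ []), β (sh [i] ξ) : ℝ≥0)) ≤
      (∑ i ∈ Finset.range (ξ []), β (sh [i] ξ) : ℝ≥0) := by exact_mod_cast hβ ξ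
    have h0 : (0 : ℝ) ≤ (∑ i ∈ Finset.range (ξ []), β (sh [i] ξ) : ℝ≥0) := NNReal.coe_nonneg _
    have : (β ξ : ℝ) ≤ 1 := by nlinarith
    exact_mod_cast this
  set F : Option (List ℕ) → ℝ≥0∞ := fun y => y.elim 0 fun u =>
    ((1 - β ξ) * Fp (fun t => 1 - β t) ξ u : ℝ≥0) with hF
  have h := lintegral_cost_le (measurable_pstep ξ) (fun y y' => ind (y ≠ none ∧ y' = none)) F
    ?_ (some [])
  · have h1 : aw ξ (some []) ≤ ∫⁻ u, ∑' k, ind (path (pstep ξ) (some []) u k ≠ none ∧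
        path (pstep ξ) (some []) u (k + 1) = none) ∂nu := by
      refine lintegral_mono fun u => le_trans (ind_mono fun hu => ?_) (ind_exists_le _)
      classical
      have h1 := Nat.find_spec hu
      cases hk : Nat.find hu with
      | zero => rw [hk] at h1; simp at h1
      | succ k => exact ⟨k, Nat.find_min hu (m := k) (by omega), hk ▸ h1⟩
    have h2 : hh ξ ≤ 1 - β ξ := by
      have := h1.trans h
      rw [← coe_hh] at this
      simp only [hF, Fp, Option.elim, mul_one] at this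
      exact_mod_cast this
    have h3 : (hh ξ : ℝ) ≤ 1 - β ξ := by
      rw [← NNReal.coe_one, ← NNReal.coe_sub (hβ1 ξ)]; exact_mod_cast h2
    have h4 : (hh ξ : ℝ) + bb ξ = 1 := by exact_mod_cast hh_add_bb ξ
    have : (β ξ : ℝ) ≤ bb ξ := by linarith
    exact_mod_cast this
  · intro y
    cases y with
    | none => simp [pstep, hF]
    | some u =>
      have hl := pstep_law ξ u fun y' => ind (some u ≠ none ∧ y' = none) + F y'
      refine (ENNReal.mul_le_mul_iff_right (a := (ξ u : ℝ≥0∞) + 1) (by simp) (by simp)).1 ?_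
      rw [hl]
      obtain ⟨P, hP1, hP2⟩ : ∃ P : ℝ≥0, ind (some u ≠ none ∧ par u = none) + F (par u) = P ∧
          P * (1 - β (sh u ξ)) = (1 - β ξ) * Fp (fun t => 1 - β t) ξ u := by
        cases u with
        | nil => exact ⟨1, by simp [par, hF], by simp [Fp]⟩
        | cons j u => exact ⟨_, by simp only [par, hF]; simp; rfl, by simp [Fp, mul_assoc]⟩
      rw [hP1]
      simp only [hF, Option.elim, reduceCtorEq, and_false, ind_false, zero_add, Fp]
      rw [← hP2]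
      have e : ∀ j, sh (j :: u) ξ = sh [j] (sh u ξ) := fun j => by rw [sh_sh]; rfl
      simp_rw [e, ← mul_assoc, ← hP2]
      norm_cast
      have h := hβ (sh u ξ)
      rw [sh_apply_nil] at h
      rw [← Finset.mul_sum]
      have hs : ∑ j ∈ Finset.range (ξ u), (1 - β (sh [j] (sh u ξ))) +
          ∑ j ∈ Finset.range (ξ u), β (sh [j] (sh u ξ)) = ξ u := by
        rw [← Finset.sum_add_distrib, Finset.sum_congr rfl fun j _ => tsub_add_cancel_of_le (hβ1 _)]
        simp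
      generalize ∑ j ∈ Finset.range (ξ u), (1 - β (sh [j] (sh u ξ))) = S at hs ⊢
      generalize ∑ j ∈ Finset.range (ξ u), β (sh [j] (sh u ξ)) = C at hs h
      have hs' : (S : ℝ) + C = ξ u := by exact_mod_cast hs
      have h' : (β (sh u ξ) : ℝ) * (1 + C) ≤ C := by exact_mod_cast h
      rw [← NNReal.coe_le_coe]
      push_cast [NNReal.coe_sub (hβ1 _)]
      rw [← hs']
      have hP0 : (0 : ℝ) ≤ P := P.2
      nlinarith [mul_nonneg hP0 (sub_nonneg.2 h')]

end Pool.Agent.Lib.MP_0cd4b8_pr
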